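import Pool.Agent.W_eea520_h25.Cusp

/-!
# Systems of parameters of square-integrable type (MP_eea520_nt)

`τ i` is a system of parameters for `GL_{k i}`, `i < r`; the example to have in mind: `τ i` are distinct
cuspidal automorphic representations of symplectic type.
-/

set_option autoImplicit false

namespace Pool.Agent.EEA520

open Filter

/-- The weights of `GL_{k_1} × … × GL_{k_r}`. -/
abbrev PWt {r : ℕ} (k : Fin r → ℕ) : Type := (i : Fin r) → Fin (k i) → ℤ

/-- The (virtual) characters of `GL_{k_1} × … × GL_{k_r}`: the finitely supported functions on the set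
of weights which are invariant under the permutations of the coordinates of every factor. -/
def IsProdSymmetric {r : ℕ} {k : Fin r → ℕ} (m : PWt k →₀ ℤ) : Prop :=
  ∀ (σ : (i : Fin r) → Equiv.Perm (Fin (k i))) (μ : PWt k), m (fun i => μ i ∘ σ i) = m μ

/-- The value of the weight `μ` at the parameters of the systems `τ i` at the prime `p`. -/
def prodEv {r : ℕ} {k : Fin r → ℕ} (τ : (i : Fin r) → GLSys (k i)) (p : Pr) (μ : PWt k) : ℂˣ :=
  ∏ i, ∏ l, τ i p l ^ μ i l

/-- The Euler product of `(τ_1, …, τ_r)` for the character `m` of `GL_{k_1} × … × GL_{k_r}` extends to a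
meromorphic function on `ℂ`. -/
def ProdContinues {r : ℕ} {k : Fin r → ℕ} (τ : (i : Fin r) → GLSys (k i)) (m : PWt k →₀ ℤ) :
    Prop :=
  ∃ (S : Finset Pr) (b : ℝ) (g : ℂ → ℂ), Meromorphic g ∧ ∀ s : ℂ, b < s.re →
    HasProd (fun p : {p : Pr // p ∉ S} =>
      m.prod fun μ e => (1 - (prodEv τ p.1 μ : ℂ) * (((p.1 : ℕ) : ℂ) ^ (-s))) ^ (-e)) (g s)

/-- The number `(∑_{(i, b) ∈ B} k_i b² + c (c + 1)) / 4`. -/
noncomputable def height {r : ℕ} (k : Fin r → ℕ) (B : Finset (Fin r × ℕ)) (c : ℕ) : ℝ :=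
  ((∑ y ∈ B, (k y.1 : ℝ) * (y.2 : ℝ) ^ 2) + (c : ℝ) * ((c : ℝ) + 1)) / 4

/-- `π` is (at almost all primes) the system for `GSp_{2n}` with the coordinates `x` equal to the
`τ_i p ^ (-(j + 1/2))`, `(i, b) ∈ B`, `j < b`, and the `p ^ (-(j + 1))`, `j < c`, and with
`c = p ^ height`. If the `τ_i` are distinct, cuspidal and of symplectic type, this is the system with
trivial central character of the Arthur parameter `⊞_{(i, b) ∈ B} τ_i [2b] ⊞ [2c+1]`. -/
def HasParameter {r : ℕ} {k : Fin r → ℕ} (τ : (i : Fin r) → GLSys (k i))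
    (B : Finset (Fin r × ℕ)) (c : ℕ) {n : ℕ} (π : GSys n) : Prop :=
  ∀ᶠ p in cofinite, (π p).c = ppow p (height k B c) ∧
    Finset.univ.val.map (π p).x =
      (∑ y ∈ B, ∑ j ∈ Finset.range y.2,
        Finset.univ.val.map fun l => τ y.1 p l * ppow p (-((j : ℂ) + 1 / 2))) +
      ∑ j ∈ Finset.range c, {ppow p (-((j : ℂ) + 1))}

end Pool.Agent.EEA520
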