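import Pool.Agent.W_eea520_h69.HAbsc
import Pool.Agent.W_eea520_h70.Defs

/-!
# Square-integrable parameters: definitions for the proof

`tt = [p ^ (-1/2)]`. All Euler products are those of elements of the ring `Dat`
(`W_eea520_h25/Core.lean`); `extD σ a` is the `a`-th exterior power of a system `σ` for `GL_k`.
-/

set_option autoImplicit false

namespace Pool.Agent.EEA520

open Filter Polynomial

/-- `t = [p ^ (-1/2)]`. -/
noncomputable def tt : Dat := tw (-(1 / 2 : ℂ))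

/-- The systems to which the proof applies: `|σ| ≤ p ^ θ` and determinant `1`, at all primes. -/
def NiceL {k : ℕ} (σ : GLSys k) (θ : ℝ) : Prop :=
  ∀ p : Pr, (∀ l, ‖(σ p l : ℂ)‖ ≤ ((p : ℕ) : ℝ) ^ θ) ∧ ∏ l, σ p l = 1

/-- The families of systems to which the proof applies. -/
structure Nice {r : ℕ} {k : Fin r → ℕ} (τ : (i : Fin r) → GLSys (k i)) (θ : ℝ) : Prop where
  nonneg : 0 ≤ θ
  lt : θ < 1 / 2
  nice : ∀ i, NiceL (τ i) θ

/-- The filtration by the degree: `FF τ d` is generated by the products of exterior powers of the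
`τ i` of total degree at most `d`. -/
noncomputable def FF {r : ℕ} {k : Fin r → ℕ} (τ : (i : Fin r) → GLSys (k i)) (d : ℕ) :
    AddSubgroup Dat :=
  AddSubgroup.closure {D | ∃ l : List (Fin r × ℕ), (l.map Prod.snd).sum ≤ d ∧
    D = (l.map fun y => extD (τ y.1) y.2).prod}

/-- Increasing multiplicative filtrations of a ring by additive subgroups. -/
structure IsFilt {R : Type} [CommRing R] (F : ℕ → AddSubgroup R) : Prop where
  mono : Monotone F
  one : (1 : R) ∈ F 0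
  mul : ∀ (a b : ℕ) (x y : R), x ∈ F a → y ∈ F b → x * y ∈ F (a + b)

/-- `Y = H + ∑_{w ≥ 1} G_w t ^ w` (a finite sum) with `H` of degree `≤ d` and `G_w` of
degree `≤ d + w`. -/
def Lead {R : Type} [CommRing R] (F : ℕ → AddSubgroup R) (t : R) (d : ℕ) (H Y : R) : Prop :=
  H ∈ F d ∧ ∃ (W : ℕ) (G : ℕ → R), (∀ w, G w ∈ F (d + w)) ∧
    Y = H + ∑ w ∈ Finset.Icc 1 W, G w * t ^ w

/-- The complete symmetric functions `h_n` in terms of the elementary symmetric functions `e_j`: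
`h_{n+1} = ∑_{j ≤ n} (-1) ^ j e_{j+1} h_{n-j}`. -/
noncomputable def hh {R : Type} [CommRing R] (e : ℕ → R) : ℕ → R
  | 0 => 1
  | n + 1 => ∑ j : Fin (n + 1), (-1) ^ (j : ℕ) * e ((j : ℕ) + 1) * hh e (n - (j : ℕ))
  termination_by n => n
  decreasing_by omega

theorem hh_zero {R : Type} [CommRing R] (e : ℕ → R) : hh e 0 = 1 := by rw [hh]

theorem hh_succ {R : Type} [CommRing R] (e : ℕ → R) (n : ℕ) :
    hh e (n + 1) = ∑ j ∈ Finset.range (n + 1), (-1) ^ j * e (j + 1) * hh e (n - j) := by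
  rw [hh, Finset.sum_range]

/-- `D_b = ∏_{j < b} ∑_{a ≤ k} e_a X ^ ((2j+1) a)`. -/
noncomputable def DP {R : Type} [CommRing R] (e : ℕ → R) (k b : ℕ) : R[X] :=
  ∏ j ∈ Finset.range b, ∑ a ∈ Finset.range (k + 1), C (e a) * X ^ ((2 * j + 1) * a)

/-- `D_b = ∏_{j < b} ∑_{a ≤ k} (Λ^a σ) t ^ ((2j+1) a)`. -/
noncomputable def DD {k : ℕ} (σ : GLSys k) (b : ℕ) : Dat :=
  ∏ j ∈ Finset.range b, ∑ a ∈ Finset.range (k + 1), extD σ a * tt ^ ((2 * j + 1) * a)

/-- `∏_{1 ≤ j ≤ c} (1 + q ^ j)`, `q = t ^ 2`. -/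
noncomputable def ZZ (c : ℕ) : Dat := ∏ j ∈ Finset.range c, (1 + tt ^ (2 * (j + 1)))

/-- The spin representation of the system with the parameter `(B, c)`, normalised such that its first
term is `1`. -/
noncomputable def NB {r : ℕ} {k : Fin r → ℕ} (τ : (i : Fin r) → GLSys (k i))
    (B : Finset (Fin r × ℕ)) (c : ℕ) : Dat := (∏ y ∈ B, DD (τ y.1) y.2) * ZZ c

/-- The character `m` of `GL_{k_1} × … × GL_{k_r}` at the systems `τ i`. -/
noncomputable def prodD {r : ℕ} {k : Fin r → ℕ} (τ : (i : Fin r) → GLSys (k i))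
    (m : PWt k →₀ ℤ) : Dat := fun p => m.sum fun μ e => e • el (prodEv τ p μ)

end Pool.Agent.EEA520
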