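import Pool.Agent.W_eea520_h70.Base

/-! Absolute convergence: an element of degree `d` extends to `re s > 2 + θ d`. -/

set_option autoImplicit false

namespace Pool.Agent.EEA520

open Filter Polynomial

private theorem Bound_pow_le {B : ℝ} {a : Pr → ℂˣ}
    (hB : ∀ p : Pr, ‖(a p : ℂ)‖ ≤ ((p : ℕ) : ℝ) ^ B)
    {s : ℂ} (hs : B + 2 < s.re) (p : Pr) :
    ‖(a p : ℂ) * ((p : ℕ) : ℂ) ^ (-s)‖ ≤ ((p : ℕ) : ℝ) ^ (-2 : ℝ) := by
  have hp2 : (2 : ℝ) ≤ ((p : ℕ) : ℝ) := by exact_mod_cast p.2.two_le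
  have hp0 : (0 : ℝ) < ((p : ℕ) : ℝ) := by linarith
  have h1 : ‖((p : ℕ) : ℂ) ^ (-s)‖ = ((p : ℕ) : ℝ) ^ (-s.re) := by
    have := Complex.norm_natCast_cpow_of_pos p.2.pos (-s)
    simpa using this
  calc ‖(a p : ℂ) * ((p : ℕ) : ℂ) ^ (-s)‖ = ‖(a p : ℂ)‖ * ((p : ℕ) : ℝ) ^ (-s.re) := by
        rw [norm_mul, h1]
    _ ≤ ((p : ℕ) : ℝ) ^ B * ((p : ℕ) : ℝ) ^ (-s.re) := by
        gcongr
        exact hB p
    _ = ((p : ℕ) : ℝ) ^ (B + -s.re) := by rw [Real.rpow_add hp0]
    _ ≤ ((p : ℕ) : ℝ) ^ (-2 : ℝ) := by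
        apply Real.rpow_le_rpow_of_exponent_le (by linarith)
        linarith

private theorem Bound_quarter (p : Pr) : ((p : ℕ) : ℝ) ^ (-2 : ℝ) ≤ 1 / 4 := by
  have hp2 : (2 : ℝ) ≤ ((p : ℕ) : ℝ) := by exact_mod_cast p.2.two_le
  have hp0 : (0 : ℝ) < ((p : ℕ) : ℝ) := by linarith
  have h : ((p : ℕ) : ℝ) ^ (-2 : ℝ) = (((p : ℕ) : ℝ) ^ 2)⁻¹ := by
    rw [Real.rpow_neg hp0.le]
    norm_num
  rw [h, one_div]
  apply inv_anti₀ (by norm_num)
  nlinarith

private theorem Bound_log_le {w : ℂ} (hw : ‖w‖ ≤ 1 / 4) : ‖-Complex.log (1 - w)‖ ≤ 2 * ‖w‖ := by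
  have h := Complex.norm_log_one_add_half_le_self (z := -w) (by rw [norm_neg]; linarith)
  rw [norm_neg, ← sub_eq_add_neg] at h
  rw [norm_neg]
  have := norm_nonneg w
  linarith

/-- The proof of `LL_nice` (`W_eea520_h25/LamB.lean`) shows that `LL` of this element is holomorphic
on `re s > B + 2` (its lemmas are private; copy them). -/
theorem contTo_el {a : Pr → ℂˣ} {B : ℝ} (h : ∀ p : Pr, ‖(a p : ℂ)‖ ≤ ((p : ℕ) : ℝ) ^ B) :
    ContTo (2 + B) (fun p => el (a p)) := by
  have hD : (fun p => el (a p) : Dat) ∈ BB := Subring.subset_closure ⟨a, ⟨B, h⟩, rfl⟩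
  have hsum : Summable fun p : Pr => 2 * ((p : ℕ) : ℝ) ^ (-2 : ℝ) := by
    apply Summable.mul_left
    exact Nat.Primes.summable_rpow.2 (by norm_num)
  have hle : ∀ (p : Pr) (s : ℂ), s ∈ {s : ℂ | B + 2 < s.re} →
      ‖Lam (((p : ℕ) : ℂ) ^ (-s)) (el (a p))‖ ≤ 2 * ((p : ℕ) : ℝ) ^ (-2 : ℝ) := by
    intro p s hs
    rw [Lam_el]
    have h1 := Bound_pow_le h hs p
    have h2 := Bound_quarter p
    exact (Bound_log_le (h1.trans h2)).trans (by linarith)
  have hopen : IsOpen {s : ℂ | B + 2 < s.re} := isOpen_lt continuous_const Complex.continuous_re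
  have hdiff : DifferentiableOn ℂ (LL fun p => el (a p)) {s : ℂ | B + 2 < s.re} := by
    refine Complex.differentiableOn_tsum_of_summable_norm hsum ?_ hopen hle
    intro p s hs
    have hp0 : (((p : ℕ) : ℂ)) ≠ 0 := Nat.cast_ne_zero.2 p.2.ne_zero
    have h1 : DifferentiableAt ℂ (fun s : ℂ => 1 - ((a p : ℂˣ) : ℂ) * ((p : ℕ) : ℂ) ^ (-s)) s := by
      apply DifferentiableAt.const_sub
      apply DifferentiableAt.const_mul
      exact (differentiableAt_id.neg).const_cpow (Or.inl hp0)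
    have h2 : 1 - ((a p : ℂˣ) : ℂ) * ((p : ℕ) : ℂ) ^ (-s) ∈ Complex.slitPlane := by
      have h1 := Bound_pow_le h hs p
      have h2 := Bound_quarter p
      rw [sub_eq_add_neg]
      apply Complex.mem_slitPlane_of_norm_lt_one
      rw [norm_neg]
      linarith
    have h3 : DifferentiableAt ℂ
        (fun s : ℂ => Lam (((p : ℕ) : ℂ) ^ (-s)) (el (a p))) s := by
      have h4 : (fun s : ℂ => Lam (((p : ℕ) : ℂ) ^ (-s)) (el (a p))) =
          fun s : ℂ => -Complex.log (1 - ((a p : ℂˣ) : ℂ) * ((p : ℕ) : ℂ) ^ (-s)) := by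
        funext s
        rw [Lam_el]
      rw [h4]
      exact (h1.clog h2).neg
    exact h3.differentiableWithinAt
  have hF : DifferentiableOn ℂ (EE fun p => el (a p)) {s : ℂ | B + 2 < s.re} :=
    fun s hs => (hdiff s hs).cexp
  have hset : {s : ℂ | 2 + B < s.re} = {s : ℂ | B + 2 < s.re} := by
    rw [add_comm]
  refine ⟨hD, 2 + B, EE fun p => el (a p), ?_, fun s _ => rfl⟩
  rw [hset]
  intro s hs
  exact (hF.analyticAt (hopen.mem_nhds hs)).meromorphicAt

/-- The additive group generated by the `[a p]` with `‖a p‖ ≤ p ^ B`. -/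
noncomputable def HB (B : ℝ) : AddSubgroup Dat :=
  AddSubgroup.closure {D | ∃ a : Pr → ℂˣ, (∀ p : Pr, ‖(a p : ℂ)‖ ≤ ((p : ℕ) : ℝ) ^ B) ∧
    D = fun p => el (a p)}

theorem HB_contTo {B : ℝ} {D : Dat} (hD : D ∈ HB B) : ContTo (2 + B) D := by
  unfold HB at hD
  induction hD using AddSubgroup.closure_induction with
  | mem x hx =>
    obtain ⟨a, ha, rfl⟩ := hx
    exact contTo_el ha
  | zero => exact ContTo.zero _
  | add x y _ _ hx hy => exact hx.add hy
  | neg x _ hx => exact hx.neg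

theorem HB_mul {B B' : ℝ} {D D' : Dat} (hD : D ∈ HB B) (hD' : D' ∈ HB B') :
    D * D' ∈ HB (B + B') := by
  unfold HB at hD
  induction hD using AddSubgroup.closure_induction with
  | mem x hx =>
    obtain ⟨a, ha, rfl⟩ := hx
    unfold HB at hD'
    induction hD' using AddSubgroup.closure_induction with
    | mem y hy =>
      obtain ⟨b, hb, rfl⟩ := hy
      refine AddSubgroup.subset_closure ⟨fun p => a p * b p, fun p => ?_, ?_⟩
      · have hp : (0 : ℝ) < ((p : ℕ) : ℝ) := Nat.cast_pos.2 p.2.pos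
        rw [Units.val_mul, norm_mul, Real.rpow_add hp]
        exact mul_le_mul (ha p) (hb p) (norm_nonneg _) (Real.rpow_nonneg hp.le _)
      · funext p
        simp only [Pi.mul_apply, el, map_mul]
    | zero =>
      rw [mul_zero]
      exact zero_mem _
    | add x y _ _ hx hy =>
      rw [mul_add]
      exact add_mem hx hy
    | neg x _ hx =>
      rw [mul_neg]
      exact neg_mem hx
  | zero =>
    rw [zero_mul]
    exact zero_mem _
  | add x y _ _ hx hy =>
    rw [add_mul]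
    exact add_mem hx hy
  | neg x _ hx =>
    rw [neg_mul]
    exact neg_mem hx

theorem HB_mono {B B' : ℝ} (h : B ≤ B') : HB B ≤ HB B' := by
  apply AddSubgroup.closure_mono
  rintro _ ⟨a, ha, rfl⟩
  refine ⟨a, fun p => (ha p).trans ?_, rfl⟩
  have hp1 : (1 : ℝ) ≤ ((p : ℕ) : ℝ) := by exact_mod_cast p.2.one_lt.le
  exact Real.rpow_le_rpow_of_exponent_le hp1 h

private theorem Bound_extD_eq_sum {k : ℕ} (σ : GLSys k) (j : ℕ) (p : Pr) :
    extD σ j p = ∑ I ∈ (Finset.univ : Finset (Fin k)).powersetCard j, el (∏ i ∈ I, σ p i) := by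
  unfold extD
  have h0 : (∏ i, (1 + C (el (σ p i)) * X : A[X])) =
      ∑ I ∈ (Finset.univ : Finset (Fin k)).powerset, ∏ i ∈ I, (C (el (σ p i)) * X : A[X]) :=
    Finset.prod_one_add (f := fun i => (C (el (σ p i)) * X : A[X])) Finset.univ
  rw [h0, finsetSum_coeff]
  have h1 : ∀ I : Finset (Fin k), (∏ i ∈ I, (C (el (σ p i)) * X : A[X])).coeff j =
      if I.card = j then el (∏ i ∈ I, σ p i) else 0 := by
    intro I
    rw [Finset.prod_mul_distrib, Finset.prod_const, ← map_prod, coeff_C_mul_X_pow]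
    by_cases h : I.card = j
    · rw [if_pos h, if_pos h.symm]
      unfold el
      rw [← map_prod]
    · rw [if_neg h, if_neg fun h' => h h'.symm]
  simp only [h1]
  rw [← Finset.sum_filter, Finset.powersetCard_eq_filter]

/-- `extD σ a p = ∑_{I, |I| = a} [∏_{l ∈ I} σ p l]` (see `SymA_coeff` in `W_eea520_h25/SymA.lean`). -/
theorem extD_mem_HB {k : ℕ} {σ : GLSys k} {θ : ℝ} (hσ : NiceL σ θ) (a : ℕ) :
    extD σ a ∈ HB (θ * a) := by
  have h1 : extD σ a = ∑ I ∈ (Finset.univ : Finset (Fin k)).powersetCard a,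
      (fun p => el (∏ i ∈ I, σ p i) : Dat) := by
    funext p
    rw [Bound_extD_eq_sum, Finset.sum_apply]
  rw [h1]
  refine sum_mem fun I hI => AddSubgroup.subset_closure ⟨fun p => ∏ i ∈ I, σ p i, fun p => ?_, rfl⟩
  have hp : (0 : ℝ) < ((p : ℕ) : ℝ) := Nat.cast_pos.2 p.2.pos
  have hc : I.card = a := (Finset.mem_powersetCard.1 hI).2
  rw [Units.coe_prod, norm_prod]
  calc ∏ i ∈ I, ‖(σ p i : ℂ)‖ ≤ ∏ _i ∈ I, ((p : ℕ) : ℝ) ^ θ :=
        Finset.prod_le_prod (fun _ _ => norm_nonneg _) fun i _ => (hσ p).1 i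
    _ = ((p : ℕ) : ℝ) ^ (θ * a) := by
        rw [Finset.prod_const, hc, Real.rpow_mul hp.le, Real.rpow_natCast]

variable {r : ℕ} {k : Fin r → ℕ} {τ : (i : Fin r) → GLSys (k i)}

theorem isFilt_FF (τ : (i : Fin r) → GLSys (k i)) : IsFilt (FF τ) := by
  refine ⟨?_, ?_, ?_⟩
  · intro a b hab
    apply AddSubgroup.closure_mono
    rintro _ ⟨l, hl, rfl⟩
    exact ⟨l, hl.trans hab, rfl⟩
  · exact AddSubgroup.subset_closure ⟨[], by simp, by simp⟩
  · intro a b x y hx hy
    unfold FF at hx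
    induction hx using AddSubgroup.closure_induction with
    | mem x hx =>
      obtain ⟨l, hl, rfl⟩ := hx
      unfold FF at hy
      induction hy using AddSubgroup.closure_induction with
      | mem y hy =>
        obtain ⟨l', hl', rfl⟩ := hy
        refine AddSubgroup.subset_closure ⟨l ++ l', ?_, ?_⟩
        · rw [List.map_append, List.sum_append]
          omega
        · rw [List.map_append, List.prod_append]
      | zero =>
        rw [mul_zero]
        exact zero_mem _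
      | add x y _ _ hx hy =>
        rw [mul_add]
        exact add_mem hx hy
      | neg x _ hx =>
        rw [mul_neg]
        exact neg_mem hx
    | zero =>
      rw [zero_mul]
      exact zero_mem _
    | add x y _ _ hx hy =>
      rw [add_mul]
      exact add_mem hx hy
    | neg x _ hx =>
      rw [neg_mul]
      exact neg_mem hx

theorem extD_mem_FF (τ : (i : Fin r) → GLSys (k i)) (i : Fin r) (j : ℕ) :
    extD (τ i) j ∈ FF τ j := by
  exact AddSubgroup.subset_closure ⟨[(i, j)], by simp, by simp⟩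

/-- The products of exterior powers of total degree `≤ d` are in `HB (θ d)`. -/
theorem FF_contTo {θ : ℝ} (hτ : Nice τ θ) {d : ℕ} {D : Dat} (hD : D ∈ FF τ d) :
    ContTo (2 + θ * d) D := by
  have h1 : (1 : Dat) ∈ HB 0 := by
    refine AddSubgroup.subset_closure ⟨fun _ => 1, fun p => ?_, ?_⟩
    · rw [Units.val_one, norm_one, Real.rpow_zero]
    · funext p
      simp only [Pi.one_apply, el, map_one]
  have h2 : ∀ l : List (Fin r × ℕ), (l.map fun y => extD (τ y.1) y.2).prod ∈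
      HB (θ * ((l.map Prod.snd).sum : ℕ)) := by
    intro l
    induction l with
    | nil => simpa using h1
    | cons y l ih =>
      simp only [List.map_cons, List.prod_cons, List.sum_cons, Nat.cast_add, mul_add]
      exact HB_mul (extD_mem_HB (hτ.nice y.1) y.2) ih
  refine HB_contTo ?_
  have h3 : FF τ d ≤ HB (θ * d) := by
    unfold FF
    rw [AddSubgroup.closure_le]
    rintro _ ⟨l, hl, rfl⟩
    refine HB_mono ?_ (h2 l)
    exact mul_le_mul_of_nonneg_left (by exact_mod_cast hl) hτ.nonneg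
  exact h3 hD

end Pool.Agent.EEA520
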