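import Pool.Agent.W_eea520_h70.Base

/-! Calculus of leading terms. -/

set_option autoImplicit false

namespace Pool.Agent.EEA520

open Finset

variable {R : Type} [CommRing R] {F : ℕ → AddSubgroup R} {t : R}

open Polynomial in
theorem Lead_of_poly {d : ℕ} {H Y : R} (P : R[X]) (h1 : ∀ w, P.coeff w ∈ F (d + w))
    (h2 : P.coeff 0 = H) (h3 : P.eval t = Y) : Lead F t d H Y := by
  refine ⟨h2 ▸ h1 0, P.natDegree, fun w => P.coeff w, h1, ?_⟩
  rw [← h3, ← h2, Polynomial.eval_eq_sum_range, Finset.sum_range_succ', pow_zero, mul_one, add_comm]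
  congr 1
  rw [← Finset.Ico_succ_right_eq_Icc, Finset.sum_Ico_eq_sum_range]
  refine Finset.sum_congr rfl fun i _ => ?_
  rw [add_comm 1 i]

open Polynomial in
theorem Lead_poly {d : ℕ} {H Y : R} (h : Lead F t d H Y) : ∃ P : R[X],
    (∀ w, P.coeff w ∈ F (d + w)) ∧ P.coeff 0 = H ∧ P.eval t = Y := by
  obtain ⟨hH, W, G, hG, rfl⟩ := h
  have hc : ∀ n, (C H + ∑ w ∈ Finset.Icc 1 W, C (G w) * X ^ w : R[X]).coeff n =
      (if n = 0 then H else 0) + if n ∈ Finset.Icc 1 W then G n else 0 := by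
    intro n
    rw [Polynomial.coeff_add, Polynomial.coeff_C, Polynomial.finsetSum_coeff]
    congr 1
    simp only [Polynomial.coeff_C_mul, Polynomial.coeff_X_pow, mul_ite, mul_one, mul_zero]
    rw [Finset.sum_ite_eq]
  refine ⟨C H + ∑ w ∈ Finset.Icc 1 W, C (G w) * X ^ w, ?_, ?_, ?_⟩
  · intro w
    rw [hc]
    refine AddSubgroup.add_mem _ ?_ ?_
    · split_ifs with h1
      · rw [h1]
        exact hH
      · exact AddSubgroup.zero_mem _
    · split_ifs with h1
      · exact hG w
      · exact AddSubgroup.zero_mem _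
  · rw [hc, if_pos rfl, if_neg (by simp), add_zero]
  · simp [Polynomial.eval_finsetSum]

theorem Lead.one (hF : IsFilt F) : Lead F t 0 1 1 := by
  refine Lead_of_poly 1 (fun w => ?_) Polynomial.coeff_one_zero Polynomial.eval_one
  rw [Polynomial.coeff_one]
  split_ifs with h1
  · exact hF.mono (Nat.zero_le _) hF.one
  · exact AddSubgroup.zero_mem _

theorem Lead.mono (hF : IsFilt F) {d d' : ℕ} (h : d ≤ d') {H Y : R} (hY : Lead F t d H Y) :
    Lead F t d' H Y := by
  obtain ⟨P, h1, h2, h3⟩ := Lead_poly hY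
  exact Lead_of_poly P (fun w => hF.mono (Nat.add_le_add_right h w) (h1 w)) h2 h3

/-- Take `W'' = max W W'` and replace `G` by zero above `W`. -/
theorem Lead.add {d : ℕ} {H H' Y Y' : R} (h : Lead F t d H Y) (h' : Lead F t d H' Y') :
    Lead F t d (H + H') (Y + Y') := by
  obtain ⟨P, h1, h2, h3⟩ := Lead_poly h
  obtain ⟨P', h1', h2', h3'⟩ := Lead_poly h'
  refine Lead_of_poly (P + P') (fun w => ?_) ?_ ?_
  · rw [Polynomial.coeff_add]
    exact AddSubgroup.add_mem _ (h1 w) (h1' w)
  · rw [Polynomial.coeff_add, h2, h2']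
  · rw [Polynomial.eval_add, h3, h3']

theorem Lead.neg {d : ℕ} {H Y : R} (h : Lead F t d H Y) : Lead F t d (-H) (-Y) := by
  obtain ⟨P, h1, h2, h3⟩ := Lead_poly h
  refine Lead_of_poly (-P) (fun w => ?_) ?_ ?_
  · rw [Polynomial.coeff_neg]
    exact AddSubgroup.neg_mem _ (h1 w)
  · rw [Polynomial.coeff_neg, h2]
  · rw [Polynomial.eval_neg, h3]

theorem Lead.zero (d : ℕ) : Lead F t d 0 0 := by
  refine Lead_of_poly 0 (fun w => ?_) (Polynomial.coeff_zero 0) Polynomial.eval_zero
  rw [Polynomial.coeff_zero]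
  exact AddSubgroup.zero_mem _

/-- `(H + ∑ G_w t ^ w) (H' + ∑ G'_v t ^ v)`: the terms `H G'_v t ^ v`, `G_w H' t ^ w` and
`G_w G'_v t ^ (w + v)` have the right degrees. (With `G_0 = H`, `G'_0 = H'` both factors are polynomials
in `t`; for example as values of polynomials at `t`: `Y = P.eval t` with `P.coeff w ∈ F (d + w)` and
`P.coeff 0 = H`.) -/
theorem Lead.mul (hF : IsFilt F) {d d' : ℕ} {H H' Y Y' : R} (h : Lead F t d H Y)
    (h' : Lead F t d' H' Y') : Lead F t (d + d') (H * H') (Y * Y') := by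
  obtain ⟨P, h1, h2, h3⟩ := Lead_poly h
  obtain ⟨P', h1', h2', h3'⟩ := Lead_poly h'
  refine Lead_of_poly (P * P') (fun w => ?_) ?_ ?_
  · rw [Polynomial.coeff_mul]
    refine AddSubgroup.sum_mem _ fun x hx => ?_
    have h4 := hF.mul _ _ _ _ (h1 x.1) (h1' x.2)
    have hx' := Finset.HasAntidiagonal.mem_antidiagonal.1 hx
    have h5 : d + x.1 + (d' + x.2) = d + d' + w := by omega
    rwa [h5] at h4
  · rw [Polynomial.mul_coeff_zero, h2, h2']
  · rw [Polynomial.eval_mul, h3, h3']

theorem Lead.prod (hF : IsFilt F) {ι : Type} (s : Finset ι) (d : ι → ℕ) (H Y : ι → R)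
    (h : ∀ i ∈ s, Lead F t (d i) (H i) (Y i)) :
    Lead F t (∑ i ∈ s, d i) (∏ i ∈ s, H i) (∏ i ∈ s, Y i) := by
  classical
  induction s using Finset.induction_on with
  | empty =>
    rw [Finset.sum_empty, Finset.prod_empty, Finset.prod_empty]
    exact Lead.one hF
  | insert a s ha ih =>
    rw [Finset.sum_insert ha, Finset.prod_insert ha, Finset.prod_insert ha]
    exact (h a (Finset.mem_insert_self a s)).mul hF
      (ih fun i hi => h i (Finset.mem_insert_of_mem hi))

/-- `1 + t ^ n`, `n ≥ 1`. -/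
theorem Lead.one_add_pow (hF : IsFilt F) {n : ℕ} (hn : 0 < n) : Lead F t 0 1 (1 + t ^ n) := by
  have h1F : ∀ w, (1 : R) ∈ F (0 + w) := fun w => hF.mono (Nat.zero_le _) hF.one
  refine Lead_of_poly (1 + Polynomial.X ^ n) (fun w => ?_) ?_ ?_
  · rw [Polynomial.coeff_add, Polynomial.coeff_one, Polynomial.coeff_X_pow]
    refine AddSubgroup.add_mem _ ?_ ?_
    · split_ifs
      · exact h1F w
      · exact AddSubgroup.zero_mem _
    · split_ifs
      · exact h1F w
      · exact AddSubgroup.zero_mem _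
  · rw [Polynomial.coeff_add, Polynomial.coeff_one_zero, Polynomial.coeff_X_pow,
      if_neg (by omega), add_zero]
  · simp

/-- The product of the `1 + t ^ (2 (j+1))`, by `Lead.prod` and `Lead.one_add_pow`. -/
theorem lead_ZZ {F : ℕ → AddSubgroup Dat} (hF : IsFilt F) (c : ℕ) : Lead F tt 0 1 (ZZ c) := by
  have h := Lead.prod (t := tt) hF (Finset.range c) (fun _ => 0) (fun _ => 1)
    (fun j => 1 + tt ^ (2 * (j + 1))) (fun j _ => Lead.one_add_pow hF (by omega))
  rw [Finset.sum_const_zero, Finset.prod_const_one] at h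
  exact h

/-- The complete symmetric functions have the right degree (strong induction, `hh_succ`). -/
theorem hh_mem (hF : IsFilt F) (e : ℕ → R) (he : ∀ j, e j ∈ F j) (m : ℕ) : hh e m ∈ F m := by
  induction m using Nat.strong_induction_on with
  | _ m ih =>
    rcases m with _ | n
    · rw [hh_zero]
      exact hF.one
    · rw [hh_succ]
      refine AddSubgroup.sum_mem _ fun j hj => ?_
      rw [Finset.mem_range] at hj
      have h1 := hF.mul _ _ _ _ (he (j + 1)) (ih (n - j) (by omega))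
      have h2 : j + 1 + (n - j) = n + 1 := by omega
      rw [h2] at h1
      rcases neg_one_pow_eq_or R j with h3 | h3
      · rw [h3, one_mul]
        exact h1
      · rw [h3, neg_one_mul, neg_mul]
        exact AddSubgroup.neg_mem _ h1

end Pool.Agent.EEA520
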