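import Pool.Agent.W_eea520_h70.Bound
import Pool.Agent.W_eea520_h70.Lead

/-! The contraction argument. -/

set_option autoImplicit false

namespace Pool.Agent.EEA520

open Filter

theorem tt_pow (n : ℕ) : tt ^ n = tw (-(n / 2 : ℂ)) := by
  unfold tt
  rw [tw_pow]
  congr 1
  ring

/-- Multiplication by `t ^ n` moves the half plane by `n / 2` to the left (`ContTo.tw`). -/
theorem ContTo.mul_tt_pow {c : ℝ} {D : Dat} (h : ContTo c D) (n : ℕ) :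
    ContTo (c - n / 2) (D * tt ^ n) := by
  rw [tt_pow, mul_comm]
  refine h.tw' ?_
  have h1 : (-(n / 2 : ℂ)).re = -(n / 2 : ℝ) := by
    have h2 : (-(n / 2 : ℂ)) = ((-(n / 2 : ℝ) : ℝ) : ℂ) := by push_cast; ring
    rw [h2, Complex.ofReal_re]
  rw [h1]
  ring

private theorem Contract_step {r : ℕ} {k : Fin r → ℕ} {τ : (i : Fin r) → GLSys (k i)} {θ : ℝ}
    (hτ : Nice τ θ)
    (H : ∀ (d : ℕ) (D : Dat), D ∈ FF τ d → ∀ R₀ : ℝ, ∃ Y, Lead (FF τ) tt d D Y ∧ ContTo R₀ Y)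
    (n : ℕ) : ∀ (d : ℕ) (D : Dat), D ∈ FF τ d → ContTo (2 + θ * d - n * (1 / 2 - θ)) D := by
  induction n with
  | zero =>
    intro d D hD
    have h := FF_contTo hτ hD
    simpa using h
  | succ n ih =>
    intro d D hD
    obtain ⟨Y, ⟨-, W, G, hG, hY⟩, hc⟩ := H d D hD (2 + θ * d - ((n + 1 : ℕ) : ℝ) * (1 / 2 - θ))
    have h1 : D = Y - ∑ w ∈ Finset.Icc 1 W, G w * tt ^ w := by
      rw [hY, add_sub_cancel_right]
    rw [h1]
    refine hc.sub (ContTo.sum _ _ fun w hw => ?_)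
    have h2 := (ih (d + w) (G w) (hG w)).mul_tt_pow w
    refine h2.mono ?_
    have hw1 : 1 ≤ w := (Finset.mem_Icc.mp hw).1
    have hw2 : (1 : ℝ) ≤ w := by exact_mod_cast hw1
    have hlt := hτ.lt
    push_cast
    nlinarith

/-- Proof. Let `ε = 1/2 - θ > 0`. Claim: for all `n`, all `d` and all `D ∈ FF τ d`,
`ContTo (2 + θ d - n ε) D`. For `n = 0` this is `FF_contTo`. Step: given `D ∈ FF τ d`, take `Y` with
`R₀ = 2 + θ d - (n+1) ε` and `Y = D + ∑_w G_w t ^ w`. Then `D = Y - ∑_w G_w t ^ w`, and `G_w t ^ w`, `w ≥ 1`,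
`G_w ∈ FF τ (d+w)`, extends to `re s > 2 + θ (d + w) - n ε - w / 2 = 2 + θ d - n ε - w ε`, hence to
`re s > 2 + θ d - (n + 1) ε` (`ContTo.mul_tt_pow`, `ContTo.mono`, `ContTo.sum`, `ContTo.sub`).
So `ab D = ⊥`; use `cont_iff_ab` and `ab_le_of`. -/
theorem contract {r : ℕ} {k : Fin r → ℕ} {τ : (i : Fin r) → GLSys (k i)} {θ : ℝ} (hτ : Nice τ θ)
    (H : ∀ (d : ℕ) (D : Dat), D ∈ FF τ d → ∀ R₀ : ℝ, ∃ Y, Lead (FF τ) tt d D Y ∧ ContTo R₀ Y) :
    ∀ (d : ℕ) (D : Dat), D ∈ FF τ d → Cont D := by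
  intro d D hD
  have hmem : D ∈ BB := (FF_contTo hτ hD).mem
  rw [cont_iff_ab hmem, EReal.eq_bot_iff_forall_lt]
  intro y
  have hε : 0 < 1 / 2 - θ := by linarith [hτ.lt]
  obtain ⟨n, hn⟩ := exists_nat_gt ((2 + θ * d - y) / (1 / 2 - θ))
  have h1 : 2 + θ * d - n * (1 / 2 - θ) < y := by
    rw [div_lt_iff₀ hε] at hn
    linarith
  exact lt_of_le_of_lt (ab_le_of (Contract_step hτ H n d D hD)) (EReal.coe_lt_coe_iff.2 h1)

end Pool.Agent.EEA520
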