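import Pool.Agent.W_eea520_h70.Base
import Pool.Agent.W_eea520_h25.Spin

/-! The spin representation of a system with a given parameter. -/

set_option autoImplicit false

namespace Pool.Agent.EEA520

open Filter Finset

theorem ConvA_ttpow (m : ℕ) (z : ℂ) (h : (m : ℂ) * (-(1 / 2)) = z) (p : Pr) :
    (tt p) ^ m = el (ppow p z) := by
  have h1 : (tt ^ m) p = el (ppow p z) := by
    rw [tt, tw_pow, h]
    rfl
  rw [← h1]
  rfl

theorem ConvA_ext {k : ℕ} (σ : GLSys k) (p : Pr) (y : A) :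
    ∑ a ∈ range (k + 1), extD σ a p * y ^ a = ∏ l, (1 + el (σ p l) * y) := by
  have hd : (∏ i, (1 + Polynomial.C (el (σ p i)) * Polynomial.X :
      Polynomial A)).natDegree < k + 1 := by
    refine Nat.lt_succ_of_le ((Polynomial.natDegree_prod_le _ _).trans ?_)
    have h1 : ∀ i ∈ (Finset.univ : Finset (Fin k)),
        (1 + Polynomial.C (el (σ p i)) * Polynomial.X : Polynomial A).natDegree ≤ 1 := by
      intro i _
      refine (Polynomial.natDegree_add_le _ _).trans ?_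
      rw [Polynomial.natDegree_one]
      exact max_le (Nat.zero_le _)
        ((Polynomial.natDegree_C_mul_le _ _).trans Polynomial.natDegree_X_le)
    refine (Finset.sum_le_sum h1).trans ?_
    simp
  have h2 : (∏ i, (1 + Polynomial.C (el (σ p i)) * Polynomial.X : Polynomial A)).eval y =
      ∏ i, (1 + el (σ p i) * y) := by
    rw [Polynomial.eval_prod]
    simp
  rw [← h2, Polynomial.eval_eq_sum_range' hd]
  rfl

theorem ConvA_el_mul (u v : ℂˣ) : el (u * v) = el u * el v := by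
  simp only [el, map_mul]

theorem ConvA_prod_sum {ι : Type*} (s : Finset ι) (g : ι → Multiset ℂˣ) (f : ℂˣ → A) :
    ((∑ i ∈ s, g i).map f).prod = ∏ i ∈ s, ((g i).map f).prod := by
  classical
  induction s using Finset.induction_on with
  | empty => simp
  | insert b s hb ih =>
    rw [Finset.sum_insert hb, Finset.prod_insert hb, Multiset.map_add, Multiset.prod_add, ih]

theorem ConvA_enum (M : Multiset ℂˣ) (n : ℕ) (h : M.card = n) :
    ∃ x : Fin n → ℂˣ, Finset.univ.val.map x = M := by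
  induction M using Quotient.inductionOn with
  | h l =>
    have hl : l.length = n := h
    subst hl
    refine ⟨l.get, ?_⟩
    rw [Fin.univ_val_map, List.ofFn_get]
    rfl

theorem ConvA_norm_ppow (p : Pr) (z : ℂ) : ‖(ppow p z : ℂ)‖ = ((p : ℕ) : ℝ) ^ z.re := by
  have h : ((ppow p z : ℂˣ) : ℂ) = ((p : ℕ) : ℂ) ^ z := rfl
  rw [h, Complex.norm_natCast_cpow_of_pos p.2.pos]

theorem ConvA_norm_ppow_inv (p : Pr) (z : ℂ) :
    ‖(((ppow p z)⁻¹ : ℂˣ) : ℂ)‖ = ((p : ℕ) : ℝ) ^ (-z.re) := by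
  rw [Units.val_inv_eq_inv_val, norm_inv, ConvA_norm_ppow, Real.rpow_neg (Nat.cast_nonneg _)]

theorem ConvA_inv {k : ℕ} {σ : GLSys k} {θ : ℝ} (hθ : 0 ≤ θ) (h : NiceL σ θ) (p : Pr)
    (l : Fin k) : ‖(((σ p l)⁻¹ : ℂˣ) : ℂ)‖ ≤ ((p : ℕ) : ℝ) ^ (θ * k) := by
  classical
  have hp0 : (0 : ℝ) ≤ ((p : ℕ) : ℝ) := Nat.cast_nonneg _
  have hp1 : (1 : ℝ) ≤ ((p : ℕ) : ℝ) := by exact_mod_cast p.2.one_le
  have h1 : (σ p l)⁻¹ = ∏ l' ∈ Finset.univ.erase l, σ p l' := by
    rw [inv_eq_iff_mul_eq_one, Finset.mul_prod_erase _ _ (Finset.mem_univ l)]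
    exact (h p).2
  rw [h1, Units.coe_prod, norm_prod]
  calc ∏ l' ∈ Finset.univ.erase l, ‖(σ p l' : ℂ)‖ ≤
      ∏ _l' ∈ Finset.univ.erase l, ((p : ℕ) : ℝ) ^ θ :=
        Finset.prod_le_prod (fun _ _ => norm_nonneg _) fun l' _ => (h p).1 l'
    _ = (((p : ℕ) : ℝ) ^ θ) ^ (Finset.univ.erase l).card := by rw [Finset.prod_const]
    _ ≤ (((p : ℕ) : ℝ) ^ θ) ^ k := by
        refine pow_le_pow_right₀ (Real.one_le_rpow hp1 hθ) ?_
        refine (Finset.card_le_univ _).trans ?_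
        rw [Fintype.card_fin]
    _ = ((p : ℕ) : ℝ) ^ (θ * k) := by
        rw [← Real.rpow_natCast, ← Real.rpow_mul hp0]

/-- `∑_{a ≤ k} (Λ^a σ) u ^ a = ∏_l (1 + [σ_l] u)`: evaluate the polynomial `∏ (1 + C [σ_l] X)` of
degree `≤ k` at `u = t ^ (2j+1)` (as in `spin_ind`, `W_eea520_h25/Spin.lean`), and
`[σ_l] t ^ (2j+1) = [σ_l p ^ (-(j + 1/2))]`. -/
theorem DD_apply {k : ℕ} (σ : GLSys k) (b : ℕ) (p : Pr) :
    DD σ b p = ∏ j ∈ range b, ∏ l, (1 + el (σ p l * ppow p (-((j : ℂ) + 1 / 2)))) := by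
  unfold DD
  rw [Finset.prod_apply]
  refine Finset.prod_congr rfl fun j _ => ?_
  rw [Finset.sum_apply]
  have h1 : ∀ a, (extD σ a * tt ^ ((2 * j + 1) * a)) p =
      extD σ a p * (el (ppow p (-((j : ℂ) + 1 / 2)))) ^ a := by
    intro a
    rw [← ConvA_ttpow (2 * j + 1) (-((j : ℂ) + 1 / 2)) (by push_cast; ring) p, ← pow_mul]
    rfl
  simp only [h1]
  rw [ConvA_ext]
  refine Finset.prod_congr rfl fun l _ => ?_
  rw [ConvA_el_mul]

theorem ZZ_apply (c : ℕ) (p : Pr) :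
    ZZ c p = ∏ j ∈ range c, (1 + el (ppow p (-((j : ℂ) + 1)))) := by
  unfold ZZ
  rw [Finset.prod_apply]
  refine Finset.prod_congr rfl fun j _ => ?_
  rw [← ConvA_ttpow (2 * (j + 1)) (-((j : ℂ) + 1)) (by push_cast; ring) p]
  rfl

/-- `spinD π p = [c] ∏_i (1 + [x_i])` depends only on the multiset of the `x_i`
(`Finset.prod` over `univ` is the product of the multiset `univ.val.map`). -/
theorem spinD_param {r : ℕ} {k : Fin r → ℕ} {τ : (i : Fin r) → GLSys (k i)}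
    {B : Finset (Fin r × ℕ)} {c n : ℕ} {π : GSys n} (h : HasParameter τ B c π) :
    ∀ᶠ p in cofinite, spinD π p = (tw (height k B c) * NB τ B c) p := by
  filter_upwards [h] with p hp
  obtain ⟨h1, h2⟩ := hp
  have h3 : ∏ i, (1 + el ((π p).x i)) =
      ((Finset.univ.val.map (π p).x).map fun u => 1 + el u).prod := by
    rw [Multiset.map_map]
    rfl
  have h4 : ∏ i, (1 + el ((π p).x i)) = (∏ y ∈ B, DD (τ y.1) y.2 p) * ZZ c p := by
    rw [h3, h2, Multiset.map_add, Multiset.prod_add, ConvA_prod_sum, ConvA_prod_sum, ZZ_apply]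
    congr 1
    · refine Finset.prod_congr rfl fun y _ => ?_
      rw [ConvA_prod_sum, DD_apply]
      refine Finset.prod_congr rfl fun j _ => ?_
      rw [Multiset.map_map]
      rfl
    · refine Finset.prod_congr rfl fun j _ => ?_
      rw [Multiset.map_singleton, Multiset.prod_singleton]
  unfold spinD
  rw [h4, h1]
  unfold NB
  rw [Pi.mul_apply, Pi.mul_apply, Finset.prod_apply]
  rfl

/-- Take `n` to be the cardinality of the multiset (it does not depend on `p`), and enumerate it for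
every `p` (`Multiset.toList`, `Quotient.out`, or an explicit enumeration by `Fin n`). -/
theorem exists_param {r : ℕ} {k : Fin r → ℕ} (τ : (i : Fin r) → GLSys (k i))
    (B : Finset (Fin r × ℕ)) (c : ℕ) : ∃ (n : ℕ) (π : GSys n), HasParameter τ B c π := by
  have h1 : ∀ p : Pr, ∃ x : Fin (∑ y ∈ B, ∑ _j ∈ range y.2, k y.1 + ∑ _j ∈ range c, 1) → ℂˣ,
      Finset.univ.val.map x = (∑ y ∈ B, ∑ j ∈ Finset.range y.2,
        Finset.univ.val.map fun l => τ y.1 p l * ppow p (-((j : ℂ) + 1 / 2))) +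
      ∑ j ∈ Finset.range c, {ppow p (-((j : ℂ) + 1))} := by
    intro p
    refine ConvA_enum _ _ ?_
    rw [Multiset.card_add, Multiset.card_sum, Multiset.card_sum]
    congr 1
    · refine Finset.sum_congr rfl fun y _ => ?_
      rw [Multiset.card_sum]
      refine Finset.sum_congr rfl fun j _ => ?_
      rw [Multiset.card_map]
      simp
  choose x hx using h1
  exact ⟨_, fun p => ⟨ppow p (height k B c), x p⟩, Eventually.of_forall fun p => ⟨rfl, hx p⟩⟩

/-- `|τ| ≤ p ^ θ` and `∏ τ = 1` imply `|τ⁻¹| ≤ p ^ (θ (k-1))`; every `x_i` is one of the elements of the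
multiset. -/
theorem bdd_param {r : ℕ} {k : Fin r → ℕ} {τ : (i : Fin r) → GLSys (k i)} {θ : ℝ}
    (hτ : Nice τ θ) {B : Finset (Fin r × ℕ)} {c n : ℕ} {π : GSys n} (h : HasParameter τ B c π) :
    Bdd π := by
  have hθ := hτ.nonneg
  have hθ2 := hτ.lt
  have hS0 : ∀ y ∈ B, (0 : ℝ) ≤ (k y.1 : ℝ) + y.2 + 1 := fun y _ => by positivity
  have hS : ∀ y ∈ B, (k y.1 : ℝ) + y.2 + 1 ≤ ∑ y ∈ B, ((k y.1 : ℝ) + y.2 + 1) := fun y hy =>
    Finset.single_le_sum (f := fun y : Fin r × ℕ => (k y.1 : ℝ) + y.2 + 1) hS0 hy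
  have hS1 : (0 : ℝ) ≤ ∑ y ∈ B, ((k y.1 : ℝ) + y.2 + 1) := Finset.sum_nonneg hS0
  have hH := abs_nonneg (height k B c)
  have hH1 := le_abs_self (height k B c)
  have hH2 := neg_abs_le (height k B c)
  have hc0 : (0 : ℝ) ≤ c := Nat.cast_nonneg _
  refine ⟨|height k B c| + (∑ y ∈ B, ((k y.1 : ℝ) + y.2 + 1)) + c + 1, ?_⟩
  filter_upwards [h] with p hp
  obtain ⟨h1, h2⟩ := hp
  have hp1 : (1 : ℝ) ≤ ((p : ℕ) : ℝ) := by exact_mod_cast p.2.one_le
  have hp0 : (0 : ℝ) < ((p : ℕ) : ℝ) := by linarith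
  have hle : ∀ e : ℝ, e ≤ |height k B c| + (∑ y ∈ B, ((k y.1 : ℝ) + y.2 + 1)) + c + 1 →
      ((p : ℕ) : ℝ) ^ e ≤
        ((p : ℕ) : ℝ) ^ (|height k B c| + (∑ y ∈ B, ((k y.1 : ℝ) + y.2 + 1)) + c + 1) :=
    fun e he => Real.rpow_le_rpow_of_exponent_le hp1 he
  refine ⟨⟨?_, ?_⟩, fun i => ?_⟩
  · rw [h1, ConvA_norm_ppow]
    refine hle _ ?_
    rw [Complex.ofReal_re]
    linarith
  · rw [h1, ConvA_norm_ppow_inv]
    refine hle _ ?_
    rw [Complex.ofReal_re]
    linarith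
  · have hi : (π p).x i ∈ Finset.univ.val.map (π p).x :=
      Multiset.mem_map_of_mem _ (Finset.mem_univ i)
    rw [h2, Multiset.mem_add, Multiset.mem_sum, Multiset.mem_sum] at hi
    rcases hi with ⟨y, hy, hi⟩ | ⟨j, hj, hi⟩
    · rw [Multiset.mem_sum] at hi
      obtain ⟨j, hj, hi⟩ := hi
      obtain ⟨l, _, hl⟩ := Multiset.mem_map.1 hi
      rw [← hl]
      have hj1 : (j : ℝ) + 1 ≤ y.2 := by exact_mod_cast Finset.mem_range.1 hj
      have hj0 : (0 : ℝ) ≤ j := Nat.cast_nonneg _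
      have hk0 : (0 : ℝ) ≤ (k y.1 : ℝ) := Nat.cast_nonneg _
      have hy1 := hS y hy
      have hre : (-((j : ℂ) + 1 / 2)).re = -((j : ℝ) + 1 / 2) := by simp
      constructor
      · rw [Units.val_mul, norm_mul, ConvA_norm_ppow, hre]
        calc ‖(τ y.1 p l : ℂ)‖ * ((p : ℕ) : ℝ) ^ (-((j : ℝ) + 1 / 2)) ≤
            ((p : ℕ) : ℝ) ^ θ * ((p : ℕ) : ℝ) ^ (-((j : ℝ) + 1 / 2)) :=
              mul_le_mul_of_nonneg_right ((hτ.nice y.1 p).1 l) (Real.rpow_nonneg hp0.le _)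
          _ = ((p : ℕ) : ℝ) ^ (θ + (-((j : ℝ) + 1 / 2))) := (Real.rpow_add hp0 _ _).symm
          _ ≤ _ := hle _ (by linarith)
      · rw [mul_inv, Units.val_mul, norm_mul, ConvA_norm_ppow_inv, hre]
        calc ‖(((τ y.1 p l)⁻¹ : ℂˣ) : ℂ)‖ * ((p : ℕ) : ℝ) ^ (-(-((j : ℝ) + 1 / 2))) ≤
            ((p : ℕ) : ℝ) ^ (θ * k y.1) * ((p : ℕ) : ℝ) ^ (-(-((j : ℝ) + 1 / 2))) :=
              mul_le_mul_of_nonneg_right (ConvA_inv hθ (hτ.nice y.1) p l)
                (Real.rpow_nonneg hp0.le _)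
          _ = ((p : ℕ) : ℝ) ^ (θ * k y.1 + (-(-((j : ℝ) + 1 / 2)))) :=
              (Real.rpow_add hp0 _ _).symm
          _ ≤ _ := hle _ (by nlinarith)
    · rw [Multiset.mem_singleton] at hi
      rw [hi]
      have hj1 : (j : ℝ) + 1 ≤ c := by exact_mod_cast Finset.mem_range.1 hj
      have hj0 : (0 : ℝ) ≤ j := Nat.cast_nonneg _
      have hre : (-((j : ℂ) + 1)).re = -((j : ℝ) + 1) := by simp
      constructor
      · rw [ConvA_norm_ppow, hre]
        exact hle _ (by linarith)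
      · rw [ConvA_norm_ppow_inv, hre]
        exact hle _ (by linarith)

/-- `continuesTo_iff`, `spR_coeff`, `Phi_spR`, `spinD_param`, `contTo_congr`, `ContTo.untw`. -/
theorem contTo_of_param {r : ℕ} {k : Fin r → ℕ} {τ : (i : Fin r) → GLSys (k i)} {θ : ℝ}
    (hτ : Nice τ θ) {B : Finset (Fin r × ℕ)} {c n : ℕ} {π : GSys n} (h : HasParameter τ B c π)
    (hNB : NB τ B c ∈ BB) {x : ℝ} (hc : ContinuesTo (height k B c - x) π (spin n)) :
    ContTo (-x) (NB τ B c) := by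
  rw [← spR_coeff, continuesTo_iff (bdd_param hτ h), Phi_spR] at hc
  have h1 : ContTo (height k B c - x) (tw (height k B c) * NB τ B c) :=
    contTo_congr (BB.mul_mem (tw_mem _) hNB) (spinD_param h) hc
  exact h1.untw (by rw [Complex.ofReal_re]; ring)

end Pool.Agent.EEA520
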