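import Pool.Agent.W_eea520_h70.Straight
import Pool.Agent.W_eea520_h70.Bound
import Pool.Agent.W_eea520_h25.Spin

/-! Generation of the filtration by the products of complete symmetric functions. -/

set_option autoImplicit false

namespace Pool.Agent.EEA520

open Finset

open Polynomial in
theorem Gen70_coeff {B : Type} [CommRing B] (k a : ℕ) (r : Fin k → B) :
    (∏ i : Fin k, (1 + C (r i) * X : B[X])).coeff a =
      ∑ t ∈ Finset.powersetCard a (Finset.univ : Finset (Fin k)), ∏ i ∈ t, r i := by
  rw [Finset.prod_one_add, Polynomial.finsetSum_coeff, Finset.powersetCard_eq_filter,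
    Finset.sum_filter]
  refine Finset.sum_congr rfl fun t _ => ?_
  rw [Finset.prod_mul_distrib, Finset.prod_const, ← map_prod, Polynomial.coeff_C_mul_X_pow]
  by_cases h : a = t.card
  · rw [if_pos h, if_pos h.symm]
  · rw [if_neg h, if_neg (Ne.symm h)]

/-- `Polynomial` coefficient of top degree: the product of all parameters (equal to `1`). -/
theorem extD_top {k : ℕ} {σ : GLSys k} (hσ : ∀ p, ∏ l, σ p l = 1) : extD σ k = 1 := by
  funext p
  unfold extD
  rw [Gen70_coeff]
  have h1 : Finset.powersetCard k (Finset.univ : Finset (Fin k)) = {Finset.univ} := by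
    have h2 := Finset.powersetCard_self (Finset.univ : Finset (Fin k))
    rwa [Finset.card_univ, Fintype.card_fin] at h2
  rw [h1, Finset.sum_singleton, Pi.one_apply]
  unfold el
  rw [← map_prod, hσ p, map_one]

theorem Gen70_mul {R : Type} [CommRing R] {S T U : Set R}
    (h : ∀ a ∈ S, ∀ b ∈ T, a * b ∈ AddSubgroup.closure U) {x y : R}
    (hx : x ∈ AddSubgroup.closure S) (hy : y ∈ AddSubgroup.closure T) :
    x * y ∈ AddSubgroup.closure U := by
  induction hx using AddSubgroup.closure_induction with
  | mem a ha =>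
    induction hy using AddSubgroup.closure_induction with
    | mem b hb => exact h a ha b hb
    | zero => rw [mul_zero]; exact AddSubgroup.zero_mem _
    | add b c _ _ h1 h2 => rw [mul_add]; exact AddSubgroup.add_mem _ h1 h2
    | neg b _ h1 => rw [mul_neg]; exact AddSubgroup.neg_mem _ h1
  | zero => rw [zero_mul]; exact AddSubgroup.zero_mem _
  | add b c _ _ h1 h2 => rw [add_mul]; exact AddSubgroup.add_mem _ h1 h2
  | neg b _ h1 => rw [neg_mul]; exact AddSubgroup.neg_mem _ h1

theorem Gen70_prod {R : Type} [CommRing R] {r : ℕ} (n : Fin r → ℕ) (e : Fin r → ℕ → R)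
    (d : Fin r → ℕ) (x : Fin r → R) (s : Finset (Fin r))
    (hx : ∀ i ∈ s, x i ∈ PK (e i) (n i) (d i)) :
    ∏ i ∈ s, x i ∈ AddSubgroup.closure {D : R | ∃ m : (i : Fin r) → Fin (n i) → ℕ,
      ∑ i ∈ s, ∑ j, m i j ≤ ∑ i ∈ s, d i ∧ D = ∏ i ∈ s, ∏ j, hh (e i) (m i j)} := by
  classical
  induction s using Finset.induction_on with
  | empty =>
    refine AddSubgroup.subset_closure ⟨fun _ _ => 0, ?_, ?_⟩
    · simp
    · simp
  | insert i₀ s hi₀ ih =>
    rw [Finset.prod_insert hi₀]
    have h1 := hx i₀ (Finset.mem_insert_self _ _)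
    have h2 := ih fun i hi => hx i (Finset.mem_insert_of_mem hi)
    refine Gen70_mul ?_ h1 h2
    rintro _ ⟨m₀, hm₀, rfl⟩ _ ⟨m, hm, rfl⟩
    refine AddSubgroup.subset_closure ⟨Function.update m i₀ m₀, ?_, ?_⟩
    · rw [Finset.sum_insert hi₀, Finset.sum_insert hi₀, Function.update_self]
      refine add_le_add hm₀ (le_trans (le_of_eq ?_) hm)
      refine Finset.sum_congr rfl fun i hi => ?_
      have hne : i ≠ i₀ := fun h => hi₀ (h ▸ hi)
      rw [Function.update_of_ne hne]
    · rw [Finset.prod_insert hi₀, Function.update_self]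
      congr 1
      refine Finset.prod_congr rfl fun i hi => ?_
      have hne : i ≠ i₀ := fun h => hi₀ (h ▸ hi)
      rw [Function.update_of_ne hne]

theorem Gen70_list {R : Type} [CommRing R] {r : ℕ} (e : Fin r → ℕ → R)
    (l : List (Fin r × ℕ)) : ∃ L : Fin r → List ℕ,
      ∑ i, (L i).sum = (l.map Prod.snd).sum ∧
      (l.map fun y => e y.1 y.2).prod = ∏ i, ((L i).map (e i)).prod := by
  induction l with
  | nil => exact ⟨fun _ => [], by simp, by simp⟩
  | cons y l ih =>
    obtain ⟨L, h1, h2⟩ := ih
    refine ⟨fun i => if i = y.1 then y.2 :: L i else L i, ?_, ?_⟩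
    · have h3 : ∀ i, (if i = y.1 then y.2 :: L i else L i).sum =
          (if i = y.1 then y.2 else 0) + (L i).sum := by
        intro i
        split_ifs
        · rw [List.sum_cons]
        · rw [zero_add]
      simp only [h3]
      rw [Finset.sum_add_distrib, h1, Finset.sum_ite_eq', if_pos (Finset.mem_univ _),
        List.map_cons, List.sum_cons]
    · have h3 : ∀ i, ((if i = y.1 then y.2 :: L i else L i).map (e i)).prod =
          (if i = y.1 then e i y.2 else 1) * ((L i).map (e i)).prod := by
        intro i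
        split_ifs
        · rw [List.map_cons, List.prod_cons]
        · rw [one_mul]
      simp only [h3]
      rw [Finset.prod_mul_distrib, ← h2, Finset.prod_ite_eq', if_pos (Finset.mem_univ _),
        List.map_cons, List.prod_cons]

/-- Proof. A product of exterior powers of the `τ i` is, after sorting the factors by `i`, a product over
`i` of products `(l_i.map (extD (τ i))).prod` with `∑_i l_i.sum ≤ d`; apply `prod_e_mem` for every `i`
(`extD_zero`, `extD_top`, `extD_of_lt` in `W_eea520_h25/Spin.lean`) and multiply out: the product over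
`i` of elements of the groups `PK (extD (τ i)) (k i - 1) d_i` is in the closure
(`AddSubgroup.closure_induction`, induction over the finite set of `i`). -/
theorem FF_le_closure {r : ℕ} {k : Fin r → ℕ} (hk : ∀ i, 1 ≤ k i) {τ : (i : Fin r) → GLSys (k i)}
    (hτ : ∀ i p, ∏ l, τ i p l = 1) (d : ℕ) :
    FF τ d ≤ AddSubgroup.closure {D | ∃ m : (Σ i : Fin r, Fin (k i - 1)) → ℕ,
      ∑ y, m y ≤ d ∧ D = ∏ y, hh (extD (τ y.1)) (m y)} := by
  unfold FF
  rw [AddSubgroup.closure_le]
  rintro _ ⟨l, hl, rfl⟩
  obtain ⟨L, h1, h2⟩ := Gen70_list (fun i => extD (τ i)) l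
  have h3 : ∀ i ∈ (Finset.univ : Finset (Fin r)), ((L i).map (extD (τ i))).prod ∈
      PK (extD (τ i)) (k i - 1) (L i).sum := fun i _ =>
    prod_e_mem (hk i) (extD (τ i)) (extD_zero _) (extD_top (hτ i))
      (fun j hj => extD_of_lt (τ i) j hj) (L i)
  have h4 := Gen70_prod (fun i => k i - 1) (fun i => extD (τ i)) (fun i => (L i).sum)
    (fun i => ((L i).map (extD (τ i))).prod) Finset.univ h3
  rw [SetLike.mem_coe, h2]
  refine AddSubgroup.closure_mono ?_ h4
  rintro _ ⟨m, hm, rfl⟩
  refine ⟨fun y => m y.1 y.2, ?_, ?_⟩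
  · rw [Fintype.sum_sigma]
    exact hm.trans (h1.le.trans hl)
  · rw [Fintype.prod_sigma]

end Pool.Agent.EEA520
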