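import Mathlib

/-! Choice of disjoint increasing sequences in a finite set of integers. -/

set_option autoImplicit false

namespace Pool.Agent.EEA520

/-- Proof. Enumerate `ι` (`Fintype.equivFin`), order the disjoint union of the `Fin (m i + 1)`
lexicographically (or `finSigmaFinEquiv`, which is monotone in the second component) and map it to
`N` by the increasing enumeration of `N` (`Finset.orderEmbOfFin` of a subset, or `N.orderEmbOfFin rfl`
composed with `Fin.castLE`). -/
theorem exists_nodes {ι : Type} [Fintype ι] (m : ι → ℕ) (N : Finset ℕ)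
    (hN : ∑ i, (m i + 1) ≤ N.card) :
    ∃ ν : (i : ι) → Fin (m i + 1) → ℕ, (∀ i, StrictMono (ν i)) ∧ (∀ i a, ν i a ∈ N) ∧
      ∀ i a j b, ν i a = ν j b → i = j := by
  classical
  let e := Fintype.equivFin ι
  let n : Fin (Fintype.card ι) → ℕ := fun k => m (e.symm k) + 1
  have hsum : ∑ k, n k ≤ N.card := by
    refine le_trans (le_of_eq ?_) hN
    exact e.symm.sum_comp (fun i => m i + 1)
  have hlt : ∀ i, ∀ a : Fin (m i + 1), (a : ℕ) < n (e i) := by
    intro i a
    show (a : ℕ) < m (e.symm (e i)) + 1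
    rw [Equiv.symm_apply_apply]
    exact a.2
  let φ : (i : ι) → Fin (m i + 1) → Fin (∑ k, n k) :=
    fun i a => finSigmaFinEquiv ⟨e i, ⟨(a : ℕ), hlt i a⟩⟩
  have hφ : ∀ i a, ((φ i a : Fin (∑ k, n k)) : ℕ) =
      ∑ l : Fin (e i).1, n (Fin.castLE (e i).2.le l) + (a : ℕ) := by
    intro i a
    show ((finSigmaFinEquiv ⟨e i, ⟨(a : ℕ), hlt i a⟩⟩ : Fin (∑ k, n k)) : ℕ) = _
    rw [finSigmaFinEquiv_apply]
  refine ⟨fun i a => N.orderEmbOfFin rfl (Fin.castLE hsum (φ i a)), ?_, ?_, ?_⟩
  · intro i a b hab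
    apply (N.orderEmbOfFin rfl).strictMono
    rw [Fin.lt_def, Fin.val_castLE, Fin.val_castLE, hφ, hφ]
    have h : (a : ℕ) < (b : ℕ) := hab
    omega
  · intro i a
    exact N.orderEmbOfFin_mem rfl _
  · intro i a j b h
    have h1 := (N.orderEmbOfFin rfl).injective h
    have h2 : φ i a = φ j b := Fin.castLE_injective hsum h1
    have h3 := finSigmaFinEquiv.injective h2
    have h4 : e i = e j := congrArg Sigma.fst h3
    exact e.injective h4

end Pool.Agent.EEA520
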