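import Pool.Agent.W_eea520_h70.OneFac
import Pool.Agent.W_eea520_h70.Nodes
import Pool.Agent.W_eea520_h70.Gen70

/-! Extraction: elements with given leading term which extend far to the left. -/

set_option autoImplicit false

namespace Pool.Agent.EEA520

open Finset

/-- The normalised form of the condition: for every `M` there are `c` and a set `N` of at least `M`
integers `≥ M` such that the Euler products of the `NB τ B c` (with exactly `k i - 1` blocks `(i, b)`,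
`b ∈ N`, for every `i`) extend to `re s > - M ∑ b`. -/
def WeakN {r : ℕ} {k : Fin r → ℕ} (τ : (i : Fin r) → GLSys (k i)) : Prop :=
  ∀ M : ℕ, ∃ (c : ℕ) (N : Finset ℕ), M ≤ N.card ∧ (∀ b ∈ N, M ≤ b) ∧
    ∀ B : Finset (Fin r × ℕ), (∀ y ∈ B, y.2 ∈ N) →
      (∀ i, (B.filter fun y => y.1 = i).card = k i - 1) →
      ContTo (-(M * ∑ y ∈ B, (y.2 : ℝ))) (NB τ B c)

/-- Multiplication by several factors `κ` which move the half plane by `s i`. -/
theorem extract_shift {ι : Type} (S : Finset ι) (κ : ι → Dat) (s : ι → ℝ)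
    (h : ∀ i ∈ S, ∀ (Y : Dat) (ρ : ℝ), ContTo ρ Y → ContTo (ρ + s i) (κ i * Y)) (Y : Dat) (ρ : ℝ)
    (hY : ContTo ρ Y) : ContTo (ρ + ∑ i ∈ S, s i) ((∏ i ∈ S, κ i) * Y) := by
  classical
  induction S using Finset.induction_on with
  | empty => simpa using hY
  | insert a S ha ih =>
    rw [Finset.prod_insert ha, Finset.sum_insert ha, mul_assoc]
    have h1 := ih (fun i hi => h i (Finset.mem_insert_of_mem hi))
    have h2 := h a (Finset.mem_insert_self a S) _ _ h1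
    have h3 : ρ + (s a + ∑ i ∈ S, s i) = ρ + ∑ i ∈ S, s i + s a := by ring
    rw [h3]
    exact h2

theorem Extract70_card {r : ℕ} (k : Fin r → ℕ) (i : Fin r) :
    ((Finset.univ : Finset (Σ i : Fin r, Fin (k i - 1))).filter fun y => y.1 = i).card =
      k i - 1 := by
  classical
  have h : ((Finset.univ : Finset (Σ i : Fin r, Fin (k i - 1))).filter fun y => y.1 = i) =
      (Finset.univ : Finset (Fin (k i - 1))).image (fun b => (⟨i, b⟩ : Σ i : Fin r, Fin (k i - 1))) := by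
    ext ⟨i', b⟩
    constructor
    · intro hy
      have hi : i' = i := (Finset.mem_filter.1 hy).2
      subst hi
      exact Finset.mem_image.2 ⟨b, Finset.mem_univ _, rfl⟩
    · intro hy
      obtain ⟨b', _, hb'⟩ := Finset.mem_image.1 hy
      refine Finset.mem_filter.2 ⟨Finset.mem_univ _, ?_⟩
      rw [← hb']
  rw [h, Finset.card_image_of_injective, Finset.card_univ, Fintype.card_fin]
  intro b b' hbb
  have := (Sigma.mk.inj_iff.1 hbb).2
  exact eq_of_heq this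

/-- Proof. Let `Λ = Σ i, Fin (k i - 1)` (not empty) and `M ≥ ∑ (m y + 1)`, `M ≥ 2 ∑ m y - R₀ + 1`. Take
`c`, `N` from `h M`, the nodes `ν y` from `exists_nodes` and the `κ y` from `one_factor`. Let
`Y = (∏_y ∑_a κ y a * DD (τ y.1) (ν y a)) * ZZ c`. By `Lead.prod` (over `univ`) and `lead_ZZ` it has the
right leading term. By `Finset.prod_univ_sum` `Y` is the sum over `f ∈ ∏_y Fin (m y + 1)` of
`(∏_y κ y (f y)) * ((∏_y DD (τ y.1) (ν y (f y))) * ZZ c)`, and the second factor is `NB τ B c` for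
`B = univ.image fun y => (y.1, ν y (f y))` (injective, `Finset.prod_image`), which has exactly `k i - 1`
elements over every `i`. It extends to `re s > - M ∑_{y} ν y (f y)`, so by `extract_shift` the
product extends to `re s > - M Σ + (∑_y m y ν_y + m y / 2)`, `Σ = ∑_y ν y (f y) ≥ M`, and
`∑_y m y ν_y ≤ (∑ m) Σ`. This is at most `- (M - ∑ m) Σ + ∑ m / 2 ≤ - (M - ∑ m) + ∑ m / 2 ≤ R₀`
(as `Σ ≥ M ≥ 1`). -/
theorem extract_prod {r : ℕ} (hr : 0 < r) {k : Fin r → ℕ} (hk : ∀ i, 2 ≤ k i)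
    {τ : (i : Fin r) → GLSys (k i)} (h : WeakN τ) (m : (Σ i : Fin r, Fin (k i - 1)) → ℕ)
    (R₀ : ℝ) : ∃ Y, Lead (FF τ) tt (∑ y, m y) (∏ y, hh (extD (τ y.1)) (m y)) Y ∧
      ContTo R₀ Y := by
  classical
  set Sm : ℕ := ∑ y, m y with hSm
  obtain ⟨M₀, hM₀⟩ := exists_nat_ge (3 / 2 * (Sm : ℝ) - R₀)
  obtain ⟨M, hM1, hM2⟩ : ∃ M : ℕ, ∑ y, (m y + 1) ≤ M ∧ M₀ + Sm + 1 ≤ M :=
    ⟨max (∑ y, (m y + 1)) (M₀ + Sm + 1), le_max_left _ _, le_max_right _ _⟩
  obtain ⟨c, N, hNc, hNM, hNB⟩ := h M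
  obtain ⟨ν, hmono, hmem, hinj⟩ := exists_nodes m N (hM1.trans hNc)
  have hone := fun y : (Σ i : Fin r, Fin (k i - 1)) => one_factor τ y.1 (m y) (ν y) (hmono y)
  choose κ hκ1 hκ2 using hone
  refine ⟨(∏ y, ∑ a, κ y a * DD (τ y.1) (ν y a)) * ZZ c, ?_, ?_⟩
  · have h1 := Lead.prod (isFilt_FF τ) Finset.univ m (fun y => hh (extD (τ y.1)) (m y))
      (fun y => ∑ a, κ y a * DD (τ y.1) (ν y a)) (fun y _ => hκ1 y)
    have h2 := Lead.mul (isFilt_FF τ) h1 (lead_ZZ (isFilt_FF τ) c)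
    rw [add_zero, mul_one] at h2
    exact h2
  · rw [Finset.prod_univ_sum, Finset.sum_mul]
    refine ContTo.sum _ _ (fun f _ => ?_)
    rw [Finset.prod_mul_distrib, mul_assoc]
    set g : (Σ i : Fin r, Fin (k i - 1)) → Fin r × ℕ := fun y => (y.1, ν y (f y)) with hg
    have hginj : Function.Injective g := by
      intro y y' hyy
      have : ν y (f y) = ν y' (f y') := congrArg Prod.snd hyy
      exact hinj y (f y) y' (f y') this
    set B : Finset (Fin r × ℕ) := Finset.univ.image g with hB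
    have hBN : ∀ z ∈ B, z.2 ∈ N := by
      intro z hz
      obtain ⟨y, _, rfl⟩ := Finset.mem_image.1 hz
      exact hmem y (f y)
    have hBc : ∀ i, (B.filter fun z => z.1 = i).card = k i - 1 := by
      intro i
      rw [hB, Finset.filter_image, Finset.card_image_of_injective _ hginj]
      exact Extract70_card k i
    have hcont := hNB B hBN hBc
    have hprod : (∏ y, DD (τ y.1) (ν y (f y))) * ZZ c = NB τ B c := by
      unfold NB
      rw [hB, Finset.prod_image (fun a _ b _ hab => hginj hab)]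
    have hsum : ∑ z ∈ B, (z.2 : ℝ) = ∑ y, (ν y (f y) : ℝ) := by
      rw [hB, Finset.sum_image (fun a _ b _ hab => hginj hab)]
    rw [← hprod, hsum] at hcont
    have hshift := extract_shift Finset.univ (fun y => κ y (f y))
      (fun y => (m y : ℝ) * ν y (f y) + (m y : ℝ) / 2)
      (fun y _ Y ρ hY => by
        have := hκ2 y (f y) Y ρ hY
        have e : ρ + ((m y : ℝ) * ν y (f y) + (m y : ℝ) / 2) =
          ρ + (m y : ℝ) * ν y (f y) + (m y : ℝ) / 2 := by ring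
        rw [e]
        exact this) _ _ hcont
    refine hshift.mono ?_
    set Sν : ℝ := ∑ y, (ν y (f y) : ℝ) with hSνd
    have hle : ∀ y, (ν y (f y) : ℝ) ≤ Sν := fun y =>
      Finset.single_le_sum (f := fun y => (ν y (f y) : ℝ)) (fun _ _ => Nat.cast_nonneg _)
        (Finset.mem_univ y)
    have hk0 : 0 < k ⟨0, hr⟩ - 1 := by
      have := hk ⟨0, hr⟩
      omega
    have hM0 : (M₀ : ℝ) + Sm + 1 ≤ M := by exact_mod_cast hM2
    have hSM : (M : ℝ) ≤ Sν := by
      have h1 := hle ⟨⟨0, hr⟩, ⟨0, hk0⟩⟩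
      have h2 := hNM _ (hmem ⟨⟨0, hr⟩, ⟨0, hk0⟩⟩ (f ⟨⟨0, hr⟩, ⟨0, hk0⟩⟩))
      have h3 : (M : ℝ) ≤ (ν ⟨⟨0, hr⟩, ⟨0, hk0⟩⟩ (f ⟨⟨0, hr⟩, ⟨0, hk0⟩⟩) : ℝ) := by
        exact_mod_cast h2
      exact h3.trans h1
    have hS : ∑ y, ((m y : ℝ) * ν y (f y) + (m y : ℝ) / 2) ≤ Sm * Sν + Sm / 2 := by
      rw [Finset.sum_add_distrib, ← Finset.sum_div]
      have e1 : ∑ y, (m y : ℝ) * ν y (f y) ≤ ∑ y, (m y : ℝ) * Sν :=
        Finset.sum_le_sum (fun y _ => mul_le_mul_of_nonneg_left (hle y) (Nat.cast_nonneg _))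
      rw [← Finset.sum_mul] at e1
      have e2 : (∑ y, (m y : ℝ)) = (Sm : ℝ) := by
        rw [hSm]
        push_cast
        rfl
      rw [e2] at e1 ⊢
      linarith
    have hM₀0 : (0 : ℝ) ≤ M₀ := Nat.cast_nonneg _
    have hSm0 : (0 : ℝ) ≤ Sm := Nat.cast_nonneg _
    have hone : (1 : ℝ) ≤ Sν := by linarith
    have hfin : ((M : ℝ) - Sm) * 1 ≤ ((M : ℝ) - Sm) * Sν :=
      mul_le_mul_of_nonneg_left hone (by linarith)
    have : -(↑M * Sν) + (↑Sm * Sν + ↑Sm / 2) ≤ R₀ := by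
      nlinarith
    linarith

/-- `contract`, `FF_le_closure` and `extract_prod`: the set of the `D` for which `Y` exists is closed under
sums and negatives (`Lead.add`, `Lead.neg`, `Lead.zero`), and `Lead.mono`. -/
theorem cont_of_weakN {r : ℕ} (hr : 0 < r) {k : Fin r → ℕ} (hk : ∀ i, 2 ≤ k i)
    {τ : (i : Fin r) → GLSys (k i)} {θ : ℝ} (hτ : Nice τ θ) (h : WeakN τ) :
    ∀ (d : ℕ) (D : Dat), D ∈ FF τ d → Cont D := by
  refine contract hτ (fun d D hD R₀ => ?_)
  have hk1 : ∀ i, 1 ≤ k i := fun i => le_trans (by norm_num) (hk i)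
  have hmem := FF_le_closure hk1 (fun i p => (hτ.nice i p).2) d hD
  clear hD
  induction hmem using AddSubgroup.closure_induction with
  | mem x hx =>
    obtain ⟨m, hm, rfl⟩ := hx
    obtain ⟨Y, hY1, hY2⟩ := extract_prod hr hk h m R₀
    exact ⟨Y, Lead.mono (isFilt_FF τ) hm hY1, hY2⟩
  | zero => exact ⟨0, Lead.zero d, ContTo.zero _⟩
  | add x y hx hy hx' hy' =>
    obtain ⟨Y, hY1, hY2⟩ := hx'
    obtain ⟨Y', hY1', hY2'⟩ := hy'
    exact ⟨Y + Y', hY1.add hY1', hY2.add hY2'⟩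
  | neg x hx hx' =>
    obtain ⟨Y, hY1, hY2⟩ := hx'
    exact ⟨-Y, hY1.neg, hY2.neg⟩

end Pool.Agent.EEA520
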