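import Pool.Agent.W_eea520_h70.Straight

/-! Symplectic case: products of `g + 1` complete symmetric functions of `2g` variables which are closed
under inversion are combinations of products of `g` of them. -/

set_option autoImplicit false

namespace Pool.Agent.EEA520

open Finset

variable {R : Type} [CommRing R]

/-- The symplectic Jacobi-Trudi determinant: the entries are `h_{m_i - i}` in the first column and
`h_{m_i - i + j} + h_{m_i - i - j}` in the columns `j ≥ 1` (`i, j` start with `0`). -/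
noncomputable def spDet {n : ℕ} (e : ℕ → R) (m : Fin n → ℤ) : R :=
  (Matrix.of fun i j : Fin n => hhZ e (m i - (i : ℕ) + (j : ℕ)) +
    if (j : ℕ) = 0 then 0 else hhZ e (m i - (i : ℕ) - (j : ℕ))).det

/-- Proof. Let `a = m_i - i`, so `a + g ≥ m_i ≥ 1`. By `hhZ_rec` (with `k = 2g`, `z = a + g`)
`∑_{0 ≤ l ≤ 2g} (-1) ^ l e_l h_{a+g-l} = 0`. As `e_{2g-l} = e_l` and `(-1) ^ (2g-l) = (-1) ^ l` this is
`(-1) ^ g e_g h_a + ∑_{0 ≤ l < g} (-1) ^ l e_l (h_{a+g-l} + h_{a-(g-l)}) = 0`, a linear relation between the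
columns of the matrix, `j = g - l`, and the coefficient of the last column is `e_0 = 1`. So
`A *ᵥ v = 0` with `v_g = 1`, and `det A = det A * v_g = (adjugate A *ᵥ (A *ᵥ v)) g = 0`. -/
theorem spDet_eq_zero {g : ℕ} (e : ℕ → R) (he0 : e 0 = 1)
    (hsym : ∀ j ≤ 2 * g, e (2 * g - j) = e j) (hek : ∀ j, 2 * g < j → e j = 0)
    (m : Fin (g + 1) → ℤ) (hm : ∀ i, 1 ≤ m i) : spDet e m = 0 := by
  set A : Matrix (Fin (g + 1)) (Fin (g + 1)) R :=
    Matrix.of fun i j : Fin (g + 1) => hhZ e (m i - (i : ℕ) + (j : ℕ)) +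
      if (j : ℕ) = 0 then 0 else hhZ e (m i - (i : ℕ) - (j : ℕ)) with hA
  let v : Fin (g + 1) → R := fun j => (-1) ^ (g - (j : ℕ)) * e (g - (j : ℕ))
  have hAv : A.mulVec v = 0 := by
    funext i
    rw [Matrix.mulVec, dotProduct, Pi.zero_apply]
    set a : ℤ := m i - (i : ℕ) with ha
    have hi : ((i : ℕ) : ℤ) ≤ g := by exact_mod_cast Nat.lt_succ_iff.1 i.2
    have hz : 1 ≤ a + g := by
      have := hm i
      linarith
    have hrec := hhZ_rec e (2 * g) hek (a + g) hz
    -- the full relation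
    have hI : ∑ l ∈ Icc 1 (2 * g), (-1) ^ (l - 1) * e l * hhZ e (a + g - l) =
        ∑ k ∈ range (2 * g), (-1) ^ k * e (k + 1) * hhZ e (a + g - ((k + 1 : ℕ) : ℤ)) := by
      refine Finset.sum_nbij' (fun l => l - 1) (fun k => k + 1) ?_ ?_ ?_ ?_ ?_
      · intro l hl
        simp only [mem_Icc] at hl
        simp only [mem_range]
        omega
      · intro k hk
        simp only [mem_range] at hk
        simp only [mem_Icc]
        omega
      · intro l hl
        simp only [mem_Icc] at hl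
        omega
      · intro k _
        omega
      · intro l hl
        simp only [mem_Icc] at hl
        rw [Nat.sub_add_cancel hl.1]
    have hfull : ∑ l ∈ range (2 * g + 1), (-1) ^ l * e l * hhZ e (a + g - l) = 0 := by
      rw [Finset.sum_range_succ', pow_zero, he0, one_mul, one_mul, Nat.cast_zero, sub_zero, hrec,
        hI, ← Finset.sum_add_distrib]
      refine Finset.sum_eq_zero fun k _ => ?_
      rw [pow_succ]
      ring
    have hs : ∀ k ∈ range g, (-1 : R) ^ (g + 1 + k) * e (g + 1 + k) *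
        hhZ e (a + g - ((g + 1 + k : ℕ) : ℤ)) =
        hhZ e (a - ((k + 1 : ℕ) : ℤ)) * ((-1) ^ (g - (k + 1)) * e (g - (k + 1))) := by
      intro k hk
      have hk' : k < g := Finset.mem_range.1 hk
      have h1 : e (g + 1 + k) = e (g - (k + 1)) := by
        rw [← hsym (g - (k + 1)) (by omega)]
        congr 1
        omega
      have h2 : (-1 : R) ^ (g + 1 + k) = (-1) ^ (g - (k + 1)) := by
        have h3 : g + 1 + k = (g - (k + 1)) + 2 * (k + 1) := by omega
        rw [h3, pow_add, pow_mul, neg_one_sq, one_pow, mul_one]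
      have h3 : a + g - ((g + 1 + k : ℕ) : ℤ) = a - ((k + 1 : ℕ) : ℤ) := by
        push_cast
        ring
      rw [h1, h2, h3]
      ring
    rw [show 2 * g + 1 = (g + 1) + g by ring, Finset.sum_range_add,
      Finset.sum_congr rfl hs] at hfull
    have hfin : ∑ j : Fin (g + 1), A i j * v j = ∑ j ∈ range (g + 1),
        (hhZ e (a + (j : ℕ)) + if j = 0 then 0 else hhZ e (a - (j : ℕ))) *
          ((-1) ^ (g - j) * e (g - j)) :=
      Fin.sum_univ_eq_sum_range (fun j => (hhZ e (a + (j : ℕ)) +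
        if j = 0 then 0 else hhZ e (a - (j : ℕ))) * ((-1) ^ (g - j) * e (g - j))) (g + 1)
    rw [hfin]
    simp only [add_mul]
    rw [Finset.sum_add_distrib]
    have hrefl : ∑ j ∈ range (g + 1), hhZ e (a + (j : ℕ)) * ((-1) ^ (g - j) * e (g - j)) =
        ∑ l ∈ range (g + 1), (-1) ^ l * e l * hhZ e (a + g - l) := by
      rw [← Finset.sum_range_reflect]
      refine Finset.sum_congr rfl fun l hl => ?_
      have hl' : l < g + 1 := Finset.mem_range.1 hl
      have h1 : g - (g + 1 - 1 - l) = l := by omega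
      have h2 : a + ((g + 1 - 1 - l : ℕ) : ℤ) = a + g - l := by
        rw [Nat.add_sub_cancel, Nat.cast_sub (by omega)]
        ring
      rw [h1, h2]
      ring
    rw [hrefl, Finset.sum_range_succ' (fun j => (if j = 0 then 0 else hhZ e (a - (j : ℕ))) *
      ((-1) ^ (g - j) * e (g - j)))]
    simp only [Nat.add_eq_zero_iff, one_ne_zero, and_false, if_false, if_true, zero_mul, add_zero]
    exact hfull
  have h1 : A.det * v (Fin.last g) = 0 := by
    have h2 : A.adjugate.mulVec (A.mulVec v) = A.det • v := by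
      rw [Matrix.mulVec_mulVec, Matrix.adjugate_mul, Matrix.smul_mulVec, Matrix.one_mulVec]
    rw [hAv, Matrix.mulVec_zero] at h2
    have h3 := congrFun h2 (Fin.last g)
    rw [Pi.zero_apply, Pi.smul_apply, smul_eq_mul] at h3
    exact h3.symm
  have hv : v (Fin.last g) = 1 := by
    simp [v, he0]
  rw [hv, mul_one] at h1
  exact h1

theorem StraightSp_mono (e : ℕ → R) (n : ℕ) {d d' : ℕ} (h : d ≤ d') : PK e n d ≤ PK e n d' := by
  refine AddSubgroup.closure_mono ?_
  rintro y ⟨m, hm, rfl⟩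
  exact ⟨m, hm.trans h, rfl⟩

theorem StraightSp_gen (e : ℕ → R) {n d : ℕ} (m : Fin n → ℕ) (h : ∑ i, m i ≤ d) :
    ∏ i, hh e (m i) ∈ PK e n d := AddSubgroup.subset_closure ⟨m, h, rfl⟩

/-- A product with an index equal to zero. -/
theorem StraightSp_zero (e : ℕ → R) {g : ℕ} (m : Fin (g + 1) → ℕ) (i : Fin (g + 1))
    (hi : m i = 0) : ∏ i, hh e (m i) ∈ PK e g (∑ i, m i) := by
  rw [Fin.prod_univ_succAbove _ i, Fin.sum_univ_succAbove _ i, hi, hh_zero, one_mul, zero_add]
  exact StraightSp_gen e (fun j => m (i.succAbove j)) le_rfl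

/-- The strict rearrangement inequality. -/
theorem StraightSp_perm {n : ℕ} (a : Fin n → ℤ) (ha : StrictAnti a) (σ : Equiv.Perm (Fin n))
    (hσ : σ ≠ 1) : ∑ i, a i * ((i : ℕ) : ℤ) < ∑ i, a i * ((σ i : ℕ) : ℤ) := by
  have hanti : Antivary a (fun i : Fin n => ((i : ℕ) : ℤ)) := by
    intro i j hij
    have h1 : ((i : ℕ) : ℤ) < ((j : ℕ) : ℤ) := hij
    have h2 : i < j := by exact_mod_cast h1
    exact (ha h2).le
  refine (hanti.sum_mul_lt_sum_mul_comp_perm_iff (σ := σ)).2 ?_
  intro h2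
  apply hσ
  have hmono : StrictMono σ.symm := by
    intro u v huv
    have h3 : a (σ.symm v) ≤ a (σ.symm u) := by
      refine h2 ?_
      show (((σ (σ.symm u) : Fin n) : ℕ) : ℤ) < (((σ (σ.symm v) : Fin n) : ℕ) : ℤ)
      rw [Equiv.apply_symm_apply, Equiv.apply_symm_apply]
      exact_mod_cast huv
    have h4 : σ.symm u ≤ σ.symm v := by
      by_contra hlt
      exact absurd (ha (not_le.1 hlt)) (not_lt.2 h3)
    refine lt_of_le_of_ne h4 ?_
    intro h5
    exact huv.ne (σ.symm.injective h5)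
  have h6 : (σ.symm : Fin n → Fin n) = id := by
    refine (StrictMono.range_inj hmono strictMono_id).1 ?_
    rw [σ.symm.surjective.range_eq, Set.range_id]
  ext i
  have h7 : σ.symm (σ i) = σ i := congrFun h6 (σ i)
  rw [Equiv.symm_apply_apply] at h7
  rw [← h7]
  rfl

theorem StraightSp_sq {n : ℕ} (m : Fin n → ℕ) : ∑ i, m i ^ 2 ≤ (∑ i, m i) ^ 2 := by
  rw [pow_two, Finset.sum_mul]
  refine Finset.sum_le_sum fun i _ => ?_
  rw [pow_two]
  exact Nat.mul_le_mul_left _ (Finset.single_le_sum (fun j _ => Nat.zero_le (m j))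
    (Finset.mem_univ i))

/-- The terms in the expansion. -/
noncomputable def StraightSp_F (e : ℕ → R) {n : ℕ} (m : Fin n → ℕ) (σ : Equiv.Perm (Fin n))
    (S : Finset (Fin n)) (i : Fin n) : R :=
  if i ∈ S then hhZ e ((m i : ℤ) - (i : ℕ) + (σ i : ℕ)) else
    if (σ i : ℕ) = 0 then 0 else hhZ e ((m i : ℤ) - (i : ℕ) - (σ i : ℕ))

theorem StraightSp_expand (e : ℕ → R) {n : ℕ} (m : Fin n → ℕ) :
    spDet e (fun i => (m i : ℤ)) = ∑ σ : Equiv.Perm (Fin n), ∑ S ∈ (univ : Finset (Fin n)).powerset,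
      (Equiv.Perm.sign σ : ℤˣ) • ∏ i, StraightSp_F e m σ S i := by
  unfold spDet
  rw [← Matrix.det_transpose, Matrix.det_apply]
  refine Finset.sum_congr rfl fun σ _ => ?_
  rw [← Finset.smul_sum]
  congr 1
  simp only [Matrix.transpose_apply, Matrix.of_apply]
  rw [Finset.prod_add]
  refine Finset.sum_congr rfl fun S _ => ?_
  have h1 := Finset.prod_piecewise (univ : Finset (Fin n)) S
    (fun i : Fin n => hhZ e ((m i : ℤ) - (i : ℕ) + (σ i : ℕ)))
    (fun i : Fin n => if (σ i : ℕ) = 0 then 0 else hhZ e ((m i : ℤ) - (i : ℕ) - (σ i : ℕ)))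
  rw [Finset.univ_inter] at h1
  rw [← h1]
  rfl

/-- The terms are zero or products of complete symmetric functions. -/
theorem StraightSp_term (e : ℕ → R) {n : ℕ} (m : Fin n → ℕ) (σ : Equiv.Perm (Fin n))
    (S : Finset (Fin n)) :
    (∏ i, StraightSp_F e m σ S i = 0) ∨ ∃ m' : Fin n → ℕ,
      ∏ i, StraightSp_F e m σ S i = ∏ i, hh e (m' i) ∧
      ∀ i, (i ∈ S → (m' i : ℤ) = (m i : ℤ) - (i : ℕ) + (σ i : ℕ)) ∧
        (i ∉ S → (σ i : ℕ) ≠ 0 ∧ (m' i : ℤ) = (m i : ℤ) - (i : ℕ) - (σ i : ℕ)) := by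
  by_cases h0 : ∃ i, StraightSp_F e m σ S i = 0
  · obtain ⟨i, hi⟩ := h0
    exact Or.inl (Finset.prod_eq_zero (Finset.mem_univ i) hi)
  · right
    push Not at h0
    refine ⟨fun i => if i ∈ S then ((m i : ℤ) - (i : ℕ) + (σ i : ℕ)).toNat else
      ((m i : ℤ) - (i : ℕ) - (σ i : ℕ)).toNat, ?_, ?_⟩
    · refine Finset.prod_congr rfl fun i _ => ?_
      have h1 := h0 i
      unfold StraightSp_F at h1 ⊢
      by_cases hS : i ∈ S
      · simp only [hS, if_true] at h1 ⊢
        unfold hhZ at h1 ⊢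
        by_cases hz : 0 ≤ (m i : ℤ) - (i : ℕ) + (σ i : ℕ)
        · simp only [hz, if_true]
        · simp only [hz, if_false] at h1
          exact absurd rfl h1
      · simp only [hS, if_false] at h1 ⊢
        by_cases hσ : (σ i : ℕ) = 0
        · simp only [hσ, if_true] at h1
          exact absurd rfl h1
        · simp only [hσ, if_false] at h1 ⊢
          unfold hhZ at h1 ⊢
          by_cases hz : 0 ≤ (m i : ℤ) - (i : ℕ) - (σ i : ℕ)
          · simp only [hz, if_true]
          · simp only [hz, if_false] at h1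
            exact absurd rfl h1
    · intro i
      have h1 := h0 i
      unfold StraightSp_F at h1
      constructor
      · intro hS
        simp only [hS, if_true] at h1 ⊢
        unfold hhZ at h1
        by_cases hz : 0 ≤ (m i : ℤ) - (i : ℕ) + (σ i : ℕ)
        · exact Int.toNat_of_nonneg hz
        · simp only [hz, if_false] at h1
          exact absurd rfl h1
      · intro hS
        simp only [hS, if_false] at h1 ⊢
        by_cases hσ : (σ i : ℕ) = 0
        · simp only [hσ, if_true] at h1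
          exact absurd rfl h1
        · refine ⟨hσ, ?_⟩
          simp only [hσ, if_false] at h1
          unfold hhZ at h1
          by_cases hz : 0 ≤ (m i : ℤ) - (i : ℕ) - (σ i : ℕ)
          · exact Int.toNat_of_nonneg hz
          · simp only [hz, if_false] at h1
            exact absurd rfl h1

theorem StraightSp_sumperm {n : ℕ} (σ : Equiv.Perm (Fin n)) :
    ∑ i, ((σ i : ℕ) : ℤ) = ∑ i : Fin n, ((i : ℕ) : ℤ) :=
  Equiv.sum_comp σ fun i : Fin n => ((i : ℕ) : ℤ)

/-- The degree of the terms with `S ≠ univ`. -/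
theorem StraightSp_lt {n : ℕ} (m m' : Fin n → ℕ) (σ : Equiv.Perm (Fin n)) (S : Finset (Fin n))
    (hS : S ≠ univ)
    (h : ∀ i, (i ∈ S → (m' i : ℤ) = (m i : ℤ) - (i : ℕ) + (σ i : ℕ)) ∧
        (i ∉ S → (σ i : ℕ) ≠ 0 ∧ (m' i : ℤ) = (m i : ℤ) - (i : ℕ) - (σ i : ℕ))) :
    ∑ i, m' i < ∑ i, m i := by
  have hle : ∀ i, (m' i : ℤ) ≤ (m i : ℤ) - (i : ℕ) + (σ i : ℕ) := by
    intro i
    by_cases hi : i ∈ S
    · exact ((h i).1 hi).le
    · rw [((h i).2 hi).2]
      have : (0 : ℤ) ≤ ((σ i : ℕ) : ℤ) := by positivity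
      linarith
  obtain ⟨i₀, hi₀⟩ : ∃ i, i ∉ S := by
    by_contra hc
    push Not at hc
    exact hS (Finset.eq_univ_iff_forall.2 hc)
  have hlt : (m' i₀ : ℤ) < (m i₀ : ℤ) - (i₀ : ℕ) + (σ i₀ : ℕ) := by
    rw [((h i₀).2 hi₀).2]
    have : (0 : ℤ) < ((σ i₀ : ℕ) : ℤ) := by
      exact_mod_cast Nat.pos_of_ne_zero ((h i₀).2 hi₀).1
    linarith
  have h1 : ∑ i, (m' i : ℤ) < ∑ i, ((m i : ℤ) - (i : ℕ) + (σ i : ℕ)) :=
    Finset.sum_lt_sum (fun i _ => hle i) ⟨i₀, Finset.mem_univ _, hlt⟩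
  rw [Finset.sum_add_distrib, Finset.sum_sub_distrib, StraightSp_sumperm] at h1
  have h2 : ∑ i, (m' i : ℤ) < ∑ i, (m i : ℤ) := by linarith
  exact_mod_cast h2

/-- The sums for `S = univ`. -/
theorem StraightSp_eq {n : ℕ} (m m' : Fin n → ℕ) (σ : Equiv.Perm (Fin n)) (hm : Antitone m)
    (hσ : σ ≠ 1) (h : ∀ i, (m' i : ℤ) = (m i : ℤ) - (i : ℕ) + (σ i : ℕ)) :
    ∑ i, m' i = ∑ i, m i ∧ ∑ i, m i ^ 2 < ∑ i, m' i ^ 2 := by
  constructor
  · have h1 : ∑ i, (m' i : ℤ) = ∑ i, (m i : ℤ) := by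
      rw [Finset.sum_congr rfl fun i _ => h i, Finset.sum_add_distrib, Finset.sum_sub_distrib,
        StraightSp_sumperm]
      ring
    exact_mod_cast h1
  · have ha : StrictAnti fun i : Fin n => (m i : ℤ) - (i : ℕ) := by
      intro i j hij
      have h1 : (m j : ℤ) ≤ m i := by exact_mod_cast hm hij.le
      have h2 : ((i : ℕ) : ℤ) < ((j : ℕ) : ℤ) := by exact_mod_cast hij
      show (m j : ℤ) - (j : ℕ) < (m i : ℤ) - (i : ℕ)
      linarith
    have h1 := StraightSp_perm _ ha σ hσ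
    have h2 : ∑ i, ((m' i : ℤ)) ^ 2 - ∑ i, ((m i : ℤ)) ^ 2 =
        2 * (∑ i, ((m i : ℤ) - (i : ℕ)) * ((σ i : ℕ) : ℤ) -
          ∑ i : Fin n, ((m i : ℤ) - (i : ℕ)) * ((i : ℕ) : ℤ)) := by
      have h3 : ∑ i, ((σ i : ℕ) : ℤ) ^ 2 = ∑ i : Fin n, ((i : ℕ) : ℤ) ^ 2 :=
        Equiv.sum_comp σ fun i : Fin n => ((i : ℕ) : ℤ) ^ 2
      have h4 : ∑ i, ((m' i : ℤ)) ^ 2 = ∑ i, (((m i : ℤ) - (i : ℕ)) ^ 2 +
          2 * (((m i : ℤ) - (i : ℕ)) * ((σ i : ℕ) : ℤ)) + ((σ i : ℕ) : ℤ) ^ 2) := by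
        refine Finset.sum_congr rfl fun i _ => ?_
        rw [h i]
        ring
      have h5 : ∑ i, ((m i : ℤ)) ^ 2 = ∑ i : Fin n, (((m i : ℤ) - (i : ℕ)) ^ 2 +
          2 * (((m i : ℤ) - (i : ℕ)) * ((i : ℕ) : ℤ)) + ((i : ℕ) : ℤ) ^ 2) := by
        refine Finset.sum_congr rfl fun i _ => ?_
        ring
      rw [h4, h5]
      simp only [Finset.sum_add_distrib, ← Finset.mul_sum]
      rw [h3]
      ring
    have h3 : (∑ i, ((m i : ℤ)) ^ 2) < ∑ i, ((m' i : ℤ)) ^ 2 := by linarith
    exact_mod_cast h3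

/-- As `straight` (`Straight.lean`). Strong induction on `d = ∑ m_i`, and for given `d` on
`d ^ 2 - ∑ m_i ^ 2`. Let `m` be weakly decreasing (compose with a permutation). If some `m_i = 0` the
product is a product of `g` functions. Otherwise `spDet e m = 0`, and by the Leibniz formula and
`Finset.prod_add` it is the sum over the permutations `σ` and the subsets `S` of `univ` of
`sign σ ∏_{i ∈ S} h_{m_i - i + σ i} ∏_{i ∉ S} (if σ i = 0 then 0 else h_{m_i - i - σ i})`. For
`S = univ`, `σ = 1` this is our product. For `S = univ`, `σ ≠ 1` it is zero or a product of `g + 1` functions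
with the same total degree and a larger sum of squares (the difference is
`2 ∑ (m_i - i) (σ i - i) > 0`, as in `straight`). For `S ≠ univ` it is zero (if `σ i = 0` for some
`i ∉ S`, or if some index is negative) or a product of `g + 1` functions of total degree
`d - 2 ∑_{i ∉ S} σ i < d`. So all other terms are in `PK e g d`. -/
theorem straightSp {g : ℕ} (e : ℕ → R) (he0 : e 0 = 1)
    (hsym : ∀ j ≤ 2 * g, e (2 * g - j) = e j) (hek : ∀ j, 2 * g < j → e j = 0)
    (m : Fin (g + 1) → ℕ) : ∏ i, hh e (m i) ∈ PK e g (∑ i, m i) := by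
  induction hd : ∑ i, m i using Nat.strong_induction_on generalizing m with
  | _ d IHd =>
  induction hq : d ^ 2 - ∑ i, m i ^ 2 using Nat.strong_induction_on generalizing m with
  | _ q IHq =>
  -- sort
  let τ : Equiv.Perm (Fin (g + 1)) := Fin.revPerm.trans (Tuple.sort m)
  have hτ : Antitone fun i => m (τ i) := by
    intro i j hij
    exact Tuple.monotone_sort m (Fin.rev_le_rev.2 hij)
  rw [← Equiv.prod_comp τ fun i => hh e (m i)]
  have hd' : ∑ i, m (τ i) = d := by rw [← hd, Equiv.sum_comp τ m]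
  have hq' : d ^ 2 - ∑ i, m (τ i) ^ 2 = q := by
    rw [← hq, Equiv.sum_comp τ fun i => m i ^ 2]
  generalize hm₁ : (fun i => m (τ i)) = m₁ at hτ
  have hm₁' : ∀ i, m (τ i) = m₁ i := fun i => congrFun hm₁ i
  simp only [hm₁'] at hd' hq' ⊢
  by_cases h0 : ∃ i, m₁ i = 0
  · obtain ⟨i, hi⟩ := h0
    rw [← hd']
    exact StraightSp_zero e m₁ i hi
  push Not at h0
  have hdet := spDet_eq_zero e he0 hsym hek (fun i => (m₁ i : ℤ)) (fun i => by
    have := Nat.pos_of_ne_zero (h0 i)
    exact_mod_cast this)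
  rw [StraightSp_expand, ← Finset.sum_product', ← Finset.add_sum_erase _ _
    (show ((1 : Equiv.Perm (Fin (g + 1))), (univ : Finset (Fin (g + 1)))) ∈
      (univ : Finset (Equiv.Perm (Fin (g + 1)))) ×ˢ (univ : Finset (Fin (g + 1))).powerset by
        simp)] at hdet
  have hfirst : (Equiv.Perm.sign (1 : Equiv.Perm (Fin (g + 1))) : ℤˣ) •
      ∏ i, StraightSp_F e m₁ 1 univ i = ∏ i, hh e (m₁ i) := by
    rw [Equiv.Perm.sign_one, one_smul]
    refine Finset.prod_congr rfl fun i _ => ?_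
    unfold StraightSp_F hhZ
    simp
  simp only [hfirst] at hdet
  rw [eq_neg_of_add_eq_zero_left hdet]
  refine AddSubgroup.neg_mem _ (AddSubgroup.sum_mem _ ?_)
  rintro ⟨σ, S⟩ hσS
  have hne : (σ, S) ≠ (1, univ) := (Finset.mem_erase.1 hσS).1
  have hmem : ∏ i, StraightSp_F e m₁ σ S i ∈ PK e g d := by
    rcases StraightSp_term e m₁ σ S with h | ⟨m', hm', hi⟩
    · rw [h]
      exact AddSubgroup.zero_mem _
    · rw [hm']
      by_cases hS : S = univ
      · subst hS
        have hσ : σ ≠ 1 := fun h => hne (by rw [h])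
        obtain ⟨h1, h2⟩ := StraightSp_eq m₁ m' σ hτ hσ
          (fun i => (hi i).1 (Finset.mem_univ i))
        have h3 := StraightSp_sq m'
        rw [h1, hd'] at h3
        refine IHq (d ^ 2 - ∑ i, m' i ^ 2) ?_ m' (h1.trans hd') rfl
        omega
      · have h1 := StraightSp_lt m₁ m' σ S hS hi
        rw [hd'] at h1
        exact StraightSp_mono e g h1.le (IHd _ h1 m' rfl)
  rcases Int.units_eq_one_or (Equiv.Perm.sign σ) with h | h
  · simp only [h, one_smul]
    exact hmem
  · simp only [h, Units.neg_smul, one_smul]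
    exact AddSubgroup.neg_mem _ hmem

/-- As `prod_e_mem`. -/
theorem prod_e_memSp {g : ℕ} (e : ℕ → R) (he0 : e 0 = 1)
    (hsym : ∀ j ≤ 2 * g, e (2 * g - j) = e j) (hek : ∀ j, 2 * g < j → e j = 0) (l : List ℕ) :
    (l.map e).prod ∈ PK e g l.sum := by
  -- multiplication by `h_a`
  have hM : ∀ (a d : ℕ) (x : R), x ∈ PK e g d → hh e a * x ∈ PK e g (a + d) := by
    intro a d x hx
    induction hx using AddSubgroup.closure_induction with
    | mem x hx =>
      obtain ⟨m, hm, rfl⟩ := hx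
      have h1 := straightSp e he0 hsym hek (Fin.cons a m : Fin (g + 1) → ℕ)
      rw [Fin.prod_univ_succ, Fin.sum_univ_succ] at h1
      simp only [Fin.cons_zero, Fin.cons_succ] at h1
      exact StraightSp_mono e g (Nat.add_le_add_left hm a) h1
    | zero => rw [mul_zero]; exact AddSubgroup.zero_mem _
    | add x y _ _ hx hy => rw [mul_add]; exact AddSubgroup.add_mem _ hx hy
    | neg x _ hx => rw [mul_neg]; exact AddSubgroup.neg_mem _ hx
  have hsign : ∀ (n d : ℕ) (x : R), x ∈ PK e g d → (-1) ^ n * x ∈ PK e g d := by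
    intro n d x hx
    rcases neg_one_pow_eq_or R n with h | h
    · rw [h, one_mul]; exact hx
    · rw [h, neg_one_mul]; exact AddSubgroup.neg_mem _ hx
  -- multiplication by `e_j`
  have hE : ∀ (j d : ℕ) (x : R), x ∈ PK e g d → e j * x ∈ PK e g (j + d) := by
    intro j
    induction j using Nat.strong_induction_on with
    | _ j IH =>
    intro d x hx
    rcases j with _ | n
    · rw [he0, one_mul, zero_add]; exact hx
    · have h1 := hh_succ e n
      rw [Finset.sum_range_succ, Nat.sub_self, hh_zero, mul_one] at h1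
      have h2 : e (n + 1) = (-1) ^ n * (hh e (n + 1) -
          ∑ j ∈ range n, (-1) ^ j * e (j + 1) * hh e (n - j)) := by
        rw [h1, add_sub_cancel_left, ← mul_assoc, ← mul_pow]
        norm_num
      rw [h2, mul_assoc, sub_mul, Finset.sum_mul]
      refine hsign _ _ _ (AddSubgroup.sub_mem _ (hM _ _ _ hx) (AddSubgroup.sum_mem _ ?_))
      intro j hj
      have hjn : j < n := Finset.mem_range.1 hj
      have h3 := IH (j + 1) (by omega) _ _ (hM (n - j) d x hx)
      have h4 : (j + 1) + (n - j + d) = n + 1 + d := by omega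
      rw [h4] at h3
      have h5 := hsign j _ _ h3
      rw [show (-1) ^ j * e (j + 1) * hh e (n - j) * x =
        (-1) ^ j * (e (j + 1) * (hh e (n - j) * x)) by ring]
      exact h5
  have h1 : (1 : R) ∈ PK e g 0 := by
    have h2 := StraightSp_gen e (n := g) (d := 0) (fun _ => 0) (by simp)
    simpa [hh_zero] using h2
  induction l with
  | nil => simpa using h1
  | cons j l ih =>
    rw [List.map_cons, List.prod_cons, List.sum_cons]
    exact hE j _ _ ih

end Pool.Agent.EEA520
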