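import Pool.Agent.W_eea520_h70.Gen70
import Pool.Agent.W_eea520_h70.StraightSp

/-! Exterior powers of a system which is closed under inversion. -/

set_option autoImplicit false

namespace Pool.Agent.EEA520

open Finset Polynomial

theorem SymE_inv (u : ℂˣ) : el u * el u⁻¹ = 1 := by
  unfold el
  rw [← map_mul, mul_inv_cancel, map_one]

/-- `e_{k-j}(x) = e_k(x) e_j(x⁻¹)` and `e_k(x) = 1`. -/
theorem extD_symm {k : ℕ} {σ : GLSys k} (hσ : ∀ p, ∏ l, σ p l = 1)
    (hinv : ∀ p, univ.val.map (fun l => (σ p l)⁻¹) = univ.val.map (σ p)) (j : ℕ) (hj : j ≤ k) :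
    extD σ (k - j) = extD σ j := by
  classical
  funext p
  have h1 : (∏ i, (1 + C (el (σ p i)) * X : A[X])) = ∏ i, (1 + C (el ((σ p i)⁻¹)) * X : A[X]) := by
    have e1 : (∏ i, (1 + C (el (σ p i)) * X : A[X])) =
        ((univ.val.map (σ p)).map fun u => (1 + C (el u) * X : A[X])).prod := by
      rw [Multiset.map_map]
      rfl
    have e2 : (∏ i, (1 + C (el ((σ p i)⁻¹)) * X : A[X])) =
        ((univ.val.map fun l => (σ p l)⁻¹).map fun u => (1 + C (el u) * X : A[X])).prod := by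
      rw [Multiset.map_map]
      rfl
    rw [e1, e2, hinv p]
  have h2 : extD σ j p = (∏ i, (1 + C (el ((σ p i)⁻¹)) * X : A[X])).coeff j := by
    rw [← h1]
    rfl
  rw [h2]
  unfold extD
  rw [Gen70_coeff, Gen70_coeff]
  have hall : ∏ i, el (σ p i) = 1 := by
    unfold el
    rw [← map_prod, hσ p, map_one]
  refine Finset.sum_nbij' (fun t => tᶜ) (fun t => tᶜ) ?_ ?_ ?_ ?_ ?_
  · intro t ht
    rw [mem_powersetCard] at ht ⊢
    refine ⟨subset_univ _, ?_⟩
    rw [card_compl, Fintype.card_fin, ht.2]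
    omega
  · intro t ht
    rw [mem_powersetCard] at ht ⊢
    refine ⟨subset_univ _, ?_⟩
    rw [card_compl, Fintype.card_fin, ht.2]
  · intro t _
    exact compl_compl t
  · intro t _
    exact compl_compl t
  · intro t _
    have h3 : (∏ i ∈ t, el (σ p i)) * ∏ i ∈ tᶜ, el (σ p i) = 1 := by
      rw [Finset.prod_mul_prod_compl, hall]
    have h4 : (∏ i ∈ tᶜ, el (σ p i)) * ∏ i ∈ tᶜ, el ((σ p i)⁻¹) = 1 := by
      rw [← Finset.prod_mul_distrib]
      exact Finset.prod_eq_one fun i _ => SymE_inv _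
    calc ∏ i ∈ t, el (σ p i) = (∏ i ∈ t, el (σ p i)) *
          ((∏ i ∈ tᶜ, el (σ p i)) * ∏ i ∈ tᶜ, el ((σ p i)⁻¹)) := by rw [h4, mul_one]
      _ = ∏ i ∈ tᶜ, el ((σ p i)⁻¹) := by rw [← mul_assoc, h3, one_mul]

/-- The generation property which is used in the proof: products of exterior powers are combinations
of products of `κ` complete symmetric functions. -/
def GenBy {k : ℕ} (σ : GLSys k) (κ : ℕ) : Prop :=
  ∀ l : List ℕ, (l.map (extD σ)).prod ∈ PK (extD σ) κ l.sum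

theorem genBy_of_det {k : ℕ} {σ : GLSys k} (hσ : ∀ p, ∏ l, σ p l = 1) {κ : ℕ} (hk : k = κ + 1) :
    GenBy σ κ := by
  intro l
  have h := prod_e_mem (k := k) (by omega) (extD σ) (extD_zero _) (extD_top hσ)
    (fun j hj => extD_of_lt σ j hj) l
  have h2 : k - 1 = κ := by omega
  rwa [h2] at h

theorem genBy_of_inv {k : ℕ} {σ : GLSys k} (hσ : ∀ p, ∏ l, σ p l = 1)
    (hinv : ∀ p, univ.val.map (fun l => (σ p l)⁻¹) = univ.val.map (σ p)) {κ : ℕ}
    (hk : k = 2 * κ) : GenBy σ κ := by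
  intro l
  subst hk
  exact prod_e_memSp (extD σ) (extD_zero _) (fun j hj => extD_symm hσ hinv j hj)
    (fun j hj => extD_of_lt σ j hj) l

/-- As `FF_le_closure`. -/
theorem FF_le_closure' {r : ℕ} {k : Fin r → ℕ} {τ : (i : Fin r) → GLSys (k i)} {κ : Fin r → ℕ}
    (hκ : ∀ i, GenBy (τ i) (κ i)) (d : ℕ) :
    FF τ d ≤ AddSubgroup.closure {D | ∃ m : (Σ i : Fin r, Fin (κ i)) → ℕ,
      ∑ y, m y ≤ d ∧ D = ∏ y, hh (extD (τ y.1)) (m y)} := by
  unfold FF
  rw [AddSubgroup.closure_le]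
  rintro _ ⟨l, hl, rfl⟩
  obtain ⟨L, h1, h2⟩ := Gen70_list (fun i => extD (τ i)) l
  have h3 : ∀ i ∈ (Finset.univ : Finset (Fin r)), ((L i).map (extD (τ i))).prod ∈
      PK (extD (τ i)) (κ i) (L i).sum := fun i _ => hκ i (L i)
  have h4 := Gen70_prod κ (fun i => extD (τ i)) (fun i => (L i).sum)
    (fun i => ((L i).map (extD (τ i))).prod) Finset.univ h3
  rw [SetLike.mem_coe, h2]
  refine AddSubgroup.closure_mono ?_ h4
  rintro _ ⟨m, hm, rfl⟩
  refine ⟨fun y => m y.1 y.2, ?_, ?_⟩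
  · rw [Fintype.sum_sigma]
    exact hm.trans (h1.le.trans hl)
  · rw [Fintype.prod_sigma]

end Pool.Agent.EEA520
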