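import Pool.Agent.W_eea520_h25.CuspA
import Pool.Agent.W_eea520_h70.Base

/-! The characters of `GSpin` at a system with given parameter. -/

set_option autoImplicit false

namespace Pool.Agent.EEA520

open Filter

/-- Two families with the same multiset of values differ by a bijection of the index sets. -/
private theorem pc_equiv {α β γ : Type} [Fintype α] [Fintype β] (f : α → γ) (g : β → γ)
    (h : Finset.univ.val.map f = Finset.univ.val.map g) : ∃ e : α ≃ β, ∀ a, g (e a) = f a := by
  classical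
  have hc : ∀ c : γ, Fintype.card {a // f a = c} = Fintype.card {b // g b = c} := by
    intro c
    have h1 := congrArg (Multiset.count c) h
    rw [Multiset.count_map, Multiset.count_map] at h1
    rw [Fintype.card_subtype, Fintype.card_subtype]
    simp only [Finset.card, Finset.filter_val]
    simp only [eq_comm (a := c)] at h1
    exact h1
  let e : α ≃ β := (Equiv.sigmaFiberEquiv f).symm.trans
    ((Equiv.sigmaCongrRight fun c => Fintype.equivOfCardEq (hc c)).trans (Equiv.sigmaFiberEquiv g))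
  refine ⟨e, fun a => ?_⟩
  exact (Fintype.equivOfCardEq (hc (f a)) ⟨a, rfl⟩).2

private theorem pc_map_eq_sum {α γ : Type} (s : Finset α) (f : α → γ) :
    s.val.map f = ∑ a ∈ s, ({f a} : Multiset γ) := by
  rw [Finset.sum_eq_multiset_sum]
  conv_lhs => rw [← Multiset.sum_map_singleton (s.val.map f), Multiset.map_map]
  rfl

/-- The value of an element of the group ring. -/
private theorem pc_evT {n : ℕ} (t : Torus n) (m : Wt n →₀ ℤ) :
    evT t (AddMonoidAlgebra.ofCoeff m) = m.sum fun w e => e • el (t.ev w) := by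
  have h0 : (AddMonoidAlgebra.single : Wt n → ℤ → R n) = fun w e => e • mon w := by
    funext w e
    simp [mon]
  have h1 : (AddMonoidAlgebra.ofCoeff m : R n) = m.sum fun w e => e • mon w := by
    conv_lhs => rw [← AddMonoidAlgebra.sum_coeff_single (AddMonoidAlgebra.ofCoeff m : R n), h0]
  rw [h1, Finsupp.sum, map_sum, Finsupp.sum]
  refine Finset.sum_congr rfl fun w _ => ?_
  rw [map_zsmul, evT_mon]

/-- Invariance under permutations. -/
private theorem pc_perm {n : ℕ} (t : Torus n) (m : Wt n →₀ ℤ)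
    (hm : ∀ (σ : Equiv.Perm (Fin n)) (κ : ℤ) (μ : Fin n → ℤ), m (κ, μ ∘ σ) = m (κ, μ))
    (σ : Equiv.Perm (Fin n)) :
    evT ⟨t.c, t.x ∘ σ⟩ (AddMonoidAlgebra.ofCoeff m) = evT t (AddMonoidAlgebra.ofCoeff m) := by
  classical
  rw [pc_evT, pc_evT]
  let φ : Wt n ≃ Wt n := Equiv.prodCongr (Equiv.refl ℤ) (Equiv.arrowCongr σ.symm (Equiv.refl ℤ))
  have hφ : ∀ w : Wt n, φ w = (w.1, w.2 ∘ σ) := fun w => by
    refine Prod.ext rfl ?_
    funext a
    rfl
  have hmφ : ∀ w, m (φ w) = m w := fun w => by rw [hφ]; exact hm σ w.1 w.2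
  have hev : ∀ w, (⟨t.c, t.x ∘ σ⟩ : Torus n).ev (φ w) = t.ev w := by
    intro w
    rw [hφ]
    show t.c ^ w.1 * ∏ i, t.x (σ i) ^ w.2 (σ i) = t.c ^ w.1 * ∏ i, t.x i ^ w.2 i
    rw [Equiv.prod_comp σ fun i => t.x i ^ w.2 i]
  symm
  rw [Finsupp.sum, Finsupp.sum]
  refine Finset.sum_equiv φ (fun w => ?_) fun w _ => ?_
  · rw [Finsupp.mem_support_iff, Finsupp.mem_support_iff, hmφ]
  · rw [hmφ, hev]

variable {r : ℕ} {k : Fin r → ℕ}

/-- The index set of the coordinates. -/
private abbrev PcI (k : Fin r → ℕ) (B : Finset (Fin r × ℕ)) (c : ℕ) : Type :=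
  (Σ y : B, Fin y.1.2 × Fin (k y.1.1)) ⊕ Fin c

/-- The part of the coordinate which comes from `τ`. -/
private def pcT (τ : (i : Fin r) → GLSys (k i)) (B : Finset (Fin r × ℕ)) (c : ℕ) (p : Pr) :
    PcI k B c → ℂˣ
  | Sum.inl y => τ y.1.1.1 p y.2.2
  | Sum.inr _ => 1

/-- The exponent of `p` in the coordinate. -/
private noncomputable def pcZ (k : Fin r → ℕ) (B : Finset (Fin r × ℕ)) (c : ℕ) :
    PcI k B c → ℂ
  | Sum.inl y => -((y.2.1 : ℕ) + 1 / 2 : ℂ)
  | Sum.inr j => -((j : ℕ) + 1 : ℂ)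

private theorem pc_multiset (τ : (i : Fin r) → GLSys (k i)) (B : Finset (Fin r × ℕ)) (c : ℕ)
    (p : Pr) :
    (Finset.univ.val.map fun i : PcI k B c => pcT τ B c p i * ppow p (pcZ k B c i)) =
      (∑ y ∈ B, ∑ j ∈ Finset.range y.2,
        Finset.univ.val.map fun l => τ y.1 p l * ppow p (-((j : ℂ) + 1 / 2))) +
      ∑ j ∈ Finset.range c, {ppow p (-((j : ℂ) + 1))} := by
  rw [pc_map_eq_sum, Fintype.sum_sum_type, Fintype.sum_sigma]
  congr 1
  · rw [← Finset.sum_coe_sort B]
    refine Finset.sum_congr rfl fun y _ => ?_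
    rw [Fintype.sum_prod_type, Finset.sum_range]
    refine Finset.sum_congr rfl fun j _ => ?_
    rw [pc_map_eq_sum]
    rfl
  · rw [Finset.sum_range]
    refine Finset.sum_congr rfl fun j _ => ?_
    show ({1 * ppow p (-((j : ℕ) + 1 : ℂ))} : Multiset ℂˣ) = _
    rw [one_mul]

private theorem pc_prodEv_add (τ : (i : Fin r) → GLSys (k i)) (p : Pr) (μ ν : PWt k) :
    prodEv τ p (μ + ν) = prodEv τ p μ * prodEv τ p ν := by
  unfold prodEv
  rw [← Finset.prod_mul_distrib]
  refine Finset.prod_congr rfl fun i _ => ?_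
  rw [← Finset.prod_mul_distrib]
  refine Finset.prod_congr rfl fun l _ => ?_
  rw [Pi.add_apply, Pi.add_apply, zpow_add]

private theorem pc_prodEv_zero (τ : (i : Fin r) → GLSys (k i)) (p : Pr) :
    prodEv τ p (0 : PWt k) = 1 := by
  unfold prodEv
  refine Finset.prod_eq_one fun i _ => Finset.prod_eq_one fun l _ => ?_
  rw [Pi.zero_apply, Pi.zero_apply, zpow_zero]

private theorem pc_prodEv_sum {ι : Type} (τ : (i : Fin r) → GLSys (k i)) (p : Pr) (s : Finset ι)
    (f : ι → PWt k) : prodEv τ p (∑ a ∈ s, f a) = ∏ a ∈ s, prodEv τ p (f a) := by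
  classical
  induction s using Finset.induction_on with
  | empty => rw [Finset.sum_empty, Finset.prod_empty, pc_prodEv_zero]
  | insert a s ha ih => rw [Finset.sum_insert ha, Finset.prod_insert ha, pc_prodEv_add, ih]

private theorem pc_prodEv_single (τ : (i : Fin r) → GLSys (k i)) (p : Pr) (i : Fin r)
    (f : Fin (k i) → ℤ) : prodEv τ p (Pi.single i f : PWt k) = ∏ l, τ i p l ^ f l := by
  unfold prodEv
  rw [Finset.prod_eq_single i]
  · rw [Pi.single_eq_same]
  · intro j _ hj
    refine Finset.prod_eq_one fun l _ => ?_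
    rw [Pi.single_eq_of_ne hj, Pi.zero_apply, zpow_zero]
  · intro h
    exact absurd (Finset.mem_univ _) h

/-- The weight of `∏ GL_{k_i}` of an exponent vector. -/
private noncomputable def pcN (k : Fin r → ℕ) (B : Finset (Fin r × ℕ)) (c : ℕ)
    (g : PcI k B c → ℤ) : PWt k :=
  ∑ y : B, ∑ j : Fin y.1.2, Pi.single y.1.1 fun l => g (Sum.inl ⟨y, (j, l)⟩)

private theorem pc_prod (τ : (i : Fin r) → GLSys (k i)) (B : Finset (Fin r × ℕ)) (c : ℕ) (p : Pr)
    (g : PcI k B c → ℤ) :
    ∏ i : PcI k B c, (pcT τ B c p i * ppow p (pcZ k B c i)) ^ g i =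
      prodEv τ p (pcN k B c g) * ppow p (∑ i, g i * pcZ k B c i) := by
  have h1 : ∏ i : PcI k B c, (pcT τ B c p i) ^ g i = prodEv τ p (pcN k B c g) := by
    rw [Fintype.prod_sum_type, Fintype.prod_sigma, pcN, pc_prodEv_sum]
    have h2 : ∏ j : Fin c, pcT τ B c p (Sum.inr j) ^ g (Sum.inr j) = 1 := by
      refine Finset.prod_eq_one fun j _ => ?_
      show (1 : ℂˣ) ^ _ = 1
      rw [one_zpow]
    rw [h2, mul_one]
    refine Finset.prod_congr rfl fun y _ => ?_
    rw [pc_prodEv_sum, Fintype.prod_prod_type]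
    refine Finset.prod_congr rfl fun j _ => ?_
    rw [pc_prodEv_single]
    rfl
  have h3 : ∀ s : Finset (PcI k B c), ∏ i ∈ s, (ppow p (pcZ k B c i)) ^ g i =
      ppow p (∑ i ∈ s, g i * pcZ k B c i) := by
    classical
    intro s
    induction s using Finset.induction_on with
    | empty => rw [Finset.sum_empty, Finset.prod_empty, ppow_zero]
    | insert a s ha ih =>
      rw [Finset.sum_insert ha, Finset.prod_insert ha, ih, ppow_add, ppow_int_mul]
  rw [← h1, ← h3, ← Finset.prod_mul_distrib]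
  refine Finset.prod_congr rfl fun i _ => ?_
  rw [mul_zpow]

/-- Proof. Let `I` be the finite type of triples (`y ∈ B`, `j < y.2`, `l : Fin (k y.1)`) and numbers
`j < c`; the multiset in `HasParameter` is the multiset of the values `X_ι(p)`, `ι ∈ I`,
`X_{y,j,l}(p) = τ y.1 p l * p ^ (-(j + 1/2))`, `X_j(p) = p ^ (-(j+1))`. For almost all `p` there is a
bijection `E_p : Fin n ≃ I` with `x_a = X_{E_p a}` (equality of multisets; `Multiset.map` of
`univ.val`); fix a bijection `E : Fin n ≃ I` (if `n ≠ |I|` the hypothesis is false at almost all `p`, which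
is impossible as there are infinitely many primes; or then nothing is to be proved). As `m` is
invariant under the permutations of the coordinates, the value of `m` at `π p` does not change if the
`x_a` are replaced by the `X_{E a}`. So for almost all `p`
`Phi π (ofCoeff m) p = ∑_{(κ, μ)} m(κ, μ) [c ^ κ ∏_a X_{E a} ^ μ_a]`
`= ∑_{(κ, μ)} m(κ, μ) [p ^ z(κ, μ)] [prodEv τ p ν(μ)]` where
`ν(μ)_{i,l} = ∑_{y, j : y.1 = i} μ_{E⁻¹(y, j, l)}` and
`z(κ, μ) = κ height - ∑_{y,j,l} (j + 1/2) μ - ∑_j (j + 1) μ`. Group the terms by the (finitely many) values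
`z` of `z(κ, μ)`: `m_z = ∑_{z(κ, μ) = z} m(κ, μ) δ_{ν(μ)}`. It is invariant under `∏ S_{k_i}`: a
permutation `σ_i` of `Fin (k i)` for every `i` acts on `I` by `(y, j, l) ↦ (y, j, σ_{y.1} l)`, this does
not change `z`, and `m` is invariant under all permutations of `I`. -/
theorem param_char {r : ℕ} {k : Fin r → ℕ} {τ : (i : Fin r) → GLSys (k i)}
    {B : Finset (Fin r × ℕ)} {c n : ℕ} {π : GSys n} (h : HasParameter τ B c π) (m : Wt n →₀ ℤ)
    (hm : ∀ (σ : Equiv.Perm (Fin n)) (κ : ℤ) (μ : Fin n → ℤ), m (κ, μ ∘ σ) = m (κ, μ)) :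
    ∃ L : List (ℂ × (PWt k →₀ ℤ)), (∀ y ∈ L, IsProdSymmetric y.2) ∧
      ∀ᶠ p in cofinite, Phi π (AddMonoidAlgebra.ofCoeff m) p =
        ((L.map fun y => tw y.1 * prodD τ y.2).sum) p := by
  classical
  -- a bijection of the index sets
  have hev : ∀ᶠ p in cofinite, (π p).c = ppow p (height k B c) ∧ ∃ e : Fin n ≃ PcI k B c,
      ∀ a, pcT τ B c p (e a) * ppow p (pcZ k B c (e a)) = (π p).x a := by
    filter_upwards [h] with p hp
    refine ⟨hp.1, ?_⟩
    refine pc_equiv (π p).x (fun i : PcI k B c => pcT τ B c p i * ppow p (pcZ k B c i)) ?_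
    rw [hp.2, pc_multiset]
  obtain ⟨p₀, -, E, -⟩ := hev.exists
  -- the data of the expansion
  let z : Wt n → ℂ := fun w => w.1 * (height k B c : ℂ) + ∑ i : PcI k B c, (w.2 (E.symm i) : ℂ) * pcZ k B c i
  let ν : Wt n → PWt k := fun w => pcN k B c fun i => w.2 (E.symm i)
  have hval : ∀ᶠ p in cofinite, Phi π (AddMonoidAlgebra.ofCoeff m) p =
      m.sum fun w e => e • (el (ppow p (z w)) * el (prodEv τ p (ν w))) := by
    filter_upwards [hev] with p hp
    obtain ⟨hc, e, he⟩ := hp
    set t : Torus n := ⟨(π p).c, fun a => pcT τ B c p (E a) * ppow p (pcZ k B c (E a))⟩ with ht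
    have h1 : π p = ⟨t.c, t.x ∘ (e.trans E.symm)⟩ := by
      refine Torus.ext rfl ?_
      funext a
      show (π p).x a = pcT τ B c p (E (E.symm (e a))) * ppow p (pcZ k B c (E (E.symm (e a))))
      rw [Equiv.apply_symm_apply, he]
    show evT (π p) _ = _
    rw [h1, pc_perm t m hm, pc_evT]
    refine Finsupp.sum_congr fun w _ => ?_
    congr 1
    have h2 : t.ev w = ppow p (z w) * prodEv τ p (ν w) := by
      show (π p).c ^ w.1 * ∏ a, (pcT τ B c p (E a) * ppow p (pcZ k B c (E a))) ^ w.2 a = _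
      have h3 : ∏ a, (pcT τ B c p (E a) * ppow p (pcZ k B c (E a))) ^ w.2 a =
          ∏ i : PcI k B c, (pcT τ B c p i * ppow p (pcZ k B c i)) ^ w.2 (E.symm i) := by
        rw [← Equiv.prod_comp E]
        refine Finset.prod_congr rfl fun a _ => ?_
        rw [Equiv.symm_apply_apply]
      rw [h3, pc_prod, hc, ← ppow_int_mul]
      show _ = ppow p (w.1 * (height k B c : ℂ) + ∑ i : PcI k B c, (w.2 (E.symm i) : ℂ) * pcZ k B c i) * _
      rw [ppow_add]
      simp only [mul_comm, mul_left_comm, ν]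
    rw [h2]
    simp only [el, map_mul]
  -- the list
  let mz : ℂ → (PWt k →₀ ℤ) := fun ζ => (m.filter fun w => z w = ζ).mapDomain ν
  refine ⟨(m.support.image z).toList.map fun ζ => (ζ, mz ζ), ?_, ?_⟩
  · intro y hy
    obtain ⟨ζ, -, rfl⟩ := List.mem_map.1 hy
    intro σ μ
    show mz ζ (fun i => μ i ∘ σ i) = mz ζ μ
    -- the permutation of the index set
    let P : Equiv.Perm (PcI k B c) := Equiv.sumCongr
      (Equiv.sigmaCongrRight fun y : B => Equiv.prodCongr (Equiv.refl _) (σ y.1.1)) (Equiv.refl _)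
    let Q : Equiv.Perm (Fin n) := (E.trans P).trans E.symm
    let φ : Wt n ≃ Wt n := Equiv.prodCongr (Equiv.refl ℤ) (Equiv.arrowCongr Q.symm (Equiv.refl ℤ))
    have hφ : ∀ w : Wt n, φ w = (w.1, w.2 ∘ Q) := fun w => by
      refine Prod.ext rfl ?_
      funext a
      rfl
    have hmφ : ∀ w, m (φ w) = m w := fun w => by rw [hφ]; exact hm Q w.1 w.2
    have hzφ : ∀ w, z (φ w) = z w := by
      intro w
      rw [hφ]
      show w.1 * (height k B c : ℂ) + ∑ i : PcI k B c, (w.2 (Q (E.symm i)) : ℂ) * pcZ k B c i =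
        w.1 * (height k B c : ℂ) + ∑ i : PcI k B c, (w.2 (E.symm i) : ℂ) * pcZ k B c i
      congr 1
      rw [← Equiv.sum_comp P fun i => (w.2 (E.symm i) : ℂ) * pcZ k B c i]
      refine Finset.sum_congr rfl fun i _ => ?_
      have h1 : pcZ k B c (P i) = pcZ k B c i := by
        rcases i with y | j
        · rfl
        · rfl
      have h2 : Q (E.symm i) = E.symm (P i) := by
        show E.symm (P (E (E.symm i))) = E.symm (P i)
        rw [Equiv.apply_symm_apply]
      rw [h1, h2]
    let Rσ : PWt k → PWt k := fun μ i => μ i ∘ σ i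
    have hRinj : Function.Injective Rσ := by
      intro a b hab
      funext i
      have h1 := congrFun hab i
      exact (σ i).surjective.injective_comp_right h1
    have hRadd : ∀ a b : PWt k, Rσ (a + b) = Rσ a + Rσ b := fun a b => rfl
    have hRsum : ∀ {ι : Type} (s : Finset ι) (f : ι → PWt k), Rσ (∑ a ∈ s, f a) = ∑ a ∈ s, Rσ (f a) := by
      intro ι s f
      induction s using Finset.induction_on with
      | empty => rw [Finset.sum_empty, Finset.sum_empty]; rfl
      | insert a s ha ih => rw [Finset.sum_insert ha, Finset.sum_insert ha, hRadd, ih]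
    have hRsingle : ∀ (i : Fin r) (f : Fin (k i) → ℤ),
        Rσ (Pi.single i f : PWt k) = (Pi.single i (f ∘ σ i) : PWt k) := by
      intro i f
      funext j
      show (Pi.single i f : PWt k) j ∘ σ j = (Pi.single i (f ∘ σ i) : PWt k) j
      by_cases hj : j = i
      · subst hj
        rw [Pi.single_eq_same, Pi.single_eq_same]
      · rw [Pi.single_eq_of_ne hj, Pi.single_eq_of_ne hj]
        rfl
    have hνφ : ∀ w, ν (φ w) = Rσ (ν w) := by
      intro w
      rw [hφ]
      show (∑ y : B, ∑ j : Fin y.1.2,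
        (Pi.single y.1.1 fun l => w.2 (Q (E.symm (Sum.inl ⟨y, (j, l)⟩))) : PWt k)) =
        Rσ (∑ y : B, ∑ j : Fin y.1.2,
          (Pi.single y.1.1 fun l => w.2 (E.symm (Sum.inl ⟨y, (j, l)⟩)) : PWt k))
      rw [hRsum]
      refine Finset.sum_congr rfl fun y _ => ?_
      rw [hRsum]
      refine Finset.sum_congr rfl fun j _ => ?_
      rw [hRsingle]
      congr 1
      funext l
      show w.2 (E.symm (P (E (E.symm (Sum.inl ⟨y, (j, l)⟩))))) = _
      rw [Equiv.apply_symm_apply]
      rfl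
    set m' := m.filter fun w => z w = ζ with hm'
    have hm'φ : m'.mapDomain φ = m' := by
      ext w
      obtain ⟨v, rfl⟩ := φ.surjective w
      rw [Finsupp.mapDomain_apply φ.injective, hm', Finsupp.filter_apply, Finsupp.filter_apply,
        hzφ, hmφ]
    have h2 : mz ζ = (mz ζ).mapDomain Rσ := by
      show m'.mapDomain ν = (m'.mapDomain ν).mapDomain Rσ
      conv_lhs => rw [← hm'φ]
      rw [← Finsupp.mapDomain_comp, ← Finsupp.mapDomain_comp]
      congr 1
      funext w
      exact hνφ w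
    conv_lhs => rw [h2]
    exact Finsupp.mapDomain_apply hRinj _ μ
  · filter_upwards [hval] with p hp
    rw [hp, List.map_map]
    have h1 : ((((m.support.image z).toList.map
        ((fun y : ℂ × (PWt k →₀ ℤ) => tw y.1 * prodD τ y.2) ∘ fun ζ => (ζ, mz ζ))).sum : Dat) p) =
        ∑ ζ ∈ m.support.image z, el (ppow p ζ) * (mz ζ).sum fun μ e => e • el (prodEv τ p μ) := by
      have h3 : ((m.support.image z).toList.map
          ((fun y : ℂ × (PWt k →₀ ℤ) => tw y.1 * prodD τ y.2) ∘ fun ζ => (ζ, mz ζ))).sum =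
          ∑ ζ ∈ m.support.image z, (tw ζ * prodD τ (mz ζ) : Dat) := Finset.sum_map_toList _ _
      rw [h3, Finset.sum_apply]
      exact Finset.sum_congr rfl fun ζ _ => rfl
    rw [h1]
    have h2 : ∀ ζ, ((mz ζ).sum fun μ e => e • el (prodEv τ p μ)) =
        ∑ w ∈ m.support.filter (fun w => z w = ζ), m w • el (prodEv τ p (ν w)) := by
      intro ζ
      show ((m.filter fun w => z w = ζ).mapDomain ν).sum _ = _
      rw [Finsupp.sum_mapDomain_index (h := fun μ e => e • el (prodEv τ p μ))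
        (fun _ => zero_smul _ _) (fun _ _ _ => add_smul _ _ _)]
      rw [Finsupp.sum, Finsupp.support_filter]
      refine Finset.sum_congr rfl fun w hw => ?_
      rw [Finsupp.filter_apply, if_pos (Finset.mem_filter.1 hw).2]
    rw [Finsupp.sum, ← Finset.sum_fiberwise_of_maps_to (g := z) (t := m.support.image z)
      (fun w hw => Finset.mem_image_of_mem z hw)]
    refine Finset.sum_congr rfl fun ζ _ => ?_
    rw [h2, Finset.mul_sum]
    refine Finset.sum_congr rfl fun w hw => ?_
    rw [(Finset.mem_filter.1 hw).2, mul_smul_comm]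

end Pool.Agent.EEA520
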