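import Pool.Agent.W_eea520_h69.ZDefs
import Pool.Agent.W_eea520_h70.Base

/-! The Euler product of a character of `GL_{k_1} × … × GL_{k_r}`. -/

set_option autoImplicit false

namespace Pool.Agent.EEA520

open Filter

/-- The system for `GL_N`, `N = ∑ k i`. -/
noncomputable def ProdIff_pi {r : ℕ} {k : Fin r → ℕ} (τ : (i : Fin r) → GLSys (k i)) :
    GSys (∑ i, k i) := fun p =>
  ⟨1, fun l => τ (finSigmaFinEquiv.symm l).1 p (finSigmaFinEquiv.symm l).2⟩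

/-- The weight of `GL_N`. -/
def ProdIff_phi {r : ℕ} {k : Fin r → ℕ} (μ : PWt k) : Wt (∑ i, k i) :=
  (0, fun l => μ (finSigmaFinEquiv.symm l).1 (finSigmaFinEquiv.symm l).2)

theorem ProdIff_inj {r : ℕ} {k : Fin r → ℕ} : Function.Injective (ProdIff_phi (k := k)) := by
  intro μ ν h
  funext i l
  have h1 : (fun x : (i : Fin r) × Fin (k i) => μ x.1 x.2)
      (finSigmaFinEquiv.symm (finSigmaFinEquiv ⟨i, l⟩)) =
      (fun x : (i : Fin r) × Fin (k i) => ν x.1 x.2)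
      (finSigmaFinEquiv.symm (finSigmaFinEquiv ⟨i, l⟩)) :=
    congrFun (congrArg Prod.snd h) (finSigmaFinEquiv ⟨i, l⟩)
  rw [Equiv.symm_apply_apply] at h1
  exact h1

theorem ProdIff_ev {r : ℕ} {k : Fin r → ℕ} (τ : (i : Fin r) → GLSys (k i)) (p : Pr)
    (μ : PWt k) : (ProdIff_pi τ p).ev (ProdIff_phi μ) = prodEv τ p μ := by
  unfold Torus.ev ProdIff_phi ProdIff_pi prodEv
  simp only [one_zpow, one_mul]
  rw [Equiv.prod_comp (finSigmaFinEquiv (n := k)).symm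
    (fun x : (i : Fin r) × Fin (k i) => τ x.1 p x.2 ^ μ x.1 x.2), Fintype.prod_sigma]

theorem ProdIff_factor {r : ℕ} {k : Fin r → ℕ} (τ : (i : Fin r) → GLSys (k i)) (p : Pr)
    (m : PWt k →₀ ℤ) (q : ℂ) : (ProdIff_pi τ p).factor (m.mapDomain ProdIff_phi) q =
      m.prod fun μ e => (1 - (prodEv τ p μ : ℂ) * q) ^ (-e) := by
  unfold Torus.factor
  rw [Finsupp.prod_mapDomain_index_inj ProdIff_inj]
  refine Finset.prod_congr rfl fun μ _ => ?_
  simp only [ProdIff_ev]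

theorem ProdIff_Phi {r : ℕ} {k : Fin r → ℕ} (τ : (i : Fin r) → GLSys (k i))
    (m : PWt k →₀ ℤ) : Phi (ProdIff_pi τ)
      (AddMonoidAlgebra.ofCoeff (m.mapDomain ProdIff_phi)) = prodD τ m := by
  funext p
  have h1 : Phi (ProdIff_pi τ) (AddMonoidAlgebra.ofCoeff (m.mapDomain ProdIff_phi)) p =
      (m.mapDomain ProdIff_phi).sum fun w e => e • el ((ProdIff_pi τ p).ev w) := by
    change (AddMonoidAlgebra.lift ℤ A (Wt (∑ i, k i)) _) _ = _
    rw [AddMonoidAlgebra.lift_apply]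
    rfl
  rw [h1, Finsupp.sum_mapDomain_index_inj ProdIff_inj]
  refine Finset.sum_congr rfl fun μ _ => ?_
  simp only [ProdIff_ev]

theorem ProdIff_bdd {r : ℕ} {k : Fin r → ℕ} {τ : (i : Fin r) → GLSys (k i)}
    (hτ : ∀ i, PolyBoundedL (τ i)) : Bdd (ProdIff_pi τ) := by
  choose B hB using hτ
  have hB' : ∀ᶠ p : Pr in cofinite, ∀ i : Fin r, ∀ l, ‖(τ i p l : ℂ)‖ ≤ ((p : ℕ) : ℝ) ^ B i ∧
      ‖(((τ i p l)⁻¹ : ℂˣ) : ℂ)‖ ≤ ((p : ℕ) : ℝ) ^ B i := eventually_all.2 hB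
  refine ⟨∑ i, |B i|, hB'.mono fun p hp => ⟨?_, fun l => ?_⟩⟩
  · have h1 : (1 : ℝ) ≤ ((p : ℕ) : ℝ) ^ ∑ i, |B i| :=
      Real.one_le_rpow (by exact_mod_cast p.2.one_lt.le) (Finset.sum_nonneg fun i _ => abs_nonneg _)
    constructor
    · change ‖((1 : ℂˣ) : ℂ)‖ ≤ _
      simpa using h1
    · change ‖(((1 : ℂˣ)⁻¹ : ℂˣ) : ℂ)‖ ≤ _
      simpa using h1
  · obtain ⟨x, hx⟩ : ∃ x, x = finSigmaFinEquiv.symm l := ⟨_, rfl⟩
    have h1 : ((p : ℕ) : ℝ) ^ B x.1 ≤ ((p : ℕ) : ℝ) ^ ∑ i, |B i| :=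
      Real.rpow_le_rpow_of_exponent_le (by exact_mod_cast p.2.one_lt.le)
        ((le_abs_self _).trans (Finset.single_le_sum (f := fun i => |B i|)
          (fun i _ => abs_nonneg _) (Finset.mem_univ x.1)))
    have h2 : (ProdIff_pi τ p).x l = τ x.1 p x.2 := by rw [hx]; rfl
    rw [h2]
    exact ⟨(hp x.1 x.2).1.trans h1, (hp x.1 x.2).2.trans h1⟩

/-- Proof. Let `N = ∑ k i` and `E : (Σ i, Fin (k i)) ≃ Fin N` (`finSigmaFinEquiv`). The system
`π p = ⟨1, fun l => τ _ p _⟩ : Torus N` (all parameters of all `τ i`) is bounded (`Bdd`), and the map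
`μ ↦ (0, fun l => μ _ _)` from `PWt k` to `Wt N` is injective. As in `Main_gl`, `Main_gl_factor`
(`W_eea520_h25/Main.lean`) `ProdContinues τ m` is the same as `Continues π m'` for the image `m'` of `m`
(`Finsupp.mapDomain`), and `Phi π (ofCoeff m') = prodD τ m`; so it follows from `continues_iff`. -/
theorem prodContinues_iff {r : ℕ} {k : Fin r → ℕ} {τ : (i : Fin r) → GLSys (k i)}
    (hτ : ∀ i, PolyBoundedL (τ i)) (m : PWt k →₀ ℤ) : ProdContinues τ m ↔ Cont (prodD τ m) := by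
  have h1 := continues_iff (ProdIff_bdd hτ)
    (AddMonoidAlgebra.ofCoeff (m.mapDomain (ProdIff_phi (k := k))))
  rw [ProdIff_Phi] at h1
  rw [← h1]
  unfold ProdContinues Continues
  have h2 : ∀ (p : Pr) (q : ℂ), (ProdIff_pi τ p).factor
      (AddMonoidAlgebra.ofCoeff (m.mapDomain (ProdIff_phi (k := k)))).coeff q =
      m.prod fun μ e => (1 - (prodEv τ p μ : ℂ) * q) ^ (-e) := fun p q => ProdIff_factor τ p m q
  simp only [h2]

end Pool.Agent.EEA520
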