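import Pool.Agent.W_eea520_h25.SymA
import Pool.Agent.W_eea520_h70.Bound

/-! Characters of `GL_{k_1} × … × GL_{k_r}` are polynomials in the exterior powers. -/

set_option autoImplicit false

namespace Pool.Agent.EEA520

open Filter

variable {r : ℕ} {k : Fin r → ℕ} {τ : (i : Fin r) → GLSys (k i)}

/-- the union of the filtration -/
noncomputable def ProdSymm_U (τ : (i : Fin r) → GLSys (k i)) : Subring Dat where
  carrier := {D | ∃ d, D ∈ FF τ d}
  zero_mem' := ⟨0, zero_mem _⟩
  one_mem' := ⟨0, (isFilt_FF τ).one⟩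
  add_mem' := by
    rintro a b ⟨d, hd⟩ ⟨e, he⟩
    exact ⟨max d e, add_mem ((isFilt_FF τ).mono (le_max_left d e) hd)
      ((isFilt_FF τ).mono (le_max_right d e) he)⟩
  neg_mem' := by
    rintro a ⟨d, hd⟩
    exact ⟨d, neg_mem hd⟩
  mul_mem' := by
    rintro a b ⟨d, hd⟩ ⟨e, he⟩
    exact ⟨d + e, (isFilt_FF τ).mul d e a b hd he⟩

theorem ProdSymm_mem (D : Dat) : D ∈ ProdSymm_U τ ↔ ∃ d, D ∈ FF τ d := Iff.rfl

theorem ProdSymm_Phi_extG {k : ℕ} (σ : GLSys k) (a : ℕ) (p : Pr) :
    Phi (fun p => (⟨1, σ p⟩ : Torus k)) (extG k a) p = extD σ a p := by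
  change evT _ ((∏ i : Fin k, (1 + Polynomial.C (mon (0, Pi.single i 1)) * Polynomial.X :
    Polynomial (R k))).coeff a) = _
  rw [← Polynomial.coeff_map, Polynomial.map_prod]
  unfold extD
  congr 2
  funext i
  rw [Polynomial.map_add, Polynomial.map_one, Polynomial.map_mul, Polynomial.map_C,
    Polynomial.map_X, evT_mon]
  congr 3
  congr 1
  simp only [Torus.ev, one_zpow, one_mul]
  rw [Finset.prod_eq_single i]
  · rw [Pi.single_eq_same, zpow_one]
  · intro j _ hj
    rw [Pi.single_eq_of_ne hj, zpow_zero]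
  · intro h
    exact absurd (Finset.mem_univ i) h

theorem ProdSymm_ofCoeff {k : ℕ} (m : (Fin k → ℤ) →₀ ℤ) :
    (AddMonoidAlgebra.ofCoeff (m.mapDomain fun μ => ((0 : ℤ), μ)) : R k) =
      ∑ μ ∈ m.support, m μ • mon ((0 : ℤ), μ) := by
  unfold Finsupp.mapDomain
  rw [AddMonoidAlgebra.ofCoeff_finsuppSum]
  refine Finset.sum_congr rfl fun μ _ => ?_
  change AddMonoidAlgebra.ofCoeff (Finsupp.single ((0 : ℤ), μ) (m μ)) = _
  rw [AddMonoidAlgebra.ofCoeff_single]
  unfold mon
  rw [AddMonoidAlgebra.smul_single, smul_eq_mul, mul_one]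

theorem ProdSymm_Phi {k : ℕ} (σ : GLSys k) (m : (Fin k → ℤ) →₀ ℤ) :
    Phi (fun p => (⟨1, σ p⟩ : Torus k))
      (AddMonoidAlgebra.ofCoeff (m.mapDomain fun μ => ((0 : ℤ), μ)) : R k) =
      (fun p => m.sum fun μ e => e • el (∏ l, σ p l ^ μ l) : Dat) := by
  funext p
  rw [ProdSymm_ofCoeff]
  change evT _ _ = _
  rw [map_sum]
  refine Finset.sum_congr rfl fun μ _ => ?_
  rw [map_zsmul, evT_mon]
  simp only [Torus.ev, one_zpow, one_mul]

theorem ProdSymm_prodD_add (m m' : PWt k →₀ ℤ) : prodD τ (m + m') = prodD τ m + prodD τ m' := by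
  funext p
  change (m + m').sum (fun μ e => e • el (prodEv τ p μ)) =
    m.sum (fun μ e => e • el (prodEv τ p μ)) + m'.sum (fun μ e => e • el (prodEv τ p μ))
  exact Finsupp.sum_add_index' (fun _ => zero_smul _ _) (fun _ _ _ => add_smul _ _ _)

/-- the orbit of a weight -/
def ProdSymm_orb {k : ℕ} (μ : Fin k → ℤ) : Finset (Fin k → ℤ) :=
  Finset.univ.image fun σ : Equiv.Perm (Fin k) => μ ∘ σ

theorem ProdSymm_mem_orb {k : ℕ} (μ ν : Fin k → ℤ) :
    ν ∈ ProdSymm_orb μ ↔ ∃ σ : Equiv.Perm (Fin k), μ ∘ σ = ν := by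
  unfold ProdSymm_orb
  rw [Finset.mem_image]
  constructor
  · rintro ⟨σ, -, h⟩
    exact ⟨σ, h⟩
  · rintro ⟨σ, h⟩
    exact ⟨σ, Finset.mem_univ _, h⟩

theorem ProdSymm_orb_comp {k : ℕ} (μ ν : Fin k → ℤ) (σ : Equiv.Perm (Fin k)) :
    ν ∘ σ ∈ ProdSymm_orb μ ↔ ν ∈ ProdSymm_orb μ := by
  rw [ProdSymm_mem_orb, ProdSymm_mem_orb]
  constructor
  · rintro ⟨ρ, h⟩
    refine ⟨σ.symm.trans ρ, ?_⟩
    funext j
    have h1 := congrFun h (σ.symm j)
    simp only [Function.comp_apply, Equiv.apply_symm_apply] at h1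
    exact h1
  · rintro ⟨ρ, h⟩
    refine ⟨σ.trans ρ, ?_⟩
    rw [← h]
    rfl

/-- the function of an orbit of one factor -/
noncomputable def ProdSymm_ind {k : ℕ} (μ : Fin k → ℤ) : (Fin k → ℤ) →₀ ℤ :=
  Finsupp.indicator (ProdSymm_orb μ) fun _ _ => 1

theorem ProdSymm_ind_symm {k : ℕ} (μ : Fin k → ℤ) : IsSymmetric (ProdSymm_ind μ) := by
  classical
  intro σ ν
  unfold ProdSymm_ind
  rw [Finsupp.indicator_apply, Finsupp.indicator_apply]
  by_cases h : ν ∈ ProdSymm_orb μ
  · rw [dif_pos h, dif_pos ((ProdSymm_orb_comp μ ν σ).2 h)]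
  · rw [dif_neg h, dif_neg (fun h' => h ((ProdSymm_orb_comp μ ν σ).1 h'))]

theorem ProdSymm_ind_sum {k : ℕ} (μ : Fin k → ℤ) (f : (Fin k → ℤ) → A) :
    (ProdSymm_ind μ).sum (fun ν e => e • f ν) = ∑ ν ∈ ProdSymm_orb μ, f ν := by
  classical
  unfold ProdSymm_ind
  rw [Finsupp.sum_of_support_subset _ (Finsupp.support_indicator_subset _ _)
    (fun ν e => e • f ν) (fun _ _ => zero_smul _ _)]
  refine Finset.sum_congr rfl fun ν hν => ?_
  rw [Finsupp.indicator_apply, dif_pos hν, one_smul]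

/-- One factor: for a symmetric `m` the element `p ↦ ∑ m(μ) [∏ τ_l ^ μ_l]` is a polynomial in the
exterior powers, by `symm_alg` (`W_eea520_h25/SymA.lean`) with `U` the set of the `f` with
`Phi π f ∈ ⋃_d FF τ d`, `π = ⟨1, τ i⟩` (`mon (0, j)` is mapped to `[(∏ τ_l) ^ j] = 1`, and `extG` to `extD`,
see `Main_Phi_extG` in `W_eea520_h25/Main.lean`). -/
theorem symm_mem (hτ : ∀ i p, ∏ l, τ i p l = 1) (i : Fin r) (m : (Fin (k i) → ℤ) →₀ ℤ)
    (hm : IsSymmetric m) :
    ∃ d, (fun p => m.sum fun μ e => e • el (∏ l, τ i p l ^ μ l) : Dat) ∈ FF τ d := by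
  let U : AddSubgroup (R (k i)) := (ProdSymm_U τ).toAddSubgroup.comap
    (Phi (fun p => (⟨1, τ i p⟩ : Torus (k i)))).toAddMonoidHom
  have key : ∀ (j : ℤ) (l : List ℕ), mon (0, fun _ => j) * (l.map (extG (k i))).prod ∈ U := by
    intro j l
    change Phi (fun p => (⟨1, τ i p⟩ : Torus (k i)))
      (mon (0, fun _ => j) * (l.map (extG (k i))).prod) ∈ ProdSymm_U τ
    have h1 : Phi (fun p => (⟨1, τ i p⟩ : Torus (k i))) (mon (0, fun _ => j)) = 1 := by
      funext p
      change evT _ (mon _) = _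
      rw [evT_mon]
      simp only [Torus.ev, one_zpow, one_mul]
      rw [Finset.prod_zpow, hτ i p, one_zpow]
      unfold el
      rw [map_one]
      rfl
    have hmap : l.map (⇑(Phi (fun p => (⟨1, τ i p⟩ : Torus (k i)))) ∘ extG (k i)) =
        l.map (extD (τ i)) :=
      List.map_congr_left fun a _ => funext fun q => ProdSymm_Phi_extG (τ i) a q
    rw [map_mul, h1, one_mul, map_list_prod, List.map_map, hmap]
    refine list_prod_mem fun D hD => ?_
    obtain ⟨a, -, rfl⟩ := List.mem_map.1 hD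
    exact ⟨a, extD_mem_FF τ i a⟩
  have h2 := symm_alg (k i) U key m hm
  have h3 : Phi (fun p => (⟨1, τ i p⟩ : Torus (k i)))
      (AddMonoidAlgebra.ofCoeff (m.mapDomain fun μ => ((0 : ℤ), μ)) : R (k i)) ∈ ProdSymm_U τ :=
    h2
  rw [ProdSymm_Phi] at h3
  exact h3

/-- Proof. The orbit of `μ = (μ_i)_i` under `∏ S_{k_i}` is the product of the orbits of the `μ_i`, so
`m` is a sum over (representatives of) the orbits of `m(μ)` times the product over `i` of the orbit sums
of the `μ_i`, which are symmetric. The value of a product of functions is the product of the values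
(`Finset.prod_univ_sum`), so the assertion follows from `symm_mem` and `isFilt_FF`. (One can also use
strong induction on the size of the support of `m`: subtract `m(μ)` times the orbit sum of one `μ`.) -/
theorem prodD_mem (hτ : ∀ i p, ∏ l, τ i p l = 1) (m : PWt k →₀ ℤ) (hm : IsProdSymmetric m) :
    ∃ d, prodD τ m ∈ FF τ d := by
  classical
  rw [← ProdSymm_mem]
  obtain ⟨N, hN⟩ : ∃ N, m.support.card ≤ N := ⟨_, le_rfl⟩
  induction N generalizing m with
  | zero =>
    have h0 : m = 0 := by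
      rw [← Finsupp.support_eq_empty, ← Finset.card_eq_zero]
      omega
    subst h0
    have : prodD τ (0 : PWt k →₀ ℤ) = 0 := by
      funext p
      exact Finsupp.sum_zero_index
    rw [this]
    exact zero_mem _
  | succ N ih =>
    by_cases h0 : m.support = ∅
    · exact ih m hm (by rw [h0, Finset.card_empty]; exact Nat.zero_le _)
    obtain ⟨μ, hμ⟩ := Finset.nonempty_iff_ne_empty.2 h0
    obtain ⟨O, hO⟩ : ∃ O : Finset (PWt k), O = Fintype.piFinset fun i => ProdSymm_orb (μ i) :=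
      ⟨_, rfl⟩
    have hmemO : ∀ ν, ν ∈ O ↔ ∀ i, ν i ∈ ProdSymm_orb (μ i) := by
      intro ν
      rw [hO, Fintype.mem_piFinset]
    have hμO : μ ∈ O := by
      rw [hmemO]
      intro i
      rw [ProdSymm_mem_orb]
      exact ⟨Equiv.refl _, rfl⟩
    have hconst : ∀ ν ∈ O, m ν = m μ := by
      intro ν hν
      rw [hmemO] at hν
      choose σ hσ using fun i => (ProdSymm_mem_orb (μ i) (ν i)).1 (hν i)
      have h1 : ν = fun i => μ i ∘ σ i := funext fun i => (hσ i).symm
      rw [h1]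
      exact hm σ μ
    have hcomp : ∀ (σ : (i : Fin r) → Equiv.Perm (Fin (k i))) (ν : PWt k),
        (fun i => ν i ∘ σ i) ∈ O ↔ ν ∈ O := by
      intro σ ν
      rw [hmemO, hmemO]
      exact forall_congr' fun i => ProdSymm_orb_comp (μ i) (ν i) (σ i)
    have hsplit := Finsupp.filter_add_filter_not m (fun ν => ν ∈ O)
    rw [← hsplit, ProdSymm_prodD_add]
    refine add_mem ?_ (ih _ ?_ ?_)
    · have h1 : prodD τ (m.filter fun ν => ν ∈ O) = m μ • ∏ i : Fin r,
          (fun p => (ProdSymm_ind (μ i)).sum fun ν e => e • el (∏ l, τ i p l ^ ν l) : Dat) := by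
        funext p
        change (m.filter fun ν => ν ∈ O).sum (fun ν e => e • el (prodEv τ p ν)) = m μ •
          (∏ i : Fin r, (fun p => (ProdSymm_ind (μ i)).sum fun ν e =>
            e • el (∏ l, τ i p l ^ ν l) : Dat)) p
        rw [Finset.prod_apply]
        have h2 : ∀ i : Fin r, (ProdSymm_ind (μ i)).sum (fun ν e => e • el (∏ l, τ i p l ^ ν l)) =
            ∑ ν ∈ ProdSymm_orb (μ i), el (∏ l, τ i p l ^ ν l) := fun i =>
          ProdSymm_ind_sum (μ i) fun ν => el (∏ l, τ i p l ^ ν l)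
        rw [Finset.prod_congr rfl fun i _ => h2 i, Finset.prod_univ_sum, ← hO, Finset.smul_sum]
        have hsub : (m.filter fun ν => ν ∈ O).support ⊆ O := by
          intro ν hν
          rw [Finsupp.support_filter, Finset.mem_filter] at hν
          exact hν.2
        rw [Finsupp.sum_of_support_subset _ hsub (fun ν e => e • el (prodEv τ p ν))
          (fun _ _ => zero_smul _ _)]
        refine Finset.sum_congr rfl fun ν hν => ?_
        rw [Finsupp.filter_apply_pos _ _ hν, hconst ν hν]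
        congr 1
        unfold prodEv el
        rw [map_prod]
      rw [h1]
      refine zsmul_mem (prod_mem fun i _ => ?_) _
      exact symm_mem hτ i _ (ProdSymm_ind_symm (μ i))
    · intro σ ν
      by_cases h : ν ∈ O
      · rw [Finsupp.filter_apply, Finsupp.filter_apply, if_neg (not_not.2 h),
          if_neg (not_not.2 ((hcomp σ ν).2 h))]
      · rw [Finsupp.filter_apply, Finsupp.filter_apply, if_pos h,
          if_pos (fun h' => h ((hcomp σ ν).1 h'))]
        exact hm σ ν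
    · rw [Finsupp.support_filter]
      have h1 : m.support.filter (fun ν => ν ∉ O) ⊂ m.support := by
        rw [Finset.filter_ssubset]
        exact ⟨μ, hμ, not_not.2 hμO⟩
      have h2 := Finset.card_lt_card h1
      omega

end Pool.Agent.EEA520
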