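import Pool.Agent.W_eea520_h70.Extract70
import Pool.Agent.W_eea520_h70.ConvA
import Pool.Agent.W_eea520_h70.ProdIff
import Pool.Agent.W_eea520_h70.ProdSymm
import Pool.Agent.W_eea520_h70.ParamChar

/-! The main theorem. -/

set_option autoImplicit false

namespace Pool.Agent.EEA520

open Filter

variable {r : ℕ} {k : Fin r → ℕ}

private def Main70_ind {n : ℕ} (I : Finset (Fin n)) : Fin n → ℤ := fun i => if i ∈ I then 1 else 0

private theorem Main70_spin_apply {n : ℕ} (w : Wt n) :
    spin n w = ∑ I : Finset (Fin n), if ((1 : ℤ), Main70_ind I) = w then 1 else 0 := by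
  unfold spin
  rw [Finsupp.finsetSum_apply]
  refine Finset.sum_congr rfl fun I _ => ?_
  rw [Finsupp.single_apply]
  rfl

/-- The spin character is invariant under the Weyl group. -/
theorem spin_isCharacter (n : ℕ) : IsCharacter (spin n) := by
  constructor
  · intro σ κ μ
    rw [Main70_spin_apply, Main70_spin_apply]
    refine Fintype.sum_equiv (Equiv.finsetCongr σ) _ _ fun I => ?_
    refine if_congr ?_ rfl rfl
    rw [Prod.mk.injEq, Prod.mk.injEq]
    refine and_congr Iff.rfl ?_
    constructor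
    · intro h
      funext i
      have h1 := congrFun h (σ.symm i)
      simp only [Main70_ind, Function.comp_apply, Equiv.apply_symm_apply] at h1
      rw [← h1]
      simp [Main70_ind]
    · intro h
      rw [← h]
      funext i
      simp [Main70_ind]
  · intro i κ μ
    rw [Main70_spin_apply, Main70_spin_apply]
    have hinv : Function.Involutive fun I : Finset (Fin n) => symmDiff I {i} := fun I => by
      simp
    refine Fintype.sum_equiv hinv.toPerm _ _ fun I => ?_
    refine if_congr ?_ rfl rfl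
    rw [Function.Involutive.coe_toPerm, Prod.mk.injEq, Prod.mk.injEq]
    constructor
    · rintro ⟨h0, h⟩
      refine ⟨h0, ?_⟩
      funext j
      have h1 := congrFun h j
      by_cases hj : j = i
      · subst hj
        simp only [Main70_ind, Function.update_self] at h1
        simp only [Main70_ind, Finset.mem_symmDiff, Finset.mem_singleton]
        by_cases hI : j ∈ I
        · rw [if_pos hI] at h1
          simp only [hI, not_true_eq_false, and_false, or_false]
          rw [if_neg not_false]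
          omega
        · rw [if_neg hI] at h1
          simp only [hI, false_and, not_false_eq_true, and_true, false_or, if_true]
          omega
      · simp only [Main70_ind, Function.update_of_ne hj] at h1
        rw [← h1]
        simp [Main70_ind, Finset.mem_symmDiff, hj]
    · rintro ⟨h0, h⟩
      refine ⟨h0, ?_⟩
      funext j
      have h1 := congrFun h j
      by_cases hj : j = i
      · subst hj
        simp only [Main70_ind, Function.update_self]
        simp only [Main70_ind, Finset.mem_symmDiff, Finset.mem_singleton] at h1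
        by_cases hI : j ∈ I
        · rw [if_pos hI]
          simp only [hI, not_true_eq_false, and_false, or_false] at h1
          rw [if_neg not_false] at h1
          omega
        · rw [if_neg hI]
          simp only [hI, false_and, not_false_eq_true, and_true, false_or, if_true] at h1
          omega
      · simp only [Main70_ind, Function.update_of_ne hj]
        rw [← h1]
        simp [Main70_ind, Finset.mem_symmDiff, hj]

/-- `|τ| ≤ p ^ θ` and `∏ τ = 1` imply a bound for `τ⁻¹`. -/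
theorem polyBoundedL_of {n : ℕ} {σ : GLSys n} {θ : ℝ} (hθ : 0 ≤ θ)
    (hσ : ∀ᶠ p : Pr in cofinite, (∀ l, ‖(σ p l : ℂ)‖ ≤ ((p : ℕ) : ℝ) ^ θ) ∧ ∏ l, σ p l = 1) :
    PolyBoundedL σ := by
  refine ⟨θ * n + θ, hσ.mono fun p hp l => ?_⟩
  have hp1 : (1 : ℝ) ≤ ((p : ℕ) : ℝ) := by exact_mod_cast p.2.one_lt.le
  have hp0 : (0 : ℝ) < ((p : ℕ) : ℝ) := by linarith
  have hn : 0 ≤ θ * n := by positivity
  constructor
  · exact (hp.1 l).trans (Real.rpow_le_rpow_of_exponent_le hp1 (by linarith))
  · have h1 : (σ p l)⁻¹ = ∏ j ∈ Finset.univ.erase l, σ p j := by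
      rw [inv_eq_iff_mul_eq_one, Finset.mul_prod_erase _ _ (Finset.mem_univ l)]
      exact hp.2
    have h2 : ‖(((σ p l)⁻¹ : ℂˣ) : ℂ)‖ ≤ ∏ j ∈ Finset.univ.erase l, ((p : ℕ) : ℝ) ^ θ := by
      rw [h1, Units.coe_prod, norm_prod]
      exact Finset.prod_le_prod (fun _ _ => norm_nonneg _) fun j _ => hp.1 j
    refine h2.trans ?_
    rw [Finset.prod_const, ← Real.rpow_natCast, ← Real.rpow_mul hp0.le]
    apply Real.rpow_le_rpow_of_exponent_le hp1
    have h3 : ((Finset.univ.erase l).card : ℝ) ≤ n := by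
      have : (Finset.univ.erase l).card ≤ n := by
        rw [Finset.card_erase_of_mem (Finset.mem_univ l), Finset.card_univ, Fintype.card_fin]
        omega
      exact_mod_cast this
    nlinarith

/-- Replace the `τ i` by `1` at the finitely many bad primes. -/
theorem exists_nice (τ : (i : Fin r) → GLSys (k i)) {θ : ℝ} (hθ : θ < 1 / 2)
    (hτ : ∀ i, ∀ᶠ p : Pr in cofinite,
      (∀ l, ‖(τ i p l : ℂ)‖ ≤ ((p : ℕ) : ℝ) ^ θ) ∧ ∏ l, τ i p l = 1) :
    ∃ τ' : (i : Fin r) → GLSys (k i), Nice τ' (max θ 0) ∧ ∀ᶠ p in cofinite, ∀ i, τ' i p = τ i p := by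
  classical
  have hall : ∀ᶠ p : Pr in cofinite, ∀ i,
      (∀ l, ‖(τ i p l : ℂ)‖ ≤ ((p : ℕ) : ℝ) ^ θ) ∧ ∏ l, τ i p l = 1 := eventually_all.2 hτ
  refine ⟨fun i p l => if (∀ l, ‖(τ i p l : ℂ)‖ ≤ ((p : ℕ) : ℝ) ^ θ) ∧ ∏ l, τ i p l = 1
    then τ i p l else 1, ⟨le_max_right _ _, max_lt hθ (by norm_num), fun i p => ?_⟩, ?_⟩
  · have hp1 : (1 : ℝ) ≤ ((p : ℕ) : ℝ) := by exact_mod_cast p.2.one_lt.le
    by_cases hgood : (∀ l, ‖(τ i p l : ℂ)‖ ≤ ((p : ℕ) : ℝ) ^ θ) ∧ ∏ l, τ i p l = 1
    · simp only [if_pos hgood]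
      exact ⟨fun l => (hgood.1 l).trans (Real.rpow_le_rpow_of_exponent_le hp1 (le_max_left _ _)),
        hgood.2⟩
    · simp only [if_neg hgood]
      refine ⟨fun l => ?_, Finset.prod_const_one⟩
      simpa using Real.one_le_rpow hp1 (le_max_right θ 0)
  · filter_upwards [hall] with p hp i
    funext l
    exact if_pos (hp i)

theorem hasParameter_congr {τ τ' : (i : Fin r) → GLSys (k i)}
    (h : ∀ᶠ p in cofinite, ∀ i, τ' i p = τ i p) (B : Finset (Fin r × ℕ)) (c : ℕ) {n : ℕ}
    (π : GSys n) : HasParameter τ B c π ↔ HasParameter τ' B c π := by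
  unfold HasParameter
  refine eventually_congr (h.mono fun p hp => ?_)
  simp only [hp]

private theorem Main70_pow {a : Pr → ℂˣ} (ha : Poly a) (n : ℕ) : Poly (fun p => a p ^ n) := by
  induction n with
  | zero => simpa using poly_one
  | succ n ih => simpa only [pow_succ] using poly_mul ih ha

private theorem Main70_zpow {a : Pr → ℂˣ} (ha : Poly a) (ha' : Poly (fun p => (a p)⁻¹)) (n : ℤ) :
    Poly (fun p => a p ^ n) := by
  obtain ⟨n, rfl | rfl⟩ := n.eq_nat_or_neg
  · simpa only [zpow_natCast] using Main70_pow ha n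
  · have := Main70_pow ha' n
    simpa only [zpow_neg, zpow_natCast, inv_pow] using this

private theorem Main70_prod {ι : Type} (s : Finset ι) {a : ι → Pr → ℂˣ}
    (ha : ∀ i ∈ s, Poly (a i)) : Poly (fun p => ∏ i ∈ s, a i p) := by
  classical
  induction s using Finset.induction_on with
  | empty => simpa using poly_one
  | insert i s his ih =>
    simp only [Finset.prod_insert his]
    exact poly_mul (ha i (Finset.mem_insert_self i s))
      (ih fun j hj => ha j (Finset.mem_insert_of_mem hj))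

theorem prodD_mem_BB {τ : (i : Fin r) → GLSys (k i)} (hτ : ∀ i, PolyBoundedL (τ i))
    (m : PWt k →₀ ℤ) : prodD τ m ∈ BB := by
  have h1 : ∀ μ : PWt k, (fun p => el (prodEv τ p μ) : Dat) ∈ BB := by
    intro μ
    refine el_mem ?_
    unfold prodEv
    refine Main70_prod Finset.univ (a := fun i p => ∏ l, τ i p l ^ μ i l) fun i _ => ?_
    refine Main70_prod Finset.univ (a := fun l p => τ i p l ^ μ i l) fun l _ => ?_
    obtain ⟨B, hB⟩ := hτ i
    exact Main70_zpow (poly_of_eventually B (hB.mono fun p hp => (hp l).1))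
      (poly_of_eventually B (hB.mono fun p hp => (hp l).2)) _
  have h2 : prodD τ m = ∑ μ ∈ m.support, m μ • (fun p => el (prodEv τ p μ) : Dat) := by
    funext p
    simp only [prodD, Finsupp.sum, Finset.sum_apply, Pi.smul_apply]
  rw [h2]
  exact sum_mem fun μ _ => BB.zsmul_mem (h1 μ) _

/-- `prodContinues_iff` and `cont_congr`. -/
theorem prodContinues_congr {τ τ' : (i : Fin r) → GLSys (k i)}
    (hτ : ∀ i, PolyBoundedL (τ i)) (h : ∀ᶠ p in cofinite, ∀ i, τ' i p = τ i p) (m : PWt k →₀ ℤ) :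
    ProdContinues τ m ↔ ProdContinues τ' m := by
  have hτ' : ∀ i, PolyBoundedL (τ' i) := by
    intro i
    obtain ⟨B, hB⟩ := hτ i
    refine ⟨B, ?_⟩
    filter_upwards [h, hB] with p hp hB'
    rw [hp i]
    exact hB'
  have heq : ∀ᶠ p in cofinite, prodD τ m p = prodD τ' m p := by
    filter_upwards [h] with p hp
    simp only [prodD, prodEv, hp]
  rw [prodContinues_iff hτ, prodContinues_iff hτ']
  exact ⟨fun hc => cont_congr (prodD_mem_BB hτ' m) heq hc,
    fun hc => cont_congr (prodD_mem_BB hτ m) (heq.mono fun _ hp => hp.symm) hc⟩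

/-- The products `NB` are in `BB`. -/
theorem NB_mem {τ : (i : Fin r) → GLSys (k i)} {θ : ℝ} (hτ : Nice τ θ) (B : Finset (Fin r × ℕ))
    (c : ℕ) : NB τ B c ∈ BB := by
  have htt : tt ∈ BB := tw_mem _
  have hext : ∀ i a, extD (τ i) a ∈ BB := fun i a =>
    extD_mem ⟨θ, Eventually.of_forall fun p l => (hτ.nice i p).1 l⟩ a
  unfold NB
  refine BB.mul_mem (prod_mem fun y _ => ?_) ?_
  · unfold DD
    exact prod_mem fun j _ => sum_mem fun a _ => BB.mul_mem (hext _ _) (pow_mem htt _)
  · unfold ZZ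
    exact prod_mem fun j _ => BB.add_mem BB.one_mem (pow_mem htt _)

private theorem Main70_list (L : List Dat) (h : ∀ D ∈ L, Cont D) : Cont L.sum := by
  induction L with
  | nil => exact cont_zero
  | cons D L ih =>
    rw [List.sum_cons]
    exact (h D List.mem_cons_self).add (ih fun D' hD' => h D' (List.mem_cons_of_mem _ hD'))

/-- The main theorem: `1 → 3` by `exists_nice`, `exists_param`, `contTo_of_param`, `cont_of_weakN`,
`prodD_mem`, `prodContinues_iff`; `3 → 2` by `param_char`, `continues_iff`, `cont_congr`; `2 → 1`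
trivially (`c = 0`, `N = {M, …, 2M}`). -/
theorem main70 (hr : 0 < r) (hk : ∀ i, 2 ≤ k i) (τ : (i : Fin r) → GLSys (k i)) (θ : ℝ)
    (hθ : θ < 1 / 2)
    (hτ : ∀ i, ∀ᶠ p : Pr in cofinite,
      (∀ l, ‖(τ i p l : ℂ)‖ ≤ ((p : ℕ) : ℝ) ^ θ) ∧ ∏ l, τ i p l = 1) :
    List.TFAE [
      ∀ M : ℕ, ∃ (c : ℕ) (N : Finset ℕ), M ≤ N.card ∧ (∀ b ∈ N, M ≤ b) ∧
        ∀ B : Finset (Fin r × ℕ), (∀ y ∈ B, y.2 ∈ N) →
          (∀ i, (B.filter fun y => y.1 = i).card = k i - 1) →
          ∀ (n : ℕ) (π : GSys n), HasParameter τ B c π →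
            ContinuesTo (height k B c - M * ∑ y ∈ B, (y.2 : ℝ)) π (spin n),
      ∀ (B : Finset (Fin r × ℕ)) (c n : ℕ) (π : GSys n), HasParameter τ B c π →
        ∀ m : Wt n →₀ ℤ, IsCharacter m → Continues π m,
      ∀ m : PWt k →₀ ℤ, IsProdSymmetric m → ProdContinues τ m] := by
  obtain ⟨τ', hτ', hc⟩ := exists_nice τ hθ hτ
  have hpb : ∀ i, PolyBoundedL (τ i) := fun i =>
    polyBoundedL_of (θ := max θ 0) (le_max_right _ _) ((hτ i).mono fun p hp =>
      ⟨fun l => (hp.1 l).trans (Real.rpow_le_rpow_of_exponent_le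
        (by exact_mod_cast p.2.one_lt.le) (le_max_left _ _)), hp.2⟩)
  have hpb' : ∀ i, PolyBoundedL (τ' i) := fun i =>
    polyBoundedL_of hτ'.nonneg (Eventually.of_forall fun p => hτ'.nice i p)
  tfae_have 1 → 3 := by
    intro h1
    have hW : WeakN τ' := by
      intro M
      obtain ⟨c, N, hN, hMN, hB⟩ := h1 M
      refine ⟨c, N, hN, hMN, fun B hBN hcard => ?_⟩
      obtain ⟨n, π, hπ⟩ := exists_param τ' B c
      exact contTo_of_param hτ' hπ (NB_mem hτ' B c)
        (hB B hBN hcard n π ((hasParameter_congr hc B c π).2 hπ))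
    have hall := cont_of_weakN hr hk hτ' hW
    intro m hm
    obtain ⟨d, hd⟩ := prodD_mem (fun i p => (hτ'.nice i p).2) m hm
    exact (prodContinues_congr hpb hc m).2 ((prodContinues_iff hpb' m).2 (hall d _ hd))
  tfae_have 3 → 2 := by
    intro h3 B c n π hπ m hm
    have hπ' := (hasParameter_congr hc B c π).1 hπ
    have hbdd := bdd_param hτ' hπ'
    obtain ⟨L, hL, hLp⟩ := param_char hπ' m hm.1
    have h1 : Cont ((L.map fun y => tw y.1 * prodD τ' y.2).sum) := by
      refine Main70_list _ fun D hD => ?_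
      obtain ⟨y, hy, rfl⟩ := List.mem_map.1 hD
      exact ((prodContinues_iff hpb' _).1
        ((prodContinues_congr hpb hc _).1 (h3 _ (hL y hy)))).tw _
    have h2 : Cont (Phi π (AddMonoidAlgebra.ofCoeff m)) :=
      cont_congr (Phi_mem hbdd _) (hLp.mono fun p hp => hp.symm) h1
    exact (continues_iff hbdd (AddMonoidAlgebra.ofCoeff m)).2 h2
  tfae_have 2 → 1 := by
    intro h2 M
    refine ⟨0, Finset.Icc M (2 * M), ?_, fun b hb => (Finset.mem_Icc.1 hb).1, ?_⟩
    · rw [Nat.card_Icc]
      omega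
    · intro B _ _ n π hπ
      obtain ⟨S, b, g, hg, hp⟩ := h2 B 0 n π hπ (spin n) (spin_isCharacter n)
      exact ⟨S, b, g, fun s _ => hg s, hp⟩
  tfae_finish

end Pool.Agent.EEA520
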