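import Pool.Agent.W_eea520_h70.Main70
import Pool.Agent.W_eea520_h70.Extract71

/-! The main theorem with the optimal number of blocks. -/

set_option autoImplicit false

namespace Pool.Agent.EEA520

open Filter

variable {r : ℕ} {k : Fin r → ℕ}

/-- Replace the `τ i` by `1` at the finitely many bad primes. -/
theorem exists_nice71 (bl : Fin r → ℕ) (τ : (i : Fin r) → GLSys (k i)) {θ : ℝ} (hθ : θ < 1 / 2)
    (hτ : ∀ i, ∀ᶠ p : Pr in cofinite,
      (∀ l, ‖(τ i p l : ℂ)‖ ≤ ((p : ℕ) : ℝ) ^ θ) ∧ ∏ l, τ i p l = 1)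
    (hbl : ∀ i, k i = bl i + 1 ∨ (k i = 2 * bl i ∧ ∀ᶠ p : Pr in cofinite,
      Finset.univ.val.map (fun l => (τ i p l)⁻¹) = Finset.univ.val.map (τ i p))) :
    ∃ τ' : (i : Fin r) → GLSys (k i), Nice τ' (max θ 0) ∧ (∀ i, GenBy (τ' i) (bl i)) ∧
      ∀ᶠ p in cofinite, ∀ i, τ' i p = τ i p := by
  classical
  obtain ⟨good, hgood⟩ : ∃ good : Fin r → Pr → Prop, good = fun i p =>
      ((∀ l, ‖(τ i p l : ℂ)‖ ≤ ((p : ℕ) : ℝ) ^ θ) ∧ ∏ l, τ i p l = 1) ∧
      (k i ≠ bl i + 1 →
        Finset.univ.val.map (fun l => (τ i p l)⁻¹) = Finset.univ.val.map (τ i p)) := ⟨_, rfl⟩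
  have hall : ∀ᶠ p : Pr in cofinite, ∀ i, good i p := by
    refine eventually_all.2 fun i => ?_
    rw [hgood]
    by_cases hk : k i = bl i + 1
    · filter_upwards [hτ i] with p hp
      exact ⟨hp, fun h => absurd hk h⟩
    · have h2 := ((hbl i).resolve_left hk).2
      filter_upwards [hτ i, h2] with p hp hp2
      exact ⟨hp, fun _ => hp2⟩
  obtain ⟨τ', hτ'⟩ : ∃ τ' : (i : Fin r) → GLSys (k i),
      ∀ i p l, τ' i p l = if good i p then τ i p l else 1 := ⟨_, fun _ _ _ => rfl⟩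
  have hg : ∀ i p, good i p → τ' i p = τ i p := fun i p h => by
    funext l
    rw [hτ', if_pos h]
  have hb : ∀ i p, ¬ good i p → τ' i p = 1 := fun i p h => by
    funext l
    rw [hτ', if_neg h]
    rfl
  have hdet : ∀ i p, ∏ l, τ' i p l = 1 := by
    intro i p
    by_cases h : good i p
    · rw [hg i p h]
      rw [hgood] at h
      exact h.1.2
    · rw [hb i p h]
      exact Finset.prod_const_one
  refine ⟨τ', ⟨le_max_right _ _, max_lt hθ (by norm_num), fun i p => ⟨fun l => ?_, hdet i p⟩⟩,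
    fun i => ?_, ?_⟩
  · have hp1 : (1 : ℝ) ≤ ((p : ℕ) : ℝ) := by exact_mod_cast p.2.one_lt.le
    by_cases h : good i p
    · rw [hg i p h]
      rw [hgood] at h
      exact (h.1.1 l).trans (Real.rpow_le_rpow_of_exponent_le hp1 (le_max_left _ _))
    · rw [hb i p h]
      simpa using Real.one_le_rpow hp1 (le_max_right θ 0)
  · by_cases hk : k i = bl i + 1
    · exact genBy_of_det (hdet i) hk
    · refine genBy_of_inv (hdet i) (fun p => ?_) ((hbl i).resolve_left hk).1
      by_cases h : good i p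
      · rw [hg i p h]
        rw [hgood] at h
        exact h.2 hk
      · rw [hb i p h]
        refine Multiset.map_congr rfl fun l _ => ?_
        simp
  · filter_upwards [hall] with p hp i
    exact hg i p (hp i)

private theorem Main71_list (L : List Dat) (h : ∀ D ∈ L, Cont D) : Cont L.sum := by
  induction L with
  | nil => exact cont_zero
  | cons D L ih =>
    rw [List.sum_cons]
    exact (h D List.mem_cons_self).add (ih fun D' hD' => h D' (List.mem_cons_of_mem _ hD'))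

/-- The main theorem (see `main70`) with `bl i` blocks for every `i`, `bl i = k i - 1`, or
`bl i = k i / 2` if `τ i` is closed under inversion. -/
theorem main71 (hr : 0 < r) (bl : Fin r → ℕ) (τ : (i : Fin r) → GLSys (k i)) (θ : ℝ)
    (hθ : θ < 1 / 2)
    (hτ : ∀ i, ∀ᶠ p : Pr in cofinite,
      (∀ l, ‖(τ i p l : ℂ)‖ ≤ ((p : ℕ) : ℝ) ^ θ) ∧ ∏ l, τ i p l = 1)
    (hbl : ∀ i, 1 ≤ bl i ∧ (k i = bl i + 1 ∨ (k i = 2 * bl i ∧ ∀ᶠ p : Pr in cofinite,
      Finset.univ.val.map (fun l => (τ i p l)⁻¹) = Finset.univ.val.map (τ i p)))) :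
    List.TFAE [
      ∀ M : ℕ, ∃ N : Finset ℕ, M ≤ N.card ∧ (∀ b ∈ N, M ≤ b) ∧
        ∀ B : Finset (Fin r × ℕ), (∀ y ∈ B, y.2 ∈ N) →
          (∀ i, (B.filter fun y => y.1 = i).card = bl i) →
          ∃ (c n : ℕ) (π : GSys n), HasParameter τ B c π ∧
            ContinuesTo (height k B c - M * ∑ y ∈ B, (y.2 : ℝ)) π (spin n),
      ∀ (B : Finset (Fin r × ℕ)) (c n : ℕ) (π : GSys n), HasParameter τ B c π →
        ∀ m : Wt n →₀ ℤ, IsCharacter m → Continues π m,
      ∀ m : PWt k →₀ ℤ, IsProdSymmetric m → ProdContinues τ m] := by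
  obtain ⟨τ', hτ', hgen, hc⟩ := exists_nice71 bl τ hθ hτ fun i => (hbl i).2
  have hpb : ∀ i, PolyBoundedL (τ i) := fun i =>
    polyBoundedL_of (θ := max θ 0) (le_max_right _ _) ((hτ i).mono fun p hp =>
      ⟨fun l => (hp.1 l).trans (Real.rpow_le_rpow_of_exponent_le
        (by exact_mod_cast p.2.one_lt.le) (le_max_left _ _)), hp.2⟩)
  have hpb' : ∀ i, PolyBoundedL (τ' i) := fun i =>
    polyBoundedL_of hτ'.nonneg (Eventually.of_forall fun p => hτ'.nice i p)
  tfae_have 1 → 3 := by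
    intro h1
    have hW : WeakB bl τ' := by
      intro M
      obtain ⟨N, hN, hMN, hB⟩ := h1 M
      refine ⟨N, hN, hMN, fun B hBN hcard => ?_⟩
      obtain ⟨c, n, π, hπ, hcont⟩ := hB B hBN hcard
      exact ⟨c, contTo_of_param hτ' ((hasParameter_congr hc B c π).1 hπ) (NB_mem hτ' B c) hcont⟩
    have hall := cont_of_weakB hr (fun i => (hbl i).1) hτ' hgen hW
    intro m hm
    obtain ⟨d, hd⟩ := prodD_mem (fun i p => (hτ'.nice i p).2) m hm
    exact (prodContinues_congr hpb hc m).2 ((prodContinues_iff hpb' m).2 (hall d _ hd))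
  tfae_have 3 → 2 := by
    intro h3 B c n π hπ m hm
    have hπ' := (hasParameter_congr hc B c π).1 hπ
    have hbdd := bdd_param hτ' hπ'
    obtain ⟨L, hL, hLp⟩ := param_char hπ' m hm.1
    have h1 : Cont ((L.map fun y => tw y.1 * prodD τ' y.2).sum) := by
      refine Main71_list _ fun D hD => ?_
      obtain ⟨y, hy, rfl⟩ := List.mem_map.1 hD
      exact ((prodContinues_iff hpb' _).1
        ((prodContinues_congr hpb hc _).1 (h3 _ (hL y hy)))).tw _
    have h2 : Cont (Phi π (AddMonoidAlgebra.ofCoeff m)) :=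
      cont_congr (Phi_mem hbdd _) (hLp.mono fun p hp => hp.symm) h1
    exact (continues_iff hbdd (AddMonoidAlgebra.ofCoeff m)).2 h2
  tfae_have 2 → 1 := by
    intro h2 M
    refine ⟨Finset.Icc M (2 * M), ?_, fun b hb => (Finset.mem_Icc.1 hb).1, ?_⟩
    · rw [Nat.card_Icc]
      omega
    · intro B _ _
      obtain ⟨n, π, hπ⟩ := exists_param τ B 0
      obtain ⟨S, b, g, hg, hp⟩ := h2 B 0 n π hπ (spin n) (spin_isCharacter n)
      exact ⟨0, n, π, hπ, S, b, g, fun s _ => hg s, hp⟩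
  tfae_finish

end Pool.Agent.EEA520
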