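import Pool.Agent.W_eea520_h70.NatHol

/-!
# The logarithmic derivative of the Euler product near the line `Re s = 1` (MP_eea520_nt, theorem G)
-/

set_option autoImplicit false

namespace Pool.Agent.EEA520

open Filter Topology Pool.Agent.EEAG1 LSeries

variable {n : ℕ}

theorem nhdsWithin_pt (t : ℝ) : 𝓝[{s : ℂ | 1 < s.re}] (pt t) ≤ 𝓝[≠] (pt t) := by
  refine nhdsWithin_mono _ fun s hs h => ?_
  have h1 : 1 < s.re := hs
  have h2 : s = pt t := h
  rw [h2] at h1
  unfold pt at h1
  simp at h1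

/-- The Dirichlet series with the coefficients `χ(p) log p` minus the polar part has a limit at every
point of the line. -/
theorem bdry {π : GSys n} (hπ : Tempered π) {m : Wt n →₀ ℤ} {t : ℝ} {k : ℤ}
    (h : PoleOrder π m (pt t) k) :
    ∃ L : ℂ, Tendsto (fun s => LSeries (logMul (chn π m)) s - k / (s - pt t))
      (𝓝[{s | 1 < s.re}] (pt t)) (𝓝 L) := by
  obtain ⟨g, hg, hk, hL⟩ := h
  obtain ⟨f, han, hf0, hgf⟩ := (meromorphicOrderAt_eq_int_iff hg).1 hk
  have hopen : IsOpen {s : ℂ | 1 < s.re} := isOpen_lt continuous_const Complex.continuous_re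
  have hopen' : IsOpen {s : ℂ | 3 / 4 < s.re} := isOpen_lt continuous_const Complex.continuous_re
  have hpt : (pt t) ∈ {s : ℂ | 3 / 4 < s.re} := by
    show 3 / 4 < (pt t).re
    unfold pt
    norm_num
  have h1 : ∀ᶠ s in 𝓝[{s : ℂ | 1 < s.re}] (pt t),
      Complex.exp (LSeries (chn π m) s + hol π m s) = (s - pt t) ^ (-k) * f s := by
    filter_upwards [hL, hgf.filter_mono (nhdsWithin_pt t), self_mem_nhdsWithin] with s h2 h3 h4
    have h5 := (factor_hasProd hπ m h4).unique h2
    rw [h5, h3, smul_eq_mul]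
  have h2 := eventually_eventually_nhdsWithin.2 h1
  have h3 : ∀ᶠ s in 𝓝[{s : ℂ | 1 < s.re}] (pt t), AnalyticAt ℂ f s :=
    han.eventually_analyticAt.filter_mono nhdsWithin_le_nhds
  have h4 : ∀ᶠ s in 𝓝[{s : ℂ | 1 < s.re}] (pt t), f s ≠ 0 :=
    (han.continuousAt.eventually_ne hf0).filter_mono nhdsWithin_le_nhds
  have hdh : DifferentiableOn ℂ (deriv (hol π m)) {s : ℂ | 3 / 4 < s.re} :=
    (hol_differentiable hπ m).deriv hopen'
  have hlim : Tendsto (fun s => deriv (hol π m) s - deriv f s / f s) (𝓝 (pt t))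
      (𝓝 (deriv (hol π m) (pt t) - deriv f (pt t) / f (pt t))) := by
    refine Tendsto.sub ?_ (Tendsto.div ?_ ?_ hf0)
    · exact ((hdh _ hpt).differentiableAt (hopen'.mem_nhds hpt)).continuousAt
    · exact han.deriv.continuousAt
    · exact han.continuousAt
  refine ⟨_, (hlim.mono_left nhdsWithin_le_nhds).congr' ?_⟩
  filter_upwards [h2, h3, h4, nhdsWithin_pt t self_mem_nhdsWithin, self_mem_nhdsWithin]
    with s h5 h6 h7 h8 h9
  rw [hopen.nhdsWithin_eq h9] at h5
  have h9' : 1 < s.re := h9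
  have hs : s ∈ {s : ℂ | 3 / 4 < s.re} := by
    show 3 / 4 < s.re
    linarith
  have h10 := (show (fun s => Complex.exp (LSeries (chn π m) s + hol π m s)) =ᶠ[𝓝 s]
    fun s => (s - pt t) ^ (-k) * f s from h5).deriv_eq
  have h11 := h5.self_of_nhds
  have hne : s - pt t ≠ 0 := sub_ne_zero.2 h8
  have hd1 : HasDerivAt (fun s => Complex.exp (LSeries (chn π m) s + hol π m s))
      (Complex.exp (LSeries (chn π m) s + hol π m s) *
        (-LSeries (logMul (chn π m)) s + deriv (hol π m) s)) s :=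
    ((chn_hasDerivAt hπ m h9').add
      (((hol_differentiable hπ m) _ hs).differentiableAt (hopen'.mem_nhds hs)).hasDerivAt).cexp
  have hd2 : HasDerivAt (fun s => (s - pt t) ^ (-k)) (((-k : ℤ) : ℂ) * (s - pt t) ^ (-k - 1)) s := by
    have h12 := (hasDerivAt_zpow (-k) (s - pt t) (Or.inl hne)).comp s
      ((hasDerivAt_id s).sub_const (pt t))
    simpa [Function.comp_def] using h12
  have hd3 := hd2.mul h6.differentiableAt.hasDerivAt
  rw [hd1.deriv] at h10
  have h13 : deriv (fun s => (s - pt t) ^ (-k) * f s) s = ((-k : ℤ) : ℂ) * (s - pt t) ^ (-k - 1) * f s +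
      (s - pt t) ^ (-k) * deriv f s := hd3.deriv
  rw [h13, h11, zpow_sub_one₀ hne] at h10
  have hz : (s - pt t) ^ (-k) ≠ 0 := zpow_ne_zero _ hne
  push_cast at h10
  field_simp at h10 ⊢
  linear_combination h10

end Pool.Agent.EEA520
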