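import Pool.Agent.W_eea520_h99.ZetaP

/-!
# Mean values over the primes in the sense of natural density (MP_eea520_nt, theorem G)
-/

set_option autoImplicit false

namespace Pool.Agent.EEA520

open Filter Topology Pool.Agent.EEAG1

/-- The sum over the primes `p ≤ N`. -/
noncomputable def nsum (f : Pr → ℝ) (N : ℕ) : ℝ :=
  ∑ k ∈ Finset.range (N + 1), if h : k.Prime then f ⟨k, h⟩ else 0

/-- `L` is the mean value of `f` over the primes, in the sense of natural density. -/
def NMean (f : Pr → ℝ) (L : ℝ) : Prop :=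
  Tendsto (fun N : ℕ => nsum f N / (Nat.primeCounting N : ℝ)) atTop (𝓝 L)

theorem nsum_add (f g : Pr → ℝ) (N : ℕ) : nsum (fun p => f p + g p) N = nsum f N + nsum g N := by
  unfold nsum
  rw [← Finset.sum_add_distrib]
  refine Finset.sum_congr rfl fun k _ => ?_
  split_ifs <;> simp

theorem nsum_const_mul (r : ℝ) (f : Pr → ℝ) (N : ℕ) : nsum (fun p => r * f p) N = r * nsum f N := by
  unfold nsum
  rw [Finset.mul_sum]
  refine Finset.sum_congr rfl fun k _ => ?_
  split_ifs <;> simp

/-- `Nat.primeCounting`, `Nat.primeCounting'`, `Nat.count_eq_card_filter_range`. -/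
theorem nsum_one (N : ℕ) : nsum (fun _ => 1) N = (Nat.primeCounting N : ℝ) := by
  unfold nsum Nat.primeCounting Nat.primeCounting'
  rw [Nat.count_eq_card_filter_range, Finset.card_filter]
  push_cast
  refine Finset.sum_congr rfl fun k _ => ?_
  split_ifs <;> rfl

theorem abs_nsum_le {f : Pr → ℝ} {C : ℝ} (hf : ∀ p, |f p| ≤ C) (N : ℕ) :
    |nsum f N| ≤ C * (Nat.primeCounting N : ℝ) := by
  rw [← nsum_one, ← nsum_const_mul]
  unfold nsum
  refine (Finset.abs_sum_le_sum_abs _ _).trans (Finset.sum_le_sum fun k _ => ?_)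
  split_ifs with h
  · rw [mul_one]
    exact hf _
  · rw [abs_zero]

theorem NatMean_pos {N : ℕ} (hN : 2 ≤ N) : (0 : ℝ) < Nat.primeCounting N := by
  have h1 : Nat.primeCounting 2 ≤ Nat.primeCounting N := Nat.monotone_primeCounting hN
  have h2 : Nat.primeCounting 2 = 1 := by decide
  have h3 : 0 < Nat.primeCounting N := by omega
  exact_mod_cast h3

theorem NMean.one : NMean (fun _ => 1) 1 := by
  refine Tendsto.congr' ?_ tendsto_const_nhds
  filter_upwards [eventually_ge_atTop 2] with N hN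
  rw [nsum_one, div_self (NatMean_pos hN).ne']

theorem NMean.add {f g : Pr → ℝ} {L M : ℝ} (h : NMean f L) (h' : NMean g M) :
    NMean (fun p => f p + g p) (L + M) := by
  refine Tendsto.congr (fun N => ?_) (Tendsto.add h h')
  rw [nsum_add, add_div]

theorem NMean.const_mul {f : Pr → ℝ} {L : ℝ} (h : NMean f L) (r : ℝ) :
    NMean (fun p => r * f p) (r * L) := by
  refine Tendsto.congr (fun N => ?_) (Tendsto.const_mul r h)
  rw [nsum_const_mul, mul_div_assoc]

/-- `f` has a mean value in both senses, and they agree. -/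
def Good (f : Pr → ℝ) : Prop := BdP f ∧ ∃ L : ℝ, MeanP f L ∧ NMean f L

theorem Good.one : Good fun _ => 1 :=
  ⟨⟨1, fun _ => by rw [abs_one]⟩, 1, MeanP.one, NMean.one⟩

theorem Good.add {f g : Pr → ℝ} (hf : Good f) (hg : Good g) : Good fun p => f p + g p := by
  obtain ⟨hf1, L, hL, hL'⟩ := hf
  obtain ⟨hg1, M, hM, hM'⟩ := hg
  exact ⟨hf1.add hg1, L + M, MeanP.add hf1 hg1 hL hM, hL'.add hM'⟩

theorem Good.const_mul {f : Pr → ℝ} (hf : Good f) (r : ℝ) : Good fun p => r * f p := by
  obtain ⟨hf1, L, hL, hL'⟩ := hf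
  exact ⟨hf1.const_mul r, r * L, hL.const_mul r, hL'.const_mul r⟩

theorem Good.sum {ι : Type*} (t : Finset ι) {F : ι → Pr → ℝ} (hF : ∀ i ∈ t, Good (F i)) :
    Good fun p => ∑ i ∈ t, F i p := by
  classical
  induction t using Finset.induction_on with
  | empty =>
    have h1 := Good.one.const_mul 0
    simpa using h1
  | insert i t hi ih =>
    have h1 := (hF i (Finset.mem_insert_self i t)).add
      (ih fun j hj => hF j (Finset.mem_insert_of_mem hj))
    have h2 : (fun p => ∑ j ∈ insert i t, F j p) = fun p => F i p + ∑ j ∈ t, F j p := by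
      funext p
      rw [Finset.sum_insert hi]
    rw [h2]
    exact h1

theorem NatMean_close {f g : Pr → ℝ} (hf : BdP f) (hg : BdP g) {L M ε : ℝ} (hL : MeanP f L)
    (hM : MeanP g M) (h : ∀ p, |f p - g p| ≤ ε) : |M - L| ≤ ε := by
  have hε : BdP fun _ : Pr => ε * 1 := ⟨|ε * 1|, fun _ => le_rfl⟩
  have h1 := MeanP.add hε (hf.add (hg.const_mul (-1))) (MeanP.one.const_mul ε)
    (MeanP.add hf (hg.const_mul (-1)) hL (hM.const_mul (-1)))
  have h2 := MeanP.add hε (hg.add (hf.const_mul (-1))) (MeanP.one.const_mul ε)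
    (MeanP.add hg (hf.const_mul (-1)) hM (hL.const_mul (-1)))
  have h3 := h1.nonneg fun p => by
    have := abs_le.1 (h p)
    linarith
  have h4 := h2.nonneg fun p => by
    have := abs_le.1 (h p)
    linarith
  rw [abs_le]
  constructor <;> linarith

/-- Uniform limits. Let `MeanP f L` and let `f` be within `ε` of a good `g` (with mean value `M`), for
every `ε`. Then `|L - M| ≤ ε` (`MeanP.nonneg` for `ε ± (f - g)`), and `|nsum f N / π(N) - L| ≤ ε +
|nsum g N / π(N) - M| + |M - L| ≤ 3 ε` for large `N` (`abs_nsum_le`). -/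
theorem nmean_of_approx {f : Pr → ℝ} (hf : BdP f) {L : ℝ} (hL : MeanP f L)
    (h : ∀ ε > 0, ∃ g : Pr → ℝ, Good g ∧ ∀ p, |f p - g p| ≤ ε) : NMean f L := by
  refine Metric.tendsto_nhds.2 fun ε hε => ?_
  obtain ⟨g, ⟨hg, M, hM, hM'⟩, hfg⟩ := h (ε / 4) (by positivity)
  have hLM := NatMean_close hf hg hL hM hfg
  filter_upwards [eventually_ge_atTop 2, Metric.tendsto_nhds.1 hM' (ε / 4) (by positivity)]
    with N hN h1
  have hpos := NatMean_pos hN
  have h2 : |nsum f N / Nat.primeCounting N - nsum g N / Nat.primeCounting N| ≤ ε / 4 := by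
    have h3 : nsum (fun p => f p + (-1) * g p) N = nsum f N - nsum g N := by
      rw [nsum_add, nsum_const_mul]
      ring
    rw [← sub_div, ← h3, abs_div, abs_of_pos hpos, div_le_iff₀ hpos]
    refine abs_nsum_le (fun p => ?_) N
    have h4 : f p + (-1) * g p = f p - g p := by ring
    rw [h4]
    exact hfg p
  rw [Real.dist_eq] at h1 ⊢
  have h4 : nsum f N / Nat.primeCounting N - L =
      (nsum f N / Nat.primeCounting N - nsum g N / Nat.primeCounting N) +
      (nsum g N / Nat.primeCounting N - M) + (M - L) := by ring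
  rw [h4]
  have h5 := abs_add_three (nsum f N / Nat.primeCounting N - nsum g N / Nat.primeCounting N)
    (nsum g N / Nat.primeCounting N - M) (M - L)
  linarith

theorem NatMean_re {z : ℂ} (hz : ‖z‖ = 1) : |2 * z.re| ≤ 2 := by
  have h := (Complex.abs_re_le_norm z).trans hz.le
  rw [abs_mul, abs_two]
  linarith

theorem NatMean_rec {z : ℂ} (hz : ‖z‖ = 1) (k : ℤ) :
    (2 * z.re) * (2 * (z ^ k).re) = 2 * (z ^ (k + 1)).re + 2 * (z ^ (k - 1)).re := by
  have h0 : z ≠ 0 := by
    rintro rfl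
    simp at hz
  have h1 : z + z⁻¹ = ((2 * z.re : ℝ) : ℂ) := by
    rw [Complex.inv_eq_conj hz, Complex.add_conj]
  have h2 : z ^ (k + 1) + z ^ (k - 1) = z ^ k * ((2 * z.re : ℝ) : ℂ) := by
    rw [← h1, zpow_add_one₀ h0, zpow_sub_one₀ h0, mul_add]
  have h3 := congrArg Complex.re h2
  rw [Complex.add_re, Complex.re_mul_ofReal] at h3
  linarith

/-- The monomials: by induction on `j`, for all `k`; on the unit circle
`2 Re z * 2 Re z ^ k = 2 Re z ^ (k + 1) + 2 Re z ^ (k - 1)` (`A6_rec` in `W_eea520_g1/A6.lean`). -/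
theorem good_monomial {a : Pr → ℂ} (ha : ∀ p, ‖a p‖ = 1)
    (h : ∀ k : ℤ, Good fun p => 2 * ((a p) ^ k).re) (j : ℕ) :
    ∀ k : ℤ, Good fun p => (2 * (a p).re) ^ j * (2 * ((a p) ^ k).re) := by
  induction j with
  | zero =>
    intro k
    simp only [pow_zero, one_mul]
    exact h k
  | succ j ih =>
    intro k
    have h1 := (ih (k + 1)).add (ih (k - 1))
    have h2 : (fun p => (2 * (a p).re) ^ (j + 1) * (2 * ((a p) ^ k).re)) = fun p =>
        (2 * (a p).re) ^ j * (2 * ((a p) ^ (k + 1)).re) +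
          (2 * (a p).re) ^ j * (2 * ((a p) ^ (k - 1)).re) := by
      funext p
      rw [← mul_add, ← NatMean_rec (ha p) k]
      ring
    rw [h2]
    exact h1

/-- Continuous functions of `2 Re a_p` with a mean value in the sense of Dirichlet density have the same
mean value in the sense of natural density. Weierstrass: `exists_polynomial_near_of_continuousOn`,
`nmean_of_approx`, `good_monomial` with `k = 0` (`2 * 1`), `Good.sum`, `Good.const_mul`,
`Polynomial.eval_eq_sum_range`. -/
theorem nmean_of_meanP {a : Pr → ℂ} (ha : ∀ p, ‖a p‖ = 1)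
    (h : ∀ k : ℤ, Good fun p => 2 * ((a p) ^ k).re) {F : ℝ → ℝ} (hF : ContinuousOn F (Set.Icc (-2) 2))
    {L : ℝ} (hL : MeanP (fun p => F (2 * (a p).re)) L) : NMean (fun p => F (2 * (a p).re)) L := by
  have hre : ∀ p, 2 * (a p).re ∈ Set.Icc (-2 : ℝ) 2 := fun p => by
    have h1 := abs_le.1 (NatMean_re (ha p))
    exact ⟨h1.1, h1.2⟩
  obtain ⟨C, hC⟩ := isCompact_Icc.exists_bound_of_continuousOn hF
  refine nmean_of_approx ⟨C, fun p => hC _ (hre p)⟩ hL fun ε hε => ?_
  obtain ⟨P, hP⟩ := exists_polynomial_near_of_continuousOn (-2) 2 F hF _ hε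
  refine ⟨fun p => P.eval (2 * (a p).re), ?_, fun p => ?_⟩
  · have h1 : (fun p => P.eval (2 * (a p).re)) = fun p => ∑ i ∈ Finset.range (P.natDegree + 1),
        (P.coeff i / 2) * ((2 * (a p).re) ^ i * (2 * ((a p) ^ (0 : ℤ)).re)) := by
      funext p
      rw [Polynomial.eval_eq_sum_range]
      refine Finset.sum_congr rfl fun i _ => ?_
      rw [zpow_zero, Complex.one_re]
      ring
    rw [h1]
    exact Good.sum _ fun i _ => (good_monomial ha h i 0).const_mul _
  · rw [abs_sub_comm]
    exact (hP _ (hre p)).le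

end Pool.Agent.EEA520
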