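import Pool.Agent.W_eea520_h70.NatTrc
import Pool.Agent.W_eea520_h70.NatMean
import Pool.Agent.W_pnt_h80.PNT

/-!
# Natural density of the traces (MP_eea520_nt, theorem G)
-/

set_option autoImplicit false

namespace Pool.Agent.EEA520

open Filter Topology Pool.Agent.EEAG1 LSeries

variable {n : ℕ}

theorem pt_sub_ne {t : ℝ} (ht : t ≠ 0) : pt t - 1 ≠ 0 := sub_ne_zero.2 (pt_ne_one ht)

/-- The boundary behaviour, with the polar part at `1`. -/
theorem bdry_one {π : GSys n} (hπ : Tempered π) {m : Wt n →₀ ℤ} {a : ℤ}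
    (h0 : PoleOrder π m (pt 0) a) (h : ∀ t : ℝ, t ≠ 0 → PoleOrder π m (pt t) 0) (y : ℝ) :
    ∃ L : ℂ, Tendsto (fun s => LSeries (logMul (chn π m)) s - a / (s - 1))
      (𝓝[{s | 1 < s.re}] (pt y)) (𝓝 L) := by
  by_cases hy : y = 0
  · subst hy
    have h1 := bdry hπ h0
    rw [pt_zero'] at h1 ⊢
    exact h1
  · obtain ⟨L, hL⟩ := bdry hπ (h y hy)
    have h2 : ContinuousAt (fun s : ℂ => (a : ℂ) / (s - 1)) (pt y) :=
      ContinuousAt.div continuousAt_const (by fun_prop) (pt_sub_ne hy)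
    have h3 := hL.sub (h2.tendsto.mono_left nhdsWithin_le_nhds)
    refine ⟨_, h3.congr fun s => ?_⟩
    simp

theorem conj_pt (y : ℝ) : (starRingEnd ℂ) (pt y) = pt (-y) := by
  unfold pt
  simp

theorem tendsto_conj_pt (y : ℝ) : Tendsto (starRingEnd ℂ) (𝓝[{s | 1 < s.re}] (pt y))
    (𝓝[{s | 1 < s.re}] (pt (-y))) := by
  refine tendsto_nhdsWithin_iff.2 ⟨?_, ?_⟩
  · have h1 := (Complex.continuous_conj.tendsto (pt y)).mono_left
      (nhdsWithin_le_nhds (s := {s : ℂ | 1 < s.re}))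
    rw [conj_pt] at h1
    exact h1
  · filter_upwards [self_mem_nhdsWithin] with s hs
    show 1 < ((starRingEnd ℂ) s).re
    rw [Complex.conj_re]
    exact hs

/-- The hypothesis of the theorem of Wiener and Ikehara. -/
theorem wf_bdry {π : GSys n} (hπ : Tempered π) {m : Wt n →₀ ℤ} {a : ℤ}
    (h0 : PoleOrder π m (pt 0) a) (h : ∀ t : ℝ, t ≠ 0 → PoleOrder π m (pt t) 0) (y : ℝ) :
    ∃ L : ℂ, Tendsto (fun s => LSeries (fun k => ((wf π m k : ℝ) : ℂ)) s -
      ((mnorm m + a : ℝ) : ℂ) / (s - 1)) (𝓝[{s | 1 < s.re}] (1 + y * Complex.I)) (𝓝 L) := by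
  obtain ⟨L1, hL1⟩ := bdry_one hπ (poleOrder_zeta_one π) (fun t ht => poleOrder_zeta π ht) y
  obtain ⟨L2, hL2⟩ := bdry_one hπ h0 h y
  obtain ⟨L3, hL3⟩ := bdry_one hπ h0 h (-y)
  have h4 := (Complex.continuous_conj.tendsto L3).comp (hL3.comp (tendsto_conj_pt y))
  have h5 := (hL1.const_mul (mnorm m : ℂ)).add ((hL2.const_mul (1 / 2 : ℂ)).add
    (h4.const_mul (1 / 2 : ℂ)))
  refine ⟨_, Tendsto.congr' ?_ h5⟩
  have hpt : (1 + (y : ℂ) * Complex.I) = pt y := rfl
  filter_upwards [self_mem_nhdsWithin] with s hs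
  have hs' : 1 < s.re := hs
  have hs1 : s - 1 ≠ 0 := by
    intro h6
    have h7 : s = 1 := sub_eq_zero.1 h6
    rw [h7] at hs'
    simp at hs'
  rw [wf_LSeries hπ m hs']
  simp only [Function.comp_apply, map_sub, map_div₀, Complex.conj_conj, map_one, map_intCast]
  push_cast
  field_simp
  ring

/-- The weighted sums. -/
theorem wf_tendsto {π : GSys n} (hπ : Tempered π) {m : Wt n →₀ ℤ} {a : ℤ}
    (h0 : PoleOrder π m (pt 0) a) (h : ∀ t : ℝ, t ≠ 0 → PoleOrder π m (pt t) 0) :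
    Tendsto (fun x : ℝ => sfn (wf π m) x / x) atTop (𝓝 (mnorm m + a)) :=
  wiener_ikehara (wf_nonneg hπ m) (wf_le hπ m) (wf_bdry hπ h0 h)

/-- The sum with the weights `log p`. -/
noncomputable def lsum (f : Pr → ℝ) (N : ℕ) : ℝ := nsum (fun p => f p * Real.log ((p : ℕ) : ℝ)) N

theorem lsum_one (N : ℕ) : lsum (fun _ => 1) N = Chebyshev.theta N := by
  unfold lsum nsum
  rw [Chebyshev.theta_eq_sum_Icc, Finset.sum_filter, Nat.floor_natCast]
  have h1 : Finset.range (N + 1) = Finset.Icc 0 N := by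
    ext k
    rw [Finset.mem_range, Finset.mem_Icc]
    omega
  rw [h1]
  refine Finset.sum_congr rfl fun k _ => ?_
  split_ifs with h
  · simp
  · rfl

theorem sfn_eq (π : GSys n) (m : Wt n →₀ ℤ) (N : ℕ) :
    sfn (wf π m) N = mnorm m * Chebyshev.theta N + lsum (tre π m 0) N := by
  have h1 : lsum (fun p => mnorm m * 1 + tre π m 0 p) N =
      mnorm m * Chebyshev.theta N + lsum (tre π m 0) N := by
    rw [← lsum_one]
    unfold lsum
    rw [← nsum_const_mul, ← nsum_add]
    congr 1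
    funext p
    ring
  rw [← h1]
  unfold sfn lsum nsum
  rw [Nat.floor_natCast, Finset.range_eq_Ico, Finset.sum_eq_sum_Ico_succ_bot (by omega)]
  rw [dif_neg Nat.not_prime_zero, zero_add]
  have h2 : Finset.Ico (0 + 1) (N + 1) = Finset.Icc 1 N := by
    ext k
    rw [Finset.mem_Ico, Finset.mem_Icc]
    omega
  rw [h2]
  refine Finset.sum_congr rfl fun k _ => ?_
  unfold wf
  split_ifs with h
  · have h3 : ∀ p : Pr, (mnorm m + (tcx π m p).re) * Real.log ((p : ℕ) : ℝ) =
        (mnorm m * 1 + tre π m 0 p) * Real.log ((p : ℕ) : ℝ) := by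
      intro p
      rw [tre_eq]
      simp
    rw [chn, dif_pos h]
    exact h3 ⟨k, h⟩
  · rfl

/-- The average with the weights `log p`. -/
theorem lsum_tendsto {π : GSys n} (hπ : Tempered π) {m : Wt n →₀ ℤ} {a : ℤ}
    (h0 : PoleOrder π m (pt 0) a) (h : ∀ t : ℝ, t ≠ 0 → PoleOrder π m (pt t) 0) :
    Tendsto (fun N : ℕ => lsum (tre π m 0) N / (N : ℝ)) atTop (𝓝 a) := by
  have h1 := (wf_tendsto hπ h0 h).comp tendsto_natCast_atTop_atTop
  have h2 := (Pool.Agent.W_pnt_h80.theta_tendsto.comp tendsto_natCast_atTop_atTop).const_mul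
    (mnorm m)
  have h3 := h1.sub h2
  rw [mul_one, add_sub_cancel_left] at h3
  refine h3.congr fun N => ?_
  simp only [Function.comp_apply]
  rw [sfn_eq]
  ring

/-- Partial summation. -/
theorem nsum_sub_le {f : Pr → ℝ} {C : ℝ} (hf : ∀ p, |f p| ≤ C) {N : ℕ} (hN : 2 ≤ N) :
    |nsum f N - lsum f N / Real.log N| ≤
      C * ((Nat.primeCounting N : ℝ) - Chebyshev.theta N / Real.log N) := by
  have hC : 0 ≤ C := (abs_nonneg _).trans (hf ⟨2, Nat.prime_two⟩)
  have hlog : 0 < Real.log N := Real.log_pos (by exact_mod_cast hN)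
  rw [← nsum_one, ← lsum_one]
  unfold lsum nsum
  rw [Finset.sum_div, Finset.sum_div, ← Finset.sum_sub_distrib, ← Finset.sum_sub_distrib,
    Finset.mul_sum]
  refine (Finset.abs_sum_le_sum_abs _ _).trans (Finset.sum_le_sum fun k hk => ?_)
  split_ifs with h
  · have h1 : (k : ℝ) ≤ N := by
      have := Finset.mem_range.1 hk
      exact_mod_cast Nat.lt_succ_iff.1 this
    have h2 : Real.log k ≤ Real.log N :=
      Real.log_le_log (by exact_mod_cast h.pos) h1
    have h3 : 0 ≤ 1 - Real.log k / Real.log N := by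
      rw [sub_nonneg, div_le_one hlog]
      exact h2
    have h4 : f ⟨k, h⟩ - f ⟨k, h⟩ * Real.log k / Real.log N =
        f ⟨k, h⟩ * (1 - Real.log k / Real.log N) := by ring
    show |f ⟨k, h⟩ - f ⟨k, h⟩ * Real.log k / Real.log N| ≤
      C * (1 - 1 * Real.log k / Real.log N)
    rw [h4, abs_mul, abs_of_nonneg h3, one_mul]
    exact mul_le_mul_of_nonneg_right (hf _) h3
  · simp

/-- Natural density from the weights `log p`. -/
theorem nmean_of_lsum {f : Pr → ℝ} (hf : BdP f) {L : ℝ}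
    (h : Tendsto (fun N : ℕ => lsum f N / (N : ℝ)) atTop (𝓝 L)) : NMean f L := by
  obtain ⟨C, hC⟩ := hf
  have hθ := Pool.Agent.W_pnt_h80.theta_tendsto.comp tendsto_natCast_atTop_atTop
  have hπ' := Pool.Agent.W_pnt_h80.pi_tendsto.comp tendsto_natCast_atTop_atTop
  have hπ : Tendsto (fun N : ℕ => (Nat.primeCounting N : ℝ) * Real.log N / N) atTop (𝓝 1) := by
    refine hπ'.congr fun N => ?_
    simp only [Function.comp_apply]
    rw [Nat.floor_natCast]
  have h1 : Tendsto (fun N : ℕ => lsum f N / (N : ℝ) /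
      ((Nat.primeCounting N : ℝ) * Real.log N / N)) atTop (𝓝 (L / 1)) :=
    h.div hπ one_ne_zero
  have h2 : Tendsto (fun N : ℕ => C * (1 - Chebyshev.theta N / (N : ℝ) /
      ((Nat.primeCounting N : ℝ) * Real.log N / N))) atTop (𝓝 (C * (1 - 1 / 1))) :=
    (tendsto_const_nhds.sub (hθ.div hπ one_ne_zero)).const_mul C
  rw [div_one] at h1
  rw [div_one, sub_self, mul_zero] at h2
  have h3 : Tendsto (fun N : ℕ => nsum f N / (Nat.primeCounting N : ℝ) - lsum f N / (N : ℝ) /
      ((Nat.primeCounting N : ℝ) * Real.log N / N)) atTop (𝓝 0) := by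
    refine squeeze_zero_norm' ?_ h2
    filter_upwards [eventually_ge_atTop 2] with N hN
    have hlog : 0 < Real.log N := Real.log_pos (by exact_mod_cast hN)
    have hN0 : (0 : ℝ) < N := by exact_mod_cast (by omega : 0 < N)
    have hpi : (0 : ℝ) < Nat.primeCounting N := by
      have h4 : 0 < Nat.primeCounting N := by
        refine lt_of_lt_of_le ?_ (Nat.monotone_primeCounting hN)
        decide
      exact_mod_cast h4
    have h4 := nsum_sub_le hC hN
    have h5 : nsum f N / (Nat.primeCounting N : ℝ) - lsum f N / (N : ℝ) /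
        ((Nat.primeCounting N : ℝ) * Real.log N / N) =
        (nsum f N - lsum f N / Real.log N) / (Nat.primeCounting N : ℝ) := by
      field_simp
    have h6 : C * (1 - Chebyshev.theta N / (N : ℝ) /
        ((Nat.primeCounting N : ℝ) * Real.log N / N)) =
        (C * ((Nat.primeCounting N : ℝ) - Chebyshev.theta N / Real.log N)) /
          (Nat.primeCounting N : ℝ) := by
      field_simp
    rw [h5, h6, Real.norm_eq_abs, abs_div, abs_of_pos hpi]
    exact div_le_div_of_nonneg_right h4 hpi.le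
  have h4 := h3.add h1
  rw [zero_add] at h4
  refine h4.congr fun N => ?_
  ring

/-- The mean value of the traces in the sense of natural density. -/
theorem nmean_of_poleOrder {π : GSys n} (hπ : Tempered π) {m : Wt n →₀ ℤ} {a : ℤ}
    (h0 : PoleOrder π m (pt 0) a) (h : ∀ t : ℝ, t ≠ 0 → PoleOrder π m (pt t) 0) :
    NMean (tre π m 0) a :=
  nmean_of_lsum (bdP_tre hπ m 0) (lsum_tendsto hπ h0 h)

end Pool.Agent.EEA520
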