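import Pool.Agent.W_eea520_h99.ZetaP

/-!
# The logarithm of the Euler product as a Dirichlet series (MP_eea520_nt, theorem G)
-/

set_option autoImplicit false

namespace Pool.Agent.EEA520

open Filter Topology Pool.Agent.EEAG1 LSeries

variable {n : ℕ}

/-- The trace of the class at `k`, if `k` is a prime number, and `0` otherwise. -/
noncomputable def chn (π : GSys n) (m : Wt n →₀ ℤ) (k : ℕ) : ℂ :=
  if h : k.Prime then tcx π m ⟨k, h⟩ else 0

theorem chn_le {π : GSys n} (hπ : Tempered π) (m : Wt n →₀ ℤ) (k : ℕ) : ‖chn π m k‖ ≤ mnorm m := by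
  unfold chn
  split_ifs with h
  · exact tcx_le hπ m _
  · rw [norm_zero]
    exact mnorm_nonneg m

theorem chn_summable {π : GSys n} (hπ : Tempered π) (m : Wt n →₀ ℤ) {s : ℂ} (hs : 1 < s.re) :
    LSeriesSummable (chn π m) s :=
  LSeriesSummable_of_bounded_of_one_lt_re (fun k _ => chn_le hπ m k) hs

theorem chn_abscissa {π : GSys n} (hπ : Tempered π) (m : Wt n →₀ ℤ) {s : ℂ} (hs : 1 < s.re) :
    abscissaOfAbsConv (chn π m) < s.re := by
  refine (LSeries.abscissaOfAbsConv_le_of_le_const ⟨mnorm m, fun k _ => chn_le hπ m k⟩).trans_lt ?_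
  exact_mod_cast hs

theorem chn_hasDerivAt {π : GSys n} (hπ : Tempered π) (m : Wt n →₀ ℤ) {s : ℂ} (hs : 1 < s.re) :
    HasDerivAt (LSeries (chn π m)) (-LSeries (logMul (chn π m)) s) s :=
  LSeries_hasDerivAt (chn_abscissa hπ m hs)

theorem trq_eq (π : GSys n) (m : Wt n →₀ ℤ) (p : Pr) (q : ℂ) :
    trq (π p) m q = tcx π m p * q := by
  unfold trq tcx Finsupp.sum
  rw [Finset.sum_mul]
  refine Finset.sum_congr rfl fun w _ => ?_
  ring

theorem chn_hasSum {π : GSys n} (hπ : Tempered π) (m : Wt n →₀ ℤ) {s : ℂ} (hs : 1 < s.re) :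
    HasSum (fun p : Pr => trq (π p) m (((p : ℕ) : ℂ) ^ (-s))) (LSeries (chn π m) s) := by
  have h1 : HasSum (term (chn π m) s) (LSeries (chn π m) s) := (chn_summable hπ m hs).LSeriesHasSum
  have hinj : Function.Injective (fun p : Pr => (p : ℕ)) := Subtype.val_injective
  have h2 := (hinj.hasSum_iff (f := term (chn π m) s) (a := LSeries (chn π m) s) (by
    intro k hk
    have h3 : ¬ k.Prime := fun h => hk ⟨⟨k, h⟩, rfl⟩
    by_cases hk0 : k = 0
    · rw [hk0, term_zero]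
    · rw [term_of_ne_zero hk0, chn, dif_neg h3, zero_div])).2 h1
  refine h2.congr_fun fun p => ?_
  rw [Function.comp_apply, term_of_ne_zero p.2.ne_zero, chn, dif_pos p.2, trq_eq, Complex.cpow_neg,
    div_eq_mul_inv]
  rfl

/-- The terms of higher order. -/
noncomputable def hol (π : GSys n) (m : Wt n →₀ ℤ) (s : ℂ) : ℂ :=
  ∑' p : Pr, (lfac (π p) m (((p : ℕ) : ℂ) ^ (-s)) - trq (π p) m (((p : ℕ) : ℂ) ^ (-s)))

theorem lfac_bound' {t : Torus n} (ht : ∀ w, ‖(t.ev w : ℂ)‖ = 1) (m : Wt n →₀ ℤ) {q : ℂ}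
    (hq : ‖q‖ ≤ 3 / 4) : ‖lfac t m q - trq t m q‖ ≤ mnorm m * (2 * ‖q‖ ^ 2) := by
  unfold lfac trq mnorm Finsupp.sum
  rw [← Finset.sum_sub_distrib, Finset.sum_mul]
  refine norm_sum_le_of_le _ fun w _ => ?_
  have hz : ‖-((t.ev w : ℂ) * q)‖ = ‖q‖ := by rw [norm_neg, norm_mul, ht, one_mul]
  have h2 := Complex.norm_log_one_add_sub_self_le (z := -((t.ev w : ℂ) * q)) (by rw [hz]; linarith)
  rw [hz] at h2
  have h3 : -(((m w : ℤ) : ℂ) * Complex.log (1 - (t.ev w : ℂ) * q)) -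
      ((m w : ℤ) : ℂ) * ((t.ev w : ℂ) * q) =
      -((m w : ℤ) : ℂ) * (Complex.log (1 + -((t.ev w : ℂ) * q)) - -((t.ev w : ℂ) * q)) := by
    rw [← sub_eq_add_neg]
    ring
  rw [h3, norm_mul, norm_neg, Complex.norm_intCast]
  refine mul_le_mul_of_nonneg_left (h2.trans ?_) (abs_nonneg _)
  have h4 : (1 - ‖q‖)⁻¹ ≤ 4 := by
    rw [inv_le_comm₀ (by linarith) (by norm_num)]
    linarith
  have h5 : 0 ≤ ‖q‖ ^ 2 := by positivity
  nlinarith [mul_le_mul_of_nonneg_left h4 h5]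

theorem hol_norm {s : ℂ} (p : Pr) : ‖(((p : ℕ) : ℂ) ^ (-s))‖ = ((p : ℕ) : ℝ) ^ (-s.re) := by
  rw [Complex.norm_natCast_cpow_of_pos p.2.pos, Complex.neg_re]

theorem hol_le {s : ℂ} (hs : 3 / 4 < s.re) (p : Pr) : ‖(((p : ℕ) : ℂ) ^ (-s))‖ ≤ 3 / 4 := by
  have hp2 : (2 : ℝ) ≤ ((p : ℕ) : ℝ) := by exact_mod_cast p.2.two_le
  rw [hol_norm]
  have h1 : ((p : ℕ) : ℝ) ^ (-s.re) ≤ (2 : ℝ) ^ (-(3 / 4 : ℝ)) := by
    calc ((p : ℕ) : ℝ) ^ (-s.re) ≤ (2 : ℝ) ^ (-s.re) :=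
          Real.rpow_le_rpow_of_nonpos (by norm_num) hp2 (by linarith)
      _ ≤ (2 : ℝ) ^ (-(3 / 4 : ℝ)) :=
          Real.rpow_le_rpow_of_exponent_le (by norm_num) (by linarith)
  refine h1.trans ?_
  rw [Real.rpow_neg (by norm_num), inv_le_comm₀ (by positivity) (by norm_num)]
  have h2 : ((2 : ℝ) ^ (3 / 4 : ℝ)) ^ 4 = 8 := by
    rw [← Real.rpow_natCast, ← Real.rpow_mul (by norm_num)]
    norm_num
  by_contra hcon
  push Not at hcon
  have h3 : ((2 : ℝ) ^ (3 / 4 : ℝ)) ^ 4 < ((3 / 4 : ℝ)⁻¹) ^ 4 :=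
    pow_lt_pow_left₀ hcon (by positivity) (by norm_num)
  rw [h2] at h3
  norm_num at h3

theorem hol_sq {s : ℂ} (hs : 3 / 4 < s.re) (p : Pr) :
    ‖(((p : ℕ) : ℂ) ^ (-s))‖ ^ 2 ≤ ((p : ℕ) : ℝ) ^ (-(3 / 2 : ℝ)) := by
  have hp1 : (1 : ℝ) ≤ ((p : ℕ) : ℝ) := by exact_mod_cast p.2.one_lt.le
  rw [hol_norm, ← Real.rpow_natCast, ← Real.rpow_mul (by linarith)]
  refine Real.rpow_le_rpow_of_exponent_le hp1 ?_
  push_cast
  linarith

theorem hol_term {π : GSys n} (hπ : Tempered π) (m : Wt n →₀ ℤ) {s : ℂ} (hs : 3 / 4 < s.re)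
    (p : Pr) : ‖lfac (π p) m (((p : ℕ) : ℂ) ^ (-s)) - trq (π p) m (((p : ℕ) : ℂ) ^ (-s))‖ ≤
      mnorm m * (2 * ((p : ℕ) : ℝ) ^ (-(3 / 2 : ℝ))) := by
  refine (lfac_bound' (fun w => norm_ev hπ p w) m (hol_le hs p)).trans ?_
  exact mul_le_mul_of_nonneg_left (mul_le_mul_of_nonneg_left (hol_sq hs p) (by norm_num))
    (mnorm_nonneg m)

theorem hol_summable (m : Wt n →₀ ℤ) :
    Summable fun p : Pr => mnorm m * (2 * ((p : ℕ) : ℝ) ^ (-(3 / 2 : ℝ))) :=
  ((Nat.Primes.summable_rpow.2 (by norm_num)).mul_left 2).mul_left _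

theorem hol_differentiable {π : GSys n} (hπ : Tempered π) (m : Wt n →₀ ℤ) :
    DifferentiableOn ℂ (hol π m) {s : ℂ | 3 / 4 < s.re} := by
  refine Complex.differentiableOn_tsum_of_summable_norm (hol_summable m) ?_
    (isOpen_lt continuous_const Complex.continuous_re) fun p s hs => hol_term hπ m hs p
  intro p s hs
  have hs' : 3 / 4 < s.re := hs
  refine DifferentiableAt.differentiableWithinAt ?_
  have hp0 : ((p : ℕ) : ℂ) ≠ 0 := by exact_mod_cast p.2.ne_zero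
  have hq : DifferentiableAt ℂ (fun s : ℂ => ((p : ℕ) : ℂ) ^ (-s)) s :=
    DifferentiableAt.const_cpow differentiableAt_id.neg (Or.inl hp0)
  refine DifferentiableAt.sub ?_ ?_
  · unfold lfac Finsupp.sum
    refine DifferentiableAt.fun_sum fun w _ => DifferentiableAt.neg ?_
    refine DifferentiableAt.const_mul ?_ _
    refine DifferentiableAt.clog (DifferentiableAt.const_sub (hq.const_mul _) 1) ?_
    rw [Complex.mem_slitPlane_iff]
    left
    have h1 : ‖((π p).ev w : ℂ) * ((p : ℕ) : ℂ) ^ (-s)‖ ≤ 3 / 4 := by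
      rw [norm_mul, norm_ev hπ, one_mul]
      exact hol_le hs' p
    have h2 := (abs_le.1 ((Complex.abs_re_le_norm _).trans h1)).2
    rw [Complex.sub_re, Complex.one_re]
    linarith
  · unfold trq Finsupp.sum
    refine DifferentiableAt.fun_sum fun w _ => ?_
    exact (hq.const_mul _).const_mul _

theorem factor_hasProd {π : GSys n} (hπ : Tempered π) (m : Wt n →₀ ℤ) {s : ℂ} (hs : 1 < s.re) :
    HasProd (fun p : Pr => (π p).factor m (((p : ℕ) : ℂ) ^ (-s)))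
      (Complex.exp (LSeries (chn π m) s + hol π m s)) := by
  have hs' : 3 / 4 < s.re := by linarith
  have h1 : HasSum (fun p : Pr => lfac (π p) m (((p : ℕ) : ℂ) ^ (-s)) -
      trq (π p) m (((p : ℕ) : ℂ) ^ (-s))) (hol π m s) :=
    (Summable.of_norm_bounded (hol_summable m) fun p => hol_term hπ m hs' p).hasSum
  have h2 := (chn_hasSum hπ m hs).add h1
  have h3 := h2.cexp
  refine h3.congr_fun fun p => ?_
  rw [Function.comp_apply, add_sub_cancel]
  refine (exp_lfac (fun w => norm_ev hπ p w) m ?_).symm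
  rw [hol_norm]
  have hp2 : (2 : ℝ) ≤ ((p : ℕ) : ℝ) := by exact_mod_cast p.2.two_le
  calc ((p : ℕ) : ℝ) ^ (-s.re) ≤ ((p : ℕ) : ℝ) ^ (-1 : ℝ) :=
        Real.rpow_le_rpow_of_exponent_le (by linarith) (by linarith)
    _ ≤ 1 / 2 := by
        rw [Real.rpow_neg_one, one_div]
        exact inv_anti₀ (by norm_num) hp2

end Pool.Agent.EEA520
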