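import Mathlib

/-!
# No correlation with `p ^ (i t)` (MP_eea520_nt, theorem G, natural density)
-/

set_option autoImplicit false

namespace Pool.Agent.EEA520

open scoped InnerProductSpace

/-- Bessel's identity for orthogonal vectors of norm `√2`. -/
theorem bessel_two {H : Type*} [NormedAddCommGroup H] [InnerProductSpace ℝ H] {ι : Type*}
    [DecidableEq ι] (F : Finset ι) (e : ι → H)
    (he : ∀ i ∈ F, ∀ j ∈ F, ⟪e i, e j⟫_ℝ = if i = j then 2 else 0) (x : H) :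
    ‖x - ∑ i ∈ F, (⟪x, e i⟫_ℝ / 2) • e i‖ ^ 2 = ‖x‖ ^ 2 - (∑ i ∈ F, ⟪x, e i⟫_ℝ ^ 2) / 2 := by
  have h1 : ⟪x, ∑ i ∈ F, (⟪x, e i⟫_ℝ / 2) • e i⟫_ℝ = (∑ i ∈ F, ⟪x, e i⟫_ℝ ^ 2) / 2 := by
    rw [inner_sum, Finset.sum_div]
    refine Finset.sum_congr rfl fun i _ => ?_
    rw [real_inner_smul_right]
    ring
  have h2 : ⟪∑ i ∈ F, (⟪x, e i⟫_ℝ / 2) • e i, ∑ i ∈ F, (⟪x, e i⟫_ℝ / 2) • e i⟫_ℝ =
      (∑ i ∈ F, ⟪x, e i⟫_ℝ ^ 2) / 2 := by
    rw [sum_inner, Finset.sum_div]
    refine Finset.sum_congr rfl fun i hi => ?_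
    rw [inner_sum, Finset.sum_eq_single i]
    · rw [real_inner_smul_left, real_inner_smul_right, he i hi i hi, if_pos rfl]
      ring
    · intro j hj hji
      rw [real_inner_smul_left, real_inner_smul_right, he i hi j hj, if_neg hji.symm]
      ring
    · intro h
      exact absurd hi h
  rw [norm_sub_sq_real, h1, ← real_inner_self_eq_norm_sq (∑ i ∈ F, (⟪x, e i⟫_ℝ / 2) • e i), h2]
  ring

theorem rig_smul {E : AddSubgroup ℝ} {t : E} (ht : t ≠ 0) (i : ℤ) : i • t = 0 ↔ i = 0 := by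
  constructor
  · intro h
    have h1 := congrArg (fun s : E => (s : ℝ)) h
    simp only [AddSubgroup.coe_zsmul, zsmul_eq_mul, AddSubgroup.coe_zero, mul_eq_zero] at h1
    rcases h1 with h1 | h1
    · exact_mod_cast h1
    · exact absurd (Subtype.ext h1) ht
  · rintro rfl
    exact zero_smul ℤ t

section rig
variable {E : AddSubgroup ℝ} {H : Type*} [NormedAddCommGroup H] [InnerProductSpace ℝ H]
  {V : ℤ × E → H} {c : ℤ × E → ℤ}

theorem rig_symm (hV : ∀ g h, ⟪V g, V h⟫_ℝ = c (g - h)) (g : ℤ × E) : c (-g) = c g := by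
  have h1 := hV 0 g
  have h2 := hV g 0
  rw [real_inner_comm, h2, sub_zero, zero_sub] at h1
  exact_mod_cast h1.symm

theorem rig_G (hV : ∀ g h, ⟪V g, V h⟫_ℝ = c (g - h)) (t : E) (a b i j : ℤ) :
    ⟪V (a, i • t), V (b, j • t)⟫_ℝ = c (a - b, (i - j) • t) := by
  rw [hV, Prod.mk_sub_mk, sub_smul]

theorem rig_c0 (h0 : ∀ t, c (0, t) = if t = 0 then 2 else 0) {t : E} (ht : t ≠ 0) (i : ℤ) :
    c (0, i • t) = if i = 0 then 2 else 0 := by
  rw [h0]
  by_cases h : i = 0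
  · rw [if_pos h, if_pos ((rig_smul ht i).2 h)]
  · rw [if_neg h, if_neg (fun h' => h ((rig_smul ht i).1 h'))]

theorem rig_bessel (hV : ∀ g h, ⟪V g, V h⟫_ℝ = c (g - h))
    (h0 : ∀ t, c (0, t) = if t = 0 then 2 else 0) (hs : ∀ k t, c (k, -t) = c (k, t)) (k : ℤ) {t : E}
    (ht : t ≠ 0) (S : Finset ℤ) :
    ‖V (k, 0) - ∑ i ∈ S, ((c (k, i • t) : ℝ) / 2) • V (0, i • t)‖ ^ 2 =
      2 - (∑ i ∈ S, (c (k, i • t) : ℝ) ^ 2) / 2 := by
  have hx : ∀ i : ℤ, ⟪V (k, 0), V (0, i • t)⟫_ℝ = c (k, i • t) := by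
    intro i
    rw [hV, Prod.mk_sub_mk, sub_zero, zero_sub, hs]
  have h1 := bessel_two S (fun i : ℤ => V (0, i • t)) (by
    intro i _ j _
    rw [rig_G hV, sub_zero, rig_c0 h0 ht]
    by_cases h : i = j
    · rw [if_pos h, if_pos (sub_eq_zero.2 h)]
      norm_num
    · rw [if_neg h, if_neg (fun h' => h (sub_eq_zero.1 h'))]
      norm_num) (V (k, 0))
  simp only [hx] at h1
  rw [h1]
  congr 1
  rw [← real_inner_self_eq_norm_sq, hV, sub_self]
  have := h0 0
  rw [if_pos rfl] at this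
  rw [show (0 : ℤ × E) = (0, 0) by rfl, this]
  norm_num

theorem rig_four (hV : ∀ g h, ⟪V g, V h⟫_ℝ = c (g - h))
    (h0 : ∀ t, c (0, t) = if t = 0 then 2 else 0) (hs : ∀ k t, c (k, -t) = c (k, t)) (k : ℤ) {t : E}
    (ht : t ≠ 0) (S : Finset ℤ) : ∑ i ∈ S, c (k, i • t) ^ 2 ≤ 4 := by
  have h1 := rig_bessel hV h0 hs k ht S
  have h2 : (0 : ℝ) ≤ 2 - (∑ i ∈ S, (c (k, i • t) : ℝ) ^ 2) / 2 := by
    rw [← h1]
    positivity
  have h3 : (∑ i ∈ S, (c (k, i • t) : ℝ) ^ 2) ≤ 4 := by linarith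
  exact_mod_cast h3

theorem rig_neg (hs : ∀ k t, c (k, -t) = c (k, t)) (k : ℤ) (t : E) (i : ℤ) :
    c (k, (-i) • t) = c (k, i • t) := by
  rw [neg_smul, hs]

theorem rig_sq {a : ℤ} (h : a ≠ 0) : 1 ≤ a ^ 2 := by
  have : 0 < a ^ 2 := by positivity
  omega

theorem rig_A (hV : ∀ g h, ⟪V g, V h⟫_ℝ = c (g - h))
    (h0 : ∀ t, c (0, t) = if t = 0 then 2 else 0) (hs : ∀ k t, c (k, -t) = c (k, t)) (k : ℤ) {t : E}
    (ht : t ≠ 0) (hk : c (k, 0) ^ 2 = 1) : c (k, t) = 0 := by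
  by_contra hne
  have h1 := rig_sq hne
  have e0 : c (k, (0 : ℤ) • t) = c (k, 0) := by rw [zero_smul]
  have e1 : c (k, (1 : ℤ) • t) = c (k, t) := by rw [one_smul]
  have h2 := rig_four hV h0 hs k ht {0, 1, -1}
  rw [Finset.sum_insert (by decide), Finset.sum_insert (by decide), Finset.sum_singleton, rig_neg hs,
    e0, e1, hk] at h2
  have h3 := rig_four hV h0 hs k ht {0, 1, -1, 2, -2}
  rw [Finset.sum_insert (by decide), Finset.sum_insert (by decide), Finset.sum_insert (by decide),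
    Finset.sum_insert (by decide), Finset.sum_singleton, rig_neg hs, rig_neg hs, e0, e1, hk] at h3
  have h4 : c (k, t) ^ 2 = 1 := by omega
  have h5 : c (k, (2 : ℤ) • t) = 0 := by
    by_contra h
    have := rig_sq h
    omega
  have hc : ∀ i : ℤ, c (0 - k, i • t) = c (k, i • t) := by
    intro i
    rw [zero_sub, ← rig_symm hV, Prod.neg_mk, neg_neg, hs]
  set δ : ℝ := (c (k, 0) : ℝ) * c (k, t) with hδ
  have hkr : ((c (k, 0) : ℤ) : ℝ) ^ 2 = 1 := by exact_mod_cast hk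
  have htr : ((c (k, t) : ℤ) : ℝ) ^ 2 = 1 := by exact_mod_cast h4
  have hδ2 : δ ^ 2 = 1 := by rw [hδ, mul_pow, hkr, htr, one_mul]
  have hδε : δ * c (k, t) = c (k, 0) := by
    rw [hδ, mul_assoc, ← pow_two, htr, mul_one]
  have n1 : ∀ a : ℤ, ⟪V (a, (0 : ℤ) • t) + δ • V (a, (1 : ℤ) • t) + V (a, (2 : ℤ) • t),
      V (a, (0 : ℤ) • t) + δ • V (a, (1 : ℤ) • t) + V (a, (2 : ℤ) • t)⟫_ℝ = 6 := by
    intro a
    simp only [inner_add_left, inner_add_right, real_inner_smul_left, real_inner_smul_right,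
      rig_G hV, sub_self, rig_c0 h0 ht]
    norm_num
    linear_combination 2 * hδ2
  have n2 : ⟪V (k, (0 : ℤ) • t) + δ • V (k, (1 : ℤ) • t) + V (k, (2 : ℤ) • t),
      V (0, (0 : ℤ) • t) + δ • V (0, (1 : ℤ) • t) + V (0, (2 : ℤ) • t)⟫_ℝ = 7 * c (k, 0) := by
    have e2 : c (k, (-1 : ℤ) • t) = c (k, t) := by rw [rig_neg hs, e1]
    have e3 : c (k, (-2 : ℤ) • t) = 0 := by rw [rig_neg hs, h5]
    simp only [inner_add_left, inner_add_right, real_inner_smul_left, real_inner_smul_right,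
      rig_G hV, sub_zero, sub_self, e0, e1, h5, show (0 : ℤ) - 1 = -1 by norm_num,
      show (0 : ℤ) - 2 = -2 by norm_num, show (1 : ℤ) - 2 = -1 by norm_num,
      show (2 : ℤ) - 1 = 1 by norm_num, e2, e3, Int.cast_zero]
    linear_combination 4 * hδε + (c (k, 0) : ℝ) * hδ2
  have h6 := real_inner_mul_inner_self_le
    (V (k, (0 : ℤ) • t) + δ • V (k, (1 : ℤ) • t) + V (k, (2 : ℤ) • t))
    (V (0, (0 : ℤ) • t) + δ • V (0, (1 : ℤ) • t) + V (0, (2 : ℤ) • t))
  rw [n2, n1, n1] at h6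
  nlinarith

/-- Case B, first step. -/
theorem rig_B {U : ℤ × E → H ≃ₗᵢ[ℝ] H} (hT : ∀ a g, U a (V g) = V (a + g))
    (hV : ∀ g h, ⟪V g, V h⟫_ℝ = c (g - h))
    (h0 : ∀ t, c (0, t) = if t = 0 then 2 else 0) (hs : ∀ k t, c (k, -t) = c (k, t)) (k : ℤ) {t : E}
    (ht : t ≠ 0) (hne : c (k, t) ≠ 0) (d : ℤ) (hd : d ≤ -2 ∨ 2 ≤ d) :
    c (k, d • t) = 0 := by
  by_contra hd0
  have h1 := rig_sq hne
  have h2 := rig_sq hd0
  have e1 : c (k, (1 : ℤ) • t) = c (k, t) := by rw [one_smul]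
  have m1 : (1 : ℤ) ∉ ({-1, d, -d} : Finset ℤ) := by
    simp only [Finset.mem_insert, Finset.mem_singleton]
    omega
  have m2 : (-1 : ℤ) ∉ ({d, -d} : Finset ℤ) := by
    simp only [Finset.mem_insert, Finset.mem_singleton]
    omega
  have m3 : (d : ℤ) ∉ ({-d} : Finset ℤ) := by
    simp only [Finset.mem_singleton]
    omega
  have h3 := rig_four hV h0 hs k ht {1, -1, d, -d}
  have hsum : ∑ i ∈ ({1, -1, d, -d} : Finset ℤ), c (k, i • t) ^ 2 =
      2 * c (k, t) ^ 2 + 2 * c (k, d • t) ^ 2 := by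
    rw [Finset.sum_insert m1, Finset.sum_insert m2, Finset.sum_insert m3, Finset.sum_singleton,
      rig_neg hs, rig_neg hs, e1]
    ring
  rw [hsum] at h3
  have h4 : c (k, t) ^ 2 = 1 := by omega
  have h5 : c (k, d • t) ^ 2 = 1 := by omega
  have hout : ∀ j : ℤ, j ≠ 1 → j ≠ -1 → j ≠ d → j ≠ -d → c (k, j • t) = 0 := by
    intro j j1 j2 j3 j4
    by_contra hj
    have h6 := rig_sq hj
    have h7 := rig_four hV h0 hs k ht (insert j {1, -1, d, -d})
    rw [Finset.sum_insert (by simp only [Finset.mem_insert, Finset.mem_singleton]; omega), hsum] at h7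
    omega
  have h6 := rig_bessel hV h0 hs k ht {1, -1, d, -d}
  have h7 : (∑ i ∈ ({1, -1, d, -d} : Finset ℤ), ((c (k, i • t) : ℤ) : ℝ) ^ 2) = 4 := by
    have h8 : ∑ i ∈ ({1, -1, d, -d} : Finset ℤ), c (k, i • t) ^ 2 = 4 := by
      rw [hsum, h4, h5]
      norm_num
    exact_mod_cast h8
  rw [h7] at h6
  have h8 : V (k, 0) = ∑ i ∈ ({1, -1, d, -d} : Finset ℤ), ((c (k, i • t) : ℝ) / 2) • V (0, i • t) := by
    rw [← sub_eq_zero, ← norm_eq_zero]
    have : ‖V (k, 0) - ∑ i ∈ ({1, -1, d, -d} : Finset ℤ), ((c (k, i • t) : ℝ) / 2) •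
        V (0, i • t)‖ ^ 2 = 0 := by
      rw [h6]
      norm_num
    exact pow_eq_zero_iff (by norm_num) |>.1 this
  have h9 := congrArg (fun y => ⟪U (k, 0) y, V (0, (2 * d) • t)⟫_ℝ) h8
  simp only [map_sum, map_smul, hT, sum_inner, real_inner_smul_left, Prod.mk_add_mk, zero_add,
    add_zero] at h9
  rw [Finset.sum_insert m1, Finset.sum_insert m2, Finset.sum_insert m3, Finset.sum_singleton] at h9
  simp only [rig_G hV, sub_zero] at h9
  rw [hout (1 - 2 * d) (by omega) (by omega) (by omega) (by omega),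
    hout (-1 - 2 * d) (by omega) (by omega) (by omega) (by omega),
    hout (-d - 2 * d) (by omega) (by omega) (by omega) (by omega),
    show d - 2 * d = -d by ring, hV] at h9
  simp only [rig_neg hs] at h9
  have h10 : ((c (k, d • t) : ℤ) : ℝ) ^ 2 = 1 := by exact_mod_cast h5
  have h11 : (2 : ℝ) * ((c ((k + k, 0) - (0, (2 * d) • t)) : ℤ) : ℝ) = 1 := by
    rw [h9]
    push_cast
    linear_combination h10
  have h12 : (2 : ℤ) * c ((k + k, 0) - (0, (2 * d) • t)) = 1 := by exact_mod_cast h11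
  omega

end rig

/-- The Gram matrix of the chain. -/
def rigK (d : ℤ) : ℝ := if d = 0 then 2 else if d = 1 ∨ d = -1 then -1 else 0

theorem rig_K0 : rigK 0 = 2 := by simp [rigK]

theorem rig_K1 : rigK 1 = -1 := by simp [rigK]

theorem rig_Km : rigK (-1) = -1 := by simp [rigK]

theorem rig_Kout {d : ℤ} (h0 : d ≠ 0) (h1 : d ≠ 1) (h2 : d ≠ -1) : rigK d = 0 := by
  unfold rigK
  rw [if_neg h0, if_neg (by omega)]

/-- Row sums. -/
theorem rig_row (i : ℤ) (m : ℤ) :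
    ∑ j ∈ Finset.Icc (-m) m, rigK (i - j) =
      (if -m ≤ i ∧ i ≤ m then 2 else 0) - (if -m ≤ i - 1 ∧ i - 1 ≤ m then 1 else 0) -
        (if -m ≤ i + 1 ∧ i + 1 ≤ m then 1 else 0) := by
  have h1 : ∀ j : ℤ, rigK (i - j) = (if j = i then 2 else 0) - (if j = i - 1 then 1 else 0) -
      (if j = i + 1 then 1 else 0) := by
    intro j
    by_cases a : j = i
    · rw [a, sub_self, rig_K0, if_pos rfl, if_neg (by omega), if_neg (by omega)]
      norm_num
    · by_cases b : j = i - 1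
      · rw [b, show i - (i - 1) = 1 by ring, rig_K1, if_neg (by omega), if_pos rfl, if_neg (by omega)]
        norm_num
      · by_cases d : j = i + 1
        · rw [d, show i - (i + 1) = -1 by ring, rig_Km, if_neg (by omega), if_neg (by omega),
            if_pos rfl]
          norm_num
        · rw [rig_Kout (by omega) (by omega) (by omega), if_neg a, if_neg b, if_neg d]
          norm_num
  simp only [h1, Finset.sum_sub_distrib, Finset.sum_ite_eq', Finset.mem_Icc]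

theorem rig_gram {H : Type*} [NormedAddCommGroup H] [InnerProductSpace ℝ H] (z : ℤ → H)
    (hz : ∀ i j, ⟪z i, z j⟫_ℝ = rigK (i - j)) (n m : ℕ) :
    ⟪∑ i ∈ Finset.Icc (-(n : ℤ)) n, z i, ∑ j ∈ Finset.Icc (-(m : ℤ)) m, z j⟫_ℝ =
      if n = m then 2 else 0 := by
  have key : ∀ n m : ℕ, n ≤ m →
      ⟪∑ i ∈ Finset.Icc (-(n : ℤ)) n, z i, ∑ j ∈ Finset.Icc (-(m : ℤ)) m, z j⟫_ℝ =
        if n = m then 2 else 0 := by
    intro n m hnm
    rw [sum_inner]
    simp only [inner_sum, hz, rig_row]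
    have h1 : ∀ i ∈ Finset.Icc (-(n : ℤ)) n,
        ((if -(m : ℤ) ≤ i ∧ i ≤ m then (2 : ℝ) else 0) - (if -(m : ℤ) ≤ i - 1 ∧ i - 1 ≤ m then 1 else 0) -
          (if -(m : ℤ) ≤ i + 1 ∧ i + 1 ≤ m then 1 else 0)) =
          (if i = -(m : ℤ) then 1 else 0) + (if i = (m : ℤ) then 1 else 0) := by
      intro i hi
      rw [Finset.mem_Icc] at hi
      rw [if_pos (by omega)]
      by_cases a : i = -(m : ℤ)
      · rw [if_neg (by omega), if_pos a]
        by_cases b : i = (m : ℤ)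
        · rw [if_neg (by omega), if_pos b]
          norm_num
        · rw [if_pos (by omega), if_neg b]
          norm_num
      · rw [if_pos (by omega), if_neg a]
        by_cases b : i = (m : ℤ)
        · rw [if_neg (by omega), if_pos b]
          norm_num
        · rw [if_pos (by omega), if_neg b]
          norm_num
    rw [Finset.sum_congr rfl h1, Finset.sum_add_distrib, Finset.sum_ite_eq', Finset.sum_ite_eq']
    simp only [Finset.mem_Icc]
    by_cases h : n = m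
    · subst h
      rw [if_pos (by omega), if_pos (by omega), if_pos rfl]
      norm_num
    · rw [if_neg (by omega), if_neg (by omega), if_neg h]
      norm_num
  rcases le_total n m with h | h
  · exact key n m h
  · rw [real_inner_comm, key m n h]
    by_cases e : n = m
    · rw [if_pos e, if_pos e.symm]
    · rw [if_neg e, if_neg (fun h' => e h'.symm)]

/-- Symmetric sums with even nonzero terms vanishing are odd. -/
theorem rig_oddsum (a : ℤ → ℤ) (h0 : a 0 = -1) (hs : ∀ i, a (-i) = a i) (n : ℕ) :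
    (∑ i ∈ Finset.Icc (-(n : ℤ)) n, a i) % 2 = 1 := by
  induction n with
  | zero => simp [h0]
  | succ n ih =>
    have h1 : Finset.Icc (-((n + 1 : ℕ) : ℤ)) ((n + 1 : ℕ) : ℤ) =
        insert (-((n : ℤ) + 1)) (insert ((n : ℤ) + 1) (Finset.Icc (-(n : ℤ)) n)) := by
      ext i
      simp only [Finset.mem_Icc, Finset.mem_insert]
      push_cast
      omega
    rw [h1, Finset.sum_insert, Finset.sum_insert, hs]
    · omega
    · simp only [Finset.mem_Icc]
      omega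
    · simp only [Finset.mem_insert, Finset.mem_Icc]
      omega

/-- Let `U` be an orthogonal representation of `ℤ × E` (`E` a group of real numbers), `v` a vector with
`⟨U g v, v⟩ = c g ∈ ℤ`, `c (0, t) = 2` if `t = 0` and `0` otherwise, `c (k, -t) = c (k, t)`, and suppose
that `c (m, 0) = -1` for some `m`. Then `c (k, t) = 0` for all `k` and all `t ≠ 0`.

Proof. Write `V g = U g v`, so `⟨V g, V h⟩ = c (g - h)` and `c (-g) = c g`. For a fixed `a` the vectors
`V (a, t)`, `t ∈ E`, are orthogonal, of norm `√2`. `bessel_two` with `x = V (k, 0)` gives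
`∑_{t ∈ F} c (k, t) ^ 2 ≤ 4` for every finite set `F` (1). Suppose `c (k, t) ≠ 0`, `t ≠ 0`; then
`c (k, -t) = c (k, t) =: ε = ±1` by (1) and `c (k, 0) ∈ {0, 1, -1}` (as `c (k, 0) ^ 2 + 2 ≤ 4`).

Case A: `c (k, 0) = c0 = ±1`. By (1) `c (k, s) = 0` for `s ≠ 0, ± t`. Put `δ = c0 ε` and
`u = V (0, 0) + δ V (0, t) + V (0, 2 t)`, `‖u‖ ^ 2 = 6`, and
`⟨U (k, 0) u, u⟩ = 3 c0 + 4 δ ε + 2 c (k, 2 t) = 3 c0 + 4 c0 = 7 c0` (`δ ε = c0`), which contradicts
`|⟨U (k, 0) u, u⟩| ≤ ‖u‖ ^ 2`.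

Case B: `c (k, 0) = 0`. First, `c (k, 3 t) = c (k, 5 t) = c (k, 7 t) = 0`: let `t' = j t`, `j = 3, 5, 7`,
and `ε' = c (k, t') = c (k, -t') ≠ 0`. Then by (1) `ε' = ±1` and equality holds in (1) for
`F = {t, -t, t', -t'}`, so by `bessel_two` `V (k, 0) = (ε V (0, t) + ε V (0, -t) + ε' V (0, t') +
ε' V (0, -t')) / 2`. Apply `U (k, 0)` and take the inner product with `V (0, 2 t')`:
`c (2 k, - 2 t') = (ε c (k, t - 2 t') + ε c (k, - t - 2 t') + ε' c (k, - t') + ε' c (k, - 3 t')) / 2`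
and `c (k, s) = 0` for `s ∉ F`, so the right side is `ε' ^ 2 / 2 = 1 / 2`, not an integer (with `t' = j t`
the numbers `t - 2 t'`, `- t - 2 t'`, `- 3 t'` are not in `F`).
Now let `z_i = V (0, i t)` if `i` is even and `z_i = -ε V (k, i t)` if `i` is odd, `|i| ≤ 4`. Then
`⟨z_i, z_j⟩ = 2, -1, 0` for `i = j`, `|i - j| = 1`, `|i - j| > 1` (for odd `|i - j| ≥ 3` by the first step).
Hence `y_n = ∑_{|i| ≤ n} z_i`, `n = 0, …, 4`, are orthogonal with `‖y_n‖ ^ 2 = 2`. Let `x = V (m, 0)`. Then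
`⟨x, z_i⟩ = c (m, - i t)` for even `i`, which is `-1` for `i = 0` and `0` for `i ≠ 0` by case A applied to
`m` instead of `k` (`c (m, 0) = -1`), and `⟨x, z_i⟩ = -ε c (m - k, - i t) = -ε b_i` for odd `i`, where
`b_{-i} = b_i`. So `⟨x, y_n⟩ = -1 - 2 ε (b_1 + b_3 + …)` is an odd integer, its square is at least `1`,
`∑_{n ≤ 4} ⟨x, y_n⟩ ^ 2 ≥ 5`, which contradicts `bessel_two` (`∑ ⟨x, y_n⟩ ^ 2 ≤ 2 ‖x‖ ^ 2 = 4`). -/
theorem line_rigid {E : AddSubgroup ℝ} {H : Type*} [NormedAddCommGroup H] [InnerProductSpace ℝ H]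
    {U : ℤ × E → H ≃ₗᵢ[ℝ] H} (hU : ∀ a b x, U (a + b) x = U a (U b x)) {v : H} {c : ℤ × E → ℤ}
    (hv : ∀ g, ⟪U g v, v⟫_ℝ = c g) (h0 : ∀ t, c (0, t) = if t = 0 then 2 else 0)
    (hs : ∀ k t, c (k, -t) = c (k, t)) {m : ℤ} (hm : c (m, 0) = -1) (k : ℤ) {t : E} (ht : t ≠ 0) :
    c (k, t) = 0 := by
  by_contra hne
  set V : ℤ × E → H := fun g => U g v with hVdef
  have hT : ∀ a g, U a (V g) = V (a + g) := fun a g => (hU a g v).symm
  have hV : ∀ g h, ⟪V g, V h⟫_ℝ = c (g - h) := by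
    intro g h
    have h1 : V g = U h (U (g - h) v) := by
      rw [← hU, add_sub_cancel]
    rw [h1]
    change ⟪U h (U (g - h) v), U h v⟫_ℝ = _
    rw [LinearIsometryEquiv.inner_map_map, hv]
  have h1 := rig_sq hne
  have e0 : c (k, (0 : ℤ) • t) = c (k, 0) := by rw [zero_smul]
  have e1 : c (k, (1 : ℤ) • t) = c (k, t) := by rw [one_smul]
  have h2 := rig_four hV h0 hs k ht {0, 1, -1}
  rw [Finset.sum_insert (by decide), Finset.sum_insert (by decide), Finset.sum_singleton, rig_neg hs,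
    e0, e1] at h2
  have hk0 : c (k, 0) = 0 := by
    by_contra h
    have h3 := rig_sq h
    have h4 : c (k, 0) ^ 2 = 1 := by
      have : c (k, 0) ^ 2 ≤ 2 := by omega
      rcases (show c (k, 0) ^ 2 = 1 ∨ c (k, 0) ^ 2 = 2 by omega) with h5 | h5
      · exact h5
      · exfalso
        have h6 : c (k, 0) ≤ 1 := by nlinarith
        have h7 : -1 ≤ c (k, 0) := by nlinarith
        have h8 : c (k, 0) = -1 ∨ c (k, 0) = 0 ∨ c (k, 0) = 1 := by omega
        rcases h8 with h8 | h8 | h8 <;> rw [h8] at h5 <;> norm_num at h5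
    exact hne (rig_A hV h0 hs k ht h4)
  have hε : c (k, t) ^ 2 = 1 := by
    rw [hk0] at h2
    rcases (show c (k, t) ^ 2 = 1 ∨ c (k, t) ^ 2 = 2 by omega) with h5 | h5
    · exact h5
    · exfalso
      have h6 : c (k, t) ≤ 1 := by nlinarith
      have h7 : -1 ≤ c (k, t) := by nlinarith
      have h8 : c (k, t) = -1 ∨ c (k, t) = 0 ∨ c (k, t) = 1 := by omega
      rcases h8 with h8 | h8 | h8 <;> rw [h8] at h5 <;> norm_num at h5
  have hεr : ((c (k, t) : ℤ) : ℝ) ^ 2 = 1 := by exact_mod_cast hε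
  have hB := rig_B hT hV h0 hs k ht hne
  -- values at odd multiples
  have hodd : ∀ d : ℤ, ¬ Even d → -((c (k, t) : ℤ) : ℝ) * ((c (k, d • t) : ℤ) : ℝ) = rigK d := by
    intro d hd
    rw [Int.not_even_iff_odd, Int.odd_iff] at hd
    by_cases a : d = 1
    · rw [a, e1, rig_K1]
      linear_combination -hεr
    · by_cases b : d = -1
      · rw [b, rig_neg hs, e1, rig_Km]
        linear_combination -hεr
      · rw [hB d (by omega), rig_Kout (by omega) a b]
        norm_num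
  have heven : ∀ d : ℤ, Even d → ((c (0, d • t) : ℤ) : ℝ) = rigK d := by
    intro d hd
    rw [Int.even_iff] at hd
    rw [rig_c0 h0 ht]
    by_cases a : d = 0
    · rw [if_pos a, a, rig_K0]
      norm_num
    · rw [if_neg a, rig_Kout a (by omega) (by omega)]
      norm_num
  have hck : ∀ i : ℤ, c (0 - k, i • t) = c (k, i • t) := by
    intro i
    rw [zero_sub, ← rig_symm hV, Prod.neg_mk, neg_neg, hs]
  set z : ℤ → H := fun i => if Even i then V (0, i • t) else (-((c (k, t) : ℤ) : ℝ)) • V (k, i • t)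
    with hzdef
  have hz : ∀ i j, ⟪z i, z j⟫_ℝ = rigK (i - j) := by
    intro i j
    by_cases a : Even i <;> by_cases b : Even j
    · simp only [hzdef, if_pos a, if_pos b]
      rw [rig_G hV, sub_zero]
      exact heven _ (a.sub b)
    · simp only [hzdef, if_pos a, if_neg b]
      rw [real_inner_smul_right, rig_G hV, hck]
      refine hodd _ ?_
      rw [Int.even_sub]
      tauto
    · simp only [hzdef, if_neg a, if_pos b]
      rw [real_inner_smul_left, rig_G hV, sub_zero]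
      refine hodd _ ?_
      rw [Int.even_sub]
      tauto
    · simp only [hzdef, if_neg a, if_neg b]
      rw [real_inner_smul_left, real_inner_smul_right, rig_G hV, sub_self, ← mul_assoc]
      have h3 : -((c (k, t) : ℤ) : ℝ) * -((c (k, t) : ℤ) : ℝ) = 1 := by
        linear_combination hεr
      rw [h3, one_mul]
      refine heven _ ?_
      rw [Int.even_sub]
      tauto
  -- inner products with `V (m, 0)`
  set a : ℤ → ℤ := fun i => if Even i then c (m, i • t) else -c (k, t) * c (m - k, i • t) with hadef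
  have ha : ∀ i, ⟪V (m, 0), z i⟫_ℝ = a i := by
    intro i
    by_cases b : Even i
    · simp only [hzdef, hadef, if_pos b]
      rw [hV, Prod.mk_sub_mk, sub_zero, zero_sub, hs]
    · simp only [hzdef, hadef, if_neg b]
      rw [real_inner_smul_right, hV, Prod.mk_sub_mk, zero_sub, hs]
      push_cast
      ring
  have ha0 : a 0 = -1 := by
    simp only [hadef, if_pos (show Even (0 : ℤ) by decide)]
    rw [zero_smul, hm]
  have has : ∀ i, a (-i) = a i := by
    intro i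
    simp only [hadef, even_neg, rig_neg hs]
  have h3 := bessel_two (Finset.range 5) (fun n : ℕ => ∑ i ∈ Finset.Icc (-(n : ℤ)) n, z i)
    (fun i _ j _ => rig_gram z hz i j) (V (m, 0))
  have h4 : ∀ n : ℕ, ⟪V (m, 0), ∑ i ∈ Finset.Icc (-(n : ℤ)) n, z i⟫_ℝ =
      ((∑ i ∈ Finset.Icc (-(n : ℤ)) n, a i : ℤ) : ℝ) := by
    intro n
    rw [inner_sum, Int.cast_sum]
    exact Finset.sum_congr rfl fun i _ => ha i
  have h5 : ∀ n ∈ Finset.range 5, (1 : ℝ) ≤ ⟪V (m, 0), ∑ i ∈ Finset.Icc (-(n : ℤ)) n, z i⟫_ℝ ^ 2 := by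
    intro n _
    rw [h4]
    have h6 := rig_oddsum a ha0 has n
    have h7 : (∑ i ∈ Finset.Icc (-(n : ℤ)) n, a i) ≠ 0 := by
      intro h
      rw [h] at h6
      norm_num at h6
    exact_mod_cast rig_sq h7
  have h6 := Finset.sum_le_sum h5
  rw [Finset.sum_const, Finset.card_range, nsmul_eq_mul] at h6
  have h7 : ‖V (m, 0)‖ ^ 2 = 2 := by
    rw [← real_inner_self_eq_norm_sq, hV, sub_self, show (0 : ℤ × E) = (0, 0) by rfl, h0 0,
      if_pos rfl]
    norm_num
  have h8 := sq_nonneg ‖V (m, 0) - ∑ i ∈ Finset.range 5,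
    (⟪V (m, 0), ∑ j ∈ Finset.Icc (-(i : ℤ)) i, z j⟫_ℝ / 2) • ∑ j ∈ Finset.Icc (-(i : ℤ)) i, z j‖
  rw [h3, h7] at h8
  push_cast at h6
  linarith

end Pool.Agent.EEA520
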