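import Pool.Agent.W_eea520_h70.NatFin
import Pool.Agent.W_eea520_h70.NatRig
import Pool.Agent.W_eea520_h99.OneC

/-!
# The laws of the traces in the sense of natural density (MP_eea520_nt, theorem G)
-/

set_option autoImplicit false

namespace Pool.Agent.EEA520

open Filter Topology Pool.Agent.EEAG1 MeasureTheory
open scoped InnerProductSpace

/-- In the sense of the natural density of sets of primes (averages over the primes `p ≤ N`) the absolute
values of the traces `lam π p` are distributed like the absolute value of a real random variable with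
values in `[-2, 2]` and law `Λ`, and if the central character is trivial (so that the traces are real)
then the traces themselves are distributed according to `Λ`. -/
def NatLaw (π : GSys 1) (Λ : (ℝ → ℝ) → ℝ) : Prop :=
  (∀ f : ℝ → ℝ, ContinuousOn f (Set.Icc 0 2) →
    NMean (fun p => f ‖lam π p‖) (Λ fun y => f |y|)) ∧
  ((∀ p, (π p).nu = 1) → ∀ f : ℝ → ℝ, ContinuousOn f (Set.Icc (-2) 2) →
    NMean (fun p => f (lam π p).re) (Λ f))

section

variable {π : GSys 1} {E : AddSubgroup ℝ} {c : Wt 1 × E → ℤ}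

/-- The function of the pole orders is even. -/
theorem ord_neg (hπ : Tempered π) (hc : IsOrd π E c) (x : Wt 1 × E) : c (-x) = c x := by
  have h1 := (posDefG_ord hπ hc).1 x
  exact_mod_cast h1

theorem ord_sym (hπ : Tempered π) (hc : IsOrd π E c) (k : ℤ) (t : E) :
    c (w1 0 k, -t) = c (w1 0 k, t) := by
  have h1 := ord_neg hπ hc (w1 0 (-k), t)
  have h2 : -((w1 0 (-k), t) : Wt 1 × E) = (w1 0 k, -t) := by
    refine Prod.ext ?_ rfl
    show -(w1 0 (-k)) = w1 0 k
    unfold w1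
    refine Prod.ext neg_zero ?_
    funext i
    exact neg_neg k
  rw [h2] at h1
  rw [h1]
  have h3 := ord_reflect hπ hc 0 k t
  rw [zero_sub] at h3
  exact h3

/-- The orders if the central character is trivial. -/
theorem mean_nut (hπ : Tempered π) (hnu : ∀ p, (π p).nu = 1) (hc : IsOrd π E c) (k m : ℤ) (t : E) :
    MeanP (fun p => (((((π p).c : ℂ) ^ (k - 2 * m)) + (((π p).c : ℂ) ^ (-(k - 2 * m)))) *
      (((p : ℕ) : ℂ) ^ (-(((t : ℝ) : ℂ) * Complex.I)))).re) (c (w1 k m, t)) := by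
  have h1 : MeanP (fun p => ∑ g : WG 1, zre π (act g (w1 k m)) (t : ℝ) p)
      (c (w1 k m, t)) := hc.mean hπ (w1 k m, t)
  refine h1.congr fun s => ?_
  congr 2
  funext p
  rw [orb_sum_one k m fun w => zre π w (t : ℝ) p]
  have hnu1 : (π p).c ^ 2 * (π p).x 0 = 1 := by
    have h2 := hnu p
    unfold Torus.nu at h2
    simpa using h2
  have hxc : (π p).x 0 = (π p).c ^ (-2 : ℤ) := by
    rw [zpow_neg, eq_inv_iff_mul_eq_one, mul_comm]
    exact_mod_cast hnu1
  have h2 : ∀ i j : ℤ, zre π (w1 i j) (t : ℝ) p = ((((π p).c : ℂ) ^ (i - 2 * j)) *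
      (((p : ℕ) : ℂ) ^ (-(((t : ℝ) : ℂ) * Complex.I)))).re := by
    intro i j
    unfold zre Torus.ev w1
    have h3 : (π p).c ^ i * (π p).x 0 ^ j = (π p).c ^ (i - 2 * j) := by
      rw [hxc, ← zpow_mul, ← zpow_add]
      congr 1
      ring
    have h4 : (π p).c ^ i * ∏ l : Fin 1, (π p).x l ^ j = (π p).c ^ (i - 2 * j) := by
      rw [Fin.prod_univ_one, h3]
    simp only [h4]
    rw [Units.val_zpow_eq_zpow_val]
  rw [h2, h2, show k - 2 * (k - m) = -(k - 2 * m) by ring, add_mul, Complex.add_re]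

theorem ord_nut (hπ : Tempered π) (hnu : ∀ p, (π p).nu = 1) (hc : IsOrd π E c) (k : ℤ) (t : E) :
    c (w1 (-k) 0, t) = c (w1 k 0, t) := by
  have h1 := mean_nut hπ hnu hc k 0 t
  have h2 := mean_nut hπ hnu hc (-k) 0 t
  have h3 : MeanP (fun p => (((((π p).c : ℂ) ^ (k - 2 * 0)) + (((π p).c : ℂ) ^ (-(k - 2 * 0)))) *
      (((p : ℕ) : ℂ) ^ (-(((t : ℝ) : ℂ) * Complex.I)))).re) (c (w1 (-k) 0, t)) := by
    refine h2.congr fun s => ?_
    congr 2
    funext p
    simp only [mul_zero, sub_zero, neg_neg]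
    rw [add_comm]
  exact_mod_cast MeanP.unique h3 h1

theorem ord_nut2 (hπ : Tempered π) (hnu : ∀ p, (π p).nu = 1) (hc : IsOrd π E c) (k m : ℤ) (t : E) :
    c (w1 k m, t) = c (w1 (k - 2 * m) 0, t) := by
  have h1 := mean_nut hπ hnu hc k m t
  have h2 := mean_nut hπ hnu hc (k - 2 * m) 0 t
  rw [mul_zero, sub_zero] at h2
  exact_mod_cast MeanP.unique h1 h2

theorem ord_base (hπ : Tempered π) (hc : IsOrd π E c) (t : E) :
    c (0, t) = if t = 0 then 2 else 0 := by
  rw [ord_zero hπ hc t, card_WG]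
  norm_num

/-- The powers of `x` do not correlate with `p ^ (i t)`. -/
theorem ord_line (hπ : Tempered π) (hc : IsOrd π E c) (had : c (w1 0 1, 0) = -1) (k : ℤ) {t : E}
    (ht : t ≠ 0) : c (w1 0 k, t) = 0 := by
  obtain ⟨H, i1, i2, i3, U, v, hU, hU0, hv⟩ := exists_gnsG (posDefG_ord hπ hc)
  have h1 : ∀ a b : ℤ × E, ((w1 0 (a + b).1, (a + b).2) : Wt 1 × E) =
      (w1 0 a.1, a.2) + (w1 0 b.1, b.2) := by
    intro a b
    refine Prod.ext ?_ rfl
    show w1 0 (a.1 + b.1) = w1 0 a.1 + w1 0 b.1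
    rw [w1_add, add_zero]
  exact line_rigid (E := E) (U := fun g => U (w1 0 g.1, g.2)) (v := v)
    (c := fun g => c (w1 0 g.1, g.2)) (fun a b x => by rw [h1, hU])
    (fun g => hv _) (fun t => ord_base hπ hc t) (fun k t => ord_sym hπ hc k t) (m := 1) had k ht

/-- The powers of `c` do not correlate with `p ^ (i t)`, if the central character is trivial. -/
theorem ord_line_nu (hπ : Tempered π) (hnu : ∀ p, (π p).nu = 1) (hc : IsOrd π E c)
    (had : c (w1 0 1, 0) = -1) (k : ℤ) {t : E} (ht : t ≠ 0) : c (w1 k 0, t) = 0 := by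
  obtain ⟨H, i1, i2, i3, U, v, hU, hU0, hv⟩ := exists_gnsG (posDefG_ord hπ hc)
  have h1 : ∀ a b : ℤ × E, ((w1 (a + b).1 0, (a + b).2) : Wt 1 × E) =
      (w1 a.1 0, a.2) + (w1 b.1 0, b.2) := by
    intro a b
    refine Prod.ext ?_ rfl
    show w1 (a.1 + b.1) 0 = w1 a.1 0 + w1 b.1 0
    rw [w1_add, add_zero]
  have h2 : c (w1 (-2) 0, 0) = -1 := by
    have h3 := ord_nut2 hπ hnu hc 0 1 0
    rw [had] at h3
    rw [h3]
    norm_num
  have h3 : ∀ (k : ℤ) (t : E), c (w1 k 0, -t) = c (w1 k 0, t) := by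
    intro k t
    have h4 := ord_neg hπ hc (w1 (-k) 0, t)
    have h5 : -((w1 (-k) 0, t) : Wt 1 × E) = (w1 k 0, -t) := by
      refine Prod.ext ?_ rfl
      show -(w1 (-k) 0) = w1 k 0
      unfold w1
      refine Prod.ext (neg_neg k) ?_
      funext i
      exact neg_zero
    rw [h5, ord_nut hπ hnu hc k t] at h4
    exact h4
  exact line_rigid (E := E) (U := fun g => U (w1 g.1 0, g.2)) (v := v)
    (c := fun g => c (w1 g.1 0, g.2)) (fun a b x => by rw [h1, hU])
    (fun g => hv _) (fun t => ord_base hπ hc t) h3 (m := -2) h2 k ht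

end

/-- An orbit sum without poles and zeros off the real axis has natural density mean values. -/
theorem good_orb {n : ℕ} {π : GSys n} (hπ : Tempered π) {c : Wt n × (⊤ : AddSubgroup ℝ) → ℤ}
    (hc : IsOrd π ⊤ c) {w : Wt n} (h : ∀ t : (⊤ : AddSubgroup ℝ), t ≠ 0 → c (w, t) = 0) :
    Good (tre π (orb w) 0) := by
  have h0 : PoleOrder π (orb w) (pt 0) (c (w, 0)) := by
    have h1 := hc w 0
    rw [AddSubgroup.coe_zero] at h1
    exact h1
  refine ⟨bdP_tre hπ _ _, c (w, 0), mean_of_poleOrder hπ h0, nmean_of_poleOrder hπ h0 ?_⟩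
  intro t ht
  have h1 := hc w ⟨t, AddSubgroup.mem_top t⟩
  rw [h ⟨t, AddSubgroup.mem_top t⟩ (fun h2 => ht (congrArg Subtype.val h2))] at h1
  exact h1

theorem good_x {π : GSys 1} (hπ : Tempered π) {c : Wt 1 × (⊤ : AddSubgroup ℝ) → ℤ}
    (hc : IsOrd π ⊤ c) (had : c (w1 0 1, 0) = -1) (k : ℤ) :
    Good fun p => 2 * (((π p).x 0 : ℂ) ^ k).re := by
  have h1 := good_orb hπ hc (w := w1 0 k) fun t ht => ord_line hπ hc had k ht
  have h2 : tre π (orb (w1 0 k)) 0 = fun p => 2 * (((π p).x 0 : ℂ) ^ k).re := by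
    funext p
    rw [tre_orb, orb_sum_one 0 k fun w => zre π w 0 p]
    have hx : ‖((π p).x 0 : ℂ)‖ = 1 := (hπ p).2 0
    have h2 : ∀ j : ℤ, zre π (w1 0 j) 0 p = (((π p).x 0 : ℂ) ^ j).re := by
      intro j
      unfold zre Torus.ev w1
      simp
    rw [h2, h2, zero_sub, A5_re hx]
    ring
  rw [← h2]
  exact h1

theorem good_c {π : GSys 1} (hπ : Tempered π) (hnu : ∀ p, (π p).nu = 1)
    {c : Wt 1 × (⊤ : AddSubgroup ℝ) → ℤ}
    (hc : IsOrd π ⊤ c) (had : c (w1 0 1, 0) = -1) (k : ℤ) :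
    Good fun p => 2 * (((π p).c : ℂ) ^ k).re := by
  have h1 := good_orb hπ hc (w := w1 k 0) fun t ht => ord_line_nu hπ hnu hc had k ht
  have h2 : tre π (orb (w1 k 0)) 0 = fun p => 2 * (((π p).c : ℂ) ^ k).re := by
    funext p
    rw [tre_orb, orb_sum_one k 0 fun w => zre π w 0 p]
    have hx : ‖((π p).c : ℂ)‖ = 1 := (hπ p).1
    have hnu1 : (π p).c ^ 2 * (π p).x 0 = 1 := by
      have h2 := hnu p
      unfold Torus.nu at h2
      simpa using h2
    have hxc : (π p).x 0 = (π p).c ^ (-2 : ℤ) := by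
      rw [zpow_neg, eq_inv_iff_mul_eq_one, mul_comm]
      exact_mod_cast hnu1
    have h2 : ∀ i j : ℤ, zre π (w1 i j) 0 p = (((π p).c : ℂ) ^ (i - 2 * j)).re := by
      intro i j
      unfold zre Torus.ev w1
      have h3 : (π p).c ^ i * (π p).x 0 ^ j = (π p).c ^ (i - 2 * j) := by
        rw [hxc, ← zpow_mul, ← zpow_add]
        congr 1
        ring
      have h4 : (π p).c ^ i * ∏ l : Fin 1, (π p).x l ^ j = (π p).c ^ (i - 2 * j) := by
        rw [Fin.prod_univ_one, h3]
      simp only [h4]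
      simp
    rw [h2, h2, mul_zero, sub_zero, show k - 2 * k = -k by ring, A5_re hx]
    ring
  rw [← h2]
  exact h1

/-- Laws in the sense of Dirichlet density are laws in the sense of natural density. -/
theorem natLaw_of_traceLaw {π : GSys 1} (hπ : Tempered π)
    (h : ∀ m, IsCharacter m → ∀ t : ℝ, MeroAt π m (pt t))
    (had : PoleOrder π (symdet 2 (-1)) 1 0) {Λ : (ℝ → ℝ) → ℝ} (hΛ : TraceLaw π Λ) :
    NatLaw π Λ := by
  obtain ⟨c, hc⟩ := exists_isOrd (E := ⊤) hπ fun m hm t _ => h m hm t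
  have had' := had_of hπ hc had
  have hx : ∀ p, ‖((π p).x 0 : ℂ)‖ = 1 := fun p => (hπ p).2 0
  have hcn : ∀ p, ‖((π p).c : ℂ)‖ = 1 := fun p => (hπ p).1
  refine ⟨fun f hf => ?_, fun hnu f hf => ?_⟩
  · have h1 : MeanP (fun p => f ‖lam π p‖) (Λ fun y => f |y|) := hΛ.1 f hf
    have hF : ContinuousOn (fun t : ℝ => f (Real.sqrt (2 + t))) (Set.Icc (-2) 2) := by
      refine hf.comp (by fun_prop) fun t ht => ?_
      refine ⟨Real.sqrt_nonneg _, ?_⟩
      rw [Real.sqrt_le_left (by norm_num)]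
      linarith [ht.2]
    have h2 : (fun p => f ‖lam π p‖) =
        fun p => (fun t : ℝ => f (Real.sqrt (2 + t))) (2 * ((π p).x 0 : ℂ).re) := by
      funext p
      have h6 : ‖lam π p‖ ^ 2 = 2 + 2 * ((π p).x 0 : ℂ).re := by
        have h7 : lam π p = ((π p).c : ℂ) * (1 + (π p).x 0) := by
          unfold lam
          ring
        rw [h7, norm_mul, hcn, one_mul, ← Complex.normSq_eq_norm_sq, Complex.normSq_add]
        have h8 : Complex.normSq ((π p).x 0 : ℂ) = 1 := by
          rw [Complex.normSq_eq_norm_sq, hx, one_pow]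
        rw [h8]
        simp
        ring
      dsimp only
      rw [← h6, Real.sqrt_sq (norm_nonneg _)]
    rw [h2] at h1 ⊢
    exact nmean_of_meanP hx (good_x hπ hc had') hF h1
  · have h1 : MeanP (fun p => f (lam π p).re) (Λ f) := hΛ.2 hnu f hf
    have h2 : (fun p => f (lam π p).re) = fun p => f (2 * ((π p).c : ℂ).re) := by
      funext p
      have hnu1 : (π p).c ^ 2 * (π p).x 0 = 1 := by
        have h2 := hnu p
        unfold Torus.nu at h2
        simpa using h2
      have hxc : (π p).c * (π p).x 0 = ((π p).c)⁻¹ := by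
        rw [eq_inv_iff_mul_eq_one, mul_comm, ← mul_assoc, ← pow_two]
        exact hnu1
      unfold lam
      rw [← Units.val_mul, hxc, Units.val_inv_eq_inv_val, Complex.inv_eq_conj (hcn p),
        Complex.add_re, Complex.conj_re]
      congr 1
      ring
    rw [h2] at h1 ⊢
    exact nmean_of_meanP hcn (good_c hπ hnu hc had') hf h1

end Pool.Agent.EEA520
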