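import Pool.Agent.W_pnt_h80.Fubini
import Pool.Agent.W_pnt_h80.RL
import Pool.Agent.W_pnt_h80.Tauber

/-!
# The theorem of Wiener and Ikehara (MP_eea520_nt, theorem G)
-/

set_option autoImplicit false

namespace Pool.Agent.EEA520

open MeasureTheory Set Filter Topology Pool.Agent.W_pnt_h80

/-- The summatory function. -/
noncomputable def sfn (f : ℕ → ℝ) (x : ℝ) : ℝ := ∑ k ∈ Finset.Icc 1 ⌊x⌋₊, f k

/-- The normalised summatory function. -/
noncomputable def sfB (f : ℕ → ℝ) (t : ℝ) : ℝ := sfn f (Real.exp t) * Real.exp (-t)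

section

variable {f : ℕ → ℝ}

theorem sfn_nonneg (hf : ∀ n, 0 ≤ f n) (x : ℝ) : 0 ≤ sfn f x :=
  Finset.sum_nonneg fun k _ => hf k

theorem sfn_mono (hf : ∀ n, 0 ≤ f n) : Monotone (sfn f) := by
  intro x y hxy
  unfold sfn
  refine Finset.sum_le_sum_of_subset_of_nonneg ?_ fun k _ _ => hf k
  exact Finset.Icc_subset_Icc_right (Nat.floor_mono hxy)

theorem sfB_measurable (hf : ∀ n, 0 ≤ f n) : Measurable (sfB f) := by
  unfold sfB
  exact ((sfn_mono hf).measurable.comp Real.measurable_exp).mul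
    (Real.measurable_exp.comp measurable_neg)

theorem sfB_nonneg (hf : ∀ n, 0 ≤ f n) (t : ℝ) : 0 ≤ sfB f t :=
  mul_nonneg (sfn_nonneg hf _) (Real.exp_pos _).le

theorem sfB_le {C : ℝ} (hC : ∀ x : ℝ, 0 ≤ x → sfn f x ≤ C * x) (t : ℝ) : sfB f t ≤ C := by
  have h1 := mul_le_mul_of_nonneg_right (hC (Real.exp t) (Real.exp_pos t).le)
    (Real.exp_pos (-t)).le
  rw [mul_assoc, ← Real.exp_add, add_neg_cancel, Real.exp_zero, mul_one] at h1
  exact h1

theorem wi_integrable (hf : ∀ n, 0 ≤ f n) {C : ℝ} (hC : ∀ x : ℝ, 0 ≤ x → sfn f x ≤ C * x)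
    (e y : ℝ) (he : 0 < e) :
    IntegrableOn (fun t : ℝ => (sfB f t : ℂ) * Complex.exp (-((e : ℂ) + Complex.I * y) * t))
      (Ioi (0 : ℝ)) := by
  have hw : (-((e : ℂ) + Complex.I * y)).re < 0 := by
    simp [he]
  have h1 : IntegrableOn (fun t : ℝ => Complex.exp (-((e : ℂ) + Complex.I * y) * t))
      (Ioi (0 : ℝ)) := integrableOn_exp_mul_complex_Ioi hw 0
  refine Integrable.bdd_mul (c := C) h1 ?_ ?_
  · exact (Complex.measurable_ofReal.comp (sfB_measurable hf)).aestronglyMeasurable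
  · refine Filter.Eventually.of_forall fun t => ?_
    rw [Complex.norm_real, Real.norm_eq_abs, abs_of_nonneg (sfB_nonneg hf t)]
    exact sfB_le hC t

theorem wi_bigO (hf : ∀ n, 0 ≤ f n) {C : ℝ} (hC : ∀ x : ℝ, 0 ≤ x → sfn f x ≤ C * x) :
    (fun n : ℕ => ∑ k ∈ Finset.Icc 1 n, f k) =O[atTop] fun n : ℕ => (n : ℝ) ^ (1 : ℝ) := by
  refine Asymptotics.IsBigO.of_bound C (Filter.Eventually.of_forall fun n => ?_)
  have h1 := hC (n : ℝ) (Nat.cast_nonneg n)
  have h0 := sfn_nonneg hf (n : ℝ)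
  unfold sfn at h1 h0
  rw [Nat.floor_natCast] at h1 h0
  rw [Real.rpow_one, Real.norm_eq_abs, abs_of_nonneg h0, Real.norm_eq_abs,
    abs_of_nonneg (Nat.cast_nonneg n)]
  exact h1

theorem wi_main (hf : ∀ n, 0 ≤ f n) {C : ℝ} (hC : ∀ x : ℝ, 0 ≤ x → sfn f x ≤ C * x)
    (e y : ℝ) (he : 0 < e) :
    ∫ t in Ioi (0 : ℝ), (sfB f t : ℂ) * Complex.exp (-((e : ℂ) + Complex.I * y) * t) =
      LSeries (fun n => ((f n : ℝ) : ℂ)) (1 + e + Complex.I * y) / (1 + e + Complex.I * y) := by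
  have hs : (1 : ℝ) < ((1 : ℂ) + e + Complex.I * y).re := by
    simp [he]
  have hs0 : (1 : ℂ) + e + Complex.I * y ≠ 0 := by
    intro h
    rw [h] at hs
    simp at hs
    linarith
  rw [LSeries_eq_mul_integral_of_nonneg _ zero_le_one hs (wi_bigO hf hC) hf,
    mul_div_cancel_left₀ _ hs0]
  have himg : Real.exp '' (Ioi (0 : ℝ)) = Ioi (1 : ℝ) := by
    ext x
    constructor
    · rintro ⟨u, hu, rfl⟩
      exact Real.one_lt_exp_iff.2 hu
    · intro hx
      refine ⟨Real.log x, Real.log_pos hx, Real.exp_log (lt_trans one_pos hx)⟩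
  rw [← himg, integral_image_eq_integral_abs_deriv_smul measurableSet_Ioi
    (fun x _ => (Real.hasDerivAt_exp x).hasDerivWithinAt) (Real.exp_injective.injOn)]
  refine setIntegral_congr_fun measurableSet_Ioi fun u _ => ?_
  unfold sfB sfn
  rw [abs_of_pos (Real.exp_pos u), Complex.real_smul, Complex.ofReal_mul, Complex.ofReal_sum]
  have hexp : ((Real.exp u : ℝ) : ℂ) ^ (-((1 : ℂ) + e + Complex.I * y + 1)) =
      Complex.exp (u * (-((1 : ℂ) + e + Complex.I * y + 1))) := by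
    rw [Complex.cpow_def_of_ne_zero (by exact_mod_cast (Real.exp_pos u).ne'),
      ← Complex.ofReal_log (Real.exp_pos u).le, Real.log_exp]
  rw [hexp, Complex.ofReal_exp, Complex.ofReal_exp, mul_comm (Complex.exp (u : ℂ)), mul_assoc,
    mul_assoc, ← Complex.exp_add, ← Complex.exp_add]
  congr 2
  push_cast
  ring

theorem wi_laplace (hf : ∀ n, 0 ≤ f n) {C : ℝ} (hC : ∀ x : ℝ, 0 ≤ x → sfn f x ≤ C * x)
    (c e y : ℝ) (he : 0 < e) :
    ∫ t in Ioi (0 : ℝ), ((sfB f t - c : ℝ) : ℂ) *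
        Complex.exp (-((e : ℂ) + Complex.I * y) * t) =
      (LSeries (fun n => ((f n : ℝ) : ℂ)) (1 + e + Complex.I * y) -
        c / ((1 + e + Complex.I * y) - 1) - c) / (1 + e + Complex.I * y) := by
  have hw : (-((e : ℂ) + Complex.I * y)).re < 0 := by
    simp [he]
  have hw0 : (e : ℂ) + Complex.I * y ≠ 0 := by
    intro h
    rw [h] at hw
    simp at hw
  have hs : (1 : ℝ) < ((1 : ℂ) + e + Complex.I * y).re := by
    simp [he]
  have hs0 : (1 : ℂ) + e + Complex.I * y ≠ 0 := by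
    intro h
    rw [h] at hs
    simp at hs
    linarith
  have hI1 := wi_integrable hf hC e y he
  have hI2 : IntegrableOn (fun t : ℝ => (c : ℂ) *
      Complex.exp (-((e : ℂ) + Complex.I * y) * t)) (Ioi (0 : ℝ)) :=
    (integrableOn_exp_mul_complex_Ioi hw 0).const_mul _
  have hsplit : ∫ t in Ioi (0 : ℝ), ((sfB f t - c : ℝ) : ℂ) *
        Complex.exp (-((e : ℂ) + Complex.I * y) * t) =
      (∫ t in Ioi (0 : ℝ), (sfB f t : ℂ) * Complex.exp (-((e : ℂ) + Complex.I * y) * t)) -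
      ∫ t in Ioi (0 : ℝ), (c : ℂ) * Complex.exp (-((e : ℂ) + Complex.I * y) * t) := by
    rw [← integral_sub hI1 hI2]
    refine integral_congr_ae (Filter.Eventually.of_forall fun t => ?_)
    dsimp only
    rw [← sub_mul]
    congr 1
    push_cast
    rfl
  have hconst : ∫ t in Ioi (0 : ℝ), (c : ℂ) *
        Complex.exp (-((e : ℂ) + Complex.I * y) * t) = c / ((e : ℂ) + Complex.I * y) := by
    rw [integral_const_mul, integral_exp_mul_complex_Ioi hw 0]
    simp only [Complex.ofReal_zero, mul_zero, Complex.exp_zero]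
    field_simp
  rw [hsplit, hconst, wi_main hf hC e y he]
  have hsub : (1 : ℂ) + e + Complex.I * y - 1 = (e : ℂ) + Complex.I * y := by ring
  rw [hsub]
  set w : ℂ := (e : ℂ) + Complex.I * y with hwdef
  have hs1 : (1 : ℂ) + e + Complex.I * y = 1 + w := by rw [hwdef]; ring
  rw [hs1] at hs0 ⊢
  generalize LSeries (fun n => ((f n : ℝ) : ℂ)) (1 + w) = Lv
  field_simp
  ring

/-- The Dirichlet series converges for `Re s > 1`. -/
theorem wi_abscissa (hf : ∀ n, 0 ≤ f n) {C : ℝ} (hC : ∀ x : ℝ, 0 ≤ x → sfn f x ≤ C * x) :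
    LSeries.abscissaOfAbsConv (fun n => ((f n : ℝ) : ℂ)) ≤ 1 := by
  refine LSeries.abscissaOfAbsConv_le_of_forall_lt_LSeriesSummable fun y hy => ?_
  refine LSeriesSummable_of_sum_norm_bigO_and_nonneg ?_ hf zero_le_one (by simpa using hy)
  exact wi_bigO hf hC

theorem wi_continuousAt (hf : ∀ n, 0 ≤ f n) {C : ℝ} (hC : ∀ x : ℝ, 0 ≤ x → sfn f x ≤ C * x)
    (c : ℝ) {s : ℂ} (hs : 1 < s.re) :
    ContinuousAt (fun s : ℂ => LSeries (fun n => ((f n : ℝ) : ℂ)) s - c / (s - 1)) s := by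
  have h1 : DifferentiableAt ℂ (LSeries fun n => ((f n : ℝ) : ℂ)) s := by
    refine (LSeries_hasDerivAt ?_).differentiableAt
    refine (wi_abscissa hf hC).trans_lt ?_
    exact_mod_cast hs
  refine h1.continuousAt.sub (ContinuousAt.div continuousAt_const (by fun_prop) ?_)
  intro h0
  have h2 : s = 1 := sub_eq_zero.1 h0
  rw [h2] at hs
  simp at hs

/-- The boundary function. -/
noncomputable def wiK (f : ℕ → ℝ) (c : ℝ) : ℂ → ℂ :=
  extendFrom {s : ℂ | 1 < s.re} fun s => LSeries (fun n => ((f n : ℝ) : ℂ)) s - c / (s - 1)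

theorem wi_closure {s : ℂ} (hs : 1 ≤ s.re) : s ∈ closure {s : ℂ | 1 < s.re} := by
  have h1 := Complex.closure_setOfPred_lt_re 1
  rw [h1]
  exact hs

theorem wiK_eq (hf : ∀ n, 0 ≤ f n) {C : ℝ} (hC : ∀ x : ℝ, 0 ≤ x → sfn f x ≤ C * x) (c : ℝ)
    {s : ℂ} (hs : 1 < s.re) :
    wiK f c s = LSeries (fun n => ((f n : ℝ) : ℂ)) s - c / (s - 1) :=
  extendFrom_eq (wi_closure hs.le)
    ((wi_continuousAt hf hC c hs).tendsto.mono_left nhdsWithin_le_nhds)

theorem wiK_cont (hf : ∀ n, 0 ≤ f n) {C : ℝ} (hC : ∀ x : ℝ, 0 ≤ x → sfn f x ≤ C * x) {c : ℝ}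
    (h : ∀ y : ℝ, ∃ L : ℂ, Tendsto (fun s : ℂ => LSeries (fun n => ((f n : ℝ) : ℂ)) s - c / (s - 1))
      (𝓝[{s | 1 < s.re}] (1 + y * Complex.I)) (𝓝 L)) :
    ContinuousOn (wiK f c) {s : ℂ | 1 ≤ s.re} := by
  refine continuousOn_extendFrom (fun s hs => wi_closure hs) fun s hs => ?_
  have hs' : 1 ≤ s.re := hs
  rcases hs'.lt_or_eq with h1 | h1
  · exact ⟨_, (wi_continuousAt hf hC c h1).tendsto.mono_left nhdsWithin_le_nhds⟩
  · have h2 : s = 1 + s.im * Complex.I := by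
      apply Complex.ext
      · simp [← h1]
      · simp
    rw [h2]
    exact h s.im

/-- The theorem of Wiener and Ikehara. -/
theorem wiener_ikehara (hf : ∀ n, 0 ≤ f n) {C : ℝ} (hC : ∀ x : ℝ, 0 ≤ x → sfn f x ≤ C * x) {c : ℝ}
    (h : ∀ y : ℝ, ∃ L : ℂ, Tendsto (fun s : ℂ => LSeries (fun n => ((f n : ℝ) : ℂ)) s - c / (s - 1))
      (𝓝[{s | 1 < s.re}] (1 + y * Complex.I)) (𝓝 L)) :
    Tendsto (fun x : ℝ => sfn f x / x) atTop (𝓝 c) := by
  have hK := wiK_cont hf hC h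
  have hre : ∀ p : ℝ × ℝ, (1 + (p.1 : ℂ) + Complex.I * p.2).re = 1 + p.1 := fun p => by simp
  set G : ℝ × ℝ → ℂ := fun p => (wiK f c (1 + (p.1 : ℂ) + Complex.I * p.2) - c) /
    (1 + (p.1 : ℂ) + Complex.I * p.2) with hG
  have hGc : ContinuousOn G (Ici 0 ×ˢ univ) := by
    have hc : Continuous fun p : ℝ × ℝ => (1 + (p.1 : ℂ) + Complex.I * p.2) := by fun_prop
    have hmaps : MapsTo (fun p : ℝ × ℝ => (1 + (p.1 : ℂ) + Complex.I * p.2)) (Ici 0 ×ˢ univ)
        {s : ℂ | 1 ≤ s.re} := by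
      intro p hp
      have h1 : 0 ≤ p.1 := hp.1
      show 1 ≤ (1 + (p.1 : ℂ) + Complex.I * p.2).re
      rw [hre]
      linarith
    have h2 := hK.comp hc.continuousOn hmaps
    refine ContinuousOn.div (h2.sub continuousOn_const) hc.continuousOn ?_
    intro p hp h0
    have h1 : 0 ≤ p.1 := hp.1
    have h3 := hre p
    rw [h0] at h3
    simp at h3
    linarith
  have hlim : ∀ l : ℝ, 0 < l → Tendsto (fun v : ℝ => ∫ t in Ioi (0 : ℝ),
      (sfB f t - c) * fej l (v - t)) atTop (𝓝 0) := by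
    intro l hl
    have hm : Measurable fun t => sfB f t - c := (sfB_measurable hf).sub_const _
    have hD : ∀ t, |sfB f t - c| ≤ C + |c| := by
      intro t
      have h1 := sfB_nonneg hf t
      have h2 := sfB_le hC t
      have h3 := abs_sub (sfB f t) c
      rw [abs_of_nonneg h1] at h3
      linarith
    have hG0 : Continuous fun y : ℝ => G (0, y) := by
      rw [← continuousOn_univ]
      refine hGc.comp (by fun_prop) ?_
      intro y _
      exact ⟨mem_Ici.mpr (le_refl _), mem_univ _⟩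
    have h1 := riemann_lebesgue hl hG0
    have h2 : ∀ v : ℝ, (∫ y in (-l)..l, ((tri l y : ℝ) : ℂ) * Complex.exp (Complex.I * y * v) *
        G (0, y)) =
        ((∫ t in Ioi (0 : ℝ), (sfB f t - c) * fej l (v - t) : ℝ) : ℂ) := by
      intro v
      refine fubini_fej_zero hl hm hD hGc ?_
      intro e y he
      rw [wi_laplace hf hC c e y he, hG]
      dsimp only
      rw [wiK_eq hf hC c (by rw [hre (e, y)]; dsimp only; linarith)]
    simp only [h2] at h1
    have h3 := (Complex.continuous_re.tendsto 0).comp h1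
    rw [Complex.zero_re] at h3
    exact h3
  have h1 : Tendsto (sfB f) atTop (𝓝 c) := by
    refine tauber_fej (C := C) (sfB_measurable hf) (sfB_nonneg hf) (sfB_le hC) ?_ hlim
    intro s _ t _ hst
    have h2 : ∀ t, Real.exp t * sfB f t = sfn f (Real.exp t) := by
      intro t
      rw [sfB, mul_comm, mul_assoc, ← Real.exp_add, neg_add_cancel, Real.exp_zero, mul_one]
    show Real.exp s * sfB f s ≤ Real.exp t * sfB f t
    rw [h2, h2]
    exact sfn_mono hf (Real.exp_le_exp.mpr hst)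
  have h2 := h1.comp Real.tendsto_log_atTop
  refine h2.congr' ?_
  filter_upwards [eventually_gt_atTop 0] with x hx
  show sfB f (Real.log x) = sfn f x / x
  rw [sfB, Real.exp_neg, Real.exp_log hx, div_eq_mul_inv]

end

end Pool.Agent.EEA520
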