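import Pool.Agent.W_eea520_h70.NatBd
import Pool.Agent.W_eea520_h70.NatWI

/-!
# The weighted sums of the traces (MP_eea520_nt, theorem G)
-/

set_option autoImplicit false

namespace Pool.Agent.EEA520

open Filter Topology Pool.Agent.EEAG1 LSeries

variable {n : ℕ}

theorem pt_zero' : pt 0 = 1 := by
  unfold pt
  simp

/-- The Riemann zeta function has a simple pole at `1`. -/
theorem zeta_pole : MeromorphicAt riemannZeta 1 ∧
    meromorphicOrderAt riemannZeta 1 = ((-1 : ℤ) : WithTop ℤ) := by
  classical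
  set f : ℂ → ℂ := Function.update (fun s => (s - 1) * riemannZeta s) 1 1 with hf
  have hne : ∀ s : ℂ, s ≠ 1 → f s = (s - 1) * riemannZeta s := fun s hs =>
    Function.update_of_ne hs _ _
  have han : AnalyticAt ℂ f 1 := by
    refine Complex.analyticAt_of_differentiable_on_punctured_nhds_of_continuousAt ?_ ?_
    · filter_upwards [self_mem_nhdsWithin] with s hs
      have hs' : s ≠ 1 := hs
      have h1 : DifferentiableAt ℂ (fun s => (s - 1) * riemannZeta s) s :=
        (differentiableAt_id.sub_const 1).mul (differentiableAt_riemannZeta hs')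
      refine h1.congr_of_eventuallyEq ?_
      filter_upwards [isOpen_compl_singleton.mem_nhds hs'] with z hz
      exact hne z hz
    · rw [hf, continuousAt_update_same]
      exact riemannZeta_residue_one
  have hf1 : f 1 = 1 := Function.update_self _ _ _
  have heq : riemannZeta =ᶠ[𝓝[≠] 1] fun s => (s - 1) ^ (-1 : ℤ) • f s := by
    filter_upwards [self_mem_nhdsWithin] with s hs
    have hs' : s ≠ 1 := hs
    rw [hne s hs', zpow_neg_one, smul_eq_mul, inv_mul_cancel_left₀ (sub_ne_zero.2 hs')]
  have hmero : MeromorphicAt riemannZeta 1 := by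
    refine MeromorphicAt.congr ?_ heq.symm
    exact (((MeromorphicAt.id (1 : ℂ)).sub (MeromorphicAt.const (1 : ℂ) (1 : ℂ))).zpow (-1)).smul
      han.meromorphicAt
  exact ⟨hmero, (meromorphicOrderAt_eq_int_iff hmero).2
    ⟨f, han, by rw [hf1]; exact one_ne_zero, heq⟩⟩

theorem poleOrder_zeta_one (π : GSys n) : PoleOrder π (Finsupp.single 0 1) (pt 0) 1 := by
  rw [pt_zero']
  refine ⟨riemannZeta, zeta_pole.1, zeta_pole.2, ?_⟩
  unfold IsL
  filter_upwards [self_mem_nhdsWithin] with s hs
  have h1 := riemannZeta_eulerProduct_hasProd (s := s) hs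
  simp only [factor_one]
  exact h1

theorem chn_one (π : GSys n) (k : ℕ) :
    chn π (Finsupp.single 0 1) k = if k.Prime then 1 else 0 := by
  unfold chn
  split_ifs with h
  · unfold tcx
    rw [Finsupp.sum_single_index (by simp)]
    have h1 : (π ⟨k, h⟩).ev 0 = 1 := by
      unfold Torus.ev
      simp
    rw [h1]
    simp
  · rfl

/-- The nonnegative coefficients. -/
noncomputable def wf (π : GSys n) (m : Wt n →₀ ℤ) (k : ℕ) : ℝ :=
  if k.Prime then (mnorm m + (chn π m k).re) * Real.log k else 0

theorem wf_nonneg {π : GSys n} (hπ : Tempered π) (m : Wt n →₀ ℤ) (k : ℕ) : 0 ≤ wf π m k := by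
  unfold wf
  split_ifs with h
  · refine mul_nonneg ?_ (Real.log_natCast_nonneg k)
    have h1 := (abs_le.1 ((Complex.abs_re_le_norm _).trans (chn_le hπ m k))).1
    linarith
  · exact le_rfl

theorem wf_le {π : GSys n} (hπ : Tempered π) (m : Wt n →₀ ℤ) (x : ℝ) (hx : 0 ≤ x) :
    sfn (wf π m) x ≤ (2 * mnorm m * Real.log 4) * x := by
  have h1 : sfn (wf π m) x ≤ 2 * mnorm m * Chebyshev.theta x := by
    unfold sfn Chebyshev.theta
    rw [Finset.mul_sum, Finset.sum_filter]
    have h0 : Finset.Icc 1 ⌊x⌋₊ = Finset.Ioc 0 ⌊x⌋₊ := by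
      ext k
      rw [Finset.mem_Icc, Finset.mem_Ioc]
      omega
    rw [h0]
    refine Finset.sum_le_sum fun k _ => ?_
    unfold wf
    split_ifs with h
    · refine mul_le_mul_of_nonneg_right ?_ (Real.log_natCast_nonneg k)
      have h1 := (abs_le.1 ((Complex.abs_re_le_norm _).trans (chn_le hπ m k))).2
      linarith
    · exact le_rfl
  refine h1.trans ?_
  have h2 := Chebyshev.theta_le_log4_mul_x hx
  have h3 := mul_le_mul_of_nonneg_left h2 (mul_nonneg (by norm_num : (0 : ℝ) ≤ 2) (mnorm_nonneg m))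
  calc 2 * mnorm m * Chebyshev.theta x ≤ 2 * mnorm m * (Real.log 4 * x) := h3
    _ = _ := by ring

theorem conj_LSeries (F : ℕ → ℂ) (s : ℂ) :
    LSeries (fun k => (starRingEnd ℂ) (F k)) s =
      (starRingEnd ℂ) (LSeries F ((starRingEnd ℂ) s)) := by
  unfold LSeries
  rw [Complex.conj_tsum]
  refine tsum_congr fun k => ?_
  by_cases hk : k = 0
  · rw [hk, term_zero, term_zero, map_zero]
  · rw [term_of_ne_zero hk, term_of_ne_zero hk, map_div₀]
    congr 1
    have h1 := Complex.cpow_conj (k : ℂ) s (by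
      rw [Complex.natCast_arg]
      exact Real.pi_pos.ne)
    rw [h1, Complex.conj_conj, Complex.conj_natCast]

theorem wf_LSeries {π : GSys n} (hπ : Tempered π) (m : Wt n →₀ ℤ) {s : ℂ} (hs : 1 < s.re) :
    LSeries (fun k => ((wf π m k : ℝ) : ℂ)) s =
      mnorm m * LSeries (logMul (chn π (Finsupp.single 0 1))) s +
        (1 / 2 * LSeries (logMul (chn π m)) s +
        1 / 2 * (starRingEnd ℂ) (LSeries (logMul (chn π m)) ((starRingEnd ℂ) s))) := by
  have hs' : 1 < ((starRingEnd ℂ) s).re := by rw [Complex.conj_re]; exact hs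
  have h1 : LSeriesSummable (logMul (chn π (Finsupp.single 0 1))) s :=
    LSeriesSummable_logMul_of_lt_re (chn_abscissa hπ _ hs)
  have h2 : LSeriesSummable (logMul (chn π m)) s :=
    LSeriesSummable_logMul_of_lt_re (chn_abscissa hπ _ hs)
  have h3 : LSeriesSummable (fun k => (starRingEnd ℂ) (logMul (chn π m) k)) s := by
    have h4 : LSeriesSummable (logMul (chn π m)) ((starRingEnd ℂ) s) :=
      LSeriesSummable_logMul_of_lt_re (chn_abscissa hπ _ hs')
    refine h2.norm.of_norm_bounded fun k => ?_
    by_cases hk : k = 0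
    · rw [hk, term_zero, term_zero]
    · rw [term_of_ne_zero hk, term_of_ne_zero hk, norm_div, norm_div, Complex.norm_conj]
  have h4 := h2.smul (1 / 2)
  have h5 := h3.smul (1 / 2)
  have h6 := h1.smul (mnorm m : ℂ)
  rw [← conj_LSeries, ← LSeries_smul, ← LSeries_smul, ← LSeries_smul, ← LSeries_add h4 h5,
    ← LSeries_add h6 (h4.add h5)]
  · congr 1
    funext k
    simp only [Pi.add_apply, Pi.smul_apply, smul_eq_mul, logMul, map_mul]
    unfold wf
    rw [chn_one]
    have hlog : (starRingEnd ℂ) (Complex.log k) = Complex.log k := by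
      rw [← Complex.natCast_log, Complex.conj_ofReal]
    rw [hlog]
    split_ifs with h
    · push_cast
      have h5 := Complex.add_conj (chn π m k)
      push_cast at h5
      linear_combination (-(1 / 2) * Complex.log (k : ℂ)) * h5
    · have h6 : chn π m k = 0 := by rw [chn, dif_neg h]
      rw [h6]
      simp

end Pool.Agent.EEA520
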