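import Pool.Agent.W_eea520_h70.Base

/-! The congruence `D_b Φ(0) ≡ Φ(b)` modulo `X ^ K`. -/

set_option autoImplicit false

namespace Pool.Agent.EEA520

open Finset

/-- The truncation `∑_{i < K} ψ_i X ^ ((2b+1) i)`. -/
noncomputable def PhiK {R : Type} [CommRing R] (ψ : ℕ → PowerSeries R) (K b : ℕ) :
    PowerSeries R := ∑ i ∈ range K, ψ i * PowerSeries.X ^ ((2 * b + 1) * i)

theorem PhiK_pow_dvd {R : Type} [CommRing R] (K m n : ℕ) (hm : 1 ≤ m) (hn : K ≤ n) :
    (PowerSeries.X ^ K : PowerSeries R) ∣ PowerSeries.X ^ (m * n) :=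
  pow_dvd_pow _ (hn.trans (Nat.le_mul_of_pos_left n hm))

theorem PhiK_shift {R : Type} [CommRing R] (ψ : ℕ → PowerSeries R) (K m j : ℕ) (hm : 1 ≤ m) :
    (PowerSeries.X ^ K : PowerSeries R) ∣
      PowerSeries.X ^ (m * j) * (∑ i ∈ range K, ψ i * PowerSeries.X ^ (m * i)) -
        ∑ i ∈ range K, if j ≤ i then ψ (i - j) * PowerSeries.X ^ (m * i) else 0 := by
  by_cases hj : K ≤ j
  · refine dvd_sub (Dvd.dvd.mul_right (PhiK_pow_dvd K m j hm hj) _) ?_
    rw [Finset.sum_eq_zero]
    · exact dvd_zero _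
    · intro i hi
      rw [mem_range] at hi
      rw [if_neg (by omega)]
  · obtain ⟨K', rfl⟩ : ∃ K', K = j + K' := ⟨K - j, by omega⟩
    have h1 : (∑ i ∈ range (j + K'), if j ≤ i then ψ (i - j) * PowerSeries.X ^ (m * i) else 0) =
        ∑ x ∈ range K', ψ x * PowerSeries.X ^ (m * (j + x)) := by
      rw [Finset.sum_range_add, Finset.sum_eq_zero, zero_add]
      · refine Finset.sum_congr rfl fun x _ => ?_
        rw [if_pos (by omega), Nat.add_sub_cancel_left]
      · intro i hi
        rw [mem_range] at hi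
        rw [if_neg (by omega)]
    have h2 : (∑ i ∈ range (j + K'), ψ i * PowerSeries.X ^ (m * i)) =
        (∑ x ∈ range K', ψ x * PowerSeries.X ^ (m * x)) +
          ∑ x ∈ range j, ψ (K' + x) * PowerSeries.X ^ (m * (K' + x)) := by
      rw [Nat.add_comm j K', Finset.sum_range_add]
    rw [h1, h2, mul_add]
    have h3 : (PowerSeries.X ^ (m * j) : PowerSeries R) *
        (∑ x ∈ range K', ψ x * PowerSeries.X ^ (m * x)) =
        ∑ x ∈ range K', ψ x * PowerSeries.X ^ (m * (j + x)) := by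
      rw [Finset.mul_sum]
      refine Finset.sum_congr rfl fun x _ => ?_
      rw [Nat.mul_add, pow_add]
      ring
    rw [h3, add_sub_cancel_left, Finset.mul_sum]
    refine Finset.dvd_sum fun x _ => ?_
    have h4 : (PowerSeries.X ^ (m * j) : PowerSeries R) *
        (ψ (K' + x) * PowerSeries.X ^ (m * (K' + x))) =
        ψ (K' + x) * PowerSeries.X ^ (m * (j + (K' + x))) := by
      rw [Nat.mul_add m j, pow_add]
      ring
    rw [h4]
    exact Dvd.dvd.mul_left (PhiK_pow_dvd (j + K') m _ hm (by omega)) _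

/-- `PhiK (b+1) = ∑_{i < K} X ^ (2 i) ψ_i X ^ ((2b+1) i) = ∑_{i < K} ∑_{j ≤ i} e_j ψ_{i-j} X ^ ((2b+1) i)`.
The product of `∑_{a ≤ k} e_a X ^ ((2b+1) a)` and `PhiK b` is
`∑_{a ≤ k} ∑_{l < K} e_a ψ_l X ^ ((2b+1) (a+l))`; its part with `a + l = i < K` is the above sum
(`e_a = 0` for `a > k`), and the terms with `a + l ≥ K` are divisible by `X ^ K`. -/
theorem phiK_step {R : Type} [CommRing R] (e : ℕ → R) (k : ℕ) (hek : ∀ j, k < j → e j = 0)
    (ψ : ℕ → PowerSeries R)
    (hψ : ∀ n, PowerSeries.X ^ (2 * n) * ψ n =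
      ∑ j ∈ range (n + 1), PowerSeries.C (e j) * ψ (n - j)) (K b : ℕ) :
    (PowerSeries.X ^ K : PowerSeries R) ∣
      (∑ a ∈ range (k + 1), PowerSeries.C (e a) * PowerSeries.X ^ ((2 * b + 1) * a)) *
        PhiK ψ K b - PhiK ψ K (b + 1) := by
  have hm : 1 ≤ 2 * b + 1 := by omega
  have hnext : PhiK ψ K (b + 1) = ∑ a ∈ range (k + 1), PowerSeries.C (e a) *
      ∑ i ∈ range K, (if a ≤ i then ψ (i - a) * PowerSeries.X ^ ((2 * b + 1) * i) else 0) := by
    unfold PhiK
    simp only [Finset.mul_sum]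
    rw [Finset.sum_comm]
    refine Finset.sum_congr rfl fun i _ => ?_
    have h1 : ψ i * PowerSeries.X ^ ((2 * (b + 1) + 1) * i) =
        (PowerSeries.X ^ (2 * i) * ψ i) * PowerSeries.X ^ ((2 * b + 1) * i) := by
      rw [show (2 * (b + 1) + 1) * i = 2 * i + (2 * b + 1) * i by ring, pow_add]
      ring
    rw [h1, hψ i, Finset.sum_mul]
    have h2 : ∀ a ∈ range (k + 1), (PowerSeries.C (e a) *
        (if a ≤ i then ψ (i - a) * PowerSeries.X ^ ((2 * b + 1) * i) else 0)) =
        if a ≤ i then PowerSeries.C (e a) * ψ (i - a) * PowerSeries.X ^ ((2 * b + 1) * i)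
          else 0 := by
      intro a _
      split_ifs
      · rw [mul_assoc]
      · rw [mul_zero]
    rw [Finset.sum_congr rfl h2, ← Finset.sum_filter]
    symm
    refine Finset.sum_subset ?_ ?_
    · intro a ha
      rw [mem_filter, mem_range] at ha
      rw [mem_range]
      omega
    · intro a ha hna
      rw [mem_range] at ha
      rw [mem_filter, mem_range] at hna
      have h3 : k < a := by
        by_contra h4
        exact hna ⟨by omega, by omega⟩
      rw [hek a h3, map_zero, zero_mul, zero_mul]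
  rw [hnext, Finset.sum_mul, ← Finset.sum_sub_distrib]
  refine Finset.dvd_sum fun a _ => ?_
  rw [mul_assoc, ← mul_sub]
  exact Dvd.dvd.mul_left (PhiK_shift ψ K (2 * b + 1) a hm) _

/-- Induction on `b` with `phiK_step`: `DP e k (b+1) = DP e k b * ∑_{a ≤ k} C (e a) X ^ ((2b+1) a)`
(`Finset.prod_range_succ`), and the coercion from polynomials to power series is a ring
homomorphism. -/
theorem phiK_DP {R : Type} [CommRing R] (e : ℕ → R) (k : ℕ) (hek : ∀ j, k < j → e j = 0)
    (ψ : ℕ → PowerSeries R)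
    (hψ : ∀ n, PowerSeries.X ^ (2 * n) * ψ n =
      ∑ j ∈ range (n + 1), PowerSeries.C (e j) * ψ (n - j)) (K b : ℕ) :
    (PowerSeries.X ^ K : PowerSeries R) ∣
      (DP e k b : PowerSeries R) * PhiK ψ K 0 - PhiK ψ K b := by
  induction b with
  | zero =>
    have h1 : DP e k 0 = 1 := by simp [DP]
    rw [h1, Polynomial.coe_one, one_mul, sub_self]
    exact dvd_zero _
  | succ b ih =>
    have h1 : ((DP e k (b + 1) : Polynomial R) : PowerSeries R) = (DP e k b : PowerSeries R) *
        ∑ a ∈ range (k + 1), PowerSeries.C (e a) * PowerSeries.X ^ ((2 * b + 1) * a) := by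
      have h2 : DP e k (b + 1) = DP e k b *
          ∑ a ∈ range (k + 1), Polynomial.C (e a) * Polynomial.X ^ ((2 * b + 1) * a) := by
        unfold DP
        rw [Finset.prod_range_succ]
      rw [h2, Polynomial.coe_mul]
      congr 1
      have h3 := map_sum (Polynomial.coeToPowerSeries.ringHom (R := R))
        (fun a => Polynomial.C (e a) * Polynomial.X ^ ((2 * b + 1) * a)) (range (k + 1))
      simp only [Polynomial.coeToPowerSeries.ringHom_apply, Polynomial.coe_mul,
        Polynomial.coe_C, Polynomial.coe_pow, Polynomial.coe_X] at h3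
      exact h3
    rw [h1]
    have h4 := phiK_step e k hek ψ hψ K b
    set S : PowerSeries R :=
      ∑ a ∈ range (k + 1), PowerSeries.C (e a) * PowerSeries.X ^ ((2 * b + 1) * a) with hS
    have h5 : (DP e k b : PowerSeries R) * S * PhiK ψ K 0 - PhiK ψ K (b + 1) =
        S * ((DP e k b : PowerSeries R) * PhiK ψ K 0 - PhiK ψ K b) +
          (S * PhiK ψ K b - PhiK ψ K (b + 1)) := by ring
    rw [h5]
    exact dvd_add (Dvd.dvd.mul_left ih _) h4

end Pool.Agent.EEA520
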