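import Mathlib

/-! Divided differences: the signed minors of a Vandermonde matrix kill the powers `x ^ i`, `i < m`. -/

set_option autoImplicit false

namespace Pool.Agent.EEA520

open Finset

/-- The matrix with the rows `(x_a ^ 0, …, x_a ^ (m-1), f a)`. -/
def Vand70_M {S : Type} [CommRing S] {m : ℕ} (x : Fin (m + 1) → S) (f : Fin (m + 1) → S) :
    Matrix (Fin (m + 1)) (Fin (m + 1)) S :=
  fun a j => if (j : ℕ) = m then f a else x a ^ (j : ℕ)

theorem Vand70_det {S : Type} [CommRing S] {m : ℕ} (x : Fin (m + 1) → S) (f : Fin (m + 1) → S) :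
    (Vand70_M x f).det = (-1) ^ m * ∑ a : Fin (m + 1), (-1) ^ (a : ℕ) *
        (Matrix.vandermonde (x ∘ a.succAbove)).det * f a := by
  rw [Matrix.det_succ_column _ (Fin.last m), Finset.mul_sum]
  refine Finset.sum_congr rfl fun a _ => ?_
  have h1 : (Vand70_M x f).submatrix a.succAbove (Fin.last m).succAbove =
      Matrix.vandermonde (x ∘ a.succAbove) := by
    ext b j
    have hj : ((j : ℕ) = m) = False := by
      simpa using (j.2).ne
    simp [Vand70_M, Matrix.vandermonde_apply, Fin.succAbove_last, hj]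
  rw [h1]
  have h2 : Vand70_M x f a (Fin.last m) = f a := by
    simp [Vand70_M]
  rw [h2, Fin.val_last, pow_add]
  ring

theorem Vand70_low {S : Type} [CommRing S] {m : ℕ} (x : Fin (m + 1) → S) (i : ℕ) (hi : i < m) :
    (Vand70_M x (fun a => x a ^ i)).det = 0 := by
  refine Matrix.det_zero_of_column_eq (i := ⟨i, by omega⟩) (j := Fin.last m) ?_ ?_
  · intro h
    have := congrArg Fin.val h
    simp at this
    omega
  · intro a
    have : ¬ (i = m) := by omega
    simp [Vand70_M, this]

theorem Vand70_top {S : Type} [CommRing S] {m : ℕ} (x : Fin (m + 1) → S) :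
    (Vand70_M x (fun a => x a ^ m)).det = (Matrix.vandermonde x).det := by
  congr 1
  ext a j
  by_cases h : (j : ℕ) = m
  · simp [Vand70_M, Matrix.vandermonde_apply, h]
  · simp [Vand70_M, Matrix.vandermonde_apply, h]

/-- The reduced form of `x_a ^ i`. -/
theorem Vand70_red {S : Type} [CommRing S] {m : ℕ} (x : Fin (m + 1) → S) (i : ℕ) :
    ∃ r : Fin (m + 1) → S, ∀ a, x a ^ i = ∑ j : Fin (m + 1), r j * x a ^ (j : ℕ) := by
  classical
  nontriviality S
  set P : Polynomial S := ∏ a : Fin (m + 1), (Polynomial.X - Polynomial.C (x a)) with hP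
  have hmon : P.Monic := Polynomial.monic_prod_of_monic _ _ fun a _ => Polynomial.monic_X_sub_C _
  have hdeg : P.natDegree = m + 1 := by
    rw [hP, Polynomial.natDegree_prod_of_monic _ _ fun a _ => Polynomial.monic_X_sub_C _]
    simp
  have hne : P ≠ 1 := by
    intro h
    rw [h] at hdeg
    simp at hdeg
  have hlt : ((Polynomial.X ^ i : Polynomial S) %ₘ P).natDegree < m + 1 := by
    rw [← hdeg]
    exact Polynomial.natDegree_modByMonic_lt _ hmon hne
  refine ⟨fun j => ((Polynomial.X ^ i : Polynomial S) %ₘ P).coeff j, fun a => ?_⟩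
  have hroot : P.eval (x a) = 0 := by
    rw [hP, Polynomial.eval_prod]
    exact Finset.prod_eq_zero (Finset.mem_univ a) (by simp)
  have h1 := congrArg (Polynomial.eval (x a))
    (Polynomial.modByMonic_add_div (Polynomial.X ^ i : Polynomial S) P)
  rw [Polynomial.eval_add, Polynomial.eval_mul, hroot, zero_mul, add_zero, Polynomial.eval_pow,
    Polynomial.eval_X] at h1
  rw [← h1, Polynomial.eval_eq_sum_range' hlt, Finset.sum_range]

/-- Proof. For a function `f` let `A f` be the `(m+1) × (m+1)` matrix with the rows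
`(x_a ^ 0, …, x_a ^ (m-1), f a)`. Expansion along the last column (`Matrix.det_succ_column`) gives
`det (A f) = ∑_a (-1) ^ (a + m) * f a * det (vandermonde (x ∘ a.succAbove))`. For `f a = x_a ^ i` with `i < m`
two columns are equal, so it is `0`; for `i = m` it is `det (vandermonde x)`. In general: the polynomial
`P = ∏_a (T - x_a)` over `S` is monic of degree `m + 1`, so `T ^ i = P Q + ∑_{j ≤ m} ρ_j T ^ j`
(`Polynomial.modByMonic_add_div`), hence `x_a ^ i = ∑_{j ≤ m} ρ_j x_a ^ j` for all `a`, and by linearity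
only `j = m` contributes: `det (A (x ^ i)) = ρ_m det (vandermonde x)`. -/
theorem vand_key {S : Type} [CommRing S] {m : ℕ} (x : Fin (m + 1) → S) (i : ℕ) :
    ∃ ρ : S, ∑ a : Fin (m + 1), (-1) ^ (a : ℕ) *
        (Matrix.vandermonde (x ∘ a.succAbove)).det * x a ^ i =
          ρ * (Matrix.vandermonde x).det ∧
      (i < m → ρ = 0) ∧ (i = m → ρ = (-1) ^ m) := by
  classical
  have hD := Vand70_det x
  have hsgn : ((-1 : S) ^ m) * (-1) ^ m = 1 := by
    rw [← mul_pow]
    simp
  rcases lt_trichotomy i m with hi | hi | hi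
  · refine ⟨0, ?_, fun _ => rfl, fun h => absurd h hi.ne⟩
    have h1 := hD (fun a => x a ^ i)
    rw [Vand70_low x i hi] at h1
    have h2 := congrArg (fun z => (-1 : S) ^ m * z) h1
    simp only [mul_zero] at h2
    rw [← mul_assoc, hsgn, one_mul] at h2
    rw [← h2, zero_mul]
  · subst hi
    refine ⟨(-1) ^ i, ?_, fun h => absurd h (lt_irrefl _), fun _ => rfl⟩
    have h1 := hD (fun a => x a ^ i)
    rw [Vand70_top x] at h1
    rw [h1, ← mul_assoc, hsgn, one_mul]
  · obtain ⟨r, hr⟩ := Vand70_red x i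
    refine ⟨(-1) ^ m * r (Fin.last m), ?_, fun h => absurd h (by omega),
      fun h => absurd h (by omega)⟩
    have key : ∀ j : Fin (m + 1), ∑ a : Fin (m + 1), (-1) ^ (a : ℕ) *
        (Matrix.vandermonde (x ∘ a.succAbove)).det * x a ^ (j : ℕ) =
        (-1) ^ m * (Vand70_M x (fun a => x a ^ (j : ℕ))).det := by
      intro j
      rw [hD, ← mul_assoc, hsgn, one_mul]
    have h0 : ∑ a : Fin (m + 1), (-1) ^ (a : ℕ) *
        (Matrix.vandermonde (x ∘ a.succAbove)).det * x a ^ i =
        ∑ j : Fin (m + 1), r j * ∑ a : Fin (m + 1), (-1) ^ (a : ℕ) *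
        (Matrix.vandermonde (x ∘ a.succAbove)).det * x a ^ (j : ℕ) := by
      simp only [Finset.mul_sum]
      rw [Finset.sum_comm]
      refine Finset.sum_congr rfl fun a _ => ?_
      rw [hr a, Finset.mul_sum]
      refine Finset.sum_congr rfl fun j _ => ?_
      ring
    rw [h0, Finset.sum_eq_single (Fin.last m)]
    · rw [key, Fin.val_last, Vand70_top]
      ring
    · intro j _ hj
      rw [key, Vand70_low x j, mul_zero, mul_zero]
      have : (j : ℕ) ≠ m := fun h => hj (Fin.ext (by simpa using h))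
      omega
    · intro h
      exact absurd (Finset.mem_univ _) h

end Pool.Agent.EEA520
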