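import Mathlib

/-! The orders of the Vandermonde determinants of the powers `X ^ (2 b_a)`. -/

set_option autoImplicit false

namespace Pool.Agent.EEA520

open Finset Polynomial

/-- `Matrix.det_vandermonde`; for `i < j`,
`X ^ (2 b_j) - X ^ (2 b_i) = X ^ (2 b_i) * (X ^ (2 (b_j - b_i)) - 1)` and the second factor has constant
coefficient `-1`. There are `m - 1 - i` indices `j > i`. -/
theorem vand_ord_aux {m : ℕ} (b : Fin m → ℕ) (hb : StrictMono b) :
    ∃ v : ℤ[X], (Matrix.vandermonde fun a => (X : ℤ[X]) ^ (2 * b a)).det =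
        X ^ (2 * ∑ i : Fin m, (m - 1 - (i : ℕ)) * b i) * v ∧ (v.coeff 0 = 1 ∨ v.coeff 0 = -1) := by
  refine ⟨∏ i : Fin m, ∏ j ∈ Finset.Ioi i, ((X : ℤ[X]) ^ (2 * (b j - b i)) - 1), ?_, ?_⟩
  · rw [Matrix.det_vandermonde, Finset.mul_sum, ← Finset.prod_pow_eq_pow_sum,
      ← Finset.prod_mul_distrib]
    refine Finset.prod_congr rfl fun i _ => ?_
    have hcard : (Finset.Ioi i).card = m - 1 - (i : ℕ) := by rw [Fin.card_Ioi]
    have h1 : (X : ℤ[X]) ^ (2 * ((m - 1 - (i : ℕ)) * b i)) =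
        ∏ _j ∈ Finset.Ioi i, (X : ℤ[X]) ^ (2 * b i) := by
      rw [Finset.prod_const, hcard, ← pow_mul]
      congr 1
      ring
    rw [h1, ← Finset.prod_mul_distrib]
    refine Finset.prod_congr rfl fun j hj => ?_
    have hij : b i < b j := hb (Finset.mem_Ioi.1 hj)
    rw [mul_sub, ← pow_add, mul_one]
    congr 2
    omega
  · have h2 : ∀ p : ℤ[X], p.coeff 0 = Polynomial.constantCoeff p := fun p => rfl
    rw [h2, map_prod]
    have h3 : ∀ i : Fin m, Polynomial.constantCoeff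
        (∏ j ∈ Finset.Ioi i, ((X : ℤ[X]) ^ (2 * (b j - b i)) - 1)) =
        (-1) ^ (Finset.Ioi i).card := by
      intro i
      rw [map_prod, ← Finset.prod_const]
      refine Finset.prod_congr rfl fun j hj => ?_
      have hij : b i < b j := hb (Finset.mem_Ioi.1 hj)
      have h4 : ¬ (b j - b i = 0) := by omega
      simp [h4]
    rw [Finset.prod_congr rfl fun i _ => h3 i, Finset.prod_pow_eq_pow_sum]
    exact neg_one_pow_eq_or ℤ _

/-- The comparison of the two exponents. -/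
theorem VandOrd_le {m : ℕ} (b : Fin (m + 1) → ℕ) (hb : StrictMono b) (a : Fin (m + 1)) :
    ∑ i : Fin (m + 1), (m + 1 - 1 - (i : ℕ)) * b i ≤
      ∑ i : Fin m, (m - 1 - (i : ℕ)) * (b ∘ a.succAbove) i + m * b a := by
  rw [Fin.sum_univ_succAbove _ a]
  have h1 : ∀ i : Fin m, (m + 1 - 1 - ((a.succAbove i : Fin (m + 1)) : ℕ)) * b (a.succAbove i) ≤
      (m - 1 - (i : ℕ)) * (b ∘ a.succAbove) i + if (i : ℕ) < (a : ℕ) then b a else 0 := by
    intro i
    by_cases h : (i : ℕ) < (a : ℕ)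
    · rw [if_pos h]
      have h2 : a.succAbove i = i.castSucc := Fin.succAbove_of_castSucc_lt _ _ (by
        rw [Fin.lt_def]; simpa using h)
      have h3 : b i.castSucc ≤ b a := hb.monotone (by
        rw [Fin.le_def]; simpa using h.le)
      rw [Function.comp_apply, h2]
      have h4 : m + 1 - 1 - ((i.castSucc : Fin (m + 1)) : ℕ) = (m - 1 - (i : ℕ)) + 1 := by
        have := i.isLt
        rw [Fin.val_castSucc]
        omega
      rw [h4, add_mul, one_mul]
      exact Nat.add_le_add_left h3 _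
    · rw [if_neg h, add_zero]
      have h2 : a.succAbove i = i.succ := Fin.succAbove_of_le_castSucc _ _ (by
        rw [Fin.le_def]; simpa using h)
      rw [Function.comp_apply, h2]
      apply Nat.mul_le_mul_right
      rw [Fin.val_succ]
      omega
  have h5 : ∑ i : Fin m, (if (i : ℕ) < (a : ℕ) then b a else 0) = (a : ℕ) * b a := by
    rw [← Finset.sum_filter, Finset.sum_const, smul_eq_mul]
    congr 1
    rw [Fin.card_filter_val_lt]
    have := a.isLt
    omega
  have h6 := Finset.sum_le_sum (s := Finset.univ) fun i _ => h1 i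
  rw [Finset.sum_add_distrib, h5] at h6
  have h7 : (m + 1 - 1 - (a : ℕ)) * b a + (a : ℕ) * b a = m * b a := by
    rw [← add_mul]
    congr 1
    have := a.isLt
    omega
  omega

/-- From `vand_ord_aux` for `b` and for `b ∘ a.succAbove` (strictly monotone as well). With
`N = ∑_i (m - i) b_i` and `n a = ∑_{i : Fin m} (m - 1 - i) b_{a.succAbove i}` one has
`N - n a = ∑_{i < a} b_i + (m - a) b_a ≤ m b_a`: the index `i < a` has the factor `m - 1 - i` in `n a`, the
index `i > a` stands at the place `i - 1` and has the factor `m - i`. (`Fin.sum_univ_succAbove` for the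
function `i ↦ (m - i) b_i` and the index `a`.) -/
theorem vand_ord {m : ℕ} (b : Fin (m + 1) → ℕ) (hb : StrictMono b) :
    ∃ (N : ℕ) (v : ℤ[X]) (n : Fin (m + 1) → ℕ) (w : Fin (m + 1) → ℤ[X]),
      (Matrix.vandermonde fun a => (X : ℤ[X]) ^ (2 * b a)).det = X ^ (2 * N) * v ∧
      (v.coeff 0 = 1 ∨ v.coeff 0 = -1) ∧
      (∀ a, (Matrix.vandermonde ((fun a => (X : ℤ[X]) ^ (2 * b a)) ∘ a.succAbove)).det =
        X ^ (2 * n a) * w a) ∧
      ∀ a, N ≤ n a + m * b a := by
  obtain ⟨v, hv, hv0⟩ := vand_ord_aux b hb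
  have h : ∀ a : Fin (m + 1), ∃ w : ℤ[X],
      (Matrix.vandermonde ((fun a => (X : ℤ[X]) ^ (2 * b a)) ∘ a.succAbove)).det =
        X ^ (2 * ∑ i : Fin m, (m - 1 - (i : ℕ)) * (b ∘ a.succAbove) i) * w := by
    intro a
    obtain ⟨w, hw, _⟩ := vand_ord_aux (b ∘ a.succAbove) (hb.comp (Fin.strictMono_succAbove a))
    exact ⟨w, hw⟩
  choose w hw using h
  exact ⟨_, v, fun a => ∑ i : Fin m, (m - 1 - (i : ℕ)) * (b ∘ a.succAbove) i, w, hv, hv0, hw,
    fun a => VandOrd_le b hb a⟩

end Pool.Agent.EEA520
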