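import Pool.Agent.W_eea520_h70.Psi
import Pool.Agent.W_eea520_h70.PhiK
import Pool.Agent.W_eea520_h70.Vand70
import Pool.Agent.W_eea520_h70.VandOrd

/-! The combination of the `D_b` at `m + 1` nodes with the leading term `h_m`. -/

set_option autoImplicit false

namespace Pool.Agent.EEA520

open Finset Polynomial

theorem NodeComb_coeff {R : Type} [CommRing R] (L U : PowerSeries R)
    (hU0 : PowerSeries.constantCoeff U = 1) (n : ℕ) :
    PowerSeries.coeff n L = PowerSeries.coeff n (L * U) -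
      ∑ j ∈ range n, PowerSeries.coeff j L * PowerSeries.coeff (n - j) U := by
  rw [PowerSeries.coeff_mul, Finset.Nat.sum_antidiagonal_eq_sum_range_succ
    (fun i j => PowerSeries.coeff i L * PowerSeries.coeff j U), sum_range_succ, Nat.sub_self,
    PowerSeries.coeff_zero_eq_constantCoeff_apply, hU0, mul_one]
  ring

/-- Division by a power series with constant coefficient `1`: strong induction on the coefficient
`n` of `L`, `coeff n (L * U) = coeff n L + ∑_{j ≥ 1} coeff j U * coeff (n-j) L`. -/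
theorem nodeComb_div {R : Type} [CommRing R] (F : ℕ → AddSubgroup R) (hF : IsFilt F) (m M K : ℕ)
    (L U G : PowerSeries R) (hU0 : PowerSeries.constantCoeff U = 1)
    (hU : ∀ a, PowerSeries.coeff a U ∈ F a)
    (hG : ∀ a, PowerSeries.coeff a G ∈ F (m + a))
    (h : (PowerSeries.X ^ K : PowerSeries R) ∣ L * U - PowerSeries.X ^ M * G) :
    (∀ n, n < M → n < K → PowerSeries.coeff n L = 0) ∧
    (M < K → PowerSeries.coeff M L = PowerSeries.constantCoeff G) ∧
    ∀ a, M + a < K → PowerSeries.coeff (M + a) L ∈ F (m + a) := by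
  have key : ∀ n, n < K → PowerSeries.coeff n L =
      PowerSeries.coeff n (PowerSeries.X ^ M * G) -
        ∑ j ∈ range n, PowerSeries.coeff j L * PowerSeries.coeff (n - j) U := by
    intro n hn
    have h1 := (PowerSeries.X_pow_dvd_iff.1 h) n hn
    rw [map_sub, sub_eq_zero] at h1
    rw [← h1]
    exact NodeComb_coeff L U hU0 n
  have h0 : ∀ n, n < M → n < K → PowerSeries.coeff n L = 0 := by
    intro n
    induction n using Nat.strong_induction_on with
    | _ n ih =>
      intro hM hK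
      rw [key n hK, PowerSeries.coeff_X_pow_mul', if_neg (by omega), zero_sub, neg_eq_zero]
      refine sum_eq_zero fun j hj => ?_
      have hj' := mem_range.1 hj
      rw [ih j hj' (by omega) (by omega), zero_mul]
  refine ⟨h0, ?_, ?_⟩
  · intro hMK
    rw [key M hMK, PowerSeries.coeff_X_pow_mul', if_pos le_rfl, Nat.sub_self,
      PowerSeries.coeff_zero_eq_constantCoeff_apply, sum_eq_zero, sub_zero]
    intro j hj
    have hj' := mem_range.1 hj
    rw [h0 j hj' (by omega), zero_mul]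
  · intro a
    induction a using Nat.strong_induction_on with
    | _ a ih =>
      intro hK
      rw [key _ hK, PowerSeries.coeff_X_pow_mul', if_pos (by omega), Nat.add_sub_cancel_left]
      refine (F (m + a)).sub_mem (hG a) ((F (m + a)).sum_mem fun j hj => ?_)
      have hj' := mem_range.1 hj
      by_cases hjM : j < M
      · rw [h0 j hjM (by omega), zero_mul]
        exact (F (m + a)).zero_mem
      · obtain ⟨a', rfl⟩ := Nat.exists_eq_add_of_le (Nat.le_of_not_lt hjM)
        have h1 := ih a' (by omega) (by omega)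
        have h2 := hF.mul _ _ _ _ h1 (hU (M + a - (M + a')))
        have h3 : m + a' + (M + a - (M + a')) = m + a := by omega
        rw [h3] at h2
        exact h2

/-- The coefficients of `f` satisfy `coeff a f ∈ F (d + a)`. -/
def NodeCombP {R : Type} [CommRing R] (F : ℕ → AddSubgroup R) (d : ℕ) (f : PowerSeries R) :
    Prop := ∀ a, PowerSeries.coeff a f ∈ F (d + a)

theorem NodeCombP_mul {R : Type} [CommRing R] (F : ℕ → AddSubgroup R) (hF : IsFilt F)
    (d d' : ℕ) (f g : PowerSeries R) (hf : NodeCombP F d f) (hg : NodeCombP F d' g) :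
    NodeCombP F (d + d') (f * g) := by
  intro a
  rw [PowerSeries.coeff_mul]
  refine (F (d + d' + a)).sum_mem fun p hp => ?_
  have h1 := hF.mul _ _ _ _ (hf p.1) (hg p.2)
  have h2 : p.1 + p.2 = a := mem_antidiagonal.1 hp
  have h3 : d + p.1 + (d' + p.2) = d + d' + a := by omega
  rw [h3] at h1
  exact h1

theorem NodeCombP_sum {R : Type} [CommRing R] (F : ℕ → AddSubgroup R) {ι : Type*}
    (s : Finset ι) (d : ℕ) (f : ι → PowerSeries R) (hf : ∀ i ∈ s, NodeCombP F d (f i)) :
    NodeCombP F d (∑ i ∈ s, f i) := by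
  intro a
  rw [map_sum]
  exact (F (d + a)).sum_mem fun i hi => hf i hi a

theorem NodeComb_int {R : Type} [CommRing R] (F : ℕ → AddSubgroup R) (hF : IsFilt F) (z : ℤ)
    (a : ℕ) : (z : R) ∈ F a := by
  have h1 : (z : R) ∈ F 0 := by
    have h2 := (F 0).zsmul_mem hF.one z
    rwa [zsmul_one] at h2
  exact hF.mono (Nat.zero_le a) h1

theorem NodeCombP_int {R : Type} [CommRing R] (F : ℕ → AddSubgroup R) (hF : IsFilt F)
    (p : ℤ[X]) : NodeCombP F 0 ((p.map (Int.castRingHom R) : R[X]) : PowerSeries R) := by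
  intro a
  rw [Polynomial.coeff_coe, Polynomial.coeff_map]
  exact NodeComb_int F hF _ _

theorem NodeCombP_X {R : Type} [CommRing R] (F : ℕ → AddSubgroup R) (i m : ℕ) (him : m ≤ i)
    (f : PowerSeries R) (hf : NodeCombP F i f) :
    NodeCombP F m (PowerSeries.X ^ (i - m) * f) := by
  intro a
  rw [PowerSeries.coeff_X_pow_mul']
  split_ifs with h
  · have h1 := hf (a - (i - m))
    have h2 : i + (a - (i - m)) = m + a := by omega
    rw [h2] at h1
    exact h1
  · exact (F (m + a)).zero_mem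

/-- The ring homomorphism `ℤ[X] → R[[X]]`. -/
noncomputable def NodeComb_io (R : Type) [CommRing R] : ℤ[X] →+* PowerSeries R :=
  (Polynomial.coeToPowerSeries.ringHom (R := R)).comp
    (Polynomial.mapRingHom (Int.castRingHom R))

theorem NodeComb_io_apply (R : Type) [CommRing R] (p : ℤ[X]) :
    NodeComb_io R p = ((p.map (Int.castRingHom R) : R[X]) : PowerSeries R) := rfl

theorem NodeComb_io_X (R : Type) [CommRing R] : NodeComb_io R X = PowerSeries.X := by
  rw [NodeComb_io_apply, Polynomial.map_X, Polynomial.coe_X]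

/-- The sum over the nodes of the truncated series. -/
theorem NodeComb_sum {R : Type} [CommRing R] {m : ℕ} (ψ : ℕ → PowerSeries R)
    (cc : Fin (m + 1) → ℤ[X]) (b : Fin (m + 1) → ℕ) (V v : ℤ[X]) (N K : ℕ) (ρ : ℕ → ℤ[X])
    (hρ : ∀ i, ∑ a, cc a * (X ^ (2 * b a)) ^ i = ρ i * V) (hρ0 : ∀ i, i < m → ρ i = 0)
    (hV : V = X ^ (2 * N) * v) :
    ∑ a, NodeComb_io R (cc a) * PhiK ψ K (b a) =
      PowerSeries.X ^ (2 * N + m) * (NodeComb_io R v *
        ∑ i ∈ range K, NodeComb_io R (ρ i) * (PowerSeries.X ^ (i - m) * ψ i)) := by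
  unfold PhiK
  have h1 : ∀ a : Fin (m + 1), NodeComb_io R (cc a) *
      ∑ i ∈ range K, ψ i * PowerSeries.X ^ ((2 * b a + 1) * i) =
      ∑ i ∈ range K, ψ i * PowerSeries.X ^ i *
        NodeComb_io R (cc a * (X ^ (2 * b a)) ^ i) := by
    intro a
    rw [mul_sum]
    refine sum_congr rfl fun i _ => ?_
    rw [map_mul, map_pow, map_pow, NodeComb_io_X, add_mul, one_mul, pow_add, pow_mul]
    ring
  rw [sum_congr rfl fun a _ => h1 a, sum_comm, mul_sum, mul_sum]
  refine sum_congr rfl fun i _ => ?_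
  rw [← mul_sum, ← map_sum, hρ i, hV, map_mul, map_mul, map_pow, NodeComb_io_X]
  by_cases him : i < m
  · rw [hρ0 i him, map_zero]
    ring
  · have h2 : i = m + (i - m) := by omega
    have h3 : (PowerSeries.X : PowerSeries R) ^ i =
        PowerSeries.X ^ m * PowerSeries.X ^ (i - m) := by
      rw [← pow_add, ← h2]
    rw [h3, pow_add]
    ring

theorem NodeComb_cong {R : Type} [CommRing R] {m : ℕ} (D : Fin (m + 1) → R[X])
    (ψ : ℕ → PowerSeries R)
    (cc : Fin (m + 1) → ℤ[X]) (b : Fin (m + 1) → ℕ) (V v : ℤ[X]) (N K : ℕ) (ρ : ℕ → ℤ[X])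
    (hρ : ∀ i, ∑ a, cc a * (X ^ (2 * b a)) ^ i = ρ i * V) (hρ0 : ∀ i, i < m → ρ i = 0)
    (hV : V = X ^ (2 * N) * v)
    (hD : ∀ a, (PowerSeries.X ^ K : PowerSeries R) ∣
      (D a : PowerSeries R) * PhiK ψ K 0 - PhiK ψ K (b a)) :
    (PowerSeries.X ^ K : PowerSeries R) ∣
      ((∑ a, (cc a).map (Int.castRingHom R) * D a : R[X]) : PowerSeries R) * PhiK ψ K 0 -
      PowerSeries.X ^ (2 * N + m) * (NodeComb_io R v *
        ∑ i ∈ range K, NodeComb_io R (ρ i) * (PowerSeries.X ^ (i - m) * ψ i)) := by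
  rw [← NodeComb_sum ψ cc b V v N K ρ hρ hρ0 hV]
  have h1 : ((∑ a, (cc a).map (Int.castRingHom R) * D a : R[X]) : PowerSeries R) =
      ∑ a, NodeComb_io R (cc a) * (D a : PowerSeries R) := by
    have h2 := map_sum (Polynomial.coeToPowerSeries.ringHom (R := R))
      (fun a => (cc a).map (Int.castRingHom R) * D a) univ
    refine h2.trans (sum_congr rfl fun a _ => ?_)
    rw [map_mul]
    rfl
  rw [h1, sum_mul, ← sum_sub_distrib]
  refine dvd_sum fun a _ => ?_
  rw [mul_assoc, ← mul_sub]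
  exact (hD a).mul_left _

/-- A polynomial with given coefficients. -/
theorem NodeComb_poly {R : Type} [CommRing R] (L : R[X]) (M W : ℕ) (H : R) (G : ℕ → R)
    (h0 : ∀ n, n < M → L.coeff n = 0) (h1 : L.coeff M = H)
    (h2 : ∀ w, 1 ≤ w → w ≤ W → L.coeff (M + w) = G w)
    (h3 : ∀ n, M + W < n → L.coeff n = 0) :
    L = X ^ M * (C H + ∑ w ∈ Icc 1 W, C (G w) * X ^ w) := by
  ext n
  rw [Polynomial.coeff_X_pow_mul']
  split_ifs with h
  · obtain ⟨l, rfl⟩ := Nat.exists_eq_add_of_le h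
    rw [Nat.add_sub_cancel_left, Polynomial.coeff_add, Polynomial.coeff_C,
      Polynomial.finsetSum_coeff]
    have h4 : ∀ w ∈ Icc 1 W, (C (G w) * X ^ w : R[X]).coeff l = if l = w then G w else 0 := by
      intro w _
      rw [Polynomial.coeff_C_mul, Polynomial.coeff_X_pow]
      split_ifs <;> simp
    rw [sum_congr rfl h4, sum_ite_eq]
    by_cases hl : l = 0
    · subst hl
      rw [if_pos rfl, if_neg (by simp), add_zero, add_zero]
      exact h1
    · rw [if_neg hl, zero_add]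
      split_ifs with h5
      · exact h2 l (mem_Icc.1 h5).1 (mem_Icc.1 h5).2
      · refine h3 _ ?_
        rw [mem_Icc] at h5
        omega
  · exact h0 n (by omega)

/-- Proof. Let `x_a = X ^ (2 b_a) ∈ ℤ[X]`, `W_a = det (vandermonde (x ∘ a.succAbove))`,
`V = det (vandermonde x) = X ^ (2N) v`, `W_a = X ^ (2 n_a) w_a` (`vand_ord`) and
`L = ∑_a (-1) ^ a W_a D_{b_a}` (in `R[X]`). Take `ψ` from `exists_psi`, and `K` larger than the degree
of `L` and larger than `2N + m`. By `phiK_DP`, modulo `X ^ K`,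
`L * PhiK ψ K 0 ≡ ∑_a (-1) ^ a W_a PhiK ψ K b_a = ∑_{i < K} ψ_i X ^ i ∑_a (-1) ^ a W_a x_a ^ i
= ∑_{i < K} ψ_i X ^ i ρ_i V` with `ρ_i ∈ ℤ[X]`, `ρ_i = 0` for `i < m`, `ρ_m = (-1) ^ m` (`vand_key` in
`S = ℤ[X]`), which is `X ^ (2N + m) * G` with `G = v ∑_{m ≤ i < K} ρ_i X ^ (i - m) ψ_i`. The coefficients of
`G` satisfy `coeff a G ∈ F (m + a)` (integers are in `F 0`; `coeff a (ψ_i) ∈ F (i + a)`), and
`constantCoeff G = v(0) (-1) ^ m (-1) ^ m hh e m = ± hh e m`. `PhiK ψ K 0` has constant coefficient `1` and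
`coeff a ∈ F a`. Now apply `nodeComb_div` with `M = 2N + m`: `L = X ^ M (± hh e m + ∑_{w ≥ 1} G_w X ^ w)`, a
polynomial. Multiply by the sign: `c_a = ± (-1) ^ a w_a`. -/
theorem node_comb {R : Type} [CommRing R] (F : ℕ → AddSubgroup R) (hF : IsFilt F) (e : ℕ → R)
    (k : ℕ) (he0 : e 0 = 1) (hek : ∀ j, k < j → e j = 0) (he : ∀ j, e j ∈ F j) (m : ℕ)
    (b : Fin (m + 1) → ℕ) (hb : StrictMono b) :
    ∃ (c : Fin (m + 1) → ℤ[X]) (n : Fin (m + 1) → ℕ) (M W : ℕ) (G : ℕ → R),
      (∀ a, M ≤ n a + 2 * m * b a + m) ∧ (∀ w, G w ∈ F (m + w)) ∧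
      ∑ a, X ^ n a * (c a).map (Int.castRingHom R) * DP e k (b a) =
        X ^ M * (C (hh e m) + ∑ w ∈ Icc 1 W, C (G w) * X ^ w) := by
  obtain ⟨N, v, n', w, hV, hv, hW, hN⟩ := vand_ord b hb
  obtain ⟨ψ, hψ0, hψ, hψF, hψc⟩ := exists_psi F hF e he0 he
  choose ρ hρ hρ0 hρm using vand_key (fun a : Fin (m + 1) => (X : ℤ[X]) ^ (2 * b a))
  obtain ⟨cc, hcc⟩ : ∃ cc : Fin (m + 1) → ℤ[X], ∀ a, cc a = (-1) ^ (a : ℕ) *
      (Matrix.vandermonde ((fun a => (X : ℤ[X]) ^ (2 * b a)) ∘ a.succAbove)).det :=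
    ⟨_, fun _ => rfl⟩
  obtain ⟨V, hVd⟩ : ∃ V : ℤ[X], V = (Matrix.vandermonde fun a => (X : ℤ[X]) ^ (2 * b a)).det :=
    ⟨_, rfl⟩
  obtain ⟨L, hL⟩ : ∃ L : R[X], L = ∑ a, (cc a).map (Int.castRingHom R) * DP e k (b a) :=
    ⟨_, rfl⟩
  obtain ⟨K, hK⟩ : ∃ K : ℕ, K = L.natDegree + 1 + (2 * N + m) + 1 := ⟨_, rfl⟩
  have hρ' : ∀ i, ∑ a, cc a * (X ^ (2 * b a)) ^ i = ρ i * V := by
    intro i
    rw [hVd, ← hρ i]
    exact sum_congr rfl fun a _ => by rw [hcc a]
  have hV' : V = X ^ (2 * N) * v := by rw [hVd, hV]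
  have hcong := NodeComb_cong (fun a => DP e k (b a)) ψ cc b V v N K ρ hρ' (fun i hi => hρ0 i hi)
    hV' (fun a => phiK_DP e k hek ψ hψ K (b a))
  rw [← hL] at hcong
  have hU0 : PowerSeries.constantCoeff (PhiK ψ K 0) = 1 := by
    unfold PhiK
    rw [map_sum, sum_eq_single 0]
    · rw [hψ0, Nat.mul_zero, pow_zero, mul_one, map_one]
    · intro i _ hi
      rw [map_mul, map_pow, PowerSeries.constantCoeff_X, zero_pow (by omega), mul_zero]
    · intro h
      exact absurd (mem_range.2 (by omega)) h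
  have hU : ∀ a, PowerSeries.coeff a (PhiK ψ K 0) ∈ F a := by
    have h1 : NodeCombP F 0 (PhiK ψ K 0) := by
      unfold PhiK
      refine NodeCombP_sum F _ 0 _ fun i _ => ?_
      have h2 := NodeCombP_X F i 0 (Nat.zero_le i) (ψ i) (fun a => hψF i a)
      rw [mul_comm]
      have h3 : (2 * 0 + 1) * i = i - 0 := by omega
      rw [h3]
      exact h2
    intro a
    have h2 := h1 a
    rwa [Nat.zero_add] at h2
  have hG : ∀ a, PowerSeries.coeff a (NodeComb_io R v *
      ∑ i ∈ range K, NodeComb_io R (ρ i) * (PowerSeries.X ^ (i - m) * ψ i)) ∈ F (m + a) := by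
    have h1 : NodeCombP F (0 + m) (NodeComb_io R v *
        ∑ i ∈ range K, NodeComb_io R (ρ i) * (PowerSeries.X ^ (i - m) * ψ i)) := by
      refine NodeCombP_mul F hF 0 m _ _ (NodeCombP_int F hF v) ?_
      refine NodeCombP_sum F _ m _ fun i _ => ?_
      by_cases him : i < m
      · rw [hρ0 i him, map_zero, zero_mul]
        intro a
        rw [map_zero]
        exact (F (m + a)).zero_mem
      · have h2 := NodeCombP_mul F hF 0 m _ _ (NodeCombP_int F hF (ρ i))
          (NodeCombP_X F i m (Nat.le_of_not_lt him) (ψ i) (fun a => hψF i a))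
        rw [Nat.zero_add] at h2
        exact h2
    intro a
    have h2 := h1 a
    rwa [Nat.zero_add] at h2
  have hG0 : PowerSeries.constantCoeff (NodeComb_io R v *
      ∑ i ∈ range K, NodeComb_io R (ρ i) * (PowerSeries.X ^ (i - m) * ψ i)) =
      ((v.coeff 0 : ℤ) : R) * hh e m := by
    rw [map_mul, map_sum, sum_eq_single m]
    · have h1 : PowerSeries.constantCoeff (NodeComb_io R v) = ((v.coeff 0 : ℤ) : R) := by
        rw [NodeComb_io_apply, ← PowerSeries.coeff_zero_eq_constantCoeff_apply,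
          Polynomial.coeff_coe, Polynomial.coeff_map]
        rfl
      rw [h1, Nat.sub_self, pow_zero, one_mul, hρm m rfl, map_pow, map_neg, map_one, map_mul,
        map_pow, map_neg, map_one, hψc m, ← mul_assoc ((-1 : R) ^ m), ← mul_pow]
      norm_num
    · intro i _ hi
      by_cases him : i < m
      · rw [hρ0 i him, map_zero, zero_mul, map_zero]
      · rw [map_mul, map_mul, map_pow, PowerSeries.constantCoeff_X, zero_pow (by omega),
          zero_mul, mul_zero]
    · intro h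
      exact absurd (mem_range.2 (by omega)) h
  obtain ⟨hA, hB, hC⟩ := nodeComb_div F hF m (2 * N + m) K (L : PowerSeries R) (PhiK ψ K 0) _
    hU0 hU hG hcong
  rw [hG0] at hB
  have hB' := hB (by omega)
  rw [Polynomial.coeff_coe] at hB'
  have hdeg : ∀ n, K ≤ n → L.coeff n = 0 := fun n hn =>
    Polynomial.coeff_eq_zero_of_natDegree_lt (by omega)
  -- the sign
  have hs : ((v.coeff 0 : ℤ) : R) * ((v.coeff 0 : ℤ) : R) = 1 := by
    rcases hv with h | h <;> rw [h] <;> norm_num
  refine ⟨fun a => C (v.coeff 0) * ((-1) ^ (a : ℕ) * w a), fun a => 2 * n' a, 2 * N + m, K,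
    fun j => ((v.coeff 0 : ℤ) : R) * L.coeff (2 * N + m + j), fun a => ?_, fun j => ?_, ?_⟩
  · have h1 := hN a
    have h2 : 2 * m * b a = 2 * (m * b a) := by ring
    change 2 * N + m ≤ 2 * n' a + 2 * m * b a + m
    rw [h2]
    omega
  · by_cases hj : 2 * N + m + j < K
    · have h1 := hC j hj
      rw [Polynomial.coeff_coe] at h1
      have h2 := hF.mul 0 (m + j) _ _ (NodeComb_int F hF (v.coeff 0) 0) h1
      rw [Nat.zero_add] at h2
      exact h2
    · change ((v.coeff 0 : ℤ) : R) * L.coeff (2 * N + m + j) ∈ F (m + j)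
      rw [hdeg _ (by omega), mul_zero]
      exact (F (m + j)).zero_mem
  · have h1 : ∑ a, X ^ (2 * n' a) *
        (C (v.coeff 0) * ((-1) ^ (a : ℕ) * w a)).map (Int.castRingHom R) * DP e k (b a) =
        C ((v.coeff 0 : ℤ) : R) * L := by
      rw [hL, mul_sum]
      refine sum_congr rfl fun a _ => ?_
      rw [hcc a, hW a]
      have h2 : (Int.castRingHom R) (v.coeff 0) = ((v.coeff 0 : ℤ) : R) := rfl
      simp only [Polynomial.map_mul, Polynomial.map_C, Polynomial.map_pow, Polynomial.map_X,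
        Polynomial.map_neg, Polynomial.map_one]
      rw [h2]
      ring
    rw [h1]
    refine NodeComb_poly _ _ _ _ _ (fun n hn => ?_) ?_ (fun j _ _ => ?_) (fun n hn => ?_)
    · rw [Polynomial.coeff_C_mul]
      have h2 := hA n hn (by omega)
      rw [Polynomial.coeff_coe] at h2
      rw [h2, mul_zero]
    · rw [Polynomial.coeff_C_mul, hB', ← mul_assoc, hs, one_mul]
    · rw [Polynomial.coeff_C_mul]
    · rw [Polynomial.coeff_C_mul, hdeg n (by omega), mul_zero]

end Pool.Agent.EEA520
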