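import Pool.Agent.W_eea520_h70.NodeComb
import Pool.Agent.W_eea520_h70.Contract
import Pool.Agent.W_eea520_h25.Spin

/-! The combination of the `D_b` of one system. -/

set_option autoImplicit false

namespace Pool.Agent.EEA520

open Polynomial

/-- `DD` is the value of the polynomial `DP` at `tt`. -/
theorem DP_eval {k : ℕ} (σ : GLSys k) (b : ℕ) : (DP (extD σ) k b).eval tt = DD σ b := by
  unfold DP DD
  rw [eval_prod]
  refine Finset.prod_congr rfl fun j _ => ?_
  rw [eval_finsetSum]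
  refine Finset.sum_congr rfl fun a _ => ?_
  rw [eval_mul, eval_C, eval_pow, eval_X]

theorem OneFac_poly {ρ : ℝ} (c : ℤ[X]) {Y : Dat} (hY : ContTo ρ Y) :
    ContTo ρ ((c.map (Int.castRingHom Dat)).eval tt * Y) := by
  rw [eval_eq_sum_range, Finset.sum_mul]
  refine ContTo.sum _ _ fun i _ => ?_
  have h1 : (c.map (Int.castRingHom Dat)).coeff i * tt ^ i * Y =
      ((c.coeff i : ℤ) : Dat) * (Y * tt ^ i) := by
    rw [coeff_map, eq_intCast]
    ring
  rw [h1]
  refine ContTo.intCast_mul ?_ _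
  refine (hY.mul_tt_pow i).mono ?_
  have : (0 : ℝ) ≤ (i : ℝ) / 2 := by positivity
  linarith

/-- Proof. Apply `node_comb` with `F = FF τ`, `e = extD (τ i)`, `k = k i` (`isFilt_FF`, `extD_mem_FF`,
`extD_zero`, `extD_of_lt`) and evaluate at `tt` (`DP_eval`). Multiply by `tw (M / 2)`, the inverse of
`tt ^ M` (`tt_pow`, `tw_neg_mul`). So `κ a = tw (M / 2) * tt ^ n a * (c a).map(…).eval tt`. As
`tw (M/2) * tt ^ n = tw ((M - n) / 2)` and `(M - n a) / 2 ≤ m ν_a + m / 2`, and the polynomial in `tt` has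
integer coefficients and only moves to the left (`ContTo.mul_tt_pow`, `ContTo.intCast_mul`,
`ContTo.sum`, `ContTo.mono`), the second property follows. -/
theorem one_factor {r : ℕ} {k : Fin r → ℕ} (τ : (i : Fin r) → GLSys (k i)) (i : Fin r) (m : ℕ)
    (ν : Fin (m + 1) → ℕ) (hν : StrictMono ν) :
    ∃ κ : Fin (m + 1) → Dat,
      Lead (FF τ) tt m (hh (extD (τ i)) m) (∑ a, κ a * DD (τ i) (ν a)) ∧
      ∀ (a : Fin (m + 1)) (Y : Dat) (ρ : ℝ), ContTo ρ Y →
        ContTo (ρ + m * ν a + m / 2) (κ a * Y) := by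
  obtain ⟨c, n, M, W, G, h1, h2, h3⟩ := node_comb (FF τ) (isFilt_FF τ) (extD (τ i)) (k i)
    (extD_zero _) (fun j hj => extD_of_lt _ _ hj) (extD_mem_FF τ i) m ν hν
  refine ⟨fun a => tw (M / 2 : ℂ) * (tt ^ n a * ((c a).map (Int.castRingHom Dat)).eval tt),
    ⟨hh_mem (isFilt_FF τ) _ (extD_mem_FF τ i) m, W, G, h2, ?_⟩, ?_⟩
  · have h4 := congrArg (eval tt) h3
    rw [eval_finsetSum, eval_mul, eval_pow, eval_X, eval_add, eval_C, eval_finsetSum] at h4
    have h5 : ∀ a ∈ (Finset.univ : Finset (Fin (m + 1))),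
        eval tt (X ^ n a * (c a).map (Int.castRingHom Dat) * DP (extD (τ i)) (k i) (ν a)) =
        tt ^ n a * ((c a).map (Int.castRingHom Dat)).eval tt * DD (τ i) (ν a) := by
      intro a _
      rw [eval_mul, eval_mul, eval_pow, eval_X, DP_eval]
    rw [Finset.sum_congr rfl h5] at h4
    have h6 : ∀ w ∈ Finset.Icc 1 W, eval tt (C (G w) * X ^ w) = G w * tt ^ w := by
      intro w _
      rw [eval_mul, eval_C, eval_pow, eval_X]
    rw [Finset.sum_congr rfl h6] at h4
    have h7 : ∀ a ∈ (Finset.univ : Finset (Fin (m + 1))),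
        tw (M / 2 : ℂ) * (tt ^ n a * ((c a).map (Int.castRingHom Dat)).eval tt) *
          DD (τ i) (ν a) =
        tw (M / 2 : ℂ) * (tt ^ n a * ((c a).map (Int.castRingHom Dat)).eval tt *
          DD (τ i) (ν a)) := by
      intro a _
      ring
    rw [Finset.sum_congr rfl h7, ← Finset.mul_sum, h4, tt_pow]
    have h8 := tw_neg_mul (-(M / 2 : ℂ))
      (hh (extD (τ i)) m + ∑ w ∈ Finset.Icc 1 W, G w * tt ^ w)
    rwa [neg_neg] at h8
  · intro a Y ρ hY
    have h4 : tw (M / 2 : ℂ) * (tt ^ n a * ((c a).map (Int.castRingHom Dat)).eval tt) * Y =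
        tw (M / 2 : ℂ) * ((((c a).map (Int.castRingHom Dat)).eval tt * Y) * tt ^ n a) := by
      ring
    show ContTo _ (tw (M / 2 : ℂ) * (tt ^ n a * ((c a).map (Int.castRingHom Dat)).eval tt) * Y)
    rw [h4]
    have h5 := ((OneFac_poly (c a) hY).mul_tt_pow (n a)).tw (M / 2 : ℂ)
    refine h5.mono ?_
    have h6 : ((M : ℂ) / 2).re = (M : ℝ) / 2 := by
      rw [Complex.div_ofNat_re, Complex.natCast_re]
    rw [h6]
    have h7 : (M : ℝ) ≤ n a + 2 * m * ν a + m := by exact_mod_cast h1 a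
    linarith

end Pool.Agent.EEA520
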