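import Pool.Agent.W_eea520_h70.Base

/-! The power series `ψ_n`: `D_b = D_∞ ∑_n ψ_n t ^ ((2b+1) n)`. -/

set_option autoImplicit false

namespace Pool.Agent.EEA520

open Finset

/-- The geometric series `∑ X ^ (d i)`. -/
noncomputable def PsiGeo (R : Type) [CommRing R] (d : ℕ) : PowerSeries R :=
  PowerSeries.mk fun a => if d ∣ a then 1 else 0

theorem PsiGeo_mul {R : Type} [CommRing R] (d : ℕ) (hd : 1 ≤ d) :
    (1 - PowerSeries.X ^ d) * PsiGeo R d = 1 := by
  ext a
  rw [sub_mul, one_mul, map_sub, PowerSeries.coeff_X_pow_mul', PowerSeries.coeff_one]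
  unfold PsiGeo
  rw [PowerSeries.coeff_mk, PowerSeries.coeff_mk]
  rcases Nat.eq_zero_or_pos a with h0 | h0
  · subst h0
    have h1 : ¬ d ≤ 0 := by omega
    simp [h1]
  · have h2 : a ≠ 0 := by omega
    rw [if_neg h2]
    by_cases h3 : d ≤ a
    · rw [if_pos h3]
      have h4 : d ∣ a - d ↔ d ∣ a := by
        constructor
        · intro h
          have := (Nat.dvd_add_left (dvd_refl d)).mpr h
          rwa [Nat.sub_add_cancel h3] at this
        · intro h
          exact Nat.dvd_sub h (dvd_refl d)
      by_cases h5 : d ∣ a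
      · rw [if_pos h5, if_pos (h4.mpr h5), sub_self]
      · rw [if_neg h5, if_neg (fun h => h5 (h4.mp h)), sub_self]
    · rw [if_neg h3, sub_zero, if_neg]
      intro h
      exact h3 (Nat.le_of_dvd h0 h)

/-- The power series `ψ_n`. -/
noncomputable def PsiS {R : Type} [CommRing R] (e : ℕ → R) : ℕ → PowerSeries R
  | 0 => 1
  | n + 1 => -(PsiGeo R (2 * (n + 1)) *
      ∑ j : Fin (n + 1), PowerSeries.C (e ((j : ℕ) + 1)) * PsiS e (n - (j : ℕ)))
  termination_by n => n
  decreasing_by omega

theorem PsiS_zero {R : Type} [CommRing R] (e : ℕ → R) : PsiS e 0 = 1 := by rw [PsiS]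

theorem PsiS_succ {R : Type} [CommRing R] (e : ℕ → R) (n : ℕ) :
    PsiS e (n + 1) = -(PsiGeo R (2 * (n + 1)) *
      ∑ j ∈ range (n + 1), PowerSeries.C (e (j + 1)) * PsiS e (n - j)) := by
  rw [PsiS, Finset.sum_range]

/-- Proof. Define `ψ 0 = 1` and, by strong recursion (as for `hh` in `Base.lean`),
`ψ (n+1) = - geo (2(n+1)) * ∑_{j ≤ n} C (e (j+1)) * ψ (n - j)` where
`geo d = PowerSeries.mk fun a => if d ∣ a then 1 else 0`, so `(1 - X ^ d) * geo d = 1` for `d ≥ 1`.
This gives the recursion `X ^ (2n) ψ n = ∑_{j ≤ n} e_j ψ (n-j)` (trivial for `n = 0`). The coefficients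
of `geo d` are `0` or `1`, so by strong induction `coeff a (ψ n) ∈ F (n + a)`:
the coefficient is a sum of terms `coeff a' (geo) * e (j+1) * coeff a'' (ψ (n-j))`, `a' + a'' = a`, which
are in `F ((j+1) + (n-j) + a'') ≤ F (n + 1 + a)`. The constant coefficients `c n` satisfy `c 0 = 1`,
`c (n+1) = - ∑_{j ≤ n} e (j+1) c (n-j)`, so `c n = (-1) ^ n hh e n` by strong induction (`hh_succ`). -/
theorem exists_psi {R : Type} [CommRing R] (F : ℕ → AddSubgroup R) (hF : IsFilt F) (e : ℕ → R)
    (he0 : e 0 = 1) (he : ∀ j, e j ∈ F j) :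
    ∃ ψ : ℕ → PowerSeries R, ψ 0 = 1 ∧
      (∀ n, PowerSeries.X ^ (2 * n) * ψ n =
        ∑ j ∈ range (n + 1), PowerSeries.C (e j) * ψ (n - j)) ∧
      (∀ n a, PowerSeries.coeff a (ψ n) ∈ F (n + a)) ∧
      ∀ n, PowerSeries.constantCoeff (ψ n) = (-1) ^ n * hh e n := by
  refine ⟨PsiS e, PsiS_zero e, ?_, ?_, ?_⟩
  · intro n
    rcases n with _ | n
    · simp [PsiS_zero, he0]
    · rw [Finset.sum_range_succ', he0, map_one, one_mul, Nat.sub_zero]
      have h1 : ∑ k ∈ range (n + 1), PowerSeries.C (e (k + 1)) * PsiS e (n + 1 - (k + 1)) =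
          ∑ j ∈ range (n + 1), PowerSeries.C (e (j + 1)) * PsiS e (n - j) := by
        refine Finset.sum_congr rfl fun j _ => ?_
        rw [Nat.add_sub_add_right]
      rw [h1, PsiS_succ]
      have h2 := PsiGeo_mul (R := R) (2 * (n + 1)) (by omega)
      linear_combination
        (∑ j ∈ range (n + 1), PowerSeries.C (e (j + 1)) * PsiS e (n - j)) * h2
  · intro n
    induction n using Nat.strong_induction_on with
    | _ n ih =>
      intro a
      rcases n with _ | n
      · rw [PsiS_zero, PowerSeries.coeff_one]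
        split_ifs with h
        · exact hF.mono (Nat.zero_le _) hF.one
        · exact (F (0 + a)).zero_mem
      · rw [PsiS_succ, map_neg, PowerSeries.coeff_mul]
        refine (F (n + 1 + a)).neg_mem (AddSubgroup.sum_mem _ fun q hq => ?_)
        have hq2 : q.2 ≤ a := by
          have := Finset.HasAntidiagonal.mem_antidiagonal.mp hq
          omega
        have h3 : PowerSeries.coeff q.2
            (∑ j ∈ range (n + 1), PowerSeries.C (e (j + 1)) * PsiS e (n - j)) ∈
            F (n + 1 + a) := by
          rw [map_sum]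
          refine AddSubgroup.sum_mem _ fun j hj => ?_
          have hj' : j ≤ n := by
            have := Finset.mem_range.mp hj
            omega
          rw [PowerSeries.coeff_C_mul]
          have h4 := hF.mul (j + 1) (n - j + q.2) _ _ (he (j + 1))
            (ih (n - j) (by omega) q.2)
          exact hF.mono (by omega) h4
        unfold PsiGeo
        rw [PowerSeries.coeff_mk]
        split_ifs with h
        · rw [one_mul]
          exact h3
        · rw [zero_mul]
          exact (F (n + 1 + a)).zero_mem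
  · intro n
    induction n using Nat.strong_induction_on with
    | _ n ih =>
      rcases n with _ | n
      · rw [PsiS_zero, hh_zero]
        simp
      · rw [PsiS_succ, hh_succ, map_neg, map_mul, map_sum]
        have h5 : PowerSeries.constantCoeff (PsiGeo R (2 * (n + 1))) = 1 := by
          rw [← PowerSeries.coeff_zero_eq_constantCoeff_apply]
          unfold PsiGeo
          rw [PowerSeries.coeff_mk]
          simp
        rw [h5, one_mul, Finset.mul_sum, ← Finset.sum_neg_distrib]
        refine Finset.sum_congr rfl fun j hj => ?_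
        have hj' : j ≤ n := by
          have := Finset.mem_range.mp hj
          omega
        rw [map_mul, PowerSeries.constantCoeff_C, ih (n - j) (by omega)]
        obtain ⟨m, rfl⟩ : ∃ m, n = j + m := ⟨n - j, by omega⟩
        rw [Nat.add_sub_cancel_left]
        have h6 : ((-1 : R) ^ j) * (-1) ^ j = 1 := by
          rw [← mul_pow]
          simp
        rw [show j + m + 1 = j + (m + 1) from rfl, pow_add, pow_succ]
        linear_combination (e (j + 1) * (-1) ^ m * hh e m) * h6

end Pool.Agent.EEA520
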