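import Mathlib

/-!
# Dirichlet series with small partial sums (MP_eea520_nt, theorem G, sharpness)
-/

set_option autoImplicit false

namespace Pool.Agent.EEA520

open Filter Topology Asymptotics MeasureTheory Set

/-- The summatory function on `(1, ∞)`. -/
noncomputable def sfA (f : ℕ → ℂ) (t : ℝ) : ℂ :=
  Set.indicator (Ioi 1) (fun t : ℝ => ∑ k ∈ Finset.Icc 1 ⌊t⌋₊, f k) t

theorem sfA_bound {f : ℕ → ℂ} {C : ℝ}
    (hC : ∀ n : ℕ, ‖∑ k ∈ Finset.Icc 1 n, f k‖ ≤ C * Real.sqrt n) (t : ℝ) (ht : 0 ≤ t) :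
    ‖sfA f t‖ ≤ C * Real.sqrt t := by
  have hC0 : 0 ≤ C := by
    have := (norm_nonneg _).trans (hC 1)
    simpa using this
  unfold sfA
  by_cases h : t ∈ Ioi (1 : ℝ)
  · rw [indicator_of_mem h]
    refine (hC _).trans (mul_le_mul_of_nonneg_left ?_ hC0)
    exact Real.sqrt_le_sqrt (Nat.floor_le ht)
  · rw [indicator_of_notMem h, norm_zero]
    positivity

theorem sfA_measurable (f : ℕ → ℂ) : Measurable (sfA f) := by
  unfold sfA
  refine Measurable.indicator ?_ measurableSet_Ioi
  exact (measurable_from_nat (f := fun n : ℕ => ∑ k ∈ Finset.Icc 1 n, f k)).comp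
    Nat.measurable_floor

theorem sfA_locint {f : ℕ → ℂ} {C : ℝ}
    (hC : ∀ n : ℕ, ‖∑ k ∈ Finset.Icc 1 n, f k‖ ≤ C * Real.sqrt n) :
    LocallyIntegrableOn (sfA f) (Ioi 0) := by
  have hC0 : 0 ≤ C := by
    have := (norm_nonneg _).trans (hC 1)
    simpa using this
  have h1 : LocallyIntegrable (fun t : ℝ => C * Real.sqrt |t|) :=
    Continuous.locallyIntegrable (by fun_prop)
  refine (h1.mono (sfA_measurable f).aestronglyMeasurable
    (Eventually.of_forall fun t => ?_)).locallyIntegrableOn _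
  rw [Real.norm_of_nonneg (by positivity)]
  by_cases ht : 0 ≤ t
  · rw [abs_of_nonneg ht]
    exact sfA_bound hC t ht
  · have h2 : t ∉ Ioi (1 : ℝ) := fun h => ht (one_pos.trans h).le
    unfold sfA
    rw [indicator_of_notMem h2, norm_zero]
    positivity

/-- A Dirichlet series with partial sums `O(√n)` extends holomorphically to `Re s > 1/2`. -/
theorem dir_ext {f : ℕ → ℂ} {B C : ℝ} (hB : ∀ n, ‖f n‖ ≤ B)
    (hC : ∀ n : ℕ, ‖∑ k ∈ Finset.Icc 1 n, f k‖ ≤ C * Real.sqrt n) :
    ∃ H : ℂ → ℂ, DifferentiableOn ℂ H {s | 1 / 2 < s.re} ∧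
      ∀ s : ℂ, 1 < s.re → LSeries f s = H s := by
  refine ⟨fun s => s * mellin (sfA f) (-s), ?_, ?_⟩
  · intro s hs
    have hs' : 1 / 2 < s.re := hs
    have h1 : DifferentiableAt ℂ (mellin (sfA f)) (-s) := by
      refine mellin_differentiableAt_of_isBigO_rpow (a := -(1 / 2)) (b := -s.re - 1)
        (sfA_locint hC) ?_ ?_ ?_ ?_
      · refine IsBigO.of_bound C ?_
        filter_upwards [eventually_ge_atTop 0] with t ht
        rw [neg_neg, ← Real.sqrt_eq_rpow, Real.norm_of_nonneg (Real.sqrt_nonneg t)]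
        exact sfA_bound hC t ht
      · rw [Complex.neg_re]
        linarith
      · refine IsBigO.of_bound 0 ?_
        filter_upwards [Ioo_mem_nhdsGT one_pos] with t ht
        have h2 : t ∉ Ioi (1 : ℝ) := fun h => lt_asymm ht.2 h
        unfold sfA
        rw [indicator_of_notMem h2, norm_zero, zero_mul]
      · rw [Complex.neg_re]
        linarith
    have h2 : DifferentiableAt ℂ (fun s => mellin (sfA f) (-s)) s :=
      h1.comp s differentiableAt_id.neg
    exact (differentiableAt_id.mul h2).differentiableWithinAt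
  · intro s hs
    have h1 : LSeriesSummable f s := LSeriesSummable_of_bounded_of_one_lt_re (fun n _ => hB n) hs
    have h2 : (fun n : ℕ => ∑ k ∈ Finset.Icc 1 n, f k) =O[atTop] fun n : ℕ => (n : ℝ) ^ (1 / 2 : ℝ) := by
      refine IsBigO.of_bound C (Eventually.of_forall fun n => ?_)
      rw [← Real.sqrt_eq_rpow, Real.norm_of_nonneg (Real.sqrt_nonneg _)]
      exact hC n
    rw [LSeries_eq_mul_integral f (by norm_num) (by linarith) h1 h2]
    congr 1
    unfold mellin sfA
    rw [← integral_indicator measurableSet_Ioi, ← integral_indicator measurableSet_Ioi]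
    refine integral_congr_ae (Eventually.of_forall fun t => ?_)
    by_cases h3 : t ∈ Ioi (1 : ℝ)
    · have h4 : t ∈ Ioi (0 : ℝ) := by
        have h5 : 1 < t := h3
        show 0 < t
        linarith
      simp only [indicator_of_mem h3, indicator_of_mem h4, smul_eq_mul]
      rw [mul_comm]
      congr 2
      ring
    · rw [indicator_of_notMem h3]
      by_cases h4 : t ∈ Ioi (0 : ℝ)
      · rw [indicator_of_mem h4, indicator_of_notMem h3, smul_zero]
      · rw [indicator_of_notMem h4]

end Pool.Agent.EEA520
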