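import Pool.Agent.W_eea520_h70.ShExcA
import Pool.Agent.W_eea520_h70.ShExcB
import Pool.Agent.W_eea520_h70.ShExcC

/-!
# The exceptional sequences are positive definite (MP_eea520_nt, theorem G)
-/

set_option autoImplicit false

namespace Pool.Agent.EEA520

open Filter Topology Pool.Agent.EEAG1 MeasureTheory

theorem excL_shape : (excL.all fun l => decide (l ≠ []) && decide (l.getD 0 0 = 2)) = true := by
  decide +kernel

theorem excCert_ok {i : ℕ} (hi : i < 32) :
    gramCheck (excL.getD i []) (excCert.getD i (0, [])) = true := by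
  rcases lt_or_ge i 25 with h | h
  · have h1 := List.all_eq_true.1 excCert_okA i (List.mem_range.2 h)
    rwa [zero_add] at h1
  · rcases lt_or_ge i 29 with h' | h'
    · have h1 := List.all_eq_true.1 excCert_okB (i - 25) (List.mem_range.2 (by omega))
      rwa [Nat.add_sub_cancel' h] at h1
    · have h1 := List.all_eq_true.1 excCert_okC (i - 29) (List.mem_range.2 (by omega))
      rwa [Nat.add_sub_cancel' h'] at h1

theorem posDef_exc {l : List ℤ} (hl : l ∈ excL) : PosDef fun k => (per l k : ℝ) := by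
  obtain ⟨i, hi, rfl⟩ := List.getElem_of_mem hl
  have h1 := excCert_ok (i := i) hi
  have h2 := List.all_eq_true.1 excL_shape _ hl
  rw [List.getD_eq_getElem _ _ hi] at h1
  simp only [Bool.and_eq_true, decide_eq_true_eq] at h2
  exact posDef_of_check h2.1 h1

theorem comb_zero (N : ℕ) (η : ℤ) : comb N η 0 = 1 := by simp [comb]

theorem comb_ne {N : ℕ} (η : ℤ) {k : ℤ} (h : ¬ (N : ℤ) ∣ k) : comb N η k = 0 := by simp [comb, h]

theorem not_dvd_one {N : ℕ} (hN : 2 ≤ N) : ¬ (N : ℤ) ∣ 1 := by
  intro h
  have := Int.le_of_dvd one_pos h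
  omega

/-- The values at `0` of the finite types. -/
theorem finType_zero {c : ℤ → ℤ} (h : FinType c) : c 0 = 2 := by
  rcases h with ⟨N, η, hN, -, rfl⟩ | ⟨N, η, hN, -, rfl⟩ | ⟨l, hl, rfl⟩
  · have h1 := not_dvd_one (N := N) (by omega)
    unfold famA
    rw [comb_zero, zero_sub, zero_add, comb_ne η h1, comb_ne η (fun h => h1 (by simpa using h))]
    norm_num
  · unfold famD
    rw [comb_zero]
    norm_num
  · have h2 := List.all_eq_true.1 excL_shape _ hl
    simp only [Bool.and_eq_true, decide_eq_true_eq] at h2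
    unfold per
    simpa using h2.2

/-- The finite types are positive definite. -/
theorem finType_posDef {c : ℤ → ℤ} (h : FinType c) : PosDef fun k => (c k : ℝ) := by
  rcases h with ⟨N, η, hN, hη, rfl⟩ | ⟨N, η, hN, hη, rfl⟩ | ⟨l, hl, rfl⟩
  · exact posDef_famA (by omega) hη
  · exact posDef_famD (by omega) hη
  · exact posDef_exc hl

/-- The finite types are periodic. -/
theorem finType_per {c : ℤ → ℤ} (h : FinType c) : ∃ r : ℕ, 0 < r ∧ ∀ k, c (k + r) = c k := by
  rcases h with ⟨N, η, hN, hη, rfl⟩ | ⟨N, η, hN, hη, rfl⟩ | ⟨l, hl, rfl⟩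
  · refine ⟨2 * N, by omega, fun k => ?_⟩
    unfold famA
    have e1 : k + ((2 * N : ℕ) : ℤ) = k + 2 * N := by push_cast; ring
    have e2 : k + 2 * (N : ℤ) - 1 = k - 1 + 2 * N := by ring
    have e3 : k + 2 * (N : ℤ) + 1 = k + 1 + 2 * N := by ring
    rw [e1, e2, e3, comb_add (by omega) hη, comb_add (by omega) hη, comb_add (by omega) hη]
  · refine ⟨2 * N, by omega, fun k => ?_⟩
    unfold famD
    have e1 : k + ((2 * N : ℕ) : ℤ) = k + 2 * N := by push_cast; ring
    rw [e1, comb_add (by omega) hη, pow_natAbs_add_even]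
  · have h2 := List.all_eq_true.1 excL_shape _ hl
    simp only [Bool.and_eq_true, decide_eq_true_eq] at h2
    refine ⟨l.length, List.length_pos_iff.2 h2.1, fun k => ?_⟩
    unfold per
    rw [Int.add_emod_right]

/-- The probability measures of the list. -/
theorem exists_prob {c : ℤ → ℤ} (h : c = stSeq ∨ c = cmSeq ∨ FinType c) :
    ∃ ν : Measure ℝ, IsProbabilityMeasure ν ∧ ∀ k : ℤ, ∫ x, 2 * Real.cos (k * x) ∂ν = c k := by
  rcases h with rfl | rfl | h
  · exact exists_prob_st
  · exact exists_prob_cm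
  · obtain ⟨r, hr, hper⟩ := finType_per h
    exact exists_prob_per (finType_posDef h) hr hper (finType_zero h)

end Pool.Agent.EEA520
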