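import Pool.Agent.W_eea520_h70.ShPD

/-!
# The exceptional sequences are positive definite (MP_eea520_nt, theorem G)
-/

set_option autoImplicit false

namespace Pool.Agent.EEA520

open Filter Topology Pool.Agent.EEAG1 MeasureTheory

/-- The value of a Gram sequence. -/
def gramV (C : List (ℕ × List ℤ)) (i j : ℕ) : ℤ :=
  (C.map fun t => (t.1 : ℤ) * (t.2.getD i 0 * t.2.getD j 0)).sum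

/-- The check of a certificate. -/
def gramCheck (l : List ℤ) (C : ℕ × List (ℕ × List ℤ)) : Bool :=
  decide (0 < C.1) && (List.range l.length).all fun i => (List.range l.length).all fun j =>
    decide ((C.1 : ℤ) * per l ((i : ℤ) - j) = gramV C.2 i j)

theorem posDef_of_check {l : List ℤ} {C : ℕ × List (ℕ × List ℤ)} (hl : l ≠ [])
    (h : gramCheck l C = true) : PosDef fun k => (per l k : ℝ) := by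
  unfold gramCheck at h
  rw [Bool.and_eq_true, decide_eq_true_eq, List.all_eq_true] at h
  obtain ⟨hM, h⟩ := h
  have hlen : 0 < l.length := List.length_pos_iff.2 hl
  have hN0 : (l.length : ℤ) ≠ 0 := by exact_mod_cast hlen.ne'
  have hNp : (0 : ℤ) < l.length := by exact_mod_cast hlen
  have hM' : (0 : ℝ) < C.1 := by exact_mod_cast hM
  refine posDef_of_list (C.2.map fun t => (((t.1 : ℝ) / C.1),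
    fun k : ℤ => ((t.2.getD (k % l.length).toNat 0 : ℤ) : ℝ))) ?_ fun i j => ?_
  · intro t ht
    rw [List.mem_map] at ht
    obtain ⟨s, -, rfl⟩ := ht
    positivity
  · have h1 : ∀ k : ℤ, (k % l.length).toNat < l.length ∧
        (((k % l.length).toNat : ℤ)) = k % l.length := by
      intro k
      have h1 := Int.emod_lt_of_pos k hNp
      have h2 := Int.emod_nonneg k hN0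
      omega
    have h2 := h _ (List.mem_range.2 (h1 i).1)
    rw [List.all_eq_true] at h2
    have h3 := h2 _ (List.mem_range.2 (h1 j).1)
    rw [decide_eq_true_eq, (h1 i).2, (h1 j).2] at h3
    have h4 : per l (i % l.length - j % l.length) = per l (i - j) := by
      unfold per
      rw [← Int.sub_emod]
    rw [h4] at h3
    rw [List.map_map]
    have h5 : (per l (i - j) : ℝ) = (gramV C.2 (i % l.length).toNat (j % l.length).toNat : ℝ) / C.1 := by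
      rw [← h3]
      push_cast
      field_simp
    rw [h5]
    unfold gramV
    clear h h2 h3 h4 h5
    generalize C.2 = L
    induction L with
    | nil => simp
    | cons t L ih =>
      simp only [List.map_cons, List.sum_cons] at ih ⊢
      push_cast at ih ⊢
      rw [add_div, ih]
      congr 1
      simp only [Function.comp]
      push_cast
      ring

/-- The certificates. -/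
def excCert : List (ℕ × List (ℕ × List ℤ)) := [
   (6, [(3, [2,-1,0,1,0,-1]),
     (1, [0,3,-2,1,2,-1]),
     (2, [0,0,2,-1,1,1]),
     (6, [0,0,0,1,-1,1])]),
   (12, [(6, [2,-1,1,0,0,1,-1]),
     (2, [0,3,-1,2,0,1,1]),
     (1, [0,0,4,-2,3,-1,2]),
     (3, [0,0,0,2,-1,1,0]),
     (3, [0,0,0,0,2,-1,1]),
     (1, [0,0,0,0,0,3,-1]),
     (8, [0,0,0,0,0,0,1])]),
   (12, [(6, [2,-1,0,1,-1,1,0,-1]),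
     (2, [0,3,-2,1,1,-1,2,-1]),
     (1, [0,0,4,-2,1,2,-1,2]),
     (3, [0,0,0,2,-1,0,1,0]),
     (3, [0,0,0,0,2,-1,0,1]),
     (1, [0,0,0,0,0,3,-2,1]),
     (2, [0,0,0,0,0,0,2,-1]),
     (6, [0,0,0,0,0,0,0,1])]),
   (12, [(6, [2,-1,1,0,0,0,1,-1]),
     (2, [0,3,-1,2,0,0,1,1]),
     (1, [0,0,4,-2,3,0,-1,2]),
     (3, [0,0,0,2,-1,2,-1,0]),
     (3, [0,0,0,0,2,-1,2,-1]),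
     (9, [0,0,0,0,0,1,0,1])]),
   (60, [(30, [2,-1,1,-1,0,0,-1,1,-1]),
     (10, [0,3,-1,1,-2,0,-1,-1,1]),
     (5, [0,0,4,-1,2,-3,1,-2,-1]),
     (3, [0,0,0,5,-2,3,-5,2,-3]),
     (3, [0,0,0,0,4,-1,0,-4,1]),
     (45, [0,0,0,0,0,1,0,0,-1])]),
   (12, [(6, [2,-1,1,0,0,1,0,0,1,-1]),
     (2, [0,3,-1,2,0,1,2,0,1,1]),
     (1, [0,0,4,-2,3,-1,1,3,-1,2]),
     (3, [0,0,0,2,-1,1,-1,1,1,0]),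
     (3, [0,0,0,0,2,-1,1,-1,1,1]),
     (9, [0,0,0,0,0,1,-1,1,-1,1])]),
   (60, [(30, [2,-1,0,0,1,-1,1,-1,1,0,0,-1]),
     (10, [0,3,-2,0,1,1,-1,1,-1,2,0,-1]),
     (5, [0,0,4,-3,1,1,2,-2,2,-1,3,-1]),
     (3, [0,0,0,5,-3,1,2,2,-2,3,-1,3]),
     (3, [0,0,0,0,4,-3,-1,4,1,-4,3,1]),
     (45, [0,0,0,0,0,1,-1,0,1,0,-1,1])]),
   (12, [(6, [2,-1,0,1,-1,0,0,0,-1,1,0,-1]),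
     (2, [0,3,-2,1,1,-2,0,0,-1,-1,2,-1]),
     (1, [0,0,4,-2,1,1,-3,0,-1,-1,-1,2]),
     (3, [0,0,0,2,-1,1,1,-2,1,-1,-1,0]),
     (3, [0,0,0,0,2,-1,1,1,-2,1,-1,-1]),
     (9, [0,0,0,0,0,1,-1,1,0,-1,1,-1])]),
   (60, [(30, [2,-1,1,-1,0,0,0,0,0,-1,1,-1]),
     (10, [0,3,-1,1,-2,0,0,0,0,-1,-1,1]),
     (5, [0,0,4,-1,2,-3,0,0,0,1,-2,-1]),
     (3, [0,0,0,5,-2,3,-4,0,0,-1,2,-3]),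
     (3, [0,0,0,0,4,-1,3,-5,0,-3,1,1]),
     (5, [0,0,0,0,0,3,-1,3,-4,1,-3,1]),
     (40, [0,0,0,0,0,0,1,0,1,-1,0,-1])]),
   (6, [(3, [2,-1,1,0,-1,1,-2,1,-1,0,1,-1]),
     (1, [0,3,-1,2,-1,-1,0,-3,1,-2,1,1]),
     (2, [0,0,2,-1,2,-1,0,0,-2,1,-2,1]),
     (6, [0,0,0,1,0,1,0,0,0,-1,0,-1])]),
   (12, [(6, [2,-1,1,0,0,0,0,0,0,0,1,-1]),
     (2, [0,3,-1,2,0,0,0,0,0,0,1,1]),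
     (1, [0,0,4,-2,3,0,0,0,0,0,-1,2]),
     (3, [0,0,0,2,-1,2,0,0,0,0,-1,0]),
     (3, [0,0,0,0,2,-1,2,0,0,0,0,-1]),
     (1, [0,0,0,0,0,3,-2,4,0,0,2,-1]),
     (2, [0,0,0,0,0,0,2,-1,3,0,1,1]),
     (6, [0,0,0,0,0,0,0,1,-1,2,-1,1])]),
   (12, [(6, [2,-1,1,0,0,1,-1,1,0,0,1,-1]),
     (2, [0,3,-1,2,0,1,1,-1,2,0,1,1]),
     (1, [0,0,4,-2,3,-1,2,1,-2,3,-1,2]),
     (3, [0,0,0,2,-1,1,0,1,0,-1,1,0]),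
     (3, [0,0,0,0,2,-1,1,0,1,0,-1,1]),
     (1, [0,0,0,0,0,3,-1,2,-1,2,-1,-1]),
     (2, [0,0,0,0,0,0,2,-1,2,-1,2,-1]),
     (6, [0,0,0,0,0,0,0,1,0,1,0,1])]),
   (60, [(30, [2,-1,0,0,1,-1,0,1,0,-1,1,0,0,-1]),
     (10, [0,3,-2,0,1,1,-2,1,2,-1,-1,2,0,-1]),
     (5, [0,0,4,-3,1,1,1,-2,2,2,-1,-1,3,-1]),
     (3, [0,0,0,5,-3,1,1,2,-2,2,3,-1,-1,3]),
     (3, [0,0,0,0,4,-3,2,-1,1,-1,1,3,-2,1]),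
     (5, [0,0,0,0,0,3,-2,1,-1,1,-1,1,2,-1]),
     (10, [0,0,0,0,0,0,2,-1,1,-1,1,-1,1,1]),
     (30, [0,0,0,0,0,0,0,1,-1,1,-1,1,-1,1])]),
   (12, [(6, [2,-1,0,1,-1,0,1,-2,1,0,-1,1,0,-1]),
     (2, [0,3,-2,1,1,-2,1,0,-3,2,-1,-1,2,-1]),
     (1, [0,0,4,-2,1,1,-2,0,0,-4,2,-1,-1,2]),
     (3, [0,0,0,2,-1,1,0,0,0,0,-2,1,-1,0]),
     (3, [0,0,0,0,2,-1,1,0,0,0,0,-2,1,-1]),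
     (1, [0,0,0,0,0,3,-1,0,0,0,0,0,-3,1]),
     (8, [0,0,0,0,0,0,1,0,0,0,0,0,0,-1])]),
   (60, [(30, [2,-1,1,-1,0,0,0,1,0,0,0,-1,1,-1]),
     (10, [0,3,-1,1,-2,0,0,1,2,0,0,-1,-1,1]),
     (5, [0,0,4,-1,2,-3,0,-1,1,3,0,1,-2,-1]),
     (3, [0,0,0,5,-2,3,-4,1,-1,1,4,-1,2,-3]),
     (3, [0,0,0,0,4,-1,3,-2,2,-2,2,2,1,1]),
     (5, [0,0,0,0,0,3,-1,2,-2,2,-2,2,1,1]),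
     (10, [0,0,0,0,0,0,2,-1,1,-1,1,-1,1,1]),
     (30, [0,0,0,0,0,0,0,1,-1,1,-1,1,-1,1])]),
   (12, [(6, [2,-1,0,1,-1,1,0,0,0,0,1,-1,1,0,-1]),
     (2, [0,3,-2,1,1,-1,2,0,0,0,1,1,-1,2,-1]),
     (1, [0,0,4,-2,1,2,-1,3,0,0,1,1,2,-1,2]),
     (3, [0,0,0,2,-1,0,1,-1,2,0,-1,1,0,1,0]),
     (3, [0,0,0,0,2,-1,0,1,-1,2,0,-1,1,0,1]),
     (1, [0,0,0,0,0,3,-2,-1,3,-2,2,1,-3,2,1]),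
     (8, [0,0,0,0,0,0,1,-1,0,1,-1,1,0,-1,1])]),
   (420, [(210, [2,-1,1,-1,1,-1,0,0,0,0,-1,1,-1,1,-1]),
     (70, [0,3,-1,1,-1,1,-2,0,0,0,-1,-1,1,-1,1]),
     (35, [0,0,4,-1,1,-1,2,-3,0,0,1,-2,-1,1,-1]),
     (21, [0,0,0,5,-1,1,-2,3,-4,0,-1,2,-3,-1,1]),
     (14, [0,0,0,0,6,-1,2,-3,4,-5,1,-2,3,-4,-1]),
     (10, [0,0,0,0,0,7,-2,3,-4,5,-7,2,-3,4,-5]),
     (15, [0,0,0,0,0,0,4,1,1,-3,0,-4,-1,-1,3]),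
     (105, [0,0,0,0,0,0,0,1,1,1,0,0,-1,-1,-1])]),
   (60, [(30, [2,-1,0,0,1,-1,0,0,1,-2,1,0,0,-1,1,0,0,-1]),
     (10, [0,3,-2,0,1,1,-2,0,1,0,-3,2,0,-1,-1,2,0,-1]),
     (5, [0,0,4,-3,1,1,1,-3,1,0,0,-4,3,-1,-1,-1,3,-1]),
     (3, [0,0,0,5,-3,1,1,1,-3,0,0,0,-5,3,-1,-1,-1,3]),
     (3, [0,0,0,0,4,-3,2,2,-1,0,0,0,0,-4,3,-2,-2,1]),
     (5, [0,0,0,0,0,3,-2,2,1,0,0,0,0,0,-3,2,-2,-1]),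
     (40, [0,0,0,0,0,0,1,-1,1,0,0,0,0,0,0,-1,1,-1])]),
   (12, [(6, [2,-1,0,1,-1,1,-1,0,1,-2,1,0,-1,1,-1,1,0,-1]),
     (2, [0,3,-2,1,1,-1,1,-2,1,0,-3,2,-1,-1,1,-1,2,-1]),
     (1, [0,0,4,-2,1,2,-2,1,-2,0,0,-4,2,-1,-2,2,-1,2]),
     (3, [0,0,0,2,-1,0,2,-1,0,0,0,0,-2,1,0,-2,1,0]),
     (3, [0,0,0,0,2,-1,0,2,-1,0,0,0,0,-2,1,0,-2,1]),
     (9, [0,0,0,0,0,1,0,0,1,0,0,0,0,0,-1,0,0,-1])]),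
   (60, [(30, [2,-1,1,-1,1,0,0,0,0,1,0,0,0,0,1,-1,1,-1]),
     (10, [0,3,-1,1,-1,2,0,0,0,1,2,0,0,0,1,1,-1,1]),
     (5, [0,0,4,-1,1,-2,3,0,0,-1,1,3,0,0,-1,2,1,-1]),
     (3, [0,0,0,5,-1,2,-3,4,0,1,-1,1,4,0,1,-2,3,1]),
     (2, [0,0,0,0,6,-2,3,-4,5,-1,1,-1,1,5,-1,2,-3,4]),
     (10, [0,0,0,0,0,2,0,1,-2,1,-1,1,-1,1,1,1,0,-1]),
     (30, [0,0,0,0,0,0,1,0,1,-1,1,-1,1,-1,1,0,1,0]),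
     (30, [0,0,0,0,0,0,0,1,0,1,-1,1,-1,1,-1,1,0,1])]),
   (12, [(6, [2,-1,1,0,0,0,0,-1,1,-2,1,-1,0,0,0,0,1,-1]),
     (2, [0,3,-1,2,0,0,0,-1,-1,0,-3,1,-2,0,0,0,1,1]),
     (1, [0,0,4,-2,3,0,0,1,-2,0,0,-4,2,-3,0,0,-1,2]),
     (3, [0,0,0,2,-1,2,0,1,0,0,0,0,-2,1,-2,0,-1,0]),
     (3, [0,0,0,0,2,-1,2,0,1,0,0,0,0,-2,1,-2,0,-1]),
     (1, [0,0,0,0,0,3,-2,2,1,0,0,0,0,0,-3,2,-2,-1]),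
     (8, [0,0,0,0,0,0,1,-1,1,0,0,0,0,0,0,-1,1,-1])]),
   (60, [(30, [2,-1,0,0,0,1,-1,0,1,-1,1,-1,1,0,-1,1,0,0,0,-1]),
     (10, [0,3,-2,0,0,1,1,-2,1,1,-1,1,-1,2,-1,-1,2,0,0,-1]),
     (5, [0,0,4,-3,0,1,1,1,-2,1,2,-2,2,-1,2,-1,-1,3,0,-1]),
     (3, [0,0,0,5,-4,1,1,1,2,-3,2,2,-2,3,-2,3,-1,-1,4,-1]),
     (2, [0,0,0,0,6,-4,1,1,2,2,-3,2,3,-2,3,-2,4,-1,-1,4]),
     (10, [0,0,0,0,0,2,-2,1,-1,2,0,-1,0,1,0,1,-2,2,-1,1]),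
     (30, [0,0,0,0,0,0,1,-1,0,0,1,0,-1,0,1,0,0,-1,1,0]),
     (30, [0,0,0,0,0,0,0,1,-1,0,0,1,0,-1,0,1,0,0,-1,1])]),
   (12, [(6, [2,-1,0,1,-1,0,1,-1,0,1,-2,1,0,-1,1,0,-1,1,0,-1]),
     (2, [0,3,-2,1,1,-2,1,1,-2,1,0,-3,2,-1,-1,2,-1,-1,2,-1]),
     (1, [0,0,4,-2,1,1,-2,1,1,-2,0,0,-4,2,-1,-1,2,-1,-1,2]),
     (3, [0,0,0,2,-1,1,0,-1,1,0,0,0,0,-2,1,-1,0,1,-1,0]),
     (3, [0,0,0,0,2,-1,1,0,-1,1,0,0,0,0,-2,1,-1,0,1,-1]),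
     (1, [0,0,0,0,0,3,-1,2,-1,-1,0,0,0,0,0,-3,1,-2,1,1]),
     (2, [0,0,0,0,0,0,2,-1,2,-1,0,0,0,0,0,0,-2,1,-2,1]),
     (6, [0,0,0,0,0,0,0,1,0,1,0,0,0,0,0,0,0,-1,0,-1])]),
   (60, [(30, [2,-1,1,-1,0,0,0,1,-1,1,-2,1,-1,1,0,0,0,-1,1,-1]),
     (10, [0,3,-1,1,-2,0,0,1,1,-1,0,-3,1,-1,2,0,0,-1,-1,1]),
     (5, [0,0,4,-1,2,-3,0,-1,2,1,0,0,-4,1,-2,3,0,1,-2,-1]),
     (3, [0,0,0,5,-2,3,-4,1,-2,3,0,0,0,-5,2,-3,4,-1,2,-3]),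
     (3, [0,0,0,0,4,-1,3,-2,-1,-1,0,0,0,0,-4,1,-3,2,1,1]),
     (5, [0,0,0,0,0,3,-1,2,-1,-1,0,0,0,0,0,-3,1,-2,1,1]),
     (10, [0,0,0,0,0,0,2,-1,2,-1,0,0,0,0,0,0,-2,1,-2,1]),
     (30, [0,0,0,0,0,0,0,1,0,1,0,0,0,0,0,0,0,-1,0,-1])]),
   (12, [(6, [2,-1,1,0,0,0,0,0,-1,1,-2,1,-1,0,0,0,0,0,1,-1]),
     (2, [0,3,-1,2,0,0,0,0,-1,-1,0,-3,1,-2,0,0,0,0,1,1]),
     (1, [0,0,4,-2,3,0,0,0,1,-2,0,0,-4,2,-3,0,0,0,-1,2]),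
     (3, [0,0,0,2,-1,2,0,0,1,0,0,0,0,-2,1,-2,0,0,-1,0]),
     (3, [0,0,0,0,2,-1,2,0,0,1,0,0,0,0,-2,1,-2,0,0,-1]),
     (1, [0,0,0,0,0,3,-2,4,-2,1,0,0,0,0,0,-3,2,-4,2,-1]),
     (2, [0,0,0,0,0,0,2,-1,2,-1,0,0,0,0,0,0,-2,1,-2,1]),
     (6, [0,0,0,0,0,0,0,1,0,1,0,0,0,0,0,0,0,-1,0,-1])]),
   (60, [(30, [2,-1,0,0,1,-1,0,1,-1,0,0,1,-2,1,0,0,-1,1,0,-1,1,0,0,-1]),
     (10, [0,3,-2,0,1,1,-2,1,1,-2,0,1,0,-3,2,0,-1,-1,2,-1,-1,2,0,-1]),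
     (5, [0,0,4,-3,1,1,1,-2,1,1,-3,1,0,0,-4,3,-1,-1,-1,2,-1,-1,3,-1]),
     (3, [0,0,0,5,-3,1,1,2,-3,1,1,-3,0,0,0,-5,3,-1,-1,-2,3,-1,-1,3]),
     (3, [0,0,0,0,4,-3,2,-1,4,-3,2,-1,0,0,0,0,-4,3,-2,1,-4,3,-2,1]),
     (5, [0,0,0,0,0,3,-2,1,0,3,-2,1,0,0,0,0,0,-3,2,-1,0,-3,2,-1]),
     (10, [0,0,0,0,0,0,2,-1,0,0,2,-1,0,0,0,0,0,0,-2,1,0,0,-2,1]),
     (30, [0,0,0,0,0,0,0,1,0,0,0,1,0,0,0,0,0,0,0,-1,0,0,0,-1])]),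
   (12, [(6, [2,-1,0,1,-1,0,1,-1,1,0,0,0,0,0,0,0,1,-1,1,0,-1,1,0,-1]),
     (2, [0,3,-2,1,1,-2,1,1,-1,2,0,0,0,0,0,0,1,1,-1,2,-1,-1,2,-1]),
     (1, [0,0,4,-2,1,1,-2,1,2,-1,3,0,0,0,0,0,1,1,2,-1,2,-1,-1,2]),
     (3, [0,0,0,2,-1,1,0,-1,0,1,-1,2,0,0,0,0,-1,1,0,1,0,1,-1,0]),
     (3, [0,0,0,0,2,-1,1,0,-1,0,1,-1,2,0,0,0,0,-1,1,0,1,0,1,-1]),
     (1, [0,0,0,0,0,3,-1,2,1,-2,1,1,-2,4,0,0,2,-1,-1,2,-1,2,1,1]),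
     (2, [0,0,0,0,0,0,2,-1,1,1,-2,1,1,-2,3,0,-1,2,-1,-1,2,-1,1,1]),
     (6, [0,0,0,0,0,0,0,1,-1,1,0,-1,1,0,-1,2,-1,0,1,-1,0,1,-1,1])]),
   (60, [(30, [2,-1,1,-1,1,0,0,0,-1,1,-1,1,-2,1,-1,1,-1,0,0,0,1,-1,1,-1]),
     (10, [0,3,-1,1,-1,2,0,0,-1,-1,1,-1,0,-3,1,-1,1,-2,0,0,1,1,-1,1]),
     (5, [0,0,4,-1,1,-2,3,0,1,-2,-1,1,0,0,-4,1,-1,2,-3,0,-1,2,1,-1]),
     (3, [0,0,0,5,-1,2,-3,4,-1,2,-3,-1,0,0,0,-5,1,-2,3,-4,1,-2,3,1]),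
     (2, [0,0,0,0,6,-2,3,-4,6,-2,3,-4,0,0,0,0,-6,2,-3,4,-6,2,-3,4]),
     (10, [0,0,0,0,0,2,0,1,0,2,0,1,0,0,0,0,0,-2,0,-1,0,-2,0,-1]),
     (30, [0,0,0,0,0,0,1,0,0,0,1,0,0,0,0,0,0,0,-1,0,0,0,-1,0]),
     (30, [0,0,0,0,0,0,0,1,0,0,0,1,0,0,0,0,0,0,0,-1,0,0,0,-1])]),
   (420, [(210, [2,-1,0,0,0,0,1,-1,0,0,1,-1,1,-1,0,1,0,-1,1,-1,1,0,0,-1,1,0,0,0,0,-1]),
     (70, [0,3,-2,0,0,0,1,1,-2,0,1,1,-1,1,-2,1,2,-1,-1,1,-1,2,0,-1,-1,2,0,0,0,-1]),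
     (35, [0,0,4,-3,0,0,1,1,1,-3,1,1,2,-2,1,-2,2,2,-1,-2,2,-1,3,-1,-1,-1,3,0,0,-1]),
     (21, [0,0,0,5,-4,0,1,1,1,1,-3,1,2,2,-3,2,-2,2,3,-2,-2,3,-1,3,-1,-1,-1,4,0,-1]),
     (14, [0,0,0,0,6,-5,1,1,1,1,2,-4,2,2,2,-3,3,-3,3,3,-2,-2,4,-2,4,-1,-1,-1,5,-1]),
     (10, [0,0,0,0,0,7,-5,1,1,1,2,2,-4,2,2,3,-3,3,-3,3,4,-2,-2,4,-2,5,-1,-1,-1,5]),
     (15, [0,0,0,0,0,0,4,-5,2,2,-3,4,-1,-3,4,-1,1,-1,1,-1,1,3,-4,1,3,-4,5,-2,-2,3]),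
     (105, [0,0,0,0,0,0,0,1,-2,2,-1,0,1,-1,0,1,-1,1,-1,1,-1,1,0,-1,1,0,-1,2,-2,1])]),
   (60, [(30, [2,-1,0,0,0,1,-1,0,0,1,-1,0,0,0,1,-2,1,0,0,0,-1,1,0,0,-1,1,0,0,0,-1]),
     (10, [0,3,-2,0,0,1,1,-2,0,1,1,-2,0,0,1,0,-3,2,0,0,-1,-1,2,0,-1,-1,2,0,0,-1]),
     (5, [0,0,4,-3,0,1,1,1,-3,1,1,1,-3,0,1,0,0,-4,3,0,-1,-1,-1,3,-1,-1,-1,3,0,-1]),
     (3, [0,0,0,5,-4,1,1,1,1,-3,1,1,1,-4,1,0,0,0,-5,4,-1,-1,-1,-1,3,-1,-1,-1,4,-1]),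
     (2, [0,0,0,0,6,-4,1,1,1,2,-4,1,1,1,-4,0,0,0,0,-6,4,-1,-1,-1,-2,4,-1,-1,-1,4]),
     (10, [0,0,0,0,0,2,-2,1,1,-1,2,-2,1,1,-1,0,0,0,0,0,-2,2,-1,-1,1,-2,2,-1,-1,1]),
     (30, [0,0,0,0,0,0,1,-1,1,0,0,1,-1,1,0,0,0,0,0,0,0,-1,1,-1,0,0,-1,1,-1,0]),
     (30, [0,0,0,0,0,0,0,1,-1,1,0,0,1,-1,1,0,0,0,0,0,0,0,-1,1,-1,0,0,-1,1,-1])]),
   (12, [(6, [2,-1,0,1,-1,1,0,-1,1,0,-1,1,-1,0,1,-2,1,0,-1,1,-1,0,1,-1,0,1,-1,1,0,-1]),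
     (2, [0,3,-2,1,1,-1,2,-1,-1,2,-1,-1,1,-2,1,0,-3,2,-1,-1,1,-2,1,1,-2,1,1,-1,2,-1]),
     (1, [0,0,4,-2,1,2,-1,2,-1,-1,2,-1,-2,1,-2,0,0,-4,2,-1,-2,1,-2,1,1,-2,1,2,-1,2]),
     (3, [0,0,0,2,-1,0,1,0,1,-1,0,1,0,-1,0,0,0,0,-2,1,0,-1,0,-1,1,0,-1,0,1,0]),
     (3, [0,0,0,0,2,-1,0,1,0,1,-1,0,1,0,-1,0,0,0,0,-2,1,0,-1,0,-1,1,0,-1,0,1]),
     (1, [0,0,0,0,0,3,-2,1,2,-1,3,-2,1,2,-1,0,0,0,0,0,-3,2,-1,-2,1,-3,2,-1,-2,1]),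
     (2, [0,0,0,0,0,0,2,-1,1,1,0,2,-1,1,1,0,0,0,0,0,0,-2,1,-1,-1,0,-2,1,-1,-1]),
     (6, [0,0,0,0,0,0,0,1,-1,1,0,0,1,-1,1,0,0,0,0,0,0,0,-1,1,-1,0,0,-1,1,-1])]),
   (12, [(6, [2,-1,1,0,0,1,-1,1,-1,1,-1,0,0,-1,1,-2,1,-1,0,0,-1,1,-1,1,-1,1,0,0,1,-1]),
     (2, [0,3,-1,2,0,1,1,-1,1,-1,1,-2,0,-1,-1,0,-3,1,-2,0,-1,-1,1,-1,1,-1,2,0,1,1]),
     (1, [0,0,4,-2,3,-1,2,1,-1,1,-1,2,-3,1,-2,0,0,-4,2,-3,1,-2,-1,1,-1,1,-2,3,-1,2]),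
     (3, [0,0,0,2,-1,1,0,1,1,-1,1,0,1,-1,0,0,0,0,-2,1,-1,0,-1,-1,1,-1,0,-1,1,0]),
     (3, [0,0,0,0,2,-1,1,0,1,1,-1,1,0,1,-1,0,0,0,0,-2,1,-1,0,-1,-1,1,-1,0,-1,1]),
     (1, [0,0,0,0,0,3,-1,2,1,1,3,-1,2,1,1,0,0,0,0,0,-3,1,-2,-1,-1,-3,1,-2,-1,-1]),
     (2, [0,0,0,0,0,0,2,-1,1,1,0,2,-1,1,1,0,0,0,0,0,0,-2,1,-1,-1,0,-2,1,-1,-1]),
     (6, [0,0,0,0,0,0,0,1,-1,1,0,0,1,-1,1,0,0,0,0,0,0,0,-1,1,-1,0,0,-1,1,-1])])]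

end Pool.Agent.EEA520
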