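import Pool.Agent.W_eea520_h70.ShMain

/-!
# Every law occurs: the theorem (MP_eea520_nt, theorem G, sharpness)
-/

set_option autoImplicit false

namespace Pool.Agent.EEA520

open Filter Topology Pool.Agent.EEAG1 LSeries MeasureTheory

theorem chn_ang (θ : ℕ → ℝ) {m : Wt 1 →₀ ℤ} (hm : IsCharacter m) {k : ℕ} (hk : k.Prime) :
    chn (angSys θ) m k =
      ((m.sum fun w e => (e : ℝ) * Real.cos ((jw w : ℝ) * ang θ k) : ℝ) : ℂ) := by
  rw [chn, dif_pos hk]
  exact angSys_tcx θ hm ⟨k, hk⟩

/-- Every probability measure `μ` with integral moments `c k = ∫ 2 cos (k θ) dμ` is the law of the classes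
of a tempered system with trivial central character, all of whose Euler products are of the form
`ζ(s) ^ a * exp (H s)` with an integer `a` and a holomorphic function `H` on `Re s > 1/2`. -/
theorem realize (μ : Measure ℝ) [IsProbabilityMeasure μ] {c : ℤ → ℤ}
    (hc : ∀ k : ℤ, ∫ x, 2 * Real.cos (k * x) ∂μ = c k) :
    ∃ π : GSys 1, Tempered π ∧ (∀ p, (π p).nu = 1) ∧ ∀ m : Wt 1 →₀ ℤ, IsCharacter m →
      ∃ (a : ℤ) (H : ℂ → ℂ), 2 * a = (m.sum fun w e => e * c (w.1 - 2 * w.2 0)) ∧
        DifferentiableOn ℂ H {s | 1 / 2 < s.re} ∧ ∀ s : ℂ, 1 < s.re →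
          HasProd (fun p : Pr => (π p).factor m (((p : ℕ) : ℂ) ^ (-s)))
            (riemannZeta s ^ a * Complex.exp (H s)) := by
  classical
  have hceven : ∀ k : ℤ, c (-k) = c k := by
    intro k
    have h1 := hc (-k)
    have h2 : ∀ x : ℝ, Real.cos (((-k : ℤ) : ℝ) * x) = Real.cos (k * x) := by
      intro x
      push_cast
      rw [neg_mul, Real.cos_neg]
    simp only [h2] at h1
    rw [hc k] at h1
    exact_mod_cast h1.symm
  have hc0 : c 0 = 2 := by
    have h1 := hc 0
    simp only [Int.cast_zero, zero_mul, Real.cos_zero, mul_one, integral_const,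
      probReal_univ, one_smul] at h1
    exact_mod_cast h1.symm
  obtain ⟨θ, hθ⟩ := exists_angles μ hc
  have hπ := angSys_tempered θ
  refine ⟨angSys θ, hπ, angSys_nu θ, fun m hm => ?_⟩
  set π := angSys θ with hπdef
  obtain ⟨a, ha⟩ := exists_half hm hceven hc0
  choose C hC using hθ
  set fm : ℕ → ℂ := fun k => chn π m k - a * chn π (Finsupp.single 0 1) k with hfm
  have hre : ∀ k, fm k = ((∑ w ∈ m.support, (m w : ℝ) / 2 *
      (if k.Prime then 2 * Real.cos ((jw w : ℝ) * ang θ k) - c (jw w) else 0) : ℝ) : ℂ) := by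
    intro k
    rw [hfm]
    dsimp only
    rw [chn_one]
    by_cases hk : k.Prime
    · rw [hπdef, chn_ang θ hm hk, if_pos hk, mul_one]
      have h1 : ((a : ℤ) : ℝ) = ∑ w ∈ m.support, (m w : ℝ) / 2 * c (jw w) := by
        have h2 : (2 : ℝ) * a = ∑ w ∈ m.support, (m w : ℝ) * c (jw w) := by
          unfold Finsupp.sum at ha
          exact_mod_cast ha
        have h3 : ∑ w ∈ m.support, (m w : ℝ) / 2 * c (jw w) =
            (∑ w ∈ m.support, (m w : ℝ) * c (jw w)) / 2 := by
          rw [Finset.sum_div]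
          exact Finset.sum_congr rfl fun w _ => by ring
        rw [h3, ← h2]
        ring
      rw [← Complex.ofReal_intCast a, ← Complex.ofReal_sub, h1]
      congr 1
      unfold Finsupp.sum
      rw [← Finset.sum_sub_distrib]
      refine Finset.sum_congr rfl fun w _ => ?_
      rw [if_pos hk]
      show (m w : ℝ) * Real.cos ((jw w : ℝ) * ang θ k) - (m w : ℝ) / 2 * c (jw w) =
        (m w : ℝ) / 2 * (2 * Real.cos ((jw w : ℝ) * ang θ k) - c (jw w))
      ring
    · rw [chn, dif_neg hk, if_neg hk, mul_zero, sub_zero]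
      simp [hk]
  set D : ℝ := ∑ w ∈ m.support, |(m w : ℝ) / 2| * |C (jw w)| with hD
  have hpart : ∀ N : ℕ, ‖∑ k ∈ Finset.Icc 1 N, fm k‖ ≤ D * Real.sqrt N := by
    intro N
    simp only [hre]
    rw [← Complex.ofReal_sum, Complex.norm_real, Real.norm_eq_abs, Finset.sum_comm, hD,
      Finset.sum_mul]
    refine (Finset.abs_sum_le_sum_abs _ _).trans (Finset.sum_le_sum fun w _ => ?_)
    rw [← Finset.mul_sum, abs_mul, mul_assoc]
    refine mul_le_mul_of_nonneg_left ?_ (abs_nonneg _)
    exact partial_sums (G := fun x => 2 * Real.cos ((jw w : ℝ) * x) - c (jw w)) (abs_nonneg _)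
      (fun n => (hC (jw w) n).trans
        (mul_le_mul_of_nonneg_right (le_abs_self _) (Real.sqrt_nonneg _))) N
  have hB : ∀ k, ‖fm k‖ ≤ mnorm m + |(a : ℝ)| * mnorm (Finsupp.single (0 : Wt 1) (1 : ℤ)) := by
    intro k
    refine (norm_sub_le _ _).trans (add_le_add (chn_le hπ m k) ?_)
    rw [norm_mul, Complex.norm_intCast]
    exact mul_le_mul_of_nonneg_left (chn_le hπ _ k) (abs_nonneg _)
  obtain ⟨H, hH1, hH2⟩ := dir_ext hB hpart
  refine ⟨a, fun s => H s + hol π m s - a * hol π (Finsupp.single 0 1) s, ha, ?_, ?_⟩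
  · exact (hH1.add (hol_diff hπ m)).sub ((hol_diff hπ _).const_mul _)
  · intro s hs
    have h1 := factor_hasProd hπ m hs
    have h2 : LSeries (chn π m) s = LSeries fm s + a * LSeries (chn π (Finsupp.single 0 1)) s := by
      have h3 : LSeriesSummable fm s :=
        LSeriesSummable_of_bounded_of_one_lt_re (fun k _ => hB k) hs
      have h4 := (chn_summable hπ (Finsupp.single 0 1) hs).smul (a : ℂ)
      rw [← LSeries_smul, ← LSeries_add h3 h4]
      congr 1
      funext k
      simp only [hfm, Pi.add_apply, Pi.smul_apply, smul_eq_mul, sub_add_cancel]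
    have h5 : riemannZeta s ^ a * Complex.exp (H s + hol π m s -
        a * hol π (Finsupp.single 0 1) s) =
        Complex.exp (LSeries (chn π m) s + hol π m s) := by
      rw [zeta_eq hπ hs, ← Complex.exp_int_mul, ← Complex.exp_add, h2, hH2 s hs]
      congr 1
      ring
    rw [h5]
    exact h1

end Pool.Agent.EEA520
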