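import Mathlib

/-!
# A greedy sequence (MP_eea520_nt, theorem G, sharpness)
-/

set_option autoImplicit false

namespace Pool.Agent.EEA520

open Finset

/-- The state of the greedy algorithm. -/
noncomputable def gst (F : ℕ → ℝ → ℝ) (sel : (ℕ → ℝ) → ℕ → ℝ) : ℕ → ℕ → ℝ
  | 0 => fun _ => 0
  | n + 1 => fun k => gst F sel n k + F k (sel (fun k => (1 / 4) ^ k * gst F sel n k) (n + 1))

theorem gst_eq (F : ℕ → ℝ → ℝ) (sel : (ℕ → ℝ) → ℕ → ℝ) (n k : ℕ) :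
    gst F sel n k =
      ∑ i ∈ range n, F k (sel (fun k => (1 / 4) ^ k * gst F sel i k) (i + 1)) := by
  induction n with
  | zero => rfl
  | succ n ih =>
    rw [sum_range_succ, ← ih]
    rfl

theorem gst_le {F : ℕ → ℝ → ℝ} (hF : ∀ k x, |F k x| ≤ 4) (sel : (ℕ → ℝ) → ℕ → ℝ) (n k : ℕ) :
    |gst F sel n k| ≤ 4 * n := by
  rw [gst_eq]
  refine (abs_sum_le_sum_abs _ _).trans ((sum_le_card_nsmul _ _ 4 fun i _ => hF _ _).trans ?_)
  rw [card_range, nsmul_eq_mul, mul_comm]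

theorem geom_le (n : ℕ) : ∑ k ∈ range n, ((1 : ℝ) / 4) ^ k ≤ 2 := by
  have h := geom_sum_eq (show (1 / 4 : ℝ) ≠ 1 by norm_num) n
  rw [h, div_le_iff_of_neg (by norm_num)]
  have : (0 : ℝ) ≤ (1 / 4) ^ n := by positivity
  linarith

theorem sq_le_four_pow (n : ℕ) : ((1 : ℝ) / 4) ^ n * (n : ℝ) ^ 2 ≤ 1 := by
  have h1 : (n : ℝ) ≤ 2 ^ n := by exact_mod_cast Nat.lt_two_pow_self.le
  have h2 : (n : ℝ) ^ 2 ≤ (2 ^ n) ^ 2 := pow_le_pow_left₀ (Nat.cast_nonneg n) h1 2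
  have h3 : ((2 : ℝ) ^ n) ^ 2 = 4 ^ n := by
    rw [← pow_mul, mul_comm, pow_mul]
    norm_num
  rw [h3] at h2
  calc ((1 : ℝ) / 4) ^ n * (n : ℝ) ^ 2 ≤ (1 / 4) ^ n * 4 ^ n :=
        mul_le_mul_of_nonneg_left h2 (by positivity)
    _ = 1 := by rw [← mul_pow]; norm_num

theorem gst_pot {F : ℕ → ℝ → ℝ} (hF : ∀ k x, |F k x| ≤ 4) {sel : (ℕ → ℝ) → ℕ → ℝ}
    (hsel : ∀ b n, ∑ k ∈ range n, b k * F k (sel b n) ≤ 0) (n : ℕ) :
    (∑ k ∈ range n, ((1 : ℝ) / 4) ^ k * gst F sel n k ^ 2) ≤ (48 : ℝ) * (n : ℝ) := by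
  induction n with
  | zero => simp
  | succ n ih =>
    set x := sel (fun k => (1 / 4) ^ k * gst F sel n k) (n + 1) with hx
    have h1 := hsel (fun k => (1 / 4) ^ k * gst F sel n k) (n + 1)
    rw [← hx] at h1
    have h2 : ∀ k, gst F sel (n + 1) k = gst F sel n k + F k x := fun k => rfl
    have h3 : ∑ k ∈ range (n + 1), ((1 : ℝ) / 4) ^ k * gst F sel (n + 1) k ^ 2 =
        ∑ k ∈ range (n + 1), ((1 : ℝ) / 4) ^ k * gst F sel n k ^ 2 +
        2 * ∑ k ∈ range (n + 1), ((1 / 4) ^ k * gst F sel n k) * F k x +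
        ∑ k ∈ range (n + 1), ((1 : ℝ) / 4) ^ k * F k x ^ 2 := by
      rw [mul_sum, ← sum_add_distrib, ← sum_add_distrib]
      refine sum_congr rfl fun k _ => ?_
      rw [h2]
      ring
    have h4 : ∑ k ∈ range (n + 1), ((1 : ℝ) / 4) ^ k * F k x ^ 2 ≤ 32 := by
      have h5 : ∑ k ∈ range (n + 1), ((1 : ℝ) / 4) ^ k * F k x ^ 2 ≤
          ∑ k ∈ range (n + 1), ((1 : ℝ) / 4) ^ k * 16 := by
        refine sum_le_sum fun k _ => mul_le_mul_of_nonneg_left ?_ (by positivity)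
        have := sq_le_sq.2 ((hF k x).trans (le_abs_self 4))
        linarith
      rw [← sum_mul] at h5
      have h6 := geom_le (n + 1)
      linarith
    have h5 : ((1 : ℝ) / 4) ^ n * gst F sel n n ^ 2 ≤ 16 := by
      have h6 := gst_le hF sel n n
      have h7 : gst F sel n n ^ 2 ≤ (4 * (n : ℝ)) ^ 2 :=
        sq_le_sq.2 (h6.trans (le_abs_self _))
      have h8 := sq_le_four_pow n
      have h9 := mul_le_mul_of_nonneg_left h7 (by positivity : (0 : ℝ) ≤ (1 / 4) ^ n)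
      have h10 : ((1 : ℝ) / 4) ^ n * (4 * (n : ℝ)) ^ 2 = 16 * ((1 / 4) ^ n * (n : ℝ) ^ 2) := by ring
      rw [h10] at h9
      linarith
    rw [h3, sum_range_succ (fun k => ((1 : ℝ) / 4) ^ k * gst F sel n k ^ 2)]
    push_cast
    linarith

/-- Bounded functions `F k` such that no linear combination is positive everywhere have a sequence of
arguments with sums of order `√n`. -/
theorem greedy {F : ℕ → ℝ → ℝ} (hF : ∀ k x, |F k x| ≤ 4)
    (h : ∀ (b : ℕ → ℝ) (n : ℕ), ∃ x, ∑ k ∈ range n, b k * F k x ≤ 0) :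
    ∃ θ : ℕ → ℝ, ∀ k, ∃ C : ℝ, ∀ n : ℕ, |∑ i ∈ range n, F k (θ i)| ≤ C * Real.sqrt n := by
  choose sel hsel using h
  refine ⟨fun i => sel (fun k => (1 / 4) ^ k * gst F sel i k) (i + 1), fun k => ?_⟩
  refine ⟨Real.sqrt (48 * 4 ^ k) + 4 * Real.sqrt k, fun n => ?_⟩
  rw [← gst_eq F sel n k, add_mul]
  have h0 : 0 ≤ 4 * Real.sqrt k * Real.sqrt n := by positivity
  have h0' : 0 ≤ Real.sqrt (48 * 4 ^ k) * Real.sqrt n := by positivity
  by_cases hk : k < n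
  · have h1 := gst_pot hF hsel n
    have h2 : ((1 : ℝ) / 4) ^ k * gst F sel n k ^ 2 ≤ 48 * n :=
      (single_le_sum (f := fun k => ((1 : ℝ) / 4) ^ k * gst F sel n k ^ 2)
        (fun i _ => by positivity) (mem_range.2 hk)).trans h1
    have h3 : gst F sel n k ^ 2 ≤ 48 * 4 ^ k * n := by
      have h4 : (4 : ℝ) ^ k * ((1 / 4) ^ k * gst F sel n k ^ 2) = gst F sel n k ^ 2 := by
        rw [← mul_assoc, ← mul_pow]
        norm_num
      have h5 := mul_le_mul_of_nonneg_left h2 (by positivity : (0 : ℝ) ≤ 4 ^ k)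
      rw [h4] at h5
      linarith
    have h4 := Real.abs_le_sqrt h3
    rw [Real.sqrt_mul (by positivity)] at h4
    linarith
  · have h1 := gst_le hF sel n k
    have h2 : (n : ℝ) ≤ k := by exact_mod_cast not_lt.1 hk
    have h3 : (n : ℝ) = Real.sqrt n * Real.sqrt n := (Real.mul_self_sqrt (Nat.cast_nonneg n)).symm
    have h4 : Real.sqrt n ≤ Real.sqrt k := Real.sqrt_le_sqrt h2
    have h5 : (n : ℝ) ≤ Real.sqrt k * Real.sqrt n := by
      nth_rewrite 1 [h3]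
      exact mul_le_mul_of_nonneg_right h4 (Real.sqrt_nonneg _)
    linarith

end Pool.Agent.EEA520
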