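import Pool.Agent.W_eea520_h70.NatHol
import Pool.Agent.W_eea520_h70.NatTrc

/-!
# The terms of higher order are holomorphic on `Re s > 1/2` (MP_eea520_nt, theorem G, sharpness)
-/

set_option autoImplicit false

namespace Pool.Agent.EEA520

open Filter Topology Pool.Agent.EEAG1 LSeries

variable {n : ℕ}

theorem hol_le2 {s : ℂ} (hs : 1 / 2 < s.re) (p : Pr) : ‖(((p : ℕ) : ℂ) ^ (-s))‖ ≤ 3 / 4 := by
  have hp2 : (2 : ℝ) ≤ ((p : ℕ) : ℝ) := by exact_mod_cast p.2.two_le
  rw [hol_norm]
  have h1 : ((p : ℕ) : ℝ) ^ (-s.re) ≤ (2 : ℝ) ^ (-(1 / 2 : ℝ)) := by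
    calc ((p : ℕ) : ℝ) ^ (-s.re) ≤ (2 : ℝ) ^ (-s.re) :=
          Real.rpow_le_rpow_of_nonpos (by norm_num) hp2 (by linarith)
      _ ≤ (2 : ℝ) ^ (-(1 / 2 : ℝ)) :=
          Real.rpow_le_rpow_of_exponent_le (by norm_num) (by linarith)
  refine h1.trans ?_
  rw [Real.rpow_neg (by norm_num), inv_le_comm₀ (by positivity) (by norm_num),
    ← Real.sqrt_eq_rpow]
  refine Real.le_sqrt_of_sq_le ?_
  norm_num

theorem hol_diff {π : GSys n} (hπ : Tempered π) (m : Wt n →₀ ℤ) :
    DifferentiableOn ℂ (hol π m) {s : ℂ | 1 / 2 < s.re} := by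
  intro s₀ hs₀
  have hs₀' : 1 / 2 < s₀.re := hs₀
  set σ : ℝ := (1 / 2 + s₀.re) / 2 with hσ
  have hσ1 : 1 / 2 < σ := by rw [hσ]; linarith
  have hσ2 : σ < s₀.re := by rw [hσ]; linarith
  have hopen : IsOpen {s : ℂ | σ < s.re} := isOpen_lt continuous_const Complex.continuous_re
  have hsum : Summable fun p : Pr => mnorm m * (2 * ((p : ℕ) : ℝ) ^ (-(2 * σ))) :=
    ((Nat.Primes.summable_rpow.2 (by linarith)).mul_left 2).mul_left _
  have hterm : ∀ (p : Pr) (s : ℂ), s ∈ {s : ℂ | σ < s.re} →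
      ‖lfac (π p) m (((p : ℕ) : ℂ) ^ (-s)) - trq (π p) m (((p : ℕ) : ℂ) ^ (-s))‖ ≤
        mnorm m * (2 * ((p : ℕ) : ℝ) ^ (-(2 * σ))) := by
    intro p s hs
    have hs' : σ < s.re := hs
    have hp1 : (1 : ℝ) ≤ ((p : ℕ) : ℝ) := by exact_mod_cast p.2.one_lt.le
    refine (lfac_bound' (fun w => norm_ev hπ p w) m (hol_le2 (by linarith) p)).trans ?_
    refine mul_le_mul_of_nonneg_left (mul_le_mul_of_nonneg_left ?_ (by norm_num))
      (mnorm_nonneg m)
    rw [hol_norm, ← Real.rpow_natCast, ← Real.rpow_mul (by linarith)]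
    refine Real.rpow_le_rpow_of_exponent_le hp1 ?_
    push_cast
    linarith
  have h1 : DifferentiableOn ℂ (hol π m) {s : ℂ | σ < s.re} := by
    refine Complex.differentiableOn_tsum_of_summable_norm hsum ?_ hopen fun p s hs => hterm p s hs
    intro p s hs
    have hs' : σ < s.re := hs
    refine DifferentiableAt.differentiableWithinAt ?_
    have hp0 : ((p : ℕ) : ℂ) ≠ 0 := by exact_mod_cast p.2.ne_zero
    have hq : DifferentiableAt ℂ (fun s : ℂ => ((p : ℕ) : ℂ) ^ (-s)) s :=
      DifferentiableAt.const_cpow differentiableAt_id.neg (Or.inl hp0)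
    refine DifferentiableAt.sub ?_ ?_
    · unfold lfac Finsupp.sum
      refine DifferentiableAt.fun_sum fun w _ => DifferentiableAt.neg ?_
      refine DifferentiableAt.const_mul ?_ _
      refine DifferentiableAt.clog (DifferentiableAt.const_sub (hq.const_mul _) 1) ?_
      rw [Complex.mem_slitPlane_iff]
      left
      have h1 : ‖((π p).ev w : ℂ) * ((p : ℕ) : ℂ) ^ (-s)‖ ≤ 3 / 4 := by
        rw [norm_mul, norm_ev hπ, one_mul]
        exact hol_le2 (by linarith) p
      have h2 := (abs_le.1 ((Complex.abs_re_le_norm _).trans h1)).2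
      rw [Complex.sub_re, Complex.one_re]
      linarith
    · unfold trq Finsupp.sum
      refine DifferentiableAt.fun_sum fun w _ => ?_
      exact (hq.const_mul _).const_mul _
  exact ((h1 s₀ hσ2).differentiableAt (hopen.mem_nhds hσ2)).differentiableWithinAt

theorem zeta_eq {π : GSys n} (hπ : Tempered π) {s : ℂ} (hs : 1 < s.re) :
    riemannZeta s = Complex.exp (LSeries (chn π (Finsupp.single 0 1)) s +
      hol π (Finsupp.single 0 1) s) := by
  have h1 := factor_hasProd hπ (Finsupp.single 0 1) hs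
  have h2 := riemannZeta_eulerProduct_hasProd (s := s) hs
  simp only [factor_one] at h1
  exact h2.unique h1

theorem zeta_mero (s : ℂ) : MeromorphicAt riemannZeta s := by
  by_cases hs : s = 1
  · subst hs
    exact zeta_pole.1
  · have han : AnalyticAt ℂ riemannZeta s := by
      refine DifferentiableOn.analyticAt (s := {1}ᶜ) ?_ (isOpen_compl_singleton.mem_nhds hs)
      intro z hz
      exact (differentiableAt_riemannZeta hz).differentiableWithinAt
    exact han.meromorphicAt

end Pool.Agent.EEA520
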