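import Pool.Agent.W_eea520_h70.ShHol
import Pool.Agent.W_eea520_h70.ShGre
import Pool.Agent.W_eea520_h70.ShDir
import Pool.Agent.W_eea520_h99.OneA
import Pool.Agent.W_eea520_h25.Cusp

/-!
# Every law occurs (MP_eea520_nt, theorem G, sharpness)
-/

set_option autoImplicit false

namespace Pool.Agent.EEA520

open Filter Topology Pool.Agent.EEAG1 LSeries MeasureTheory

/-- The exponent of a weight at the classes `diag(y, y⁻¹)`. -/
def jw (w : Wt 1) : ℤ := w.1 - 2 * w.2 0

/-- The angle of a prime. -/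
noncomputable def ang (θ : ℕ → ℝ) (k : ℕ) : ℝ := θ (Nat.count Nat.Prime k)

/-- The system of the classes `diag(y_p, y_p⁻¹)`, where `y_p = exp(i θ_j)` if `p` is the prime number with
index `j`. -/
noncomputable def angSys (θ : ℕ → ℝ) : GSys 1 := fun p =>
  ⟨Units.mk0 (Complex.exp ((ang θ p : ℝ) * Complex.I)) (Complex.exp_ne_zero _),
   fun _ => Units.mk0 (Complex.exp (((-2 * ang θ p : ℝ) : ℂ) * Complex.I)) (Complex.exp_ne_zero _)⟩

theorem angSys_tempered (θ : ℕ → ℝ) : Tempered (angSys θ) := fun _ =>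
  ⟨Complex.norm_exp_ofReal_mul_I _, fun _ => Complex.norm_exp_ofReal_mul_I _⟩

theorem angSys_nu (θ : ℕ → ℝ) (p : Pr) : (angSys θ p).nu = 1 := by
  unfold Torus.nu angSys
  apply Units.ext
  rw [Fin.prod_univ_one, Units.val_mul, Units.val_pow_eq_pow_val, Units.val_mk0, Units.val_mk0,
    Units.val_one, ← Complex.exp_nat_mul, ← Complex.exp_add, ← Complex.exp_zero]
  congr 1
  push_cast
  ring

theorem angSys_ev (θ : ℕ → ℝ) (p : Pr) (w : Wt 1) :
    ((angSys θ p).ev w : ℂ) = Complex.exp ((((jw w : ℤ) : ℝ) * ang θ p : ℝ) * Complex.I) := by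
  unfold Torus.ev angSys jw
  rw [Fin.prod_univ_one, Units.val_mul, Units.val_zpow_eq_zpow_val, Units.val_zpow_eq_zpow_val,
    Units.val_mk0, Units.val_mk0, ← Complex.exp_int_mul, ← Complex.exp_int_mul, ← Complex.exp_add]
  congr 1
  push_cast
  ring

theorem jw_act (w : Wt 1) : jw (act (default, {0}) w) = -jw w := by
  unfold jw
  rw [act_apply]
  simp
  ring

theorem angSys_tcx (θ : ℕ → ℝ) {m : Wt 1 →₀ ℤ} (hm : IsCharacter m) (p : Pr) :
    tcx (angSys θ) m p =
      ((m.sum fun w e => (e : ℝ) * Real.cos ((jw w : ℝ) * ang θ p) : ℝ) : ℂ) := by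
  have h1 : (m.sum fun w e => (e : ℝ) * Real.sin ((jw w : ℝ) * ang θ p)) = 0 := by
    have h2 := sum_act hm (default, {0}) fun w => Real.sin ((jw w : ℝ) * ang θ p)
    have h3 : (m.sum fun w e => (e : ℝ) * Real.sin ((jw (act (default, {0}) w) : ℝ) * ang θ p)) =
        -(m.sum fun w e => (e : ℝ) * Real.sin ((jw w : ℝ) * ang θ p)) := by
      unfold Finsupp.sum
      rw [← Finset.sum_neg_distrib]
      refine Finset.sum_congr rfl fun w _ => ?_
      dsimp only
      rw [jw_act]
      push_cast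
      rw [neg_mul, Real.sin_neg]
      ring
    rw [h3] at h2
    linarith
  apply Complex.ext
  · rw [Complex.ofReal_re]
    unfold tcx Finsupp.sum
    rw [Complex.re_sum]
    refine Finset.sum_congr rfl fun w _ => ?_
    dsimp only
    rw [angSys_ev, ← Complex.ofReal_intCast, Complex.re_ofReal_mul, Complex.exp_ofReal_mul_I_re]
  · rw [Complex.ofReal_im, ← h1]
    unfold tcx Finsupp.sum
    rw [Complex.im_sum]
    refine Finset.sum_congr rfl fun w _ => ?_
    dsimp only
    rw [angSys_ev, ← Complex.ofReal_intCast, Complex.im_ofReal_mul, Complex.exp_ofReal_mul_I_im]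

/-- Sums over the primes. -/
theorem sum_primes (G : ℕ → ℝ) (N : ℕ) :
    ∑ k ∈ Finset.range N, (if k.Prime then G (Nat.count Nat.Prime k) else 0) =
      ∑ i ∈ Finset.range (Nat.count Nat.Prime N), G i := by
  induction N with
  | zero => simp
  | succ N ih =>
    rw [Finset.sum_range_succ, ih, Nat.count_succ]
    split_ifs with h
    · rw [Finset.sum_range_succ]
    · simp

/-- The integer `a`. -/
theorem exists_half {m : Wt 1 →₀ ℤ} (hm : IsCharacter m) {c : ℤ → ℤ} (hc : ∀ k, c (-k) = c k)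
    (h0 : c 0 = 2) : ∃ a : ℤ, 2 * a = m.sum fun w e => e * c (jw w) := by
  have h1 : (((m.sum fun w e => e * c (jw w) : ℤ)) : ZMod 2) = 0 := by
    unfold Finsupp.sum
    push_cast
    refine Finset.sum_involution (fun w _ => act (default, {0}) w) ?_ ?_ ?_ ?_
    · intro w _
      rw [hm.act, jw_act, hc]
      exact CharTwo.add_self_eq_zero _
    · intro w _ h2 h3
      apply h2
      have h4 : jw w = 0 := by
        have h5 := jw_act w
        rw [h3] at h5
        linarith
      rw [h4, h0]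
      have : ((2 : ℤ) : ZMod 2) = 0 := rfl
      rw [this, mul_zero]
    · intro w hw
      rw [Finsupp.mem_support_iff] at hw ⊢
      rw [hm.act]
      exact hw
    · intro w _
      rw [act_apply, act_apply]
      refine Prod.ext rfl ?_
      funext i
      have hi : i = 0 := Subsingleton.elim _ _
      subst hi
      simp
  rw [ZMod.intCast_zmod_eq_zero_iff_dvd] at h1
  obtain ⟨a, ha⟩ := h1
  exact ⟨a, ha.symm⟩

/-- The greedy choice of the angles. -/
theorem exists_angles (μ : Measure ℝ) [IsProbabilityMeasure μ] {c : ℤ → ℤ}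
    (hc : ∀ k : ℤ, ∫ x, 2 * Real.cos (k * x) ∂μ = c k) :
    ∃ θ : ℕ → ℝ, ∀ k : ℤ, ∃ C : ℝ, ∀ n : ℕ,
      |∑ i ∈ Finset.range n, (2 * Real.cos (k * θ i) - c k)| ≤ C * Real.sqrt n := by
  have hcos : ∀ (k : ℤ) (x : ℝ), |2 * Real.cos (k * x)| ≤ 2 := by
    intro k x
    rw [abs_mul, abs_two]
    have := Real.abs_cos_le_one (k * x)
    linarith
  have hint : ∀ k : ℤ, Integrable (fun x : ℝ => 2 * Real.cos (k * x)) μ := by
    intro k
    refine Integrable.of_bound (C := 2) ?_ (Eventually.of_forall fun x => ?_)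
    · have : Continuous fun x : ℝ => 2 * Real.cos (k * x) := by fun_prop
      exact this.aestronglyMeasurable
    · rw [Real.norm_eq_abs]
      exact hcos k x
  have hint2 : ∀ (b : ℝ) (k : ℤ), Integrable (fun x : ℝ => b * (2 * Real.cos (k * x) - c k)) μ :=
    fun b k => ((hint k).sub (integrable_const _)).const_mul _
  have hcb : ∀ k : ℤ, |(c k : ℝ)| ≤ 2 := by
    intro k
    rw [← hc k, ← Real.norm_eq_abs]
    have h1 := norm_integral_le_of_norm_le_const (μ := μ) (f := fun x : ℝ => 2 * Real.cos (k * x))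
      (C := 2) (Eventually.of_forall fun x => by rw [Real.norm_eq_abs]; exact hcos k x)
    simpa using h1
  obtain ⟨θ, hθ⟩ := greedy (F := fun k x => 2 * Real.cos (((k : ℤ) : ℝ) * x) - c (k : ℤ))
    (fun k x => by
      refine (abs_sub _ _).trans ?_
      have h1 := hcos (k : ℤ) x
      have h2 := hcb (k : ℤ)
      linarith)
    (fun b n => by
      have h1 : Integrable (fun x : ℝ => ∑ k ∈ Finset.range n,
          b k * (2 * Real.cos (((k : ℤ) : ℝ) * x) - c (k : ℤ))) μ :=
        integrable_finsetSum _ fun k _ => hint2 _ _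
      obtain ⟨x, hx⟩ := exists_le_integral h1
      refine ⟨x, hx.trans (le_of_eq ?_)⟩
      rw [integral_finsetSum _ fun k _ => hint2 (b k) (k : ℤ)]
      refine Finset.sum_eq_zero fun k _ => ?_
      rw [integral_const_mul, integral_sub (hint k) (integrable_const _), hc k]
      simp)
  have hceven : ∀ k : ℤ, c (-k) = c k := by
    intro k
    have h1 := hc (-k)
    have h2 : ∀ x : ℝ, Real.cos (((-k : ℤ) : ℝ) * x) = Real.cos (k * x) := by
      intro x
      push_cast
      rw [neg_mul, Real.cos_neg]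
    simp only [h2] at h1
    rw [hc k] at h1
    exact_mod_cast h1.symm
  refine ⟨θ, fun k => ?_⟩
  obtain ⟨C, hC⟩ := hθ k.natAbs
  refine ⟨C, fun n => ?_⟩
  have h1 : ∀ i, 2 * Real.cos (k * θ i) - c k =
      2 * Real.cos ((((k.natAbs : ℕ) : ℤ) : ℝ) * θ i) - c ((k.natAbs : ℕ) : ℤ) := by
    intro i
    rcases Int.natAbs_eq k with h | h
    · rw [← h]
    · have h2 : (((k.natAbs : ℕ) : ℤ)) = -k := by omega
      rw [h2, hceven]
      push_cast
      rw [neg_mul, Real.cos_neg]
  simp only [h1]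
  exact hC n

/-- The partial sums. -/
theorem partial_sums {θ : ℕ → ℝ} {G : ℝ → ℝ} {C : ℝ} (hC0 : 0 ≤ C)
    (hC : ∀ n : ℕ, |∑ i ∈ Finset.range n, G (θ i)| ≤ C * Real.sqrt n) (N : ℕ) :
    |∑ k ∈ Finset.Icc 1 N, (if k.Prime then G (ang θ k) else 0)| ≤ C * Real.sqrt N := by
  have h1 : ∑ k ∈ Finset.Icc 1 N, (if k.Prime then G (ang θ k) else 0) =
      ∑ i ∈ Finset.range (Nat.count Nat.Prime (N + 1)), G (θ i) := by
    rw [← sum_primes (fun i => G (θ i)) (N + 1), Finset.range_eq_Ico,
      Finset.sum_eq_sum_Ico_succ_bot (by omega), if_neg Nat.not_prime_zero, zero_add]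
    refine Finset.sum_congr ?_ fun k _ => rfl
    ext k
    rw [Finset.mem_Icc, Finset.mem_Ico]
    omega
  rw [h1]
  refine (hC _).trans (mul_le_mul_of_nonneg_left (Real.sqrt_le_sqrt ?_) hC0)
  have h2 : ∀ N, Nat.count Nat.Prime (N + 1) ≤ N := by
    intro N
    induction N with
    | zero => simp [Nat.count_succ, Nat.not_prime_zero]
    | succ N ih =>
      rw [Nat.count_succ]
      split_ifs <;> omega
  exact_mod_cast h2 N

end Pool.Agent.EEA520
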