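import Pool.Agent.W_eea520_h70.ShOrd
import Pool.Agent.W_eea520_h70.ShExc
import Pool.Agent.W_eea520_h99.Fin3

/-!
# All laws of the list occur (MP_eea520_nt, theorem G)
-/

set_option autoImplicit false

namespace Pool.Agent.EEA520

open Filter Topology Pool.Agent.EEAG1 MeasureTheory

theorem excL_one : (excL.all fun l => decide (l.getD (1 % l.length) 0 = -1) &&
    decide (1 < l.length)) = true := by
  decide +kernel

/-- The values at `1` of the finite types. -/
theorem finType_one {c : ℤ → ℤ} (h : FinType c) : c 1 = -1 := by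
  rcases h with ⟨N, η, hN, -, rfl⟩ | ⟨N, η, hN, -, rfl⟩ | ⟨l, hl, rfl⟩
  · have h1 := not_dvd_one (N := N) (by omega)
    have h2 : ¬ (N : ℤ) ∣ 1 + 1 := by
      intro h
      have := Int.le_of_dvd (by norm_num) h
      omega
    unfold famA
    rw [sub_self, comb_zero, comb_ne η h1, comb_ne η h2]
    norm_num
  · have h1 := not_dvd_one (N := N) (by omega)
    unfold famD
    rw [comb_ne η h1]
    norm_num
  · have h2 := List.all_eq_true.1 excL_one _ hl
    simp only [Bool.and_eq_true, decide_eq_true_eq] at h2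
    unfold per
    rw [Nat.mod_eq_of_lt h2.2] at h2
    rw [Int.emod_eq_of_lt (by norm_num) (by exact_mod_cast h2.2)]
    exact h2.1

theorem seq_one {c : ℤ → ℤ} (h : c = stSeq ∨ c = cmSeq ∨ FinType c) : c 1 = -1 := by
  rcases h with rfl | rfl | h
  · rfl
  · rfl
  · exact finType_one h

/-- Every sequence of the list is the sequence of the moments of a tempered system with trivial central
character, all of whose Euler products are of the form `ζ ^ a * exp H` with `H` holomorphic on
`Re s > 1 / 2`. -/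
theorem occurs {c : ℤ → ℤ} (h : c = stSeq ∨ c = cmSeq ∨ FinType c) :
    ∃ π : GSys 1, Tempered π ∧ (∀ p, (π p).nu = 1) ∧
      (∀ m : Wt 1 →₀ ℤ, IsCharacter m → ∃ (a : ℤ) (H : ℂ → ℂ),
        DifferentiableOn ℂ H {s | 1 / 2 < s.re} ∧ ∀ s : ℂ, 1 < s.re →
          HasProd (fun p : Pr => (π p).factor m (((p : ℕ) : ℂ) ^ (-s)))
            (riemannZeta s ^ a * Complex.exp (H s))) ∧
      PoleOrder π (symdet 2 (-1)) 1 0 ∧ NatMoments π c := by
  obtain ⟨ν, hν, hνc⟩ := exists_prob h
  obtain ⟨π, hπ, hnu, hform, hord⟩ := realize_ratio ν hνc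
  have hceven : ∀ k : ℤ, c (-k) = c k := by
    intro k
    have h1 := hνc (-k)
    have h2 : ∀ x : ℝ, Real.cos (((-k : ℤ) : ℝ) * x) = Real.cos (k * x) := by
      intro x
      push_cast
      rw [neg_mul, Real.cos_neg]
    simp only [h2] at h1
    rw [hνc k] at h1
    exact_mod_cast h1.symm
  have hmero : ∀ m : Wt 1 →₀ ℤ, IsCharacter m → ∀ t : ℝ, MeroAt π m (pt t) := by
    intro m hm t
    obtain ⟨a, H, hH, hp⟩ := hform m hm
    obtain ⟨g, h1, -, h2⟩ := poleOrder_of_form hH hp t
    exact ⟨g, h1, h2⟩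
  have hmean : ∀ k : ℤ, Mean (fun p => ((π p).x 0 : ℂ)) (fun z => 2 * (z ^ k).re) (c k) := by
    intro k
    have h1 := mean_x hπ hord k
    rw [if_pos ⟨rfl, Even.zero⟩] at h1
    have h2 : c ((w1 0 k).1 / 2 - (w1 0 k).2 0) = c k := by
      show c (0 / 2 - k) = c k
      rw [Int.zero_ediv, zero_sub, hceven]
    rw [h2] at h1
    exact h1
  have had : PoleOrder π (symdet 2 (-1)) 1 0 := by
    obtain ⟨o, ho⟩ := exists_poleOrder (t := 0) hπ (hmero (symdet (2 * 1) (-((1 : ℕ) : ℤ)))
      (symdet_isCharacter _ _) 0)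
    have h1 := order_of_moments hπ hmean ho
    have h2 : adOrder c 1 = 0 := by
      unfold adOrder
      rw [Finset.sum_range_one, Nat.cast_zero, zero_add, seq_one h]
      norm_num
    rw [h1, h2, pt_zeroF] at ho
    exact ho
  refine ⟨π, hπ, hnu, hform, had, ?_⟩
  obtain ⟨c', -, -, h1, h2, -⟩ := lineB hπ had (E := ⊤)
    (fun k j t _ => hmero _ (symdet_isCharacter k j) t)
  have h3 : c' = c := by
    funext k
    have h4 : Mean (fun p => ((π p).x 0 : ℂ)) (fun z => 2 * (z ^ k).re) (c' k) := h1 k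
    have h5 := tendsto_nhds_unique h4 (hmean k)
    exact_mod_cast h5
  rw [← h3]
  exact h2 rfl

end Pool.Agent.EEA520
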