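import Pool.Agent.W_eea520_h70.ShFin

/-!
# Every law occurs: orders on the line, laws of the ratio of the parameters (MP_eea520_nt, theorem G)
-/

set_option autoImplicit false

namespace Pool.Agent.EEA520

open Filter Topology Pool.Agent.EEAG1 LSeries MeasureTheory

/-- The orders on the line of an Euler product of the form `ζ ^ a * exp H`. -/
theorem poleOrder_of_form {n : ℕ} {π : GSys n} {m : Wt n →₀ ℤ} {a : ℤ} {H : ℂ → ℂ}
    (hH : DifferentiableOn ℂ H {s | 1 / 2 < s.re})
    (hp : ∀ s : ℂ, 1 < s.re → HasProd (fun p : Pr => (π p).factor m (((p : ℕ) : ℂ) ^ (-s)))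
      (riemannZeta s ^ a * Complex.exp (H s))) (t : ℝ) :
    PoleOrder π m (pt t) (if t = 0 then a else 0) := by
  have hopen : IsOpen {s : ℂ | 1 / 2 < s.re} := isOpen_lt continuous_const Complex.continuous_re
  have hmem : pt t ∈ {s : ℂ | 1 / 2 < s.re} := by
    show 1 / 2 < (pt t).re
    unfold pt
    norm_num
  have hHa : AnalyticAt ℂ H (pt t) := hH.analyticAt (hopen.mem_nhds hmem)
  have hE : AnalyticAt ℂ (fun s => Complex.exp (H s)) (pt t) := hHa.cexp
  have hE0 : meromorphicOrderAt (fun s => Complex.exp (H s)) (pt t) = 0 := by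
    rw [hE.meromorphicOrderAt_eq, hE.analyticOrderAt_eq_zero.2 (Complex.exp_ne_zero _)]
    rfl
  have hz := zeta_mero (pt t)
  have hzo : meromorphicOrderAt riemannZeta (pt t) = (((if t = 0 then -1 else 0 : ℤ)) : WithTop ℤ) := by
    by_cases ht : t = 0
    · subst ht
      rw [if_pos rfl, pt_zero']
      exact zeta_pole.2
    · rw [if_neg ht]
      have han : AnalyticAt ℂ riemannZeta (pt t) := by
        refine DifferentiableOn.analyticAt (s := {1}ᶜ) ?_
          (isOpen_compl_singleton.mem_nhds (pt_ne_one ht))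
        intro z hz
        exact (differentiableAt_riemannZeta hz).differentiableWithinAt
      have hne : riemannZeta (pt t) ≠ 0 := by
        refine riemannZeta_ne_zero_of_one_le_re ?_
        unfold pt
        simp
      rw [han.meromorphicOrderAt_eq, han.analyticOrderAt_eq_zero.2 hne]
      rfl
  refine ⟨fun s => riemannZeta s ^ a * Complex.exp (H s), ?_, ?_, ?_⟩
  · exact (hz.zpow a).mul hE.meromorphicAt
  · have h1 : meromorphicOrderAt (fun s => riemannZeta s ^ a * Complex.exp (H s)) (pt t) =
        meromorphicOrderAt (riemannZeta ^ a) (pt t) +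
          meromorphicOrderAt (fun s => Complex.exp (H s)) (pt t) :=
      meromorphicOrderAt_mul (hz.zpow a) hE.meromorphicAt
    rw [h1, hE0, add_zero, meromorphicOrderAt_zpow hz, hzo]
    by_cases ht : t = 0
    · rw [if_pos ht, if_pos ht, ← WithTop.coe_mul]
      congr 1
      simp
    · rw [if_neg ht, if_neg ht, ← WithTop.coe_mul]
      congr 1
      simp
  · unfold IsL
    filter_upwards [self_mem_nhdsWithin] with s hs
    exact hp s hs

/-- The law of a random square root with a random sign. -/
theorem exists_double (μ : Measure ℝ) [IsProbabilityMeasure μ] {c : ℤ → ℤ}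
    (hc : ∀ k : ℤ, ∫ x, 2 * Real.cos (k * x) ∂μ = c k) :
    ∃ ν : Measure ℝ, IsProbabilityMeasure ν ∧
      ∀ k : ℤ, ∫ x, 2 * Real.cos (k * x) ∂ν = ((if Even k then c (k / 2) else 0 : ℤ) : ℝ) := by
  have hm1 : Measurable fun x : ℝ => x / 2 := by fun_prop
  have hm2 : Measurable fun x : ℝ => x / 2 + Real.pi := by fun_prop
  have i1 : IsProbabilityMeasure (μ.map fun x : ℝ => x / 2) :=
    Measure.isProbabilityMeasure_map hm1.aemeasurable
  have i2 : IsProbabilityMeasure (μ.map fun x : ℝ => x / 2 + Real.pi) :=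
    Measure.isProbabilityMeasure_map hm2.aemeasurable
  have hcont : ∀ k : ℤ, Continuous fun x : ℝ => 2 * Real.cos (k * x) := fun k => by fun_prop
  have hint : ∀ (ρ : Measure ℝ) [IsProbabilityMeasure ρ] (k : ℤ),
      Integrable (fun x : ℝ => 2 * Real.cos (k * x)) ρ := by
    intro ρ _ k
    refine Integrable.of_bound (C := 2) (hcont k).aestronglyMeasurable
      (Eventually.of_forall fun x => ?_)
    rw [Real.norm_eq_abs, abs_mul, abs_two]
    have := Real.abs_cos_le_one (k * x)
    linarith
  refine ⟨(1 / 2 : ENNReal) • ((μ.map fun x : ℝ => x / 2) + (μ.map fun x : ℝ => x / 2 + Real.pi)),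
    ?_, fun k => ?_⟩
  · constructor
    rw [Measure.smul_apply, Measure.add_apply, measure_univ, measure_univ, smul_eq_mul,
      one_add_one_eq_two, one_div, ENNReal.inv_mul_cancel (by norm_num) (by norm_num)]
  · rw [integral_smul_measure, integral_add_measure (hint _ k) (hint _ k),
      integral_map hm1.aemeasurable (hcont k).aestronglyMeasurable,
      integral_map hm2.aemeasurable (hcont k).aestronglyMeasurable]
    have h1 : (1 / 2 : ENNReal).toReal = 1 / 2 := by simp
    rw [h1, smul_eq_mul]
    rcases Int.even_or_odd' k with ⟨j, rfl | rfl⟩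
    · rw [if_pos (even_two_mul j), Int.mul_ediv_cancel_left _ (by norm_num), ← hc j]
      have e1 : ∀ x : ℝ, Real.cos (((2 * j : ℤ) : ℝ) * (x / 2)) = Real.cos (j * x) := by
        intro x
        congr 1
        push_cast
        ring
      have e2 : ∀ x : ℝ, Real.cos (((2 * j : ℤ) : ℝ) * (x / 2 + Real.pi)) = Real.cos (j * x) := by
        intro x
        have h2 : (((2 * j : ℤ) : ℝ) * (x / 2 + Real.pi)) = j * x + j * (2 * Real.pi) := by
          push_cast
          ring
        rw [h2, Real.cos_add_int_mul_two_pi]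
      simp only [e1, e2]
      ring
    · rw [if_neg (Int.not_even_iff_odd.2 ⟨j, rfl⟩), Int.cast_zero]
      have e2 : ∀ x : ℝ, 2 * Real.cos (((2 * j + 1 : ℤ) : ℝ) * (x / 2 + Real.pi)) =
          -(2 * Real.cos (((2 * j + 1 : ℤ) : ℝ) * (x / 2))) := by
        intro x
        have h2 : (((2 * j + 1 : ℤ) : ℝ) * (x / 2 + Real.pi)) =
            (((2 * j + 1 : ℤ) : ℝ) * (x / 2)) + Real.pi + j * (2 * Real.pi) := by
          push_cast
          ring
        rw [h2, Real.cos_add_int_mul_two_pi, Real.cos_add_pi]
        ring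
      simp only [e2]
      rw [integral_neg, add_neg_cancel, mul_zero]

/-- The version for laws of the ratio `x` of the parameters. -/
theorem realize_ratio (μ : Measure ℝ) [IsProbabilityMeasure μ] {c : ℤ → ℤ}
    (hc : ∀ k : ℤ, ∫ x, 2 * Real.cos (k * x) ∂μ = c k) :
    ∃ π : GSys 1, Tempered π ∧ (∀ p, (π p).nu = 1) ∧ (∀ m : Wt 1 →₀ ℤ, IsCharacter m →
      ∃ (a : ℤ) (H : ℂ → ℂ), DifferentiableOn ℂ H {s | 1 / 2 < s.re} ∧ ∀ s : ℂ, 1 < s.re →
          HasProd (fun p : Pr => (π p).factor m (((p : ℕ) : ℂ) ^ (-s)))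
            (riemannZeta s ^ a * Complex.exp (H s))) ∧
      IsOrd π ⊤ (fun w => if w.2 = 0 ∧ Even w.1.1 then c (w.1.1 / 2 - w.1.2 0) else 0) := by
  classical
  obtain ⟨ν, hν, hνc⟩ := exists_double μ hc
  obtain ⟨π, h1, h2, h3⟩ := realize ν hνc
  refine ⟨π, h1, h2, fun m hm => ?_, fun w t => ?_⟩
  · obtain ⟨a, H, -, hH, hp⟩ := h3 m hm
    exact ⟨a, H, hH, hp⟩
  · obtain ⟨a, H, ha, hH, hp⟩ := h3 (orb w) (orb_isCharacter w)
    have h4 := poleOrder_of_form hH hp (t : ℝ)
    have hceven : ∀ k : ℤ, c (-k) = c k := by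
      intro k
      have h1 := hc (-k)
      have h2 : ∀ x : ℝ, Real.cos (((-k : ℤ) : ℝ) * x) = Real.cos (k * x) := by
        intro x
        push_cast
        rw [neg_mul, Real.cos_neg]
      simp only [h2] at h1
      rw [hc k] at h1
      exact_mod_cast h1.symm
    have h5 : a = if Even w.1 then c (w.1 / 2 - w.2 0) else 0 := by
      have h6 : ((orb w).sum fun u e => e *
          (if Even (u.1 - 2 * u.2 0) then c ((u.1 - 2 * u.2 0) / 2) else 0)) =
          ∑ g : WG 1, (if Even (jw (act g w)) then c ((jw (act g w)) / 2) else 0) := by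
        unfold orb
        rw [← Finsupp.sum_finsetSum_index (by intro a; simp) (by intro a b c; ring)]
        refine Finset.sum_congr rfl fun g _ => ?_
        rw [Finsupp.sum_single_index (by simp), one_mul]
        rfl
      rw [h6] at ha
      have hw : w = w1 w.1 (w.2 0) := by
        refine Prod.ext rfl ?_
        funext i
        have hi : i = 0 := Subsingleton.elim _ _
        subst hi
        rfl
      have h7 := orb_sum_one w.1 (w.2 0)
        fun u => (((if Even (jw u) then c ((jw u) / 2) else 0 : ℤ)) : ℝ)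
      rw [← hw] at h7
      have h8 : ∑ g : WG 1, (if Even (jw (act g w)) then c ((jw (act g w)) / 2) else 0) =
          (if Even (jw w) then c ((jw w) / 2) else 0) +
          (if Even (jw (w1 w.1 (w.1 - w.2 0))) then c ((jw (w1 w.1 (w.1 - w.2 0))) / 2)
            else 0) := by
        exact_mod_cast h7
      rw [h8] at ha
      have e1 : Even (jw w) ↔ Even w.1 := by
        unfold jw
        rw [Int.even_sub]
        simp
      have e2 : jw (w1 w.1 (w.1 - w.2 0)) = -jw w := by
        unfold jw w1
        ring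
      rw [e2] at ha
      simp only [even_neg] at ha
      by_cases he : Even w.1
      · rw [if_pos he]
        rw [if_pos (e1.2 he), if_pos (e1.2 he)] at ha
        obtain ⟨r, hr⟩ := he
        have e3 : jw w / 2 = w.1 / 2 - w.2 0 := by
          unfold jw
          omega
        have e4 : -jw w / 2 = -(w.1 / 2 - w.2 0) := by
          unfold jw
          omega
        rw [e3, e4, hceven] at ha
        linarith
      · rw [if_neg he]
        rw [if_neg (fun h => he (e1.1 h)), if_neg (fun h => he (e1.1 h))] at ha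
        linarith
    have h6 : (if ((t : ℝ)) = 0 then a else 0) =
        if t = 0 ∧ Even w.1 then c (w.1 / 2 - w.2 0) else 0 := by
      by_cases ht : t = 0
      · have ht' : ((t : ℝ)) = 0 := by rw [ht]; rfl
        rw [if_pos ht', h5]
        by_cases he : Even w.1
        · rw [if_pos he, if_pos ⟨ht, he⟩]
        · rw [if_neg he, if_neg fun h => he h.2]
      · have ht' : ¬ ((t : ℝ)) = 0 := fun h => ht (Subtype.ext h)
        rw [if_neg ht', if_neg fun h => ht h.1]
    show PoleOrder π (orb w) (pt t) (if t = 0 ∧ Even w.1 then c (w.1 / 2 - w.2 0) else 0)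
    rw [← h6]
    exact h4

end Pool.Agent.EEA520
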