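import Pool.Agent.W_eea520_g1.A7
import Pool.Agent.W_eea520_h99.FinType

/-!
# Positive definite sequences and their measures (MP_eea520_nt, theorem G)
-/

set_option autoImplicit false

namespace Pool.Agent.EEA520

open Filter Topology Pool.Agent.EEAG1 MeasureTheory

/-- The Gram sequence of a list of vectors with nonnegative weights. -/
theorem posDef_of_list {c : ℤ → ℝ} (L : List (ℝ × (ℤ → ℝ))) (hL : ∀ t ∈ L, 0 ≤ t.1)
    (h : ∀ i j : ℤ, c (i - j) = (L.map fun t => t.1 * (t.2 i * t.2 j)).sum) : PosDef c := by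
  refine ⟨fun k => ?_, fun x => ?_⟩
  · have h1 := h 0 k
    have h2 := h k 0
    rw [zero_sub] at h1
    rw [sub_zero] at h2
    rw [h1, h2]
    congr 1
    refine List.map_congr_left fun t _ => ?_
    ring
  · have h1 : (x.sum fun i a => x.sum fun j b => a * b * c (i - j)) =
        x.sum fun i a => x.sum fun j b => (L.map fun t => a * b * (t.1 * (t.2 i * t.2 j))).sum := by
      refine Finsupp.sum_congr fun i _ => Finsupp.sum_congr fun j _ => ?_
      rw [h, List.sum_map_mul_left]
    rw [h1]
    clear h h1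
    induction L with
    | nil => simp
    | cons t L ih =>
      have h2 := ih fun s hs => hL s (List.mem_cons_of_mem _ hs)
      have h3 : (x.sum fun i a => x.sum fun j b =>
          ((t :: L).map fun t => a * b * (t.1 * (t.2 i * t.2 j))).sum) =
          (x.sum fun i a => x.sum fun j b => a * b * (t.1 * (t.2 i * t.2 j))) +
          x.sum fun i a => x.sum fun j b => (L.map fun t => a * b * (t.1 * (t.2 i * t.2 j))).sum := by
        simp only [List.map_cons, List.sum_cons, Finsupp.sum_add]
      rw [h3]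
      refine add_nonneg ?_ h2
      have h4 : (x.sum fun i a => x.sum fun j b => a * b * (t.1 * (t.2 i * t.2 j))) =
          t.1 * ((x.sum fun i a => a * t.2 i) * (x.sum fun i a => a * t.2 i)) := by
        rw [Finsupp.sum_mul, Finsupp.mul_sum]
        refine Finsupp.sum_congr fun i _ => ?_
        rw [Finsupp.mul_sum, Finsupp.mul_sum]
        refine Finsupp.sum_congr fun j _ => ?_
        ring
      rw [h4]
      exact mul_nonneg (hL t List.mem_cons_self) (mul_self_nonneg _)

/-- The vectors of `comb`. -/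
def cvec (N : ℕ) (η : ℤ) (l : ℕ) (k : ℤ) : ℝ := if k % N = l then (η : ℝ) ^ (k / N).natAbs else 0

theorem pow_natAbs_sub {η : ℤ} (hη : η = 1 ∨ η = -1) (a b : ℤ) :
    (η : ℝ) ^ a.natAbs * (η : ℝ) ^ b.natAbs = (η : ℝ) ^ (a - b).natAbs := by
  rcases hη with rfl | rfl
  · simp
  · push_cast
    have h1 : ∀ a : ℤ, ((-1 : ℝ)) ^ a.natAbs = if Even a then 1 else -1 := by
      intro a
      by_cases h : Even a
      · rw [if_pos h, (Int.natAbs_even.2 h).neg_one_pow]
      · rw [if_neg h, (Nat.not_even_iff_odd.1 (mt Int.natAbs_even.1 h)).neg_one_pow]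
    rw [h1, h1, h1]
    by_cases ha : Even a <;> by_cases hb : Even b <;> simp [ha, hb, Int.even_sub]

theorem comb_gram {N : ℕ} (hN : 0 < N) {η : ℤ} (hη : η = 1 ∨ η = -1) (i j : ℤ) :
    ((comb N η (i - j) : ℤ) : ℝ) =
      ∑ l ∈ Finset.range N, cvec N η l i * cvec N η l j := by
  have hN0 : (N : ℤ) ≠ 0 := by exact_mod_cast hN.ne'
  have hNp : (0 : ℤ) < N := by exact_mod_cast hN
  have hmem : (i % N).toNat ∈ Finset.range N := by
    rw [Finset.mem_range]
    have h1 := Int.emod_lt_of_pos i hNp
    have h2 := Int.emod_nonneg i hN0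
    omega
  have hi : ((i % N).toNat : ℤ) = i % N := Int.toNat_of_nonneg (Int.emod_nonneg i hN0)
  rw [Finset.sum_eq_single (i % N).toNat]
  · unfold cvec comb
    rw [if_pos hi.symm, hi]
    by_cases h : (N : ℤ) ∣ i - j
    · rw [if_pos h]
      have h1 : j % N = i % N := by
        rw [Int.emod_emod_of_dvd _ dvd_rfl |>.symm]
        have := Int.emod_emod_of_dvd i (dvd_refl (N : ℤ))
        exact (Int.emod_emod_of_dvd j (dvd_refl (N : ℤ))).trans
          ((Int.emod_eq_emod_iff_emod_sub_eq_zero.2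
            (by rw [Int.emod_eq_zero_of_dvd h])).symm)
      rw [if_pos h1]
      have h2 : (i - j) / N = i / N - j / N := by
        obtain ⟨q, hq⟩ := h
        have h3 : i = j + N * q := by linarith
        rw [hq, Int.mul_ediv_cancel_left _ hN0, h3, Int.add_mul_ediv_left _ _ hN0]
        ring
      rw [h2, pow_natAbs_sub hη]
      push_cast
      rfl
    · rw [if_neg h, if_neg, mul_zero, Int.cast_zero]
      intro h1
      exact h (Int.ModEq.dvd h1)
  · intro l _ hl
    unfold cvec
    rw [if_neg, zero_mul]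
    intro h
    apply hl
    omega
  · intro h
    exact absurd hmem h

theorem posDef_famA {N : ℕ} (hN : 0 < N) {η : ℤ} (hη : η = 1 ∨ η = -1) :
    PosDef fun k => (famA N η k : ℝ) := by
  refine posDef_of_list ((List.range N).map fun l =>
    ((1 : ℝ), fun k : ℤ => cvec N η l k - cvec N η l (k + 1))) ?_ fun i j => ?_
  · intro t ht
    rw [List.mem_map] at ht
    obtain ⟨l, -, rfl⟩ := ht
    norm_num
  · rw [List.map_map]
    have h0 : ∀ f : ℕ → ℝ, ((List.range N).map f).sum = ∑ l ∈ Finset.range N, f l := by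
      intro f
      rw [Finset.sum_range, ← List.sum_ofFn]
      congr 1
      apply List.ext_getElem <;> simp
    rw [h0]
    unfold famA
    push_cast
    have e1 : i - j - 1 = i - (j + 1) := by ring
    have e2 : i - j + 1 = (i + 1) - j := by ring
    have e3 : comb N η (i - j) = comb N η ((i + 1) - (j + 1)) := by
      congr 1
      ring
    have h1 := comb_gram hN hη i j
    have h2 := comb_gram hN hη i (j + 1)
    have h3 := comb_gram hN hη (i + 1) j
    have h4 := comb_gram hN hη (i + 1) (j + 1)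
    rw [← e1] at h2
    rw [← e2] at h3
    rw [← e3] at h4
    rw [two_mul]
    nth_rewrite 1 [h1]
    rw [h4, h2, h3, ← Finset.sum_add_distrib, ← Finset.sum_sub_distrib, ← Finset.sum_sub_distrib]
    refine Finset.sum_congr rfl fun l _ => ?_
    simp only [Function.comp]
    ring

theorem posDef_famD {N : ℕ} (hN : 0 < N) {η : ℤ} (hη : η = 1 ∨ η = -1) :
    PosDef fun k => (famD N η k : ℝ) := by
  refine posDef_of_list (((1 : ℝ), fun k : ℤ => ((-1 : ℝ)) ^ k.natAbs) :: (List.range N).map fun l =>
    ((1 : ℝ), fun k : ℤ => cvec N η l k)) ?_ fun i j => ?_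
  · intro t ht
    rw [List.mem_cons, List.mem_map] at ht
    rcases ht with rfl | ⟨l, -, rfl⟩ <;> norm_num
  · rw [List.map_cons, List.sum_cons, List.map_map]
    have h0 : ∀ f : ℕ → ℝ, ((List.range N).map f).sum = ∑ l ∈ Finset.range N, f l := by
      intro f
      rw [Finset.sum_range, ← List.sum_ofFn]
      congr 1
      apply List.ext_getElem <;> simp
    rw [h0]
    unfold famD
    push_cast
    have h1 := comb_gram hN hη i j
    have h2 := pow_natAbs_sub (Or.inr rfl : (-1 : ℤ) = 1 ∨ (-1 : ℤ) = -1) i j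
    push_cast at h2
    rw [h1, one_mul, h2]
    congr 1
    refine Finset.sum_congr rfl fun l _ => ?_
    simp only [Function.comp]
    ring

/-- The probability measure of a periodic positive definite sequence with `c 0 = 2`. -/
theorem exists_prob_per {c : ℤ → ℤ} (hc : PosDef fun k => (c k : ℝ)) {r : ℕ} (hr : 0 < r)
    (hper : ∀ k, c (k + r) = c k) (h0 : c 0 = 2) :
    ∃ μ : Measure ℝ, IsProbabilityMeasure μ ∧ ∀ k : ℤ, ∫ x, 2 * Real.cos (k * x) ∂μ = c k := by
  obtain ⟨w, hw0, hw⟩ := exists_weights hc hr (fun k => by exact_mod_cast hper k)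
  obtain ⟨μ, hμ, hint⟩ := exists_fin w hw0
  have h1 : ∀ k : ℤ, ∫ x, 2 * Real.cos (k * x) ∂μ = c k := fun k => by
    rw [hint fun x => 2 * Real.cos (k * x)]
    exact hw k
  refine ⟨μ, ⟨?_⟩, h1⟩
  have h2 := h1 0
  simp only [Int.cast_zero, zero_mul, Real.cos_zero, mul_one, integral_const, smul_eq_mul, h0]
    at h2
  have h3 : μ.real Set.univ = 1 := by
    push_cast at h2
    linarith
  have h4 : (μ Set.univ).toReal = 1 := h3
  rw [← ENNReal.toReal_eq_one_iff]
  exact h4

/-- The image of a measure under the multiplication by `2`. -/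
theorem exists_prob_map {μ : Measure ℝ} [IsFiniteMeasure μ] {c : ℤ → ℤ} (h0 : c 0 = 2)
    (h : ∀ k : ℤ, ∫ x, 2 * Real.cos ((2 * k : ℤ) * x) ∂μ = c k) :
    ∃ ν : Measure ℝ, IsProbabilityMeasure ν ∧ ∀ k : ℤ, ∫ x, 2 * Real.cos (k * x) ∂ν = c k := by
  have hm : Measurable fun x : ℝ => 2 * x := by fun_prop
  have h1 : ∀ k : ℤ, ∫ x, 2 * Real.cos (k * x) ∂(μ.map fun x => 2 * x) = c k := by
    intro k
    rw [integral_map hm.aemeasurable
      (Continuous.aestronglyMeasurable (by fun_prop)), ← h k]
    refine integral_congr_ae (Eventually.of_forall fun x => ?_)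
    dsimp only
    push_cast
    congr 2
    ring
  refine ⟨μ.map fun x => 2 * x, ⟨?_⟩, h1⟩
  have h2 := h1 0
  simp only [Int.cast_zero, zero_mul, Real.cos_zero, mul_one, integral_const, smul_eq_mul, h0]
    at h2
  have h3 : (μ.map fun x => 2 * x).real Set.univ = 1 := by
    push_cast at h2
    linarith
  have h4 : ((μ.map fun x => 2 * x) Set.univ).toReal = 1 := h3
  rw [← ENNReal.toReal_eq_one_iff]
  exact h4

theorem exists_prob_st : ∃ ν : Measure ℝ, IsProbabilityMeasure ν ∧
    ∀ k : ℤ, ∫ x, 2 * Real.cos (k * x) ∂ν = stSeq k := by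
  obtain ⟨μ, hμ, -, h⟩ := exists_st
  refine exists_prob_map (by rfl) (c := stSeq) (μ := μ) fun k => ?_
  rw [h (2 * k)]
  unfold stSeq
  by_cases h0 : k = 0
  · simp [h0]
  · by_cases h1 : k = 1 ∨ k = -1
    · rw [if_neg (by omega), if_pos (by omega), if_neg h0, if_pos h1]
      norm_num
    · rw [if_neg (by omega), if_neg (by omega), if_neg h0, if_neg h1]
      norm_num

theorem exists_prob_cm : ∃ ν : Measure ℝ, IsProbabilityMeasure ν ∧
    ∀ k : ℤ, ∫ x, 2 * Real.cos (k * x) ∂ν = cmSeq k := by
  obtain ⟨μ, hμ, -, h, -⟩ := exists_cm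
  refine exists_prob_map (by rfl) (c := cmSeq) (μ := μ) fun k => ?_
  rw [h k]
  unfold cmSeq
  by_cases h0 : k = 0
  · simp [h0]
    norm_num
  · rw [if_neg h0, if_neg h0]
    push_cast
    ring

end Pool.Agent.EEA520
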