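import Pool.Agent.W_eea520_h70.Base

/-! Products of `k` complete symmetric functions of `k` variables with product `1` are combinations of
products of `k - 1` of them. -/

set_option autoImplicit false

namespace Pool.Agent.EEA520

open Finset

variable {R : Type} [CommRing R]

/-- `h_n` for integers `n` (zero for negative `n`). -/
noncomputable def hhZ (e : ℕ → R) (z : ℤ) : R := if 0 ≤ z then hh e z.toNat else 0

/-- The recursion `h_z = ∑_{1 ≤ l ≤ k} (-1) ^ (l-1) e_l h_{z-l}` for `z ≥ 1`; from `hh_succ` and `e_j = 0`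
for `j > k`. -/
theorem hhZ_rec (e : ℕ → R) (k : ℕ) (hek : ∀ j, k < j → e j = 0) (z : ℤ) (hz : 1 ≤ z) :
    hhZ e z = ∑ l ∈ Icc 1 k, (-1) ^ (l - 1) * e l * hhZ e (z - l) := by
  obtain ⟨n, rfl⟩ : ∃ n : ℕ, z = (n : ℤ) + 1 := ⟨(z - 1).toNat, by omega⟩
  have h1 : ∑ l ∈ Icc 1 k, (-1) ^ (l - 1) * e l * hhZ e ((n : ℤ) + 1 - l)
      = ∑ l ∈ Icc 1 (max k (n + 1)), (-1) ^ (l - 1) * e l * hhZ e ((n : ℤ) + 1 - l) := by
    apply Finset.sum_subset
    · intro l hl
      rw [mem_Icc] at hl ⊢
      omega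
    · intro l hl hl'
      rw [mem_Icc] at hl hl'
      rw [hek l (by omega)]
      ring
  have h2 : ∑ l ∈ Icc 1 (n + 1), (-1) ^ (l - 1) * e l * hhZ e ((n : ℤ) + 1 - l)
      = ∑ l ∈ Icc 1 (max k (n + 1)), (-1) ^ (l - 1) * e l * hhZ e ((n : ℤ) + 1 - l) := by
    apply Finset.sum_subset
    · intro l hl
      rw [mem_Icc] at hl ⊢
      omega
    · intro l hl hl'
      rw [mem_Icc] at hl hl'
      have h3 : hhZ e ((n : ℤ) + 1 - l) = 0 := by
        unfold hhZ
        rw [if_neg (by omega)]
      rw [h3, mul_zero]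
  rw [h1, ← h2]
  have h4 : hhZ e ((n : ℤ) + 1) = hh e (n + 1) := by
    unfold hhZ
    rw [if_pos (by omega)]
    congr 1
  rw [h4, hh_succ]
  refine Finset.sum_nbij' (fun j => j + 1) (fun l => l - 1) ?_ ?_ ?_ ?_ ?_
  · intro j hj
    rw [mem_range] at hj
    rw [mem_Icc]
    omega
  · intro l hl
    rw [mem_Icc] at hl
    rw [mem_range]
    omega
  · intro j _
    simp
  · intro l hl
    rw [mem_Icc] at hl
    show l - 1 + 1 = l
    omega
  · intro j hj
    rw [mem_range] at hj
    have h5 : hhZ e ((n : ℤ) + 1 - ((j + 1 : ℕ) : ℤ)) = hh e (n - j) := by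
      unfold hhZ
      rw [if_pos (by push_cast; omega)]
      congr 1
      omega
    rw [h5, Nat.add_sub_cancel]

/-- The determinant `det (h_{m_i - i + j})`. -/
noncomputable def jt {k : ℕ} (e : ℕ → R) (m : Fin k → ℤ) : R :=
  (Matrix.of fun i j : Fin k => hhZ e (m i - (i : ℕ) + (j : ℕ))).det

/-- If `m` is decreasing (weakly) and all `m_i ≥ 1` and `e_k = 1`, then `jt e m = jt e (m - 1)`.
Proof. All arguments `m_i - i + (k-1)` in the last column are `≥ m_i ≥ 1`, so by `hhZ_rec` the last column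
is `∑_{1 ≤ l ≤ k-1} (-1) ^ (l-1) e_l (column k-1-l) + (-1) ^ (k-1) e_k (h_{m_i - i - 1})_i`. The first
sum does not change the determinant. Moving the column `(h_{m_i - i - 1})_i` from the last to the first
place costs the sign `(-1) ^ (k-1)` (a cyclic permutation, `finRotate`), and gives `jt e (m - 1)`.
(Monotonicity of `m` is not needed.) -/
theorem jt_shift {k : ℕ} (hk : 1 ≤ k) (e : ℕ → R) (hek1 : e k = 1) (hek : ∀ j, k < j → e j = 0)
    (m : Fin k → ℤ) (hm : ∀ i, 1 ≤ m i) : jt e m = jt e fun i => m i - 1 := by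
  obtain ⟨K, rfl⟩ : ∃ K, k = K + 1 := ⟨k - 1, by omega⟩
  set M : Matrix (Fin (K + 1)) (Fin (K + 1)) R :=
    Matrix.of fun i j : Fin (K + 1) => hhZ e (m i - (i : ℕ) + (j : ℕ)) with hM
  set N : Matrix (Fin (K + 1)) (Fin (K + 1)) R :=
    Matrix.of fun i j : Fin (K + 1) => hhZ e (m i - 1 - (i : ℕ) + (j : ℕ)) with hN
  have hjt1 : jt e m = M.det := rfl
  have hjt2 : (jt e fun i => m i - 1) = N.det := rfl
  rw [hjt1, hjt2]
  -- the matrix with the new last column
  set M' : Matrix (Fin (K + 1)) (Fin (K + 1)) R :=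
    M.updateCol (Fin.last K) (fun i => N i 0) with hM'
  have hrot : M' = N.submatrix id (finRotate (K + 1)) := by
    ext i j
    rw [Matrix.submatrix_apply, id]
    rcases Fin.eq_castSucc_or_eq_last j with ⟨j, rfl⟩ | rfl
    · rw [hM', Matrix.updateCol_ne (Fin.castSucc_lt_last j).ne, hM, hN, Matrix.of_apply,
        Matrix.of_apply, coe_finRotate_of_ne_last (Fin.castSucc_lt_last j).ne]
      congr 1
      push_cast
      rw [Fin.val_castSucc]
      ring
    · rw [hM', Matrix.updateCol_self, finRotate_last]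
  have hdet' : M'.det = (-1) ^ K * N.det := by
    rw [hrot, Matrix.det_permute', sign_finRotate]
    simp
  -- the coefficients
  set c : Fin (K + 1) → R := fun j => if j = Fin.last K then (-1) ^ K
    else (-1) ^ (K - (j : ℕ) - 1) * e (K - j) with hc
  have hcol : M = M'.updateCol (Fin.last K) (fun i => ∑ j, c j • M' i j) := by
    ext i j
    rcases Fin.eq_castSucc_or_eq_last j with ⟨j, rfl⟩ | rfl
    · rw [Matrix.updateCol_ne (Fin.castSucc_lt_last j).ne, hM',
        Matrix.updateCol_ne (Fin.castSucc_lt_last j).ne]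
    · rw [Matrix.updateCol_self, Fin.sum_univ_castSucc]
      have h1 : c (Fin.last K) = (-1) ^ K := by rw [hc]; simp
      have h2 : M' i (Fin.last K) = hhZ e (m i - (i : ℕ) - 1) := by
        rw [hM', Matrix.updateCol_self, hN, Matrix.of_apply]
        congr 1
        simp
        ring
      have h3 : ∀ j : Fin K, c j.castSucc • M' i j.castSucc
          = (-1) ^ (K - (j : ℕ) - 1) * e (K - j) * hhZ e (m i - (i : ℕ) + (j : ℕ)) := by
        intro j
        rw [hM', Matrix.updateCol_ne (Fin.castSucc_lt_last j).ne, hM, Matrix.of_apply, hc]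
        simp only [(Fin.castSucc_lt_last j).ne, if_false, Fin.val_castSucc, smul_eq_mul]
      rw [h1, h2, Finset.sum_congr rfl (fun j _ => h3 j)]
      have h4 : M i (Fin.last K) = hhZ e (m i - (i : ℕ) + (K : ℕ)) := by
        rw [hM, Matrix.of_apply, Fin.val_last]
      have hi : (i : ℕ) ≤ K := Nat.lt_succ_iff.1 i.2
      rw [h4, hhZ_rec e (K + 1) hek _ (by have := hm i; omega)]
      rw [show Icc 1 (K + 1) = insert (K + 1) (Icc 1 K) by
        ext l; simp only [mem_insert, mem_Icc]; omega]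
      rw [Finset.sum_insert (by simp), add_comm]
      congr 1
      · rw [Fin.sum_univ_eq_sum_range
          (fun j => (-1) ^ (K - j - 1) * e (K - j) * hhZ e (m i - (i : ℕ) + (j : ℕ))) K]
        refine Finset.sum_nbij' (fun l => K - l) (fun j => K - j) ?_ ?_ ?_ ?_ ?_
        · intro l hl
          rw [mem_Icc] at hl
          rw [mem_range]
          omega
        · intro j hj
          rw [mem_range] at hj
          rw [mem_Icc]
          omega
        · intro l hl
          rw [mem_Icc] at hl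
          show K - (K - l) = l
          omega
        · intro j hj
          rw [mem_range] at hj
          show K - (K - j) = j
          omega
        · intro l hl
          rw [mem_Icc] at hl
          have e1 : K - (K - l) = l := by omega
          have e2 : ((K - l : ℕ) : ℤ) = (K : ℤ) - l := by omega
          rw [e1, e2]
          congr 2
          ring
      · rw [hek1, Nat.add_sub_cancel, mul_one, smul_eq_mul]
        congr 2
        push_cast
        ring
  rw [hcol, Matrix.det_updateCol_sum, hdet']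
  have h1 : c (Fin.last K) = (-1) ^ K := by rw [hc]; simp
  rw [h1, smul_eq_mul, ← mul_assoc, ← mul_pow]
  simp

/-- The span of the products of `k - 1` complete symmetric functions of total degree `≤ d`. -/
noncomputable def PK (e : ℕ → R) (n d : ℕ) : AddSubgroup R :=
  AddSubgroup.closure {y | ∃ m : Fin n → ℕ, ∑ i, m i ≤ d ∧ y = ∏ i, hh e (m i)}

theorem Straight_mono (e : ℕ → R) (n : ℕ) {d d' : ℕ} (h : d ≤ d') : PK e n d ≤ PK e n d' := by
  apply AddSubgroup.closure_mono
  rintro y ⟨m, hm, rfl⟩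
  exact ⟨m, hm.trans h, rfl⟩

theorem Straight_sign_mem {A : AddSubgroup R} (u : ℤˣ) {x : R} (hx : x ∈ A) : u • x ∈ A := by
  rcases Int.units_eq_one_or u with rfl | rfl
  · rwa [one_smul]
  · rw [Units.neg_smul, one_smul]
    exact A.neg_mem hx

theorem Straight_pow_mem {A : AddSubgroup R} (j : ℕ) {x : R} (hx : x ∈ A) : (-1) ^ j * x ∈ A := by
  rcases neg_one_pow_eq_or R j with h | h
  · rwa [h, one_mul]
  · rw [h, neg_one_mul]
    exact A.neg_mem hx

theorem Straight_hhZ_mem {k : ℕ} (e : ℕ → R) {A : AddSubgroup R} (z : Fin k → ℤ)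
    (h : ∀ m : Fin k → ℕ, (∀ i, (m i : ℤ) = z i) → ∏ i, hh e (m i) ∈ A) :
    ∏ i, hhZ e (z i) ∈ A := by
  by_cases hz : ∃ i, z i < 0
  · obtain ⟨i, hi⟩ := hz
    rw [Finset.prod_eq_zero (mem_univ i)]
    · exact A.zero_mem
    · unfold hhZ
      rw [if_neg (by omega)]
  · push Not at hz
    have h1 : ∏ i, hhZ e (z i) = ∏ i, hh e ((z i).toNat) := by
      apply Finset.prod_congr rfl
      intro i _
      unfold hhZ
      rw [if_pos (hz i)]
    rw [h1]
    exact h _ (fun i => Int.toNat_of_nonneg (hz i))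

theorem Straight_perm {k : ℕ} (σ : Equiv.Perm (Fin k)) (h : Monotone σ) : σ = 1 := by
  have h1 : StrictMono σ := h.strictMono_of_injective σ.injective
  have h2 : (σ : Fin k → Fin k) = id := by
    apply (StrictMono.range_inj h1 strictMono_id).1
    rw [Set.range_id]
    exact σ.surjective.range_eq
  ext i
  rw [h2]
  rfl

theorem Straight_rearr {k : ℕ} (a : Fin k → ℕ) (ha : Antitone a) (σ : Equiv.Perm (Fin k))
    (hσ : σ ≠ 1) : ∑ i, (a i : ℤ) ^ 2 <
      ∑ i, ((a (σ i) : ℤ) - ((σ i : Fin k) : ℕ) + ((i : Fin k) : ℕ)) ^ 2 := by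
  set f : Fin k → ℤ := fun i => (a i : ℤ) - ((i : Fin k) : ℕ) with hf
  set g : Fin k → ℤ := fun i => ((i : Fin k) : ℕ) with hg
  have hfs : StrictAnti f := by
    intro i j hij
    have h1 : a j ≤ a i := ha hij.le
    have h2 : (i : ℕ) < j := hij
    simp only [hf]
    omega
  have hgm : StrictMono g := by
    intro i j hij
    have h2 : (i : ℕ) < j := hij
    simp only [hg]
    omega
  have hav : Antivary f g := by
    intro i j hij
    exact hfs.antitone (hgm.lt_iff_lt.1 hij).le
  have hlt : ∑ i, f i * g i < ∑ i, f (σ i) * g i := by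
    have h1 := (hav.sum_smul_lt_sum_comp_perm_smul_iff (σ := σ)).2 (by
      intro h2
      apply hσ
      apply Straight_perm
      intro i j hij
      rcases eq_or_lt_of_le hij with h3 | h3
      · rw [h3]
      · have h4 := h2 (hgm h3)
        exact hfs.le_iff_ge.1 h4)
    simpa only [smul_eq_mul] using h1
  have h1 : ∑ i, (a i : ℤ) ^ 2 = ∑ i, f i ^ 2 + ∑ i, g i ^ 2 + 2 * ∑ i, f i * g i := by
    rw [Finset.mul_sum, ← Finset.sum_add_distrib, ← Finset.sum_add_distrib]
    apply Finset.sum_congr rfl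
    intro i _
    simp only [hf, hg]
    ring
  have h2 : ∑ i, ((a (σ i) : ℤ) - ((σ i : Fin k) : ℕ) + ((i : Fin k) : ℕ)) ^ 2
      = ∑ i, f i ^ 2 + ∑ i, g i ^ 2 + 2 * ∑ i, f (σ i) * g i := by
    rw [← Equiv.sum_comp σ (fun i => f i ^ 2), Finset.mul_sum, ← Finset.sum_add_distrib,
      ← Finset.sum_add_distrib]
    apply Finset.sum_congr rfl
    intro i _
    simp only [hf, hg]
    ring
  rw [h1, h2]
  linarith

/-- Proof. Strong induction on `d = ∑ m_i`, and for given `d` on `d ^ 2 - ∑ m_i ^ 2 ≥ 0`. The product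
does not depend on the order, so let `m` be weakly decreasing (`Tuple.sort`, or compose with a
permutation). If some `m_i = 0` (then the last one), the product is a product of `k - 1` functions
(`hh e 0 = 1`). Otherwise all `m_i ≥ 1`. By the Leibniz formula (`Matrix.det_apply`) `jt e m` is the
sum over the permutations `σ` of `sign σ ∏_i h_{m_i - i + σ i}`. The term of `σ = 1` is our product. The
other terms are zero (if an index is negative) or products of `k` functions `hh e (m'_i)` with
`∑ m'_i = d` and `∑ m'_i ^ 2 > ∑ m_i ^ 2`: the difference is `2 ∑_i (m_i - i) (σ i - i) > 0`, by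
the strict rearrangement inequality as `m_i - i` is strictly decreasing and `i` increasing (or:
`∑ (m_i - i) σ i` is minimal exactly for `σ = 1`; `∑_i (m_i - i) (i - σ i) < 0`...). So they are in
`PK e (k-1) d` by the inner induction. By `jt_shift`, `jt e m = jt e (m - 1)`, and by the Leibniz formula
this is a sum of products of `k` functions with total degree `d - k < d`, which are in
`PK e (k-1) (d-k)` by the outer induction. -/
theorem straight {k : ℕ} (hk : 1 ≤ k) (e : ℕ → R) (hek1 : e k = 1)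
    (hek : ∀ j, k < j → e j = 0) (m : Fin k → ℕ) :
    ∏ i, hh e (m i) ∈ PK e (k - 1) (∑ i, m i) := by
  -- strong induction on the degree
  suffices H : ∀ d : ℕ, ∀ c : ℕ, ∀ m : Fin k → ℕ, ∑ i, m i = d → d ^ 2 - ∑ i, m i ^ 2 = c →
      ∏ i, hh e (m i) ∈ PK e (k - 1) d from H _ _ m rfl rfl
  intro d
  induction d using Nat.strong_induction_on with
  | _ d ihd =>
  intro c
  induction c using Nat.strong_induction_on with
  | _ c ihc =>
  intro m hmd hmc
  by_cases h0 : ∃ i, m i = 0
  · obtain ⟨p, hp⟩ := h0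
    obtain ⟨K, rfl⟩ : ∃ K, k = K + 1 := ⟨k - 1, by omega⟩
    rw [Fin.prod_univ_succAbove _ p, hp, hh_zero, one_mul]
    rw [Fin.sum_univ_succAbove _ p, hp, zero_add] at hmd
    exact AddSubgroup.subset_closure ⟨fun i => m (p.succAbove i), hmd.le, rfl⟩
  push Not at h0
  -- sort `m`
  set σ₀ : Equiv.Perm (Fin k) := Fin.revPerm.trans (Tuple.sort m) with hσ₀
  set a : Fin k → ℕ := fun i => m (σ₀ i) with ha
  have hanti : Antitone a := by
    intro i j hij
    exact Tuple.monotone_sort m (Fin.rev_le_rev.2 hij)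
  have hsum : ∑ i, a i = d := by
    rw [← hmd]
    exact Equiv.sum_comp σ₀ m
  have hsq : ∑ i, a i ^ 2 = ∑ i, m i ^ 2 := Equiv.sum_comp σ₀ (fun i => m i ^ 2)
  have hprod : ∏ i, hh e (m i) = ∏ i, hh e (a i) := (Equiv.prod_comp σ₀ (fun i => hh e (m i))).symm
  have ha1 : ∀ i, 1 ≤ a i := fun i => Nat.one_le_iff_ne_zero.2 (h0 _)
  rw [hprod]
  -- the Leibniz formula
  have hdet : jt e (fun i => (a i : ℤ)) = ∏ i, hh e (a i) +
      ∑ σ ∈ (univ : Finset (Equiv.Perm (Fin k))).erase 1, Equiv.Perm.sign σ •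
        ∏ i, hhZ e ((a (σ i) : ℤ) - ((σ i : Fin k) : ℕ) + ((i : Fin k) : ℕ)) := by
    unfold jt
    rw [Matrix.det_apply, ← Finset.add_sum_erase _ _ (mem_univ (1 : Equiv.Perm (Fin k)))]
    congr 1
    rw [Equiv.Perm.sign_one, one_smul]
    apply Finset.prod_congr rfl
    intro i _
    rw [Matrix.of_apply, Equiv.Perm.one_apply]
    have h1 : (a i : ℤ) - ((i : ℕ) : ℤ) + ((i : ℕ) : ℤ) = (a i : ℤ) := by ring
    show hhZ e ((a i : ℤ) - ((i : ℕ) : ℤ) + ((i : ℕ) : ℤ)) = _
    rw [h1]
    unfold hhZ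
    rw [if_pos (by omega)]
    congr 1
  have hkey : ∏ i, hh e (a i) = jt e (fun i => (a i : ℤ) - 1) -
      ∑ σ ∈ (univ : Finset (Equiv.Perm (Fin k))).erase 1, Equiv.Perm.sign σ •
        ∏ i, hhZ e ((a (σ i) : ℤ) - ((σ i : Fin k) : ℕ) + ((i : Fin k) : ℕ)) := by
    rw [← jt_shift hk e hek1 hek (fun i => (a i : ℤ)) (fun i => by exact_mod_cast ha1 i), hdet]
    ring
  rw [hkey]
  have hdk : k ≤ d := by
    rw [← hsum]
    calc k = ∑ _i : Fin k, 1 := by simp
      _ ≤ ∑ i, a i := Finset.sum_le_sum fun i _ => ha1 i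
  -- squares
  have hsqle : ∀ m' : Fin k → ℕ, ∑ i, m' i = d → ∑ i, m' i ^ 2 ≤ d ^ 2 := by
    intro m' hm'
    rw [← hm']
    exact Finset.sum_sq_le_sq_sum_of_nonneg (fun i _ => Nat.zero_le _)
  apply AddSubgroup.sub_mem
  · -- the smaller degree
    unfold jt
    rw [Matrix.det_apply]
    apply AddSubgroup.sum_mem
    intro σ _
    apply Straight_sign_mem
    have h1 : ∏ i, (Matrix.of fun i j : Fin k =>
        hhZ e ((a i : ℤ) - 1 - (i : ℕ) + (j : ℕ))) (σ i) i
        = ∏ i, hhZ e ((a (σ i) : ℤ) - 1 - ((σ i : Fin k) : ℕ) + ((i : Fin k) : ℕ)) := rfl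
    rw [h1]
    apply Straight_hhZ_mem
    intro m' hm'
    have hs : ∑ i, m' i + k = d := by
      have h2 : (((∑ i, m' i + k : ℕ)) : ℤ) = (d : ℤ) := by
        push_cast
        rw [Finset.sum_congr rfl (fun i _ => hm' i), Finset.sum_add_distrib,
          Finset.sum_sub_distrib, Finset.sum_sub_distrib,
          Equiv.sum_comp σ (fun i => (a i : ℤ)), Equiv.sum_comp σ (fun i => ((i : ℕ) : ℤ)), ← hsum]
        simp
      exact_mod_cast h2
    have h3 := ihd (∑ i, m' i) (by omega) _ m' rfl rfl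
    exact Straight_mono e (k - 1) (by omega) h3
  · -- the other permutations
    apply AddSubgroup.sum_mem
    intro σ hσ
    rw [Finset.mem_erase] at hσ
    apply Straight_sign_mem
    apply Straight_hhZ_mem
    intro m' hm'
    have hs : ∑ i, m' i = d := by
      have h2 : (((∑ i, m' i : ℕ)) : ℤ) = (d : ℤ) := by
        push_cast
        rw [Finset.sum_congr rfl (fun i _ => hm' i), Finset.sum_add_distrib,
          Finset.sum_sub_distrib,
          Equiv.sum_comp σ (fun i => (a i : ℤ)), Equiv.sum_comp σ (fun i => ((i : ℕ) : ℤ)), ← hsum]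
        simp
      exact_mod_cast h2
    have hlt : ∑ i, a i ^ 2 < ∑ i, m' i ^ 2 := by
      have h2 : ((∑ i, a i ^ 2 : ℕ) : ℤ) < ((∑ i, m' i ^ 2 : ℕ) : ℤ) := by
        push_cast
        rw [Finset.sum_congr rfl (fun i _ => by rw [hm' i] :
          ∀ i ∈ (univ : Finset (Fin k)), ((m' i : ℤ)) ^ 2 = _)]
        exact Straight_rearr a hanti σ hσ.1
      exact_mod_cast h2
    have h4 := hsqle m' hs
    exact ihc (d ^ 2 - ∑ i, m' i ^ 2) (by omega) m' hs rfl

theorem Straight_one (e : ℕ → R) (n d : ℕ) : (1 : R) ∈ PK e n d := by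
  refine AddSubgroup.subset_closure ⟨fun _ => 0, by simp, ?_⟩
  simp [hh_zero]

theorem Straight_hh (e : ℕ → R) (d : ℕ) : hh e d ∈ PK e 1 d :=
  AddSubgroup.subset_closure ⟨fun _ => d, by simp, by simp⟩

theorem Straight_mul (e : ℕ → R) {n n' d d' : ℕ} {x y : R} (hx : x ∈ PK e n d)
    (hy : y ∈ PK e n' d') : x * y ∈ PK e (n + n') (d + d') := by
  unfold PK at hx hy
  induction hx using AddSubgroup.closure_induction with
  | mem x hx =>
    induction hy using AddSubgroup.closure_induction with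
    | mem y hy =>
      obtain ⟨m, hm, rfl⟩ := hx
      obtain ⟨m', hm', rfl⟩ := hy
      refine AddSubgroup.subset_closure ⟨Fin.append m m', ?_, ?_⟩
      · rw [Fin.sum_univ_add]
        simp only [Fin.append_left, Fin.append_right]
        omega
      · rw [Fin.prod_univ_add]
        simp only [Fin.append_left, Fin.append_right]
    | zero => rw [mul_zero]; exact AddSubgroup.zero_mem _
    | add y y' _ _ h1 h2 => rw [mul_add]; exact AddSubgroup.add_mem _ h1 h2
    | neg y _ h1 => rw [mul_neg]; exact AddSubgroup.neg_mem _ h1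
  | zero => rw [zero_mul]; exact AddSubgroup.zero_mem _
  | add x x' _ _ h1 h2 => rw [add_mul]; exact AddSubgroup.add_mem _ h1 h2
  | neg x _ h1 => rw [neg_mul]; exact AddSubgroup.neg_mem _ h1

theorem Straight_pad (e : ℕ → R) (n r d : ℕ) : PK e n d ≤ PK e (n + r) d := by
  intro x hx
  have h1 := Straight_mul e hx (Straight_one e r 0)
  rwa [mul_one, add_zero] at h1

theorem Straight_red {k : ℕ} (hk : 1 ≤ k) (e : ℕ → R) (hek1 : e k = 1)
    (hek : ∀ j, k < j → e j = 0) (r d : ℕ) : PK e (k + r) d ≤ PK e (k - 1 + r) d := by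
  have h0 : {y : R | ∃ m : Fin (k + r) → ℕ, ∑ i, m i ≤ d ∧ y = ∏ i, hh e (m i)}
      ⊆ (PK e (k - 1 + r) d : Set R) := by
    rintro y ⟨m, hm, rfl⟩
    rw [Fin.prod_univ_add]
    rw [Fin.sum_univ_add] at hm
    have h1 := straight hk e hek1 hek (fun i => m (Fin.castAdd r i))
    have h2 : ∏ i, hh e (m (Fin.natAdd k i)) ∈ PK e r (∑ i, m (Fin.natAdd k i)) :=
      AddSubgroup.subset_closure ⟨fun i => m (Fin.natAdd k i), le_rfl, rfl⟩
    exact Straight_mono e _ hm (Straight_mul e h1 h2)
  exact (AddSubgroup.closure_le _).2 h0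

theorem Straight_all {k : ℕ} (hk : 1 ≤ k) (e : ℕ → R) (hek1 : e k = 1)
    (hek : ∀ j, k < j → e j = 0) (n d : ℕ) : PK e n d ≤ PK e (k - 1) d := by
  rcases le_total n (k - 1) with h | h
  · obtain ⟨r, hr⟩ := Nat.exists_eq_add_of_le h
    rw [hr]
    exact Straight_pad e n r d
  · obtain ⟨r, rfl⟩ := Nat.exists_eq_add_of_le h
    induction r with
    | zero => exact le_rfl
    | succ r ih =>
      refine le_trans ?_ (ih (by omega))
      have h1 : k - 1 + (r + 1) = k + r := by omega
      rw [h1]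
      exact Straight_red hk e hek1 hek r d

theorem Straight_e {k : ℕ} (hk : 1 ≤ k) (e : ℕ → R) (he0 : e 0 = 1) (hek1 : e k = 1)
    (hek : ∀ j, k < j → e j = 0) (j : ℕ) : e j ∈ PK e (k - 1) j := by
  induction j using Nat.strong_induction_on with
  | _ j ih =>
  rcases j with _ | n
  · rw [he0]
    exact Straight_one e _ _
  · have h1 := hh_succ e n
    rw [Finset.sum_range_succ, Nat.sub_self, hh_zero, mul_one] at h1
    have h2 : (-1) ^ n * e (n + 1) = hh e (n + 1) -
        ∑ x ∈ range n, (-1) ^ x * e (x + 1) * hh e (n - x) := by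
      rw [h1]
      ring
    have h3 : (-1) ^ n * e (n + 1) ∈ PK e (k - 1) (n + 1) := by
      rw [h2]
      apply AddSubgroup.sub_mem
      · exact Straight_all hk e hek1 hek _ _ (Straight_hh e (n + 1))
      · apply AddSubgroup.sum_mem
        intro x hx
        rw [mem_range] at hx
        rw [mul_assoc]
        apply Straight_pow_mem
        have h4 := Straight_mul e (ih (x + 1) (by omega)) (Straight_hh e (n - x))
        have h5 : x + 1 + (n - x) = n + 1 := by omega
        rw [h5] at h4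
        exact Straight_all hk e hek1 hek _ _ h4
    have h4 : e (n + 1) = (-1) ^ n * ((-1) ^ n * e (n + 1)) := by
      rw [← mul_assoc, ← mul_pow]
      simp
    rw [h4]
    exact Straight_pow_mem n h3

/-- All `e_j` are combinations of products of complete symmetric functions; the product of any number
of complete symmetric functions is in `PK e (k-1) d` by `straight` (multiply the first `k` of them);
so every product of `e_j`'s of total degree `≤ d` is in `PK e (k-1) d`.
(`e_{n+1} = ∑_{j ≤ n} (-1) ^ j h_{j+1} e_{n-j}`, from `hh_succ`, needs `e_0 = 1`.) -/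
theorem prod_e_mem {k : ℕ} (hk : 1 ≤ k) (e : ℕ → R) (he0 : e 0 = 1) (hek1 : e k = 1)
    (hek : ∀ j, k < j → e j = 0) (l : List ℕ) : (l.map e).prod ∈ PK e (k - 1) l.sum := by
  induction l with
  | nil =>
    have h1 := Straight_one e 0 0
    exact Straight_all hk e hek1 hek 0 0 h1
  | cons a l ih =>
    rw [List.map_cons, List.prod_cons, List.sum_cons]
    exact Straight_all hk e hek1 hek _ _
      (Straight_mul e (Straight_e hk e he0 hek1 hek a) ih)

end Pool.Agent.EEA520
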